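import Mathlib

/-!
# Topological entropy in the sense of Adler, Konheim and McAndrew

Definitions, a lower bound from a two-branch horseshoe, and an upper bound from codes with
polynomially many values.
-/

namespace Q69.AKM

open Set Filter Topology

variable {X : Type*}

/-- The `n`-fold refinement `U ∨ F⁻¹U ∨ ⋯ ∨ F⁻⁽ⁿ⁻¹⁾U` of a cover `U`: its members are the sets
`⋂_{i < n} F⁻ⁱ(s i)` with every `s i` in `U`. -/
def refine (F : X → X) (U : Set (Set X)) (n : ℕ) : Set (Set X) :=
  {V | ∃ s : Fin n → Set X, (∀ i, s i ∈ U) ∧ V = ⋂ i : Fin n, F^[(i : ℕ)] ⁻¹' s i}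

/-- The least cardinality of a finite subfamily of `U` which covers the space. -/
noncomputable def covNum (U : Set (Set X)) : ℕ :=
  sInf {k | ∃ t : Finset (Set X), (t : Set (Set X)) ⊆ U ∧ ⋃₀ (t : Set (Set X)) = univ ∧ t.card = k}

/-- The entropy of `F` with respect to the cover `U`: the limit of `(1/n) log N(Uⁿ)`, where `Uⁿ` is
the `n`-fold refinement (the limit exists by subadditivity; we write it as an upper limit). -/
noncomputable def coverEnt (F : X → X) (U : Set (Set X)) : EReal :=
  limsup (fun n : ℕ => (((Real.log (covNum (refine F U n))) / n : ℝ) : EReal)) atTop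

/-- The topological entropy of `F` (Adler–Konheim–McAndrew): the supremum over all open covers. -/
noncomputable def topEnt [TopologicalSpace X] (F : X → X) : EReal :=
  ⨆ U : {U : Set (Set X) // (∀ u ∈ U, IsOpen u) ∧ ⋃₀ U = univ}, coverEnt F U.1

/-- Compactness gives a finite subcover of the refinement. -/
theorem exists_fin [TopologicalSpace X] [CompactSpace X] {F : X → X} (hF : Continuous F)
    {U : Set (Set X)} (hU : ∀ u ∈ U, IsOpen u) (hc : ⋃₀ U = univ) (n : ℕ) :
    ∃ t : Finset (Set X), (t : Set (Set X)) ⊆ refine F U n ∧ ⋃₀ (t : Set (Set X)) = univ ∧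
      t.card = covNum (refine F U n) := by
  classical
  have hne : {k | ∃ t : Finset (Set X), (t : Set (Set X)) ⊆ refine F U n ∧
      ⋃₀ (t : Set (Set X)) = univ ∧ t.card = k}.Nonempty := by
    have hopen : ∀ V ∈ refine F U n, IsOpen V := by
      rintro V ⟨s, hs, rfl⟩
      exact isOpen_iInter_of_finite fun i => (hU _ (hs i)).preimage (hF.iterate _)
    have hcov : (univ : Set X) ⊆ ⋃ V : refine F U n, V.1 := by
      intro x _
      have : ∀ i : Fin n, ∃ s ∈ U, F^[(i : ℕ)] x ∈ s := by
        intro i
        have : F^[(i : ℕ)] x ∈ ⋃₀ U := by rw [hc]; trivial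
        exact this
      choose s hs hx using this
      exact mem_iUnion.2 ⟨⟨_, ⟨s, hs, rfl⟩⟩, mem_iInter.2 hx⟩
    obtain ⟨t, ht⟩ := isCompact_univ.elim_finite_subcover (fun V : refine F U n => V.1)
      (fun V => hopen _ V.2) hcov
    refine ⟨(t.image Subtype.val).card, t.image Subtype.val, ?_, ?_, rfl⟩
    · intro V hV
      simp only [Finset.coe_image, mem_image, Finset.mem_coe] at hV
      obtain ⟨W, _, rfl⟩ := hV
      exact W.2
    · refine eq_univ_of_univ_subset fun x hx => ?_
      have := ht hx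
      simp only [mem_iUnion] at this
      obtain ⟨W, hW, hxW⟩ := this
      exact ⟨W.1, Finset.mem_coe.2 (Finset.mem_image.2 ⟨W, hW, rfl⟩), hxW⟩
  exact Nat.sInf_mem hne

/-- Points following any prescribed itinerary through the two branches. -/
theorem exists_itin [Nonempty X] {F : X → X} {J : Bool → Set X}
    (hfull : ∀ b, ∀ y, ∃ x ∈ J b, F x = y) (n : ℕ) :
    ∀ w : ℕ → Bool, ∃ x, ∀ i < n, F^[i] x ∈ J (w i) := by
  induction n with
  | zero => intro w; exact ⟨Classical.arbitrary X, fun i hi => absurd hi (by omega)⟩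
  | succ n ih =>
    intro w
    obtain ⟨x', hx'⟩ := ih (fun i => w (i + 1))
    obtain ⟨x, hx, hFx⟩ := hfull (w 0) x'
    refine ⟨x, fun i hi => ?_⟩
    cases i with
    | zero => simpa using hx
    | succ i => rw [Function.iterate_succ_apply, hFx]; exact hx' i (by omega)

theorem pow_le_covNum [TopologicalSpace X] [CompactSpace X] [Nonempty X] {F : X → X}
    (hF : Continuous F) {J : Bool → Set X} (hJ : ∀ b, IsClosed (J b))
    (hd : Disjoint (J false) (J true)) (hfull : ∀ b, ∀ y, ∃ x ∈ J b, F x = y) (n : ℕ) :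
    2 ^ n ≤ covNum (refine F {(J false)ᶜ, (J true)ᶜ} n) := by
  classical
  have hU : ∀ u ∈ ({(J false)ᶜ, (J true)ᶜ} : Set (Set X)), IsOpen u := by
    rintro u (rfl | rfl)
    exacts [(hJ _).isOpen_compl, (hJ _).isOpen_compl]
  have hc : ⋃₀ ({(J false)ᶜ, (J true)ᶜ} : Set (Set X)) = univ := by
    rw [sUnion_pair, ← compl_inter, hd.inter_eq, compl_empty]
  obtain ⟨t, ht, htc, hcard⟩ := exists_fin hF hU hc n
  have hx : ∀ w : Fin n → Bool, ∃ x, ∀ i : Fin n, F^[(i : ℕ)] x ∈ J (w i) := by
    intro w
    obtain ⟨x, hx⟩ := exists_itin hfull n (fun i => if h : i < n then w ⟨i, h⟩ else false)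
    refine ⟨x, fun i => ?_⟩
    have := hx i i.2
    simpa using this
  choose x hx using hx
  have hV : ∀ w, ∃ V ∈ t, x w ∈ V := by
    intro w
    have : x w ∈ ⋃₀ (t : Set (Set X)) := by rw [htc]; trivial
    obtain ⟨V, hV, h⟩ := this
    exact ⟨V, hV, h⟩
  choose V hVt hxV using hV
  have hinj : Function.Injective V := by
    intro w w' h
    obtain ⟨s, hs, hVs⟩ := ht (hVt w)
    funext i
    have h1 : F^[(i : ℕ)] (x w) ∈ s i := by
      have := hxV w; rw [hVs] at this; exact mem_iInter.1 this i
    have h2 : F^[(i : ℕ)] (x w') ∈ s i := by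
      have := hxV w'; rw [← h, hVs] at this; exact mem_iInter.1 this i
    have h3 := hx w i
    have h4 := hx w' i
    have key : ∀ b c : Bool, ∀ y z, y ∈ J b → z ∈ J c → y ∈ s i → z ∈ s i → b = c := by
      intro b c y z hy hz hys hzs
      rcases hs i with h | h
      · rw [h] at hys hzs
        have hb : b = true := by
          by_contra hne
          have : b = false := by simpa using hne
          subst this; exact hys hy
        have hc : c = true := by
          by_contra hne
          have : c = false := by simpa using hne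
          subst this; exact hzs hz
        rw [hb, hc]
      · have h' : s i = (J true)ᶜ := h
        rw [h'] at hys hzs
        have hb : b = false := by
          by_contra hne
          have : b = true := by simpa using hne
          subst this; exact hys hy
        have hc : c = false := by
          by_contra hne
          have : c = true := by simpa using hne
          subst this; exact hzs hz
        rw [hb, hc]
    exact key _ _ _ _ h3 h4 h1 h2
  calc 2 ^ n = (Finset.univ : Finset (Fin n → Bool)).card := by simp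
    _ ≤ t.card := Finset.card_le_card_of_injOn V (fun w _ => hVt w) (hinj.injOn)
    _ = _ := hcard

/-- A horseshoe with two full branches forces entropy at least `log 2`. -/
theorem log_two_le_topEnt [TopologicalSpace X] [CompactSpace X] [Nonempty X] {F : X → X}
    (hF : Continuous F) {J : Bool → Set X} (hJ : ∀ b, IsClosed (J b))
    (hd : Disjoint (J false) (J true)) (hfull : ∀ b, ∀ y, ∃ x ∈ J b, F x = y) :
    ((Real.log 2 : ℝ) : EReal) ≤ topEnt F := by
  have hU : ∀ u ∈ ({(J false)ᶜ, (J true)ᶜ} : Set (Set X)), IsOpen u := by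
    rintro u (rfl | rfl)
    exacts [(hJ _).isOpen_compl, (hJ _).isOpen_compl]
  have hc : ⋃₀ ({(J false)ᶜ, (J true)ᶜ} : Set (Set X)) = univ := by
    rw [sUnion_pair, ← compl_inter, hd.inter_eq, compl_empty]
  refine le_trans ?_ (le_iSup (fun U : {U : Set (Set X) // (∀ u ∈ U, IsOpen u) ∧ ⋃₀ U = univ} =>
    coverEnt F U.1) ⟨_, hU, hc⟩)
  refine le_trans (le_liminf_of_le (by isBoundedDefault) ?_) (liminf_le_limsup)
  filter_upwards [eventually_gt_atTop 0] with n hn
  rw [EReal.coe_le_coe_iff]
  have h := pow_le_covNum hF hJ hd hfull n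
  have hn' : (0 : ℝ) < n := by exact_mod_cast hn
  rw [le_div_iff₀ hn']
  have h2 : (2 : ℝ) ^ n ≤ covNum (refine F {(J false)ᶜ, (J true)ᶜ} n) := by exact_mod_cast h
  calc Real.log 2 * n = Real.log (2 ^ n) := by rw [Real.log_pow]; ring
    _ ≤ _ := Real.log_le_log (by positivity) h2

/-- Entropy is nonnegative. -/
theorem topEnt_nonneg [TopologicalSpace X] (F : X → X) : 0 ≤ topEnt F := by
  refine le_trans ?_ (le_iSup (fun U : {U : Set (Set X) // (∀ u ∈ U, IsOpen u) ∧ ⋃₀ U = univ} =>
    coverEnt F U.1) ⟨{univ}, by simp, by simp⟩)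
  refine le_trans (le_liminf_of_le (by isBoundedDefault) ?_) (liminf_le_limsup)
  refine Eventually.of_forall fun n => ?_
  have : (0 : ℝ) ≤ Real.log (covNum (refine F {univ} n)) / n :=
    div_nonneg (Real.log_natCast_nonneg _) (Nat.cast_nonneg _)
  exact_mod_cast this

/-- If the fibres of a code lie in members of the family, the covering number is at most the number
of code values. -/
theorem covNum_le_of_code {U : Set (Set X)} {K : Type*} (T : Finset K) (code : X → K)
    (hT : ∀ x, code x ∈ T) (h : ∀ x, ∃ V ∈ U, ∀ y, code y = code x → y ∈ V) :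
    covNum U ≤ T.card := by
  classical
  choose V hV hVy using h
  let g : K → Set X := fun k => if hk : ∃ x, code x = k then V hk.choose else ∅
  let T' := T.filter (fun k => ∃ x, code x = k)
  have hle : covNum U ≤ (T'.image g).card := by
    apply Nat.sInf_le
    refine ⟨T'.image g, ?_, ?_, rfl⟩
    · intro W hW
      simp only [Finset.coe_image, mem_image, Finset.mem_coe, T', Finset.mem_filter] at hW
      obtain ⟨k, ⟨_, hk⟩, rfl⟩ := hW
      simp only [g, hk, dite_true]
      exact hV _
    · refine eq_univ_of_univ_subset fun x _ => ?_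
      have hk : ∃ y, code y = code x := ⟨x, rfl⟩
      refine ⟨g (code x), ?_, ?_⟩
      · simp only [Finset.coe_image, mem_image, Finset.mem_coe, T', Finset.mem_filter]
        exact ⟨code x, ⟨hT x, hk⟩, rfl⟩
      · simp only [g, hk, dite_true]
        exact hVy _ _ hk.choose_spec.symm
  exact hle.trans (Finset.card_image_le.trans (Finset.card_filter_le _ _))

theorem tendsto_log_poly (C d : ℕ) :
    Tendsto (fun n : ℕ => Real.log ((C : ℝ) * (n + 1) ^ d) / n) atTop (𝓝 0) := by
  rcases Nat.eq_zero_or_pos C with rfl | hC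
  · simp
  have h1 : Tendsto (fun n : ℕ => Real.log ((n : ℝ) + 1) / ((n : ℝ) + 1)) atTop (𝓝 0) := by
    have h := Real.isLittleO_log_id_atTop.tendsto_div_nhds_zero
    have h2 : Tendsto (fun n : ℕ => (n : ℝ) + 1) atTop atTop :=
      tendsto_atTop_add_const_right _ _ tendsto_natCast_atTop_atTop
    exact h.comp h2
  have h3 : Tendsto (fun n : ℕ => (1 : ℝ) / n) atTop (𝓝 0) := tendsto_one_div_atTop_nhds_zero_nat
  have h4 : Tendsto (fun n : ℕ => Real.log C * (1 / (n : ℝ)) +
      d * ((Real.log ((n : ℝ) + 1) / ((n : ℝ) + 1)) * (1 + 1 / n))) atTop (𝓝 0) := by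
    have := (h3.const_mul (Real.log C)).add ((h1.mul (h3.const_add 1)).const_mul (d : ℝ))
    simpa using this
  refine h4.congr' ?_
  filter_upwards [eventually_gt_atTop 0] with n hn
  have hn' : (0 : ℝ) < n := by exact_mod_cast hn
  have hC' : (C : ℝ) ≠ 0 := by exact_mod_cast hC.ne'
  rw [Real.log_mul hC' (by positivity), Real.log_pow]
  field_simp

/-- Polynomial growth of covering numbers gives zero entropy. -/
theorem topEnt_eq_zero [TopologicalSpace X] (F : X → X)
    (h : ∀ U : Set (Set X), (∀ u ∈ U, IsOpen u) → ⋃₀ U = univ →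
      ∃ C d : ℕ, ∀ n : ℕ, covNum (refine F U n) ≤ C * (n + 1) ^ d) : topEnt F = 0 := by
  refine le_antisymm (iSup_le ?_) (topEnt_nonneg F)
  rintro ⟨U, hU, hc⟩
  obtain ⟨C, d, hCd⟩ := h U hU hc
  have h0 : Tendsto (fun n : ℕ => ((Real.log (((C + 1 : ℕ) : ℝ) * (n + 1) ^ d) / n : ℝ) : EReal))
      atTop (𝓝 ((0 : ℝ) : EReal)) :=
    (continuous_coe_real_ereal.tendsto 0).comp (tendsto_log_poly (C + 1) d)
  have h1 : coverEnt F U ≤ limsup (fun n : ℕ =>
      ((Real.log (((C + 1 : ℕ) : ℝ) * (n + 1) ^ d) / n : ℝ) : EReal)) atTop := by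
    refine limsup_le_limsup (Eventually.of_forall fun n => ?_) (by isBoundedDefault)
      (by isBoundedDefault)
    rw [EReal.coe_le_coe_iff]
    apply div_le_div_of_nonneg_right _ (Nat.cast_nonneg n)
    rcases Nat.eq_zero_or_pos (covNum (refine F U n)) with h0 | h0
    · rw [h0]; simp only [Nat.cast_zero, Real.log_zero]
      apply Real.log_nonneg
      have h1 : (1 : ℝ) ≤ ((C + 1 : ℕ) : ℝ) := by push_cast; linarith [Nat.cast_nonneg (α := ℝ) C]
      have h2 : (1 : ℝ) ≤ ((n : ℝ) + 1) ^ d := one_le_pow₀ (by linarith [Nat.cast_nonneg (α := ℝ) n])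
      nlinarith
    · apply Real.log_le_log (by exact_mod_cast h0)
      have : covNum (refine F U n) ≤ (C + 1) * (n + 1) ^ d :=
        (hCd n).trans (Nat.mul_le_mul_right _ (by omega))
      exact_mod_cast this
  rw [h0.limsup_eq] at h1
  simpa using h1

end Q69.AKM
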