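import Pool.Agent.Q69.AKM

/-!
# Zero entropy for piecewise monotone interval maps with monotone itineraries
-/

namespace Q69.AKM

open Set Filter Topology

theorem thr_iff {u : ℕ → Fin 4} (hu : Monotone u) {n i : ℕ} (hi : i < n) (j : Fin 4) :
    u i < j ↔ i < ((Finset.range n).filter (fun k => u k < j)).card := by
  constructor
  · intro h
    have hsub : Finset.range (i + 1) ⊆ (Finset.range n).filter (fun k => u k < j) := by
      intro k hk
      rw [Finset.mem_range] at hk
      rw [Finset.mem_filter, Finset.mem_range]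
      exact ⟨by omega, lt_of_le_of_lt (hu (by omega)) h⟩
    have := Finset.card_le_card hsub
    rw [Finset.card_range] at this
    omega
  · intro h
    by_contra hc
    have hsub : (Finset.range n).filter (fun k => u k < j) ⊆ Finset.range i := by
      intro k hk
      rw [Finset.mem_filter, Finset.mem_range] at hk
      rw [Finset.mem_range]
      by_contra hki
      exact hc (lt_of_le_of_lt (hu (not_lt.1 hki)) hk.2)
    have := Finset.card_le_card hsub
    rw [Finset.card_range] at this
    omega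

/-- Monotone words with the same counting vector agree. -/
theorem word_eq {u v : ℕ → Fin 4} (hu : Monotone u) (hv : Monotone v) {n : ℕ}
    (h : ∀ j : Fin 4, ((Finset.range n).filter (fun k => u k < j)).card =
      ((Finset.range n).filter (fun k => v k < j)).card) {i : ℕ} (hi : i < n) : u i = v i := by
  rcases lt_trichotomy (u i) (v i) with hlt | heq | hlt
  · have := (thr_iff hu hi (v i)).1 hlt
    rw [h] at this
    exact absurd ((thr_iff hv hi (v i)).2 this) (lt_irrefl _)
  · exact heq
  · have := (thr_iff hv hi (u i)).1 hlt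
    rw [← h] at this
    exact absurd ((thr_iff hu hi (u i)).2 this) (lt_irrefl _)

/-- The orientation of the `i`-th iterate on the branch through `x`. -/
def ori (F : unitInterval → unitInterval) (lab : unitInterval → Fin 4) (sg : Fin 4 → ℤ)
    (x : unitInterval) (i : ℕ) : ℤ :=
  ∏ l ∈ Finset.range i, sg (lab (F^[l] x))

/-- The quantized position. -/
noncomputable def quant (m : ℕ) (x : unitInterval) : ℕ := ⌊(m : ℝ) * (x : ℝ)⌋₊

theorem quant_mono (m : ℕ) {x y : unitInterval} (h : x ≤ y) : quant m x ≤ quant m y :=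
  Nat.floor_le_floor (mul_le_mul_of_nonneg_left h (Nat.cast_nonneg _))

theorem quant_le (m : ℕ) (x : unitInterval) : quant m x ≤ m := by
  have : (m : ℝ) * (x : ℝ) ≤ m := by
    have := x.2.2
    nlinarith [Nat.cast_nonneg (α := ℝ) m]
  calc quant m x ≤ ⌊(m : ℝ)⌋₊ := Nat.floor_le_floor this
    _ = m := Nat.floor_natCast m

theorem dist_of_quant {m : ℕ} (hm : 0 < m) {x y : unitInterval} (h : quant m x = quant m y) :
    dist x y < 1 / m := by
  have hm' : (0 : ℝ) < m := by exact_mod_cast hm
  have h1 := Nat.floor_le (mul_nonneg hm'.le x.2.1)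
  have h2 := Nat.lt_floor_add_one ((m : ℝ) * (x : ℝ))
  have h3 := Nat.floor_le (mul_nonneg hm'.le y.2.1)
  have h4 := Nat.lt_floor_add_one ((m : ℝ) * (y : ℝ))
  unfold quant at h
  rw [h] at h1 h2
  rw [Subtype.dist_eq, Real.dist_eq, abs_lt, lt_div_iff₀ hm', ← neg_div, div_lt_iff₀ hm']
  constructor <;> nlinarith

variable {F : unitInterval → unitInterval} {lab : unitInterval → Fin 4} {sg : Fin 4 → ℤ}

theorem ori_succ (x : unitInterval) (i : ℕ) :
    ori F lab sg x (i + 1) = ori F lab sg x i * sg (lab (F^[i] x)) := by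
  unfold ori; rw [Finset.prod_range_succ]

theorem ori_pm (hsg : ∀ j, sg j = 1 ∨ sg j = -1) (x : unitInterval) (i : ℕ) :
    ori F lab sg x i = 1 ∨ ori F lab sg x i = -1 := by
  induction i with
  | zero => left; simp [ori]
  | succ i ih =>
    rw [ori_succ]
    rcases ih with h | h <;> rcases hsg (lab (F^[i] x)) with h' | h' <;> simp [h, h']

theorem ori_congr {x y : unitInterval} {n : ℕ}
    (h : ∀ i < n, lab (F^[i] x) = lab (F^[i] y)) {i : ℕ} (hi : i ≤ n) :
    ori F lab sg x i = ori F lab sg y i := by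
  unfold ori
  refine Finset.prod_congr rfl fun l hl => ?_
  rw [h l (by rw [Finset.mem_range] at hl; omega)]

theorem iter_mono (hsg : ∀ j, sg j = 1 ∨ sg j = -1)
    (hup : ∀ x y, lab x = lab y → x ≤ y → sg (lab x) = 1 → F x ≤ F y)
    (hdn : ∀ x y, lab x = lab y → x ≤ y → sg (lab x) = -1 → F y ≤ F x)
    {x y : unitInterval} (hxy : x ≤ y) {n : ℕ}
    (h : ∀ i < n, lab (F^[i] x) = lab (F^[i] y)) {i : ℕ} (hi : i ≤ n) :
    (ori F lab sg x i = 1 → F^[i] x ≤ F^[i] y) ∧ (ori F lab sg x i = -1 → F^[i] y ≤ F^[i] x) := by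
  induction i with
  | zero => exact ⟨fun _ => by simpa using hxy, fun h => by simp [ori] at h⟩
  | succ i ih =>
    have ih' := ih (by omega)
    have hl := h i (by omega)
    rw [ori_succ, Function.iterate_succ_apply', Function.iterate_succ_apply']
    rcases ori_pm (F := F) (lab := lab) hsg x i with h1 | h1 <;>
      rcases hsg (lab (F^[i] x)) with h2 | h2
    · refine ⟨fun _ => hup _ _ hl (ih'.1 h1) h2, fun h3 => ?_⟩
      rw [h1, h2] at h3; norm_num at h3
    · refine ⟨fun h3 => ?_, fun _ => hdn _ _ hl (ih'.1 h1) h2⟩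
      rw [h1, h2] at h3; norm_num at h3
    · refine ⟨fun h3 => ?_, fun _ => hup _ _ hl.symm (ih'.2 h1) (hl ▸ h2)⟩
      rw [h1, h2] at h3; norm_num at h3
    · refine ⟨fun _ => hdn _ _ hl.symm (ih'.2 h1) (hl ▸ h2), fun h3 => ?_⟩
      rw [h1, h2] at h3; norm_num at h3

/-- The signed sum of quantized positions. -/
noncomputable def ssum (F : unitInterval → unitInterval) (lab : unitInterval → Fin 4)
    (sg : Fin 4 → ℤ) (m n : ℕ) (x : unitInterval) : ℤ :=
  ∑ i ∈ Finset.range n, ori F lab sg x i * (quant m (F^[i] x) : ℤ)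

/-- The code of a point: threshold counts of its itinerary, and the signed sum. -/
noncomputable def code (F : unitInterval → unitInterval) (lab : unitInterval → Fin 4)
    (sg : Fin 4 → ℤ) (m n : ℕ) (x : unitInterval) : (Fin 4 → ℕ) × ℤ :=
  (fun j => ((Finset.range n).filter (fun k => lab (F^[k] x) < j)).card, ssum F lab sg m n x)

theorem lab_mono (hlab : ∀ x, lab x ≤ lab (F x)) (x : unitInterval) :
    Monotone (fun i => lab (F^[i] x)) :=
  monotone_nat_of_le_succ fun i => by
    rw [Function.iterate_succ_apply']; exact hlab _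

theorem quant_eq_of_code_aux (hlab : ∀ x, lab x ≤ lab (F x)) (hsg : ∀ j, sg j = 1 ∨ sg j = -1)
    (hup : ∀ x y, lab x = lab y → x ≤ y → sg (lab x) = 1 → F x ≤ F y)
    (hdn : ∀ x y, lab x = lab y → x ≤ y → sg (lab x) = -1 → F y ≤ F x)
    {m n : ℕ} {x y : unitInterval} (hxy : x ≤ y)
    (hc : code F lab sg m n x = code F lab sg m n y) {i : ℕ} (hi : i < n) :
    quant m (F^[i] x) = quant m (F^[i] y) := by
  have h1 : ∀ i < n, lab (F^[i] x) = lab (F^[i] y) := by
    intro i hi
    refine word_eq (lab_mono hlab x) (lab_mono hlab y) (fun j => ?_) hi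
    exact congrFun (congrArg Prod.fst hc) j
  have h2 : ssum F lab sg m n x = ssum F lab sg m n y := congrArg Prod.snd hc
  have hle : ∀ i ∈ Finset.range n, ori F lab sg x i * (quant m (F^[i] x) : ℤ) ≤
      ori F lab sg y i * (quant m (F^[i] y) : ℤ) := by
    intro i hi
    rw [Finset.mem_range] at hi
    rw [← ori_congr h1 hi.le]
    have h3 := iter_mono hsg hup hdn hxy h1 hi.le
    rcases ori_pm (F := F) (lab := lab) hsg x i with h | h
    · have := quant_mono m (h3.1 h)
      rw [h]; push_cast; linarith [(Int.ofNat_le).2 this]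
    · have := quant_mono m (h3.2 h)
      rw [h]; push_cast; linarith [(Int.ofNat_le).2 this]
  have h4 := (Finset.sum_eq_sum_iff_of_le hle).1 h2 i (Finset.mem_range.2 hi)
  rw [← ori_congr h1 hi.le] at h4
  rcases ori_pm (F := F) (lab := lab) hsg x i with h | h
  · rw [h] at h4; push_cast at h4; omega
  · rw [h] at h4; push_cast at h4; omega

theorem quant_eq_of_code (hlab : ∀ x, lab x ≤ lab (F x)) (hsg : ∀ j, sg j = 1 ∨ sg j = -1)
    (hup : ∀ x y, lab x = lab y → x ≤ y → sg (lab x) = 1 → F x ≤ F y)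
    (hdn : ∀ x y, lab x = lab y → x ≤ y → sg (lab x) = -1 → F y ≤ F x)
    {m n : ℕ} {x y : unitInterval}
    (hc : code F lab sg m n x = code F lab sg m n y) {i : ℕ} (hi : i < n) :
    quant m (F^[i] x) = quant m (F^[i] y) := by
  rcases le_total x y with h | h
  · exact quant_eq_of_code_aux hlab hsg hup hdn h hc hi
  · exact (quant_eq_of_code_aux hlab hsg hup hdn h hc.symm hi).symm

theorem ssum_mem (hsg : ∀ j, sg j = 1 ∨ sg j = -1) (m n : ℕ) (x : unitInterval) :
    ssum F lab sg m n x ∈ Finset.Icc (-((n * m : ℕ) : ℤ)) ((n * m : ℕ) : ℤ) := by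
  rw [Finset.mem_Icc, ← abs_le]
  calc |ssum F lab sg m n x| ≤ ∑ i ∈ Finset.range n, |ori F lab sg x i * (quant m (F^[i] x) : ℤ)| :=
        Finset.abs_sum_le_sum_abs _ _
    _ ≤ ∑ i ∈ Finset.range n, (m : ℤ) := by
        refine Finset.sum_le_sum fun i _ => ?_
        have hq : ((quant m (F^[i] x) : ℕ) : ℤ) ≤ m := by exact_mod_cast quant_le m _
        have hq0 : (0 : ℤ) ≤ (quant m (F^[i] x) : ℤ) := by positivity
        rw [abs_mul, abs_of_nonneg hq0]
        rcases ori_pm (F := F) (lab := lab) hsg x i with h | h <;> rw [h] <;> simpa using hq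
    _ = ((n * m : ℕ) : ℤ) := by simp

/-- Zero entropy: labels nondecreasing along orbits, and the map is monotone or antitone on each
label class. -/
theorem topEnt_eq_zero_of_labels (hlab : ∀ x, lab x ≤ lab (F x))
    (hsg : ∀ j, sg j = 1 ∨ sg j = -1)
    (hup : ∀ x y, lab x = lab y → x ≤ y → sg (lab x) = 1 → F x ≤ F y)
    (hdn : ∀ x y, lab x = lab y → x ≤ y → sg (lab x) = -1 → F y ≤ F x) :
    topEnt F = 0 := by
  classical
  apply topEnt_eq_zero
  intro U hU hc
  obtain ⟨δ, hδ, hL⟩ := lebesgue_number_lemma_of_metric_sUnion (isCompact_univ) hU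
    (by rw [hc] : (univ : Set unitInterval) ⊆ ⋃₀ U)
  obtain ⟨m, hm⟩ := exists_nat_one_div_lt hδ
  refine ⟨2 * (m + 1) + 1, 5, fun n => ?_⟩
  have hcode := covNum_le_of_code (U := refine F U n)
    ((Fintype.piFinset (fun _ : Fin 4 => Finset.range (n + 1))) ×ˢ
      Finset.Icc (-((n * (m + 1) : ℕ) : ℤ)) ((n * (m + 1) : ℕ) : ℤ))
    (code F lab sg (m + 1) n) ?_ ?_
  · refine hcode.trans ?_
    rw [Finset.card_product, Fintype.card_piFinset, Int.card_Icc]
    simp only [Finset.card_range, Finset.prod_const, Finset.card_univ, Fintype.card_fin]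
    have h1 : (((n * (m + 1) : ℕ) : ℤ) + 1 - -((n * (m + 1) : ℕ) : ℤ)).toNat =
        2 * (n * (m + 1)) + 1 := by omega
    rw [h1]
    calc (n + 1) ^ 4 * (2 * (n * (m + 1)) + 1)
        ≤ (n + 1) ^ 4 * ((2 * (m + 1) + 1) * (n + 1)) := by
          apply Nat.mul_le_mul_left
          nlinarith
      _ = (2 * (m + 1) + 1) * (n + 1) ^ 5 := by ring
  · intro x
    rw [Finset.mem_product]
    refine ⟨?_, ssum_mem hsg _ _ _⟩
    rw [Fintype.mem_piFinset]
    intro j
    rw [Finset.mem_range]
    have : (code F lab sg (m + 1) n x).1 j ≤ n := by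
      have := Finset.card_filter_le (Finset.range n) (fun k => lab (F^[k] x) < j)
      rw [Finset.card_range] at this
      exact this
    omega
  · intro x
    have : ∀ i : Fin n, ∃ s ∈ U, Metric.ball (F^[(i : ℕ)] x) δ ⊆ s := fun i => hL _ (mem_univ _)
    choose s hs hb using this
    refine ⟨_, ⟨s, hs, rfl⟩, fun y hy => mem_iInter.2 fun i => ?_⟩
    apply hb i
    rw [Metric.mem_ball]
    have h1 := quant_eq_of_code hlab hsg hup hdn hy i.2
    have h2 := dist_of_quant (Nat.succ_pos m) h1
    refine h2.trans ?_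
    have : (1 : ℝ) / ((m + 1 : ℕ) : ℝ) < δ := by push_cast; exact hm
    exact this

end Q69.AKM
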