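import Mathlib

/-!
# Factors of systems with (asymptotic) average shadowing
-/

set_option autoImplicit false
open Filter Topology Set

namespace Q69.AvgFactor

/-- `x` is a `δ`-average-pseudo-orbit of `f`. -/
def IsAvgPseudoOrbit {X : Type*} [MetricSpace X] (f : X → X) (δ : ℝ) (x : ℕ → X) : Prop :=
  ∃ N : ℕ, ∀ n ≥ N, ∀ k : ℕ,
    (1 / (n : ℝ)) * ∑ i ∈ Finset.range n, dist (f (x (i + k))) (x (i + k + 1)) < δ

/-- `x` is `ε`-shadowed in average by `z`. -/
def AvgShadowed {X : Type*} [MetricSpace X] (f : X → X) (ε : ℝ) (x : ℕ → X) (z : X) : Prop :=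
  limsup (fun n : ℕ => (1 / (n : ℝ)) * ∑ i ∈ Finset.range n, dist (f^[i] z) (x i)) atTop < ε

/-- The average shadowing property. -/
def HasAvgShadowing {X : Type*} [MetricSpace X] (f : X → X) : Prop :=
  ∀ ε > 0, ∃ δ > 0, ∀ x : ℕ → X, IsAvgPseudoOrbit f δ x → ∃ z, AvgShadowed f ε x z

/-- `x` is an asymptotic average pseudo-orbit of `f`. -/
def IsAsympAvgPseudoOrbit {X : Type*} [MetricSpace X] (f : X → X) (x : ℕ → X) : Prop :=
  Tendsto (fun n : ℕ => (1 / (n : ℝ)) * ∑ i ∈ Finset.range n, dist (f (x i)) (x (i + 1)))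
    atTop (𝓝 0)

/-- `x` is asymptotically shadowed in average by `z`. -/
def AsympAvgShadowed {X : Type*} [MetricSpace X] (f : X → X) (x : ℕ → X) (z : X) : Prop :=
  Tendsto (fun n : ℕ => (1 / (n : ℝ)) * ∑ i ∈ Finset.range n, dist (f^[i] z) (x i)) atTop (𝓝 0)

/-- The asymptotic average shadowing property. -/
def HasAsympAvgShadowing {X : Type*} [MetricSpace X] (f : X → X) : Prop :=
  ∀ x : ℕ → X, IsAsympAvgPseudoOrbit f x → ∃ z, AsympAvgShadowed f x z

variable {X Y : Type*} [MetricSpace X] [CompactSpace X] [MetricSpace Y] [CompactSpace Y]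

lemma exists_bound (X : Type*) [MetricSpace X] [CompactSpace X] :
    ∃ D : ℝ, 0 ≤ D ∧ ∀ a b : X, dist a b ≤ D :=
  ⟨Metric.diam (univ : Set X), Metric.diam_nonneg, fun a b =>
    Metric.dist_le_diam_of_mem isCompact_univ.isBounded (mem_univ a) (mem_univ b)⟩

lemma lin {h : X → Y} (hh : Continuous h) {η : ℝ} (hη : 0 < η) :
    ∃ M : ℝ, 0 ≤ M ∧ ∀ a b, dist (h a) (h b) ≤ η + M * dist a b := by
  obtain ⟨D, hD, hD'⟩ := exists_bound Y
  obtain ⟨δ, hδ, h1⟩ := Metric.uniformContinuous_iff.1
    (CompactSpace.uniformContinuous_of_continuous hh) η hη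
  refine ⟨D / δ, by positivity, fun a b => ?_⟩
  by_cases hab : dist a b < δ
  · have := h1 hab
    have h2 : 0 ≤ D / δ * dist a b := by positivity
    linarith
  · push Not at hab
    have h2 : D ≤ D / δ * dist a b := by
      calc D = D / δ * δ := by field_simp
        _ ≤ D / δ * dist a b := by gcongr
    linarith [hD' (h a) (h b)]

/-- the error sequence of a pseudo-orbit -/
def err (g : Y → Y) (y : ℕ → Y) (i : ℕ) : ℝ := dist (g (y i)) (y (i + 1))

omit [CompactSpace Y] in
lemma err_nonneg (g : Y → Y) (y : ℕ → Y) (i : ℕ) : 0 ≤ err g y i := dist_nonneg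

lemma follow {g : Y → Y} (hg : Continuous g) (j : ℕ) : ∀ η > 0, ∃ C : ℝ, 0 ≤ C ∧
    ∀ (y : ℕ → Y) (k : ℕ), dist (g^[j] (y k)) (y (k + j)) ≤
      η + C * ∑ i ∈ Finset.range j, err g y (k + i) := by
  induction j with
  | zero =>
    intro η hη
    exact ⟨0, le_rfl, fun y k => by simpa using hη.le⟩
  | succ j ih =>
    intro η hη
    obtain ⟨M, hM, hM'⟩ := lin hg (half_pos hη)
    obtain ⟨C, hC, hC'⟩ := ih (η / (2 * (M + 1))) (by positivity)
    refine ⟨M * C + 1, by positivity, fun y k => ?_⟩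
    have h1 := hM' (g^[j] (y k)) (y (k + j))
    have h2 := hC' y k
    have hS : 0 ≤ ∑ i ∈ Finset.range j, err g y (k + i) :=
      Finset.sum_nonneg fun i _ => err_nonneg _ _ _
    have he := err_nonneg g y (k + j)
    rw [Finset.sum_range_succ, Function.iterate_succ_apply']
    have h3 : M * (η / (2 * (M + 1))) ≤ η / 2 := by
      rw [← mul_div_assoc, div_le_div_iff₀ (by positivity) (by norm_num)]
      nlinarith
    have h4 : dist (g (g^[j] (y k))) (y (k + (j + 1))) ≤
        dist (g (g^[j] (y k))) (g (y (k + j))) + err g y (k + j) := dist_triangle _ _ _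
    have h5 : M * dist (g^[j] (y k)) (y (k + j)) ≤
        M * (η / (2 * (M + 1)) + C * ∑ i ∈ Finset.range j, err g y (k + i)) :=
      mul_le_mul_of_nonneg_left h2 hM
    have h6 : 0 ≤ M * C * err g y (k + j) := by positivity
    nlinarith

lemma followL {g : Y → Y} (hg : Continuous g) (L : ℕ) : ∀ η > 0, ∃ C : ℝ, 0 ≤ C ∧
    ∀ (y : ℕ → Y) (k j : ℕ), j < L → dist (g^[j] (y k)) (y (k + j)) ≤
      η + C * ∑ i ∈ Finset.range L, err g y (k + i) := by
  induction L with
  | zero => intro η hη; exact ⟨0, le_rfl, fun y k j hj => absurd hj (by omega)⟩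
  | succ L ih =>
    intro η hη
    obtain ⟨C1, hC1, h1⟩ := ih η hη
    obtain ⟨C2, hC2, h2⟩ := follow hg L η hη
    refine ⟨max C1 C2, le_max_of_le_left hC1, fun y k j hj => ?_⟩
    have hS : 0 ≤ ∑ i ∈ Finset.range L, err g y (k + i) :=
      Finset.sum_nonneg fun i _ => err_nonneg _ _ _
    have he := err_nonneg g y (k + L)
    rw [Finset.sum_range_succ]
    have h5 : C1 ≤ max C1 C2 := le_max_left _ _
    have h6 : C2 ≤ max C1 C2 := le_max_right _ _
    have h7 : 0 ≤ max C1 C2 * err g y (k + L) :=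
      mul_nonneg (le_max_of_le_left hC1) he
    rcases Nat.lt_or_ge j L with hjL | hjL
    · have h3 := h1 y k j hjL
      have h4 := mul_le_mul_of_nonneg_right h5 hS
      rw [mul_add]; linarith
    · obtain rfl : j = L := by omega
      have h3 := h2 y k
      have h4 := mul_le_mul_of_nonneg_right h6 hS
      rw [mul_add]; linarith

/-- sums over blocks -/
lemma block_sum {e : ℕ → ℝ} (he : ∀ i, 0 ≤ e i) {L : ℕ} (hL : 0 < L) (n : ℕ) :
    ∑ i ∈ Finset.range n, ∑ j ∈ Finset.range L, e (L * (i / L) + j) ≤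
      L * ∑ m ∈ Finset.range (n + L), e m := by
  have key : ∀ Q : ℕ, ∑ i ∈ Finset.range (L * Q), ∑ j ∈ Finset.range L, e (L * (i / L) + j) =
      L * ∑ m ∈ Finset.range (L * Q), e m := by
    intro Q
    induction Q with
    | zero => simp
    | succ Q ih =>
      rw [Nat.mul_succ, Finset.sum_range_add, Finset.sum_range_add, ih, mul_add]
      congr 1
      rw [Finset.sum_congr rfl (g := fun _ => ∑ j ∈ Finset.range L, e (L * Q + j))]
      · rw [Finset.sum_const, Finset.card_range, nsmul_eq_mul]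
      · intro x hx
        rw [Finset.mem_range] at hx
        have : (L * Q + x) / L = Q := by
          rw [Nat.mul_add_div hL, Nat.div_eq_of_lt hx, add_zero]
        rw [this]
  have h1 : n ≤ L * (n / L + 1) := by
    have := Nat.lt_mul_div_succ n hL
    exact this.le
  have h2 : L * (n / L + 1) ≤ n + L := by
    rw [mul_add, mul_one]
    have := Nat.mul_div_le n L
    omega
  calc ∑ i ∈ Finset.range n, ∑ j ∈ Finset.range L, e (L * (i / L) + j)
      ≤ ∑ i ∈ Finset.range (L * (n / L + 1)), ∑ j ∈ Finset.range L, e (L * (i / L) + j) := by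
        apply Finset.sum_le_sum_of_subset_of_nonneg (Finset.range_mono h1)
        intro i _ _
        exact Finset.sum_nonneg fun j _ => he _
    _ = L * ∑ m ∈ Finset.range (L * (n / L + 1)), e m := key _
    _ ≤ L * ∑ m ∈ Finset.range (n + L), e m := by
        apply mul_le_mul_of_nonneg_left _ (Nat.cast_nonneg _)
        apply Finset.sum_le_sum_of_subset_of_nonneg (Finset.range_mono h2)
        intro i _ _
        exact he _

/-- the block lift -/
def blift (f : X → X) (s : Y → X) (y : ℕ → Y) (L i : ℕ) : X := f^[i % L] (s (y (L * (i / L))))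

omit [MetricSpace X] [CompactSpace X] [MetricSpace Y] [CompactSpace Y] in
lemma blift_proj {f : X → X} {g : Y → Y} {p : X → Y} (hp : ∀ x, p (f x) = g (p x)) {s : Y → X}
    (hs : ∀ b, p (s b) = b) (y : ℕ → Y) (L i : ℕ) :
    p (blift f s y L i) = g^[i % L] (y (L * (i / L))) := by
  have : ∀ j x, p (f^[j] x) = g^[j] (p x) := by
    intro j
    induction j with
    | zero => intro x; rfl
    | succ j ih => intro x; rw [Function.iterate_succ_apply', hp, ih, Function.iterate_succ_apply']
  rw [blift, this, hs]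

omit [CompactSpace X] [MetricSpace Y] [CompactSpace Y] in
lemma blift_jump {f : X → X} {s : Y → X} {y : ℕ → Y} {L : ℕ} (hL : 0 < L) {D : ℝ}
    (hD : ∀ a b : X, dist a b ≤ D) (i : ℕ) :
    dist (f (blift f s y L i)) (blift f s y L (i + 1)) ≤
      D * ((((i + 1) / L : ℕ) : ℝ) - ((i / L : ℕ) : ℝ)) := by
  by_cases h : L ∣ i + 1
  · have h1 : (i + 1) / L = i / L + 1 := by rw [Nat.succ_div, if_pos h]
    rw [h1]; push_cast
    have := hD (f (blift f s y L i)) (blift f s y L (i + 1))
    linarith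
  · have h1 : (i + 1) / L = i / L := by rw [Nat.succ_div, if_neg h, add_zero]
    have h2 : (i + 1) % L = i % L + 1 := by
      have e1 := Nat.div_add_mod (i + 1) L
      have e2 := Nat.div_add_mod i L
      rw [h1] at e1
      omega
    have h3 : f (blift f s y L i) = blift f s y L (i + 1) := by
      rw [blift, blift, h1, h2, Function.iterate_succ_apply']
    rw [h3, h1]; simp

omit [CompactSpace X] [MetricSpace Y] [CompactSpace Y] in
lemma blift_jump_sum {f : X → X} {s : Y → X} {y : ℕ → Y} {L : ℕ} (hL : 0 < L) {D : ℝ}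
    (hD0 : 0 ≤ D) (hD : ∀ a b : X, dist a b ≤ D) (n k : ℕ) :
    ∑ i ∈ Finset.range n, dist (f (blift f s y L (i + k))) (blift f s y L (i + k + 1)) ≤
      D * (n / L + 1) := by
  have h1 : ∑ i ∈ Finset.range n, dist (f (blift f s y L (i + k))) (blift f s y L (i + k + 1)) ≤
      ∑ i ∈ Finset.range n, D * ((((i + 1 + k) / L : ℕ) : ℝ) - (((i + k) / L : ℕ) : ℝ)) := by
    apply Finset.sum_le_sum
    intro i _
    have := blift_jump (f := f) (s := s) (y := y) hL hD (i + k)
    rwa [show i + 1 + k = i + k + 1 by ring]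
  refine h1.trans ?_
  rw [← Finset.mul_sum, Finset.sum_range_sub (fun i => (((i + k) / L : ℕ) : ℝ))]
  apply mul_le_mul_of_nonneg_left _ hD0
  have hL' : (0 : ℝ) < L := by exact_mod_cast hL
  have h2 : (((n + k) / L : ℕ) : ℝ) ≤ ((n + k : ℕ) : ℝ) / L := Nat.cast_div_le
  have h3 : (k : ℝ) / L < ((k / L : ℕ) : ℝ) + 1 := by
    rw [div_lt_iff₀ hL']
    have := Nat.lt_mul_div_succ k hL
    have h4 : (k : ℝ) < ((L * (k / L + 1) : ℕ) : ℝ) := by exact_mod_cast this
    push_cast at h4
    linarith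
  push_cast at h2
  rw [zero_add]
  have h5 : ((n : ℝ) + k) / L = n / L + k / L := by ring
  linarith

/-- the projected lift follows the pseudo-orbit -/
lemma blift_close {f : X → X} {g : Y → Y} (hg : Continuous g) {p : X → Y}
    (hp : ∀ x, p (f x) = g (p x)) {s : Y → X} (hs : ∀ b, p (s b) = b) {L : ℕ} (hL : 0 < L)
    {η : ℝ} (hη : 0 < η) :
    ∃ C : ℝ, 0 ≤ C ∧ ∀ (y : ℕ → Y) (n : ℕ),
      ∑ i ∈ Finset.range n, dist (p (blift f s y L i)) (y i) ≤
        n * η + C * ∑ m ∈ Finset.range (n + L), err g y m := by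
  obtain ⟨C, hC, h⟩ := followL hg L η hη
  refine ⟨C * L, by positivity, fun y n => ?_⟩
  have h1 : ∀ i, dist (p (blift f s y L i)) (y i) ≤
      η + C * ∑ j ∈ Finset.range L, err g y (L * (i / L) + j) := by
    intro i
    rw [blift_proj hp hs]
    have h2 := h y (L * (i / L)) (i % L) (Nat.mod_lt _ hL)
    rwa [Nat.div_add_mod] at h2
  calc ∑ i ∈ Finset.range n, dist (p (blift f s y L i)) (y i)
      ≤ ∑ i ∈ Finset.range n, (η + C * ∑ j ∈ Finset.range L, err g y (L * (i / L) + j)) :=
        Finset.sum_le_sum fun i _ => h1 i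
    _ = n * η + C * ∑ i ∈ Finset.range n, ∑ j ∈ Finset.range L, err g y (L * (i / L) + j) := by
        rw [Finset.sum_add_distrib, Finset.sum_const, Finset.card_range, nsmul_eq_mul,
          Finset.mul_sum]
    _ ≤ n * η + C * (L * ∑ m ∈ Finset.range (n + L), err g y m) := by
        have := block_sum (err_nonneg g y) hL n
        have := mul_le_mul_of_nonneg_left this hC
        linarith
    _ = _ := by ring

lemma avg_le {D : ℝ} (hD : ∀ a b : X, dist a b ≤ D) (u v : ℕ → X) (n : ℕ) :
    (1 / (n : ℝ)) * ∑ i ∈ Finset.range n, dist (u i) (v i) ≤ max D 0 := by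
  rcases Nat.eq_zero_or_pos n with rfl | hn
  · simp
  · have hn' : (0 : ℝ) < n := by exact_mod_cast hn
    have h1 : ∑ i ∈ Finset.range n, dist (u i) (v i) ≤ ∑ i ∈ Finset.range n, max D 0 :=
      Finset.sum_le_sum fun i _ => (hD _ _).trans (le_max_left _ _)
    rw [Finset.sum_const, Finset.card_range, nsmul_eq_mul] at h1
    calc (1 / (n : ℝ)) * ∑ i ∈ Finset.range n, dist (u i) (v i)
        ≤ (1 / (n : ℝ)) * (n * max D 0) := by gcongr
      _ = max D 0 := by field_simp

omit [CompactSpace X] in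
lemma avg_nonneg (u v : ℕ → X) (n : ℕ) :
    0 ≤ (1 / (n : ℝ)) * ∑ i ∈ Finset.range n, dist (u i) (v i) := by
  apply mul_nonneg (by positivity)
  exact Finset.sum_nonneg fun i _ => dist_nonneg

/-- The average shadowing property passes to factors. -/
theorem avgShadowing_factor {f : X → X} {g : Y → Y} (hg : Continuous g)
    {p : X → Y} (hpc : Continuous p) (hps : Function.Surjective p) (hp : ∀ x, p (f x) = g (p x))
    (hf : HasAvgShadowing f) : HasAvgShadowing g := by
  intro ε hε
  obtain ⟨D, hD0, hD⟩ := exists_bound X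
  obtain ⟨E, hE0, hE⟩ := exists_bound Y
  obtain ⟨M, hM, hM'⟩ := lin hpc (η := ε / 8) (by positivity)
  obtain ⟨δ', hδ', hsh⟩ := hf (ε / (8 * (M + 1))) (by positivity)
  obtain ⟨L, hL⟩ := exists_nat_gt (2 * (D + 1) / δ')
  have hL0' : (0 : ℝ) < L := lt_of_le_of_lt (by positivity) hL
  have hL0 : 0 < L := by exact_mod_cast hL0'
  choose s hs using hps
  obtain ⟨C, hC, hC'⟩ := blift_close (f := f) hg hp hs hL0 (η := ε / 8) (by positivity)
  refine ⟨ε / (16 * (C + 1)), by positivity, fun y hy => ?_⟩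
  obtain ⟨N, hN⟩ := hy
  -- the lift is a pseudo-orbit
  have hlift : IsAvgPseudoOrbit f δ' (blift f s y L) := by
    obtain ⟨N', hN'⟩ := exists_nat_gt (2 * (D + 1) / δ')
    refine ⟨N', fun n hn k => ?_⟩
    have hn' : 2 * (D + 1) / δ' < n := lt_of_lt_of_le hN' (by exact_mod_cast hn)
    have hn0 : (0 : ℝ) < n := lt_of_le_of_lt (by positivity) hn'
    have h1 := blift_jump_sum (f := f) (s := s) (y := y) hL0 hD0 hD n k
    rw [one_div, inv_mul_lt_iff₀ hn0]
    refine lt_of_le_of_lt h1 ?_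
    have h2 : D / L < δ' / 2 := by
      rw [div_lt_iff₀ hL0']
      rw [div_lt_iff₀ hδ'] at hL
      linarith
    have h3 : D < n * (δ' / 2) := by
      rw [div_lt_iff₀ hδ'] at hn'
      linarith
    have h4 : D * ((n : ℝ) / L + 1) = n * (D / L) + D := by ring
    rw [h4]
    have h5 : n * (D / L) < n * (δ' / 2) := mul_lt_mul_of_pos_left h2 hn0
    linarith
  obtain ⟨z, hz⟩ := hsh _ hlift
  refine ⟨p z, ?_⟩
  -- eventual bounds
  have hbdd : IsBoundedUnder (· ≤ ·) atTop
      (fun n : ℕ => (1 / (n : ℝ)) * ∑ i ∈ Finset.range n, dist (f^[i] z) (blift f s y L i)) :=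
    isBoundedUnder_of ⟨max D 0, fun n => avg_le hD _ _ n⟩
  have hev1 : ∀ᶠ n : ℕ in atTop, (1 / (n : ℝ)) *
      ∑ i ∈ Finset.range n, dist (f^[i] z) (blift f s y L i) < ε / (8 * (M + 1)) :=
    eventually_lt_of_limsup_lt hz hbdd
  have hfg : ∀ i x, p (f^[i] x) = g^[i] (p x) := by
    intro j
    induction j with
    | zero => intro x; rfl
    | succ j ih => intro x; rw [Function.iterate_succ_apply', hp, ih, Function.iterate_succ_apply']
  have hev : ∀ᶠ n : ℕ in atTop, (1 / (n : ℝ)) *
      ∑ i ∈ Finset.range n, dist (g^[i] (p z)) (y i) ≤ ε / 2 := by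
    filter_upwards [hev1, eventually_ge_atTop (max N L), eventually_gt_atTop 0] with n hn1 hn2 hn3
    have hn0 : (0 : ℝ) < n := by exact_mod_cast hn3
    have hnN : N ≤ n := (le_max_left _ _).trans hn2
    have hnL : L ≤ n := (le_max_right _ _).trans hn2
    rw [one_div, inv_mul_le_iff₀ hn0]
    rw [one_div, inv_mul_lt_iff₀ hn0] at hn1
    have h1 : ∑ i ∈ Finset.range n, dist (g^[i] (p z)) (y i) ≤
        ∑ i ∈ Finset.range n, (ε / 8 + M * dist (f^[i] z) (blift f s y L i)) +
        ∑ i ∈ Finset.range n, dist (p (blift f s y L i)) (y i) := by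
      rw [← Finset.sum_add_distrib]
      apply Finset.sum_le_sum
      intro i _
      have h2 := hM' (f^[i] z) (blift f s y L i)
      rw [hfg] at h2
      exact (dist_triangle _ (p (blift f s y L i)) _).trans (by linarith)
    have h2 : ∑ i ∈ Finset.range n, (ε / 8 + M * dist (f^[i] z) (blift f s y L i)) =
        n * (ε / 8) + M * ∑ i ∈ Finset.range n, dist (f^[i] z) (blift f s y L i) := by
      rw [Finset.sum_add_distrib, Finset.sum_const, Finset.card_range, nsmul_eq_mul,
        Finset.mul_sum]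
    have h3 := hC' y n
    have h4 : ∑ m ∈ Finset.range (n + L), err g y m ≤ (n + L : ℕ) * (ε / (16 * (C + 1))) := by
      have := hN (n + L) (by omega) 0
      have hpos : (0 : ℝ) < ((n + L : ℕ) : ℝ) := by positivity
      rw [one_div, inv_mul_lt_iff₀ hpos] at this
      simpa [err] using this.le
    have h5 : C * ∑ m ∈ Finset.range (n + L), err g y m ≤ n * (ε / 8) := by
      calc C * ∑ m ∈ Finset.range (n + L), err g y m
          ≤ C * ((n + L : ℕ) * (ε / (16 * (C + 1)))) := mul_le_mul_of_nonneg_left h4 hC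
        _ ≤ C * ((2 * n) * (ε / (16 * (C + 1)))) := by
            apply mul_le_mul_of_nonneg_left _ hC
            apply mul_le_mul_of_nonneg_right _ (by positivity)
            have : (L : ℝ) ≤ n := by exact_mod_cast hnL
            push_cast; linarith
        _ = (C / (C + 1)) * (n * (ε / 8)) := by field_simp; ring
        _ ≤ 1 * (n * (ε / 8)) := by
            apply mul_le_mul_of_nonneg_right _ (by positivity)
            rw [div_le_one (by positivity)]; linarith
        _ = n * (ε / 8) := one_mul _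
    have h6 : M * ∑ i ∈ Finset.range n, dist (f^[i] z) (blift f s y L i) ≤ n * (ε / 8) := by
      calc M * ∑ i ∈ Finset.range n, dist (f^[i] z) (blift f s y L i)
          ≤ M * (n * (ε / (8 * (M + 1)))) := mul_le_mul_of_nonneg_left hn1.le hM
        _ = (M / (M + 1)) * (n * (ε / 8)) := by field_simp
        _ ≤ 1 * (n * (ε / 8)) := by
            apply mul_le_mul_of_nonneg_right _ (by positivity)
            rw [div_le_one (by positivity)]; linarith
        _ = n * (ε / 8) := one_mul _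
    have h7 : (n : ℝ) * (ε / 8) * 4 = n * (ε / 2) := by ring
    linarith
  refine lt_of_le_of_lt (limsup_le_of_le ?_ hev) (by linarith)
  exact isCoboundedUnder_le_of_le atTop (x := 0) fun n => avg_nonneg _ _ n

/-! ### Asymptotic average shadowing -/

/-- thresholds -/
def thr (N : ℕ → ℕ) : ℕ → ℕ
  | 0 => 0
  | k + 1 => max (N (k + 1)) ((k + 1) * (thr N k) + (k + 1) ^ 2)

lemma diag {c : ℕ → ℕ → ℝ} {B : ℝ} (hB : 0 ≤ B) (hc0 : ∀ k i, 0 ≤ c k i) (hcB : ∀ k i, c k i ≤ B)
    {N : ℕ → ℕ} (hN : ∀ k, ∀ n ≥ N k, ∑ i ∈ Finset.range n, c k i ≤ n / (k + 1)) :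
    ∃ κ : ℕ → ℕ, Monotone κ ∧ Tendsto κ atTop atTop ∧ (∀ n, (κ n) ^ 2 ≤ n) ∧
      Tendsto (fun n : ℕ => (1 / (n : ℝ)) * ∑ i ∈ Finset.range n, c (κ i) i) atTop (𝓝 0) := by
  set T := thr N with hT
  have hT1 : ∀ k, N (k + 1) ≤ T (k + 1) := fun k => le_max_left _ _
  have hT2 : ∀ k, (k + 1) * (T k) + (k + 1) ^ 2 ≤ T (k + 1) := fun k => le_max_right _ _
  have hTsq : ∀ k, k ^ 2 ≤ T k := by
    intro k
    cases k with
    | zero => simp
    | succ k => exact (Nat.le_add_left _ _).trans (hT2 k)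
  have hTmono : StrictMono T := by
    apply strictMono_nat_of_lt_succ
    intro k
    have := hT2 k
    nlinarith [Nat.zero_le (T k * k)]
  have hTk : ∀ k, (k + 1) * T k ≤ T (k + 1) := fun k => (Nat.le_add_right _ _).trans (hT2 k)
  have hkT : ∀ k, k ≤ T k := hTmono.id_le
  -- the slow function
  let κ : ℕ → ℕ := fun i => Nat.findGreatest (fun k => T k ≤ i) i
  have hκ1 : ∀ i, T (κ i) ≤ i := by
    intro i
    have : (fun k => T k ≤ i) (Nat.findGreatest (fun k => T k ≤ i) i) :=
      Nat.findGreatest_spec (P := fun k => T k ≤ i) (Nat.zero_le i) (by simp [hT, thr])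
    exact this
  have hκ2 : ∀ i, i < T (κ i + 1) := by
    intro i
    by_contra hcon
    push Not at hcon
    have h1 : κ i + 1 ≤ i := (hkT _).trans hcon
    have := Nat.le_findGreatest (P := fun k => T k ≤ i) h1 hcon
    change κ i + 1 ≤ κ i at this
    omega
  have hκ_of : ∀ k i, T k ≤ i → i < T (k + 1) → κ i = k := by
    intro k i h1 h2
    have a1 : T k < T (κ i + 1) := lt_of_le_of_lt h1 (hκ2 i)
    have a2 : T (κ i) < T (k + 1) := lt_of_le_of_lt (hκ1 i) h2
    have := hTmono.lt_iff_lt.1 a1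
    have := hTmono.lt_iff_lt.1 a2
    omega
  have hκmono : Monotone κ := by
    intro i j hij
    have : T (κ i) < T (κ j + 1) := lt_of_le_of_lt ((hκ1 i).trans hij) (hκ2 j)
    have := hTmono.lt_iff_lt.1 this
    omega
  have hκtop : Tendsto κ atTop atTop := by
    apply tendsto_atTop_atTop_of_monotone hκmono
    intro k
    refine ⟨T k, ?_⟩
    have : T k < T (κ (T k) + 1) := hκ2 _
    have := hTmono.lt_iff_lt.1 this
    omega
  refine ⟨κ, hκmono, hκtop, fun n => (hTsq _).trans (hκ1 n), ?_⟩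
  -- the main estimate
  have hS : ∀ k n, 1 ≤ k → T (k + 1) ≤ n → n ≤ T (k + 2) → ∑ i ∈ Finset.range n, c (κ i) i ≤
      n * ((B + 2) / (k + 1)) := by
    intro k n hk h1 h2
    have hTkk : T k ≤ T (k + 1) := (hTmono (Nat.lt_succ_self k)).le
    have hNk : N k ≤ T k := by
      obtain ⟨m, rfl⟩ : ∃ m, k = m + 1 := ⟨k - 1, by omega⟩
      exact hT1 m
    have hk0 : (0 : ℝ) < k + 1 := by positivity
    have h1' : ((T (k + 1) : ℕ) : ℝ) ≤ n := by exact_mod_cast h1
    -- three pieces
    have e1 : ∑ i ∈ Finset.range n, c (κ i) i = ∑ i ∈ Finset.range (T k), c (κ i) i +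
        (∑ i ∈ Finset.Ico (T k) (T (k + 1)), c (κ i) i +
          ∑ i ∈ Finset.Ico (T (k + 1)) n, c (κ i) i) := by
      rw [Finset.sum_Ico_consecutive _ hTkk h1, Finset.sum_range_add_sum_Ico _ (hTkk.trans h1)]
    have p1 : ∑ i ∈ Finset.range (T k), c (κ i) i ≤ n * (B / (k + 1)) := by
      calc ∑ i ∈ Finset.range (T k), c (κ i) i ≤ ∑ i ∈ Finset.range (T k), B :=
            Finset.sum_le_sum fun i _ => hcB _ _
        _ = T k * B := by rw [Finset.sum_const, Finset.card_range, nsmul_eq_mul]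
        _ = ((k + 1) * T k : ℝ) * (B / (k + 1)) := by field_simp
        _ ≤ n * (B / (k + 1)) := by
            apply mul_le_mul_of_nonneg_right _ (by positivity)
            have h3 := (hTk k).trans h1
            have h4 : (((k + 1) * T k : ℕ) : ℝ) ≤ n := by exact_mod_cast h3
            push_cast at h4
            exact h4
    have p2 : ∑ i ∈ Finset.Ico (T k) (T (k + 1)), c (κ i) i ≤ n * (1 / (k + 1)) := by
      calc ∑ i ∈ Finset.Ico (T k) (T (k + 1)), c (κ i) i
          = ∑ i ∈ Finset.Ico (T k) (T (k + 1)), c k i := by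
            apply Finset.sum_congr rfl
            intro i hi
            rw [Finset.mem_Ico] at hi
            rw [hκ_of k i hi.1 hi.2]
        _ ≤ ∑ i ∈ Finset.range (T (k + 1)), c k i := by
            apply Finset.sum_le_sum_of_subset_of_nonneg
            · intro i hi
              rw [Finset.mem_Ico] at hi
              exact Finset.mem_range.2 hi.2
            · intro i _ _; exact hc0 _ _
        _ ≤ T (k + 1) / (k + 1) := hN k _ (hNk.trans hTkk)
        _ ≤ n / (k + 1) := by gcongr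
        _ = n * (1 / (k + 1)) := by ring
    have p3 : ∑ i ∈ Finset.Ico (T (k + 1)) n, c (κ i) i ≤ n * (1 / (k + 1)) := by
      calc ∑ i ∈ Finset.Ico (T (k + 1)) n, c (κ i) i
          = ∑ i ∈ Finset.Ico (T (k + 1)) n, c (k + 1) i := by
            apply Finset.sum_congr rfl
            intro i hi
            rw [Finset.mem_Ico] at hi
            rw [hκ_of (k + 1) i hi.1 (lt_of_lt_of_le hi.2 h2)]
        _ ≤ ∑ i ∈ Finset.range n, c (k + 1) i := by
            apply Finset.sum_le_sum_of_subset_of_nonneg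
            · intro i hi
              rw [Finset.mem_Ico] at hi
              exact Finset.mem_range.2 hi.2
            · intro i _ _; exact hc0 _ _
        _ ≤ n / ((k + 1 : ℕ) + 1) := hN (k + 1) _ ((hT1 k).trans h1)
        _ ≤ n / (k + 1) := by
            push_cast
            gcongr
            linarith
        _ = n * (1 / (k + 1)) := by ring
    rw [e1]
    have e2 : (n : ℝ) * ((B + 2) / (k + 1)) = n * (B / (k + 1)) + (n * (1 / (k + 1)) +
        n * (1 / (k + 1))) := by ring
    rw [e2]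
    exact add_le_add p1 (add_le_add p2 p3)
  have hbd : ∀ᶠ n : ℕ in atTop, (1 / (n : ℝ)) * ∑ i ∈ Finset.range n, c (κ i) i ≤
      (B + 2) / (κ n : ℝ) := by
    filter_upwards [eventually_ge_atTop (T 2), eventually_gt_atTop 0] with n hn hn0
    have hκn : 2 ≤ κ n := by
      have : T 2 < T (κ n + 1) := lt_of_le_of_lt hn (hκ2 n)
      have := hTmono.lt_iff_lt.1 this
      omega
    obtain ⟨k, hk⟩ : ∃ k, κ n = k + 1 := ⟨κ n - 1, by omega⟩
    have h1 := hS k n (by omega) (by rw [← hk]; exact hκ1 n) (by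
      have := (hκ2 n).le
      rwa [hk] at this)
    have hn0' : (0 : ℝ) < n := by exact_mod_cast hn0
    rw [one_div, inv_mul_le_iff₀ hn0', hk]
    push_cast
    exact h1
  have hlim : Tendsto (fun n : ℕ => (B + 2) / (κ n : ℝ)) atTop (𝓝 0) := by
    have h1 : Tendsto (fun n : ℕ => (κ n : ℝ)) atTop atTop :=
      tendsto_natCast_atTop_atTop.comp hκtop
    exact h1.const_div_atTop _
  refine squeeze_zero' (Eventually.of_forall fun n => ?_) hbd hlim
  apply mul_nonneg (by positivity)
  exact Finset.sum_nonneg fun i _ => hc0 _ _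

lemma avg_shift {e : ℕ → ℝ} (he : ∀ i, 0 ≤ e i) (L : ℕ)
    (h : Tendsto (fun n : ℕ => (1 / (n : ℝ)) * ∑ i ∈ Finset.range n, e i) atTop (𝓝 0)) :
    Tendsto (fun n : ℕ => (1 / (n : ℝ)) * ∑ i ∈ Finset.range (n + L), e i) atTop (𝓝 0) := by
  have h1 : Tendsto (fun n : ℕ => (1 / ((n + L : ℕ) : ℝ)) * ∑ i ∈ Finset.range (n + L), e i)
      atTop (𝓝 0) := h.comp (tendsto_add_atTop_nat L)
  have h2 : Tendsto (fun n : ℕ => (1 + L) * ((1 / ((n + L : ℕ) : ℝ)) *
      ∑ i ∈ Finset.range (n + L), e i)) atTop (𝓝 0) := by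
    simpa using h1.const_mul ((1 : ℝ) + L)
  refine squeeze_zero' (Eventually.of_forall fun n => ?_) ?_ h2
  · exact mul_nonneg (by positivity) (Finset.sum_nonneg fun i _ => he _)
  · filter_upwards [eventually_gt_atTop 0] with n hn
    have hn0 : (0 : ℝ) < n := by exact_mod_cast hn
    have hn1 : (1 : ℝ) ≤ n := by exact_mod_cast hn
    rw [← mul_assoc]
    apply mul_le_mul_of_nonneg_right _ (Finset.sum_nonneg fun i _ => he _)
    rw [mul_one_div, div_le_div_iff₀ hn0 (by positivity)]
    push_cast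
    have hL : (0 : ℝ) ≤ L := Nat.cast_nonneg L
    nlinarith

/-- The asymptotic average shadowing property passes to factors. -/
theorem asympAvgShadowing_factor {f : X → X} {g : Y → Y} (hg : Continuous g)
    {p : X → Y} (hpc : Continuous p) (hps : Function.Surjective p) (hp : ∀ x, p (f x) = g (p x))
    (hf : HasAsympAvgShadowing f) : HasAsympAvgShadowing g := by
  intro y hy
  obtain ⟨D, hD0, hD⟩ := exists_bound X
  obtain ⟨E, hE0, hE⟩ := exists_bound Y
  choose s hs using hps
  have hfg : ∀ i x, p (f^[i] x) = g^[i] (p x) := by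
    intro j
    induction j with
    | zero => intro x; rfl
    | succ j ih => intro x; rw [Function.iterate_succ_apply', hp, ih, Function.iterate_succ_apply']
  have hy' : Tendsto (fun n : ℕ => (1 / (n : ℝ)) * ∑ i ∈ Finset.range n, err g y i) atTop (𝓝 0) := hy
  -- block length for the accuracy `1 / (k+1)`
  have hL : ∀ k : ℕ, ∃ L : ℕ, 0 < L ∧ D / L ≤ 1 / (8 * (k + 1)) := by
    intro k
    obtain ⟨L, hL⟩ := exists_nat_gt (D * (8 * (k + 1)))
    have hL0 : (0 : ℝ) < L := lt_of_le_of_lt (by positivity) hL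
    refine ⟨L, by exact_mod_cast hL0, ?_⟩
    rw [div_le_div_iff₀ hL0 (by positivity)]
    linarith
  choose L hL0 hLD using hL
  let c : ℕ → ℕ → ℝ := fun k i => dist (p (blift f s y (L k) i)) (y i) +
    dist (f (blift f s y (L k) i)) (blift f s y (L k) (i + 1))
  have hc0 : ∀ k i, 0 ≤ c k i := fun k i => add_nonneg dist_nonneg dist_nonneg
  have hcB : ∀ k i, c k i ≤ E + D := fun k i => add_le_add (hE _ _) (hD _ _)
  have hN : ∀ k : ℕ, ∃ N : ℕ, ∀ n ≥ N, ∑ i ∈ Finset.range n, c k i ≤ n / (k + 1) := by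
    intro k
    obtain ⟨C, hC, hC'⟩ := blift_close (f := f) hg hp hs (hL0 k) (η := 1 / (4 * (k + 1)))
      (by positivity)
    have h1 : Tendsto (fun n : ℕ => C * ((1 / (n : ℝ)) *
        ∑ m ∈ Finset.range (n + L k), err g y m)) atTop (𝓝 0) := by
      simpa using (avg_shift (err_nonneg g y) (L k) hy').const_mul C
    have h2 : ∀ᶠ n : ℕ in atTop, C * ((1 / (n : ℝ)) *
        ∑ m ∈ Finset.range (n + L k), err g y m) < 1 / (4 * (k + 1)) :=
      h1.eventually_lt_const (by positivity)
    have h3 : ∀ᶠ n : ℕ in atTop, 8 * D * (k + 1) ≤ n :=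
      tendsto_natCast_atTop_atTop.eventually_ge_atTop _
    obtain ⟨N, hN⟩ := eventually_atTop.1 (h2.and (h3.and (eventually_gt_atTop 0)))
    refine ⟨N, fun n hn => ?_⟩
    obtain ⟨a1, a2, a3⟩ := hN n hn
    have hn0 : (0 : ℝ) < n := by exact_mod_cast a3
    have b1 := hC' y n
    have b2 := blift_jump_sum (f := f) (s := s) (y := y) (hL0 k) hD0 hD n 0
    simp only [add_zero] at b2
    have b3 : C * ∑ m ∈ Finset.range (n + L k), err g y m ≤ n * (1 / (4 * (k + 1))) := by
      have : C * ((1 / (n : ℝ)) * ∑ m ∈ Finset.range (n + L k), err g y m) =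
          (C * ∑ m ∈ Finset.range (n + L k), err g y m) / n := by ring
      rw [this, div_lt_iff₀ hn0] at a1
      linarith
    have b4 : D * (n / (L k) + 1) ≤ n * (1 / (4 * (k + 1))) := by
      have c1 : D * ((n : ℝ) / (L k) + 1) = n * (D / L k) + D := by ring
      have c2 : n * (D / L k) ≤ n * (1 / (8 * (k + 1))) :=
        mul_le_mul_of_nonneg_left (hLD k) hn0.le
      have c3 : D ≤ n * (1 / (8 * (k + 1))) := by
        rw [mul_one_div, le_div_iff₀ (by positivity)]; linarith
      have c4 : (n : ℝ) * (1 / (4 * (k + 1))) = n * (1 / (8 * (k + 1))) + n * (1 / (8 * (k + 1))) := by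
        field_simp; ring
      rw [c1, c4]; linarith
    have b5 : ∑ i ∈ Finset.range n, c k i = ∑ i ∈ Finset.range n,
        dist (p (blift f s y (L k) i)) (y i) + ∑ i ∈ Finset.range n,
        dist (f (blift f s y (L k) i)) (blift f s y (L k) (i + 1)) := Finset.sum_add_distrib
    rw [b5]
    have b6 : (n : ℝ) / (k + 1) = 4 * (n * (1 / (4 * (k + 1)))) := by field_simp
    have b7 : (0 : ℝ) ≤ n * (1 / (4 * (k + 1))) := by positivity
    rw [b6]
    linarith
  choose N hN using hN
  obtain ⟨κ, hκm, hκt, hκs, hκ⟩ := diag (by positivity) hc0 hcB hN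
  -- the pseudo-orbit upstairs
  let x : ℕ → X := fun i => blift f s y (L (κ i)) i
  have hκdiv : Tendsto (fun n : ℕ => (1 / (n : ℝ)) * (κ n : ℝ)) atTop (𝓝 0) := by
    have h1 : Tendsto (fun n : ℕ => (1 : ℝ) / (κ n : ℝ)) atTop (𝓝 0) :=
      (tendsto_natCast_atTop_atTop.comp hκt).const_div_atTop _
    refine squeeze_zero' (Eventually.of_forall fun n => by positivity) ?_ h1
    filter_upwards [eventually_gt_atTop 0, hκt.eventually_gt_atTop 0] with n hn hκn
    have hn0 : (0 : ℝ) < n := by exact_mod_cast hn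
    have hκ0 : (0 : ℝ) < κ n := by exact_mod_cast hκn
    have h2 : ((κ n ^ 2 : ℕ) : ℝ) ≤ n := by exact_mod_cast hκs n
    push_cast at h2
    rw [one_div, inv_mul_le_iff₀ hn0, mul_one_div, le_div_iff₀ hκ0]
    nlinarith
  have hx : IsAsympAvgPseudoOrbit f x := by
    have h1 : ∀ i, dist (f (x i)) (x (i + 1)) ≤ c (κ i) i + D * ((κ (i + 1) : ℝ) - κ i) := by
      intro i
      by_cases h : κ (i + 1) = κ i
      · have : x (i + 1) = blift f s y (L (κ i)) (i + 1) := by simp only [x, h]
        rw [this, h, sub_self, mul_zero, add_zero]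
        have h2 : 0 ≤ dist (p (blift f s y (L (κ i)) i)) (y i) := dist_nonneg
        change dist (f (blift f s y (L (κ i)) i)) (blift f s y (L (κ i)) (i + 1)) ≤
          dist (p (blift f s y (L (κ i)) i)) (y i) +
            dist (f (blift f s y (L (κ i)) i)) (blift f s y (L (κ i)) (i + 1))
        linarith
      · have h2 : κ i + 1 ≤ κ (i + 1) := by
          have := hκm (Nat.le_succ i)
          have h3 : κ i ≤ κ (i + 1) := this
          omega
        have h3 : (1 : ℝ) ≤ (κ (i + 1) : ℝ) - κ i := by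
          have : ((κ i + 1 : ℕ) : ℝ) ≤ κ (i + 1) := by exact_mod_cast h2
          push_cast at this; linarith
        have h4 := hc0 (κ i) i
        have h5 := hD (f (x i)) (x (i + 1))
        nlinarith
    have h2 : Tendsto (fun n : ℕ => (1 / (n : ℝ)) * ∑ i ∈ Finset.range n, c (κ i) i +
        D * ((1 / (n : ℝ)) * (κ n : ℝ))) atTop (𝓝 0) := by
      simpa using hκ.add (hκdiv.const_mul D)
    refine squeeze_zero (fun n => ?_) (fun n => ?_) h2
    · exact mul_nonneg (by positivity) (Finset.sum_nonneg fun i _ => dist_nonneg)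
    · have h3 : ∑ i ∈ Finset.range n, dist (f (x i)) (x (i + 1)) ≤
          ∑ i ∈ Finset.range n, c (κ i) i + D * κ n := by
        refine (Finset.sum_le_sum fun i _ => h1 i).trans ?_
        rw [Finset.sum_add_distrib, ← Finset.mul_sum,
          Finset.sum_range_sub (fun i => (κ i : ℝ))]
        have : (0 : ℝ) ≤ κ 0 := Nat.cast_nonneg _
        have := mul_nonneg hD0 this
        linarith
      have h4 : (0 : ℝ) ≤ 1 / (n : ℝ) := by positivity
      calc (1 / (n : ℝ)) * ∑ i ∈ Finset.range n, dist (f (x i)) (x (i + 1))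
          ≤ (1 / (n : ℝ)) * (∑ i ∈ Finset.range n, c (κ i) i + D * κ n) :=
            mul_le_mul_of_nonneg_left h3 h4
        _ = _ := by ring
  obtain ⟨z, hz⟩ := hf x hx
  refine ⟨p z, ?_⟩
  rw [AsympAvgShadowed, Metric.tendsto_atTop]
  intro ε hε
  obtain ⟨M, hM, hM'⟩ := lin hpc (η := ε / 4) (by positivity)
  have hlim : Tendsto (fun n : ℕ => M * ((1 / (n : ℝ)) * ∑ i ∈ Finset.range n,
      dist (f^[i] z) (x i)) + (1 / (n : ℝ)) * ∑ i ∈ Finset.range n, c (κ i) i) atTop (𝓝 0) := by
    have hz' : Tendsto (fun n : ℕ => (1 / (n : ℝ)) * ∑ i ∈ Finset.range n,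
      dist (f^[i] z) (x i)) atTop (𝓝 0) := hz
    simpa using (hz'.const_mul M).add hκ
  obtain ⟨n0, hn0⟩ := eventually_atTop.1 ((hlim.eventually_lt_const (half_pos hε)).and
    (eventually_gt_atTop 0))
  refine ⟨n0, fun n hn => ?_⟩
  obtain ⟨h1, h2⟩ := hn0 n hn
  have hnpos : (0 : ℝ) < n := by exact_mod_cast h2
  rw [Real.dist_eq, sub_zero, abs_of_nonneg (avg_nonneg _ _ n)]
  have h3 : ∑ i ∈ Finset.range n, dist (g^[i] (p z)) (y i) ≤
      ∑ i ∈ Finset.range n, (ε / 4 + M * dist (f^[i] z) (x i)) +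
        ∑ i ∈ Finset.range n, c (κ i) i := by
    rw [← Finset.sum_add_distrib]
    apply Finset.sum_le_sum
    intro i _
    have h4 := hM' (f^[i] z) (x i)
    rw [hfg] at h4
    have h5 : dist (p (x i)) (y i) ≤ c (κ i) i := le_add_of_nonneg_right dist_nonneg
    exact (dist_triangle _ (p (x i)) _).trans (by linarith)
  have h4 : ∑ i ∈ Finset.range n, (ε / 4 + M * dist (f^[i] z) (x i)) =
      n * (ε / 4) + M * ∑ i ∈ Finset.range n, dist (f^[i] z) (x i) := by
    rw [Finset.sum_add_distrib, Finset.sum_const, Finset.card_range, nsmul_eq_mul,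
      Finset.mul_sum]
  rw [h4] at h3
  calc (1 / (n : ℝ)) * ∑ i ∈ Finset.range n, dist (g^[i] (p z)) (y i)
      ≤ (1 / (n : ℝ)) * (n * (ε / 4) + M * ∑ i ∈ Finset.range n, dist (f^[i] z) (x i) +
        ∑ i ∈ Finset.range n, c (κ i) i) := by gcongr
    _ = ε / 4 + (M * ((1 / (n : ℝ)) * ∑ i ∈ Finset.range n,
      dist (f^[i] z) (x i)) + (1 / (n : ℝ)) * ∑ i ∈ Finset.range n, c (κ i) i) := by
        field_simp
        ring
    _ < ε / 4 + ε / 2 := by linarith
    _ < ε := by linarith

end Q69.AvgFactor
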