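import Mathlib

/-!
# Recurrent points built from blocks with long gaps

Bi-infinite sequences over an alphabet with a neutral letter, built from a list of blocks such that
every window sees at most one block, up to linearly many exceptions.
-/

set_option autoImplicit false
open Set Filter Topology

namespace Q69Block

/-- the alphabet: a neutral letter, a centre of each of two kinds, letters of each kind -/
abbrev A (V : Type) : Type := Option (Bool × Option V)

variable {V : Type}

/-- the type of a letter -/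
def ty : A V → Option (Bool × Bool)
  | none => none
  | some (b, none) => some (b, false)
  | some (b, some _) => some (b, true)

/-- a block: a finite word, extended by the neutral letter -/
@[ext] structure Blk (V : Type) where
  /-- the length -/
  len : ℕ
  /-- the word -/
  f : ℤ → A V
  pos : 0 < len
  out : ∀ i : ℤ, i < 0 ∨ (len : ℤ) ≤ i → f i = none
  first : f 0 ≠ none
  last : f (len - 1) ≠ none
  adj : ∀ i, f i ≠ none → f (i + 1) ≠ none → ty (f i) = ty (f (i + 1))
  gap : ∀ (i : ℤ) (l : ℕ), 1 ≤ l → f i ≠ none →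
    (∀ j, i < j → j < i + 2 * l + 1 → f j = none) → f (i + 2 * l + 1) ≠ none →
    ty (f i) = some (false, true) ∧ ty (f (i + 2 * l + 1)) = some (true, true)

/-- concatenation with an odd gap `2 a + 1` -/
def cat (B C : Blk V) (a : ℕ) : Blk V where
  len := B.len + (2 * a + 1) + C.len
  f i := if i < B.len + (2 * a + 1) then B.f i else C.f (i - B.len - (2 * a + 1))
  pos := by have := B.pos; omega
  out i hi := by
    have hB := B.pos
    have hC := C.pos
    split_ifs with h
    · exact B.out i (by omega)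
    · exact C.out _ (by push_cast at hi ⊢; omega)
  first := by
    have hB := B.pos
    rw [if_pos (by omega)]; exact B.first
  last := by
    have hC := C.pos
    rw [if_neg (by push_cast; omega)]
    have : ((B.len + (2 * a + 1) + C.len : ℕ) : ℤ) - 1 - B.len - (2 * a + 1) = C.len - 1 := by
      push_cast; ring
    rw [this]; exact C.last
  adj i h1 h2 := by
    by_cases h : i + 1 < B.len + (2 * a + 1)
    · rw [if_pos (show i < B.len + (2 * a + 1) by omega)] at h1 ⊢
      rw [if_pos h] at h2 ⊢
      exact B.adj i h1 h2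
    · by_cases h' : i < B.len + (2 * a + 1)
      · rw [if_pos h'] at h1
        exact absurd (B.out i (by omega)) h1
      · have e : i + 1 - B.len - (2 * a + 1) = i - B.len - (2 * a + 1) + 1 := by ring
        rw [if_neg h'] at h1 ⊢
        rw [if_neg h, e] at h2 ⊢
        exact C.adj _ h1 h2
  gap i l hl h1 h2 h3 := by
    by_cases h : i + 2 * l + 1 < B.len + (2 * a + 1)
    · rw [if_pos (by omega)] at h1
      rw [if_pos h] at h3
      rw [if_pos (by omega), if_pos h]
      refine B.gap i l hl h1 (fun j hj1 hj2 => ?_) h3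
      have := h2 j hj1 hj2
      rwa [if_pos (by omega)] at this
    · by_cases h' : i < B.len + (2 * a + 1)
      · exfalso
        rw [if_pos h'] at h1
        rw [if_neg h] at h3
        have e1 : i = B.len - 1 := by
          by_contra hne
          have hlt : i < B.len - 1 := by
            by_contra hcon
            exact h1 (B.out i (by omega))
          have := h2 (B.len - 1) hlt (by omega)
          rw [if_pos (by omega)] at this
          exact B.last this
        have e2 : i + 2 * l + 1 = B.len + (2 * a + 1) := by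
          by_contra hne
          have := h2 (B.len + (2 * a + 1)) (by omega) (by omega)
          rw [if_neg (by omega)] at this
          have e3 : (B.len : ℤ) + (2 * a + 1) - B.len - (2 * a + 1) = 0 := by ring
          rw [e3] at this
          exact C.first this
        omega
      · rw [if_neg h'] at h1 ⊢
        rw [if_neg h] at h3 ⊢
        have e : i + 2 * l + 1 - B.len - (2 * a + 1) = (i - B.len - (2 * a + 1)) + 2 * l + 1 := by
          ring
        rw [e] at h3 ⊢
        refine C.gap _ l hl h1 (fun j hj1 hj2 => ?_) h3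
        have := h2 (j + B.len + (2 * a + 1)) (by omega) (by omega)
        rw [if_neg (by omega)] at this
        have e3 : j + B.len + (2 * a + 1) - B.len - (2 * a + 1) = j := by ring
        rwa [e3] at this

lemma cat_f_left {B C : Blk V} {a : ℕ} {i : ℤ} (h : i < B.len + (2 * a + 1)) :
    (cat B C a).f i = B.f i := if_pos h

lemma cat_f_right {B C : Blk V} {a : ℕ} {i : ℤ} (h : -(2 * a + 1) ≤ i) :
    (cat B C a).f (B.len + (2 * a + 1) + i) = C.f i := by
  change (if _ then _ else _) = _
  split_ifs with h1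
  · rw [B.out _ (by omega), C.out _ (by omega)]
  · congr 1; ring

variable (u : ℕ → Blk V)

/-- half of the gap after `B` and `C` -/
def ha (B C : Blk V) : ℕ := B.len + C.len

/-- the approximations of the recurrent point -/
def w : ℕ → Blk V
  | 0 => u 0
  | k + 1 => cat (cat (w k) (u k) (ha (w k) (u k))) (w k) (ha (w k) (u k))

/-- the gaps -/
def g (k : ℕ) : ℕ := 2 * ((w u k).len + (u k).len) + 1

lemma w_len (k : ℕ) : (w u (k + 1)).len = 2 * (w u k).len + (u k).len + 2 * g u k := by
  change ((w u k).len + (2 * ha (w u k) (u k) + 1) + (u k).len) + (2 * ha (w u k) (u k) + 1) +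
    (w u k).len = _
  unfold g ha
  ring

lemma w_len_lt (k : ℕ) : (w u (k + 1)).len < 3 * g u k := by
  rw [w_len]; unfold g; omega

lemma g_lt_len (k : ℕ) : g u k < (w u (k + 1)).len := by
  rw [w_len]; unfold g; omega

lemma g_mono {j k : ℕ} (h : j ≤ k) : g u j ≤ g u k := by
  induction k, h using Nat.le_induction with
  | base => exact le_rfl
  | succ k _ ih =>
    have h1 := g_lt_len u k
    have h2 : g u (k + 1) = 2 * ((w u (k + 1)).len + (u (k + 1)).len) + 1 := rfl
    omega

lemma len_mono {j k : ℕ} (h : j ≤ k) : (w u j).len ≤ (w u k).len := by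
  induction k, h using Nat.le_induction with
  | base => exact le_rfl
  | succ k _ ih =>
    have h1 := w_len u k
    omega

lemma len_gt (k : ℕ) : k < (w u k).len := by
  induction k with
  | zero => exact (w u 0).pos
  | succ k ih =>
    have h1 := w_len u k
    omega

lemma lt_g (k : ℕ) : k < g u k := by
  have := len_gt u k
  unfold g; omega

lemma w_succ_left {k : ℕ} {i : ℤ} (h : i < (w u k).len + g u k) :
    (w u (k + 1)).f i = (w u k).f i := by
  have e : (2 * (ha (w u k) (u k) : ℤ) + 1) = g u k := by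
    unfold g ha; push_cast; ring
  change (cat (cat (w u k) (u k) (ha (w u k) (u k))) (w u k) (ha (w u k) (u k))).f i = _
  rw [cat_f_left, cat_f_left]
  · rw [e]; exact h
  · rw [e]
    change i < ((w u k).len + (2 * ha (w u k) (u k) + 1) + (u k).len : ℕ) + _
    push_cast
    rw [e]
    omega

lemma w_left {k K : ℕ} (hK : k ≤ K) {i : ℤ} (h : i < (w u k).len + g u k) :
    (w u K).f i = (w u k).f i := by
  induction K, hK using Nat.le_induction with
  | base => rfl
  | succ K hk ih =>
    rw [w_succ_left, ih]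
    have h1 := len_mono u hk
    have h2 := g_mono u hk
    omega

/-- the recurrent point -/
def xs (i : ℤ) : A V := (w u i.toNat).f i

lemma xs_eq {K : ℕ} {i : ℤ} (h : i < (w u K).len + g u K) : xs u i = (w u K).f i := by
  unfold xs
  have h1 : i < (w u i.toNat).len + g u i.toNat := by
    have := len_gt u i.toNat
    omega
  rcases le_total K i.toNat with h2 | h2
  · exact w_left u h2 h
  · exact (w_left u h2 h1).symm

lemma xs_neg {i : ℤ} (h : i < 0) : xs u i = none := (w u _).out i (Or.inl h)

/-- the second copy of `w k` in `w (k + 1)` -/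
lemma w_copy {k : ℕ} {i : ℤ} (h : -(g u k : ℤ) ≤ i) :
    (w u (k + 1)).f ((w u k).len + (u k).len + 2 * g u k + i) = (w u k).f i := by
  have e : (2 * (ha (w u k) (u k) : ℤ) + 1) = g u k := by
    unfold g ha; push_cast; ring
  have := cat_f_right (B := cat (w u k) (u k) (ha (w u k) (u k))) (C := w u k)
    (a := ha (w u k) (u k)) (i := i) (by rw [e]; exact h)
  rw [← this]
  change (w u (k + 1)).f _ = (w u (k + 1)).f _
  congr 1
  change _ = (((w u k).len + (2 * ha (w u k) (u k) + 1) + (u k).len : ℕ) : ℤ) + _ + i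
  push_cast
  rw [e]; ring

/-- the copy of `u k` in `w (k + 1)` -/
lemma u_copy {k : ℕ} {i : ℤ} (h1 : -(g u k : ℤ) ≤ i) (h2 : i < (u k).len + g u k) :
    (w u (k + 1)).f ((w u k).len + g u k + i) = (u k).f i := by
  have e : (2 * (ha (w u k) (u k) : ℤ) + 1) = g u k := by
    unfold g ha; push_cast; ring
  change (cat (cat (w u k) (u k) (ha (w u k) (u k))) (w u k) (ha (w u k) (u k))).f _ = _
  rw [cat_f_left]
  · rw [← e, cat_f_right]
    rw [e]; exact h1
  · change _ < (((w u k).len + (2 * ha (w u k) (u k) + 1) + (u k).len : ℕ) : ℤ) + _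
    push_cast
    rw [e]; omega

/-- the subshift -/
def X : Set (ℤ → A V) := {x | ∀ N : ℕ, ∃ m : ℤ, ∀ i : ℤ, |i| ≤ N → x i = xs u (m + i)}

lemma X_blk {x : ℤ → A V} (hx : x ∈ X u) (N : ℕ) :
    ∃ (K : ℕ) (m : ℤ), ∀ i : ℤ, |i| ≤ N → x i = (w u K).f (m + i) := by
  obtain ⟨m, hm⟩ := hx N
  refine ⟨(m + N).toNat, m, fun i hi => ?_⟩
  rw [hm i hi, xs_eq u (K := (m + N).toNat)]
  have := len_gt u (m + N).toNat
  rw [abs_le] at hi
  omega

lemma X_shift {x : ℤ → A V} (hx : x ∈ X u) (a : ℤ) : (fun i => x (i + a)) ∈ X u := by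
  intro N
  obtain ⟨m, hm⟩ := hx (N + a.natAbs)
  refine ⟨m + a, fun i hi => ?_⟩
  have : |i + a| ≤ ((N + a.natAbs : ℕ) : ℤ) := by
    rw [Int.abs_eq_natAbs] at hi ⊢
    omega
  simp only
  rw [hm _ this]
  congr 1; ring

lemma xs_mem : xs u ∈ X u := fun _ => ⟨0, fun _ _ => by rw [zero_add]⟩

lemma none_mem : (fun _ => none) ∈ X u := by
  intro N
  refine ⟨-(N + 1), fun i hi => ?_⟩
  rw [xs_neg u (by rw [abs_le] at hi; omega)]

lemma recur (m : ℤ) (N : ℕ) : ∃ n : ℕ, ∀ i : ℤ, |i| ≤ N → xs u (m + i) = xs u (n + i) := by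
  set K := m.natAbs + N with hK
  have h1 := len_gt u K
  have h2 := lt_g u K
  have h3 := w_len u K
  refine ⟨(m + ((w u K).len + (u K).len + 2 * g u K)).toNat, fun i hi => ?_⟩
  rw [abs_le] at hi
  have e : (((m + ((w u K).len + (u K).len + 2 * g u K)).toNat : ℕ) : ℤ) + i =
      (w u K).len + (u K).len + 2 * g u K + (m + i) := by
    rw [Int.toNat_of_nonneg (by omega)]; ring
  have e1 : xs u (m + i) = (w u K).f (m + i) := xs_eq u (by omega)
  have e2 : xs u ((w u K).len + (u K).len + 2 * g u K + (m + i)) =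
      (w u (K + 1)).f ((w u K).len + (u K).len + 2 * g u K + (m + i)) := xs_eq u (by omega)
  rw [e, e1, e2, w_copy u (by omega)]

lemma blk_mem {B : Blk V} (h : ∀ n, ∃ j ≥ n, u j = B) : B.f ∈ X u := by
  intro N
  obtain ⟨j, hj, hB⟩ := h N
  have h1 := lt_g u j
  have h2 := w_len u j
  refine ⟨(w u j).len + g u j, fun i hi => ?_⟩
  rw [abs_le] at hi
  by_cases hlt : i < (u j).len + g u j
  · rw [xs_eq u (K := j + 1) (by omega), u_copy u (by omega) hlt, hB]
  · exfalso; omega

/-- windows of length `T` are windows of members of `S` -/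
def Loc (S : Set (Blk V)) (T : ℕ) (x : ℤ → A V) : Prop :=
  ∀ i : ℤ, ∃ B ∈ S, ∃ i' : ℤ, ∀ t : ℕ, t < T → x (i + t) = B.f (i' + t)

omit u in
lemma loc_cat {S : Set (Blk V)} {T a : ℕ} {B C : Blk V} (hB : Loc S T B.f) (hC : Loc S T C.f)
    (hT : T ≤ 2 * a + 1) : Loc S T (cat B C a).f := by
  intro i
  by_cases h : i + T ≤ B.len + (2 * a + 1)
  · obtain ⟨D, hD, i', hi'⟩ := hB i
    refine ⟨D, hD, i', fun t ht => ?_⟩
    rw [cat_f_left (by omega), hi' t ht]
  · obtain ⟨D, hD, i', hi'⟩ := hC (i - B.len - (2 * a + 1))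
    refine ⟨D, hD, i', fun t ht => ?_⟩
    have e : i + t = B.len + (2 * a + 1) + (i - B.len - (2 * a + 1) + t) := by ring
    rw [e, cat_f_right (by omega), hi' t ht]

lemma loc_w {T k : ℕ} (hT : T ≤ g u k) {K : ℕ} (hK : k ≤ K) :
    Loc ({w u k} ∪ {B | ∃ j ≥ k, B = u j}) T (w u K).f := by
  induction K, hK using Nat.le_induction with
  | base => exact fun i => ⟨w u k, Or.inl rfl, i, fun _ _ => rfl⟩
  | succ K hK ih =>
    have h1 : Loc ({w u k} ∪ {B | ∃ j ≥ k, B = u j}) T (u K).f :=
      fun i => ⟨u K, Or.inr ⟨K, hK, rfl⟩, i, fun _ _ => rfl⟩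
    have h2 : T ≤ 2 * ha (w u K) (u K) + 1 := by
      have := g_mono u hK
      unfold g ha at *
      omega
    exact loc_cat (loc_cat ih h1 h2) ih h2

lemma loc_X {T k : ℕ} (hT : T ≤ g u k) {x : ℤ → A V} (hx : x ∈ X u) :
    Loc ({w u k} ∪ {B | ∃ j ≥ k, B = u j}) T x := by
  intro i
  obtain ⟨m, hm⟩ := hx (i.natAbs + T)
  set K := max k (m + i.natAbs + T).toNat with hK
  obtain ⟨B, hB, i', hi'⟩ := loc_w u hT (le_max_left k (m + i.natAbs + T).toNat) (m + i)
  refine ⟨B, hB, i', fun t ht => ?_⟩
  rw [← hi' t ht, hm (i + t) (by rw [Int.abs_eq_natAbs]; omega), xs_eq u (K := K)]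
  · congr 1; ring
  · have h1 := len_gt u K
    have h2 : (m + i.natAbs + T).toNat ≤ K := le_max_right _ _
    omega

lemma X_adj {x : ℤ → A V} (hx : x ∈ X u) {i : ℤ} (h1 : x i ≠ none) (h2 : x (i + 1) ≠ none) :
    ty (x i) = ty (x (i + 1)) := by
  obtain ⟨K, m, hm⟩ := X_blk u hx (i.natAbs + 1)
  have e1 := hm i (by rw [Int.abs_eq_natAbs]; omega)
  have e2 := hm (i + 1) (by rw [Int.abs_eq_natAbs]; omega)
  rw [e1] at h1 ⊢
  rw [e2, ← add_assoc] at h2 ⊢
  exact (w u K).adj _ h1 h2

lemma X_gap {x : ℤ → A V} (hx : x ∈ X u) {i : ℤ} {l : ℕ} (hl : 1 ≤ l) (h1 : x i ≠ none)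
    (h2 : ∀ j, i < j → j < i + 2 * l + 1 → x j = none) (h3 : x (i + 2 * l + 1) ≠ none) :
    ty (x i) = some (false, true) ∧ ty (x (i + 2 * l + 1)) = some (true, true) := by
  obtain ⟨K, m, hm⟩ := X_blk u hx (i.natAbs + 2 * l + 1)
  have e1 := hm i (by rw [Int.abs_eq_natAbs]; omega)
  have e2 := hm (i + 2 * l + 1) (by rw [Int.abs_eq_natAbs]; omega)
  have e3 : m + (i + 2 * l + 1) = (m + i) + 2 * l + 1 := by ring
  rw [e1] at h1 ⊢
  rw [e2, e3] at h3 ⊢
  refine (w u K).gap _ l hl h1 (fun j hj1 hj2 => ?_) h3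
  have := h2 (j - m) (by omega) (by omega)
  rw [hm (j - m) (by rw [Int.abs_eq_natAbs]; omega)] at this
  rwa [add_sub_cancel] at this

end Q69Block
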