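import Mathlib
import Pool.Agent.Q69.Block

/-!
# The blocks used, and the classification of the windows
-/

set_option autoImplicit false
open Set Filter Topology

namespace Q69BlockForm

open Q69Block

variable {V : Type}

/-- the lengths of the inner gaps -/
def mm (k : ℕ) : ℕ := 64 ^ (2 * k + 2)

/-- the lengths of the halves -/
def nk (k : ℕ) : ℕ := 64 ^ (2 * k + 3)

/-- the lengths of the mixed blocks -/
def wk (k : ℕ) : ℕ := 2 * nk k + mm k

lemma nk_pos (k : ℕ) : 0 < nk k := by unfold nk; positivity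

lemma mm_pos (k : ℕ) : 0 < mm k := by unfold mm; positivity

/-- a block of letters of one kind -/
def pureB (b : Bool) (a : ℕ) (ha : 0 < a) (v : ℕ → V) : Blk V where
  len := a
  f i := if 0 ≤ i ∧ i < a then some (b, some (v i.toNat)) else none
  pos := ha
  out i hi := if_neg (by omega)
  first := by rw [if_pos (by omega)]; exact Option.some_ne_none _
  last := by rw [if_pos (by omega)]; exact Option.some_ne_none _
  adj i h1 h2 := by
    have e1 : 0 ≤ i ∧ i < a := by
      by_contra h; rw [if_neg h] at h1; exact h1 rfl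
    have e2 : 0 ≤ i + 1 ∧ i + 1 < a := by
      by_contra h; rw [if_neg h] at h2; exact h2 rfl
    rw [if_pos e1, if_pos e2]; rfl
  gap i l hl h1 h2 h3 := by
    exfalso
    have e1 : 0 ≤ i ∧ i < a := by
      by_contra h; rw [if_neg h] at h1; exact h1 rfl
    have e3 : 0 ≤ i + 2 * l + 1 ∧ i + 2 * l + 1 < a := by
      by_contra h; rw [if_neg h] at h3; exact h3 rfl
    have := h2 (i + 1) (by omega) (by omega)
    rw [if_pos (by omega)] at this
    exact Option.some_ne_none _ this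

/-- a block of centres -/
def cenB (b : Bool) (a : ℕ) (ha : 0 < a) : Blk V where
  len := a
  f i := if 0 ≤ i ∧ i < a then some (b, none) else none
  pos := ha
  out i hi := if_neg (by omega)
  first := by rw [if_pos (by omega)]; exact Option.some_ne_none _
  last := by rw [if_pos (by omega)]; exact Option.some_ne_none _
  adj i h1 h2 := by
    have e1 : 0 ≤ i ∧ i < a := by
      by_contra h; rw [if_neg h] at h1; exact h1 rfl
    have e2 : 0 ≤ i + 1 ∧ i + 1 < a := by
      by_contra h; rw [if_neg h] at h2; exact h2 rfl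
    rw [if_pos e1, if_pos e2]
  gap i l hl h1 h2 h3 := by
    exfalso
    have e1 : 0 ≤ i ∧ i < a := by
      by_contra h; rw [if_neg h] at h1; exact h1 rfl
    have e3 : 0 ≤ i + 2 * l + 1 ∧ i + 2 * l + 1 < a := by
      by_contra h; rw [if_neg h] at h3; exact h3 rfl
    have := h2 (i + 1) (by omega) (by omega)
    rw [if_pos (by omega)] at this
    exact Option.some_ne_none _ this

/-- the word of a mixed block -/
def mixf (k : ℕ) (g h : ℕ → V) (i : ℤ) : A V :=
  if 0 ≤ i ∧ i < nk k then some (false, some (g i.toNat))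
  else if nk k + mm k ≤ i ∧ i < wk k then some (true, some (h (i - nk k - mm k).toNat))
  else none

lemma mixf_G {k : ℕ} {g h : ℕ → V} {i : ℤ} (h1 : 0 ≤ i ∧ i < nk k) :
    mixf k g h i = some (false, some (g i.toNat)) := if_pos h1

lemma mixf_H {k : ℕ} {g h : ℕ → V} {i : ℤ} (h1 : nk k + mm k ≤ i ∧ i < wk k) :
    mixf k g h i = some (true, some (h (i - nk k - mm k).toNat)) := by
  unfold mixf
  rw [if_neg (by omega), if_pos h1]

lemma mixf_J {k : ℕ} {g h : ℕ → V} {i : ℤ} (h1 : ¬ (0 ≤ i ∧ i < nk k))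
    (h2 : ¬ (nk k + mm k ≤ i ∧ i < wk k)) : mixf k g h i = none := by
  unfold mixf
  rw [if_neg h1, if_neg h2]

lemma mixf_cases (k : ℕ) (g h : ℕ → V) (i : ℤ) :
    ((0 ≤ i ∧ i < nk k) ∧ ty (mixf k g h i) = some (false, true)) ∨
    ((nk k + mm k ≤ i ∧ i < wk k) ∧ ty (mixf k g h i) = some (true, true)) ∨
    ((¬ (0 ≤ i ∧ i < nk k) ∧ ¬ (nk k + mm k ≤ i ∧ i < wk k)) ∧ mixf k g h i = none) := by
  by_cases h1 : 0 ≤ i ∧ i < nk k
  · exact Or.inl ⟨h1, by rw [mixf_G h1]; rfl⟩
  · by_cases h2 : nk k + mm k ≤ i ∧ i < wk k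
    · exact Or.inr (Or.inl ⟨h2, by rw [mixf_H h2]; rfl⟩)
    · exact Or.inr (Or.inr ⟨⟨h1, h2⟩, mixf_J h1 h2⟩)

/-- a mixed block -/
def mixB (k : ℕ) (g h : ℕ → V) : Blk V where
  len := wk k
  f := mixf k g h
  pos := by unfold wk; have := nk_pos k; omega
  out i hi := mixf_J (by unfold wk at hi; push_cast at hi; omega)
    (by unfold wk at hi ⊢; push_cast at hi ⊢; omega)
  first := by
    have := nk_pos k
    rw [mixf_G (by omega)]; exact Option.some_ne_none _
  last := by
    have := nk_pos k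
    rw [mixf_H (by unfold wk; push_cast; omega)]; exact Option.some_ne_none _
  adj i h1 h2 := by
    have := nk_pos k
    have := mm_pos k
    rcases mixf_cases k g h i with ⟨a1, a2⟩ | ⟨a1, a2⟩ | ⟨a1, a2⟩ <;>
    rcases mixf_cases k g h (i + 1) with ⟨b1, b2⟩ | ⟨b1, b2⟩ | ⟨b1, b2⟩
    · rw [a2, b2]
    · exfalso; omega
    · exact absurd b2 h2
    · exfalso; omega
    · rw [a2, b2]
    · exact absurd b2 h2
    · exact absurd a2 h1
    · exact absurd a2 h1
    · exact absurd a2 h1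
  gap i l hl h1 h2 h3 := by
    have := nk_pos k
    have := mm_pos k
    have h4 := h2 (i + 1) (by omega) (by omega)
    rcases mixf_cases k g h i with ⟨a1, a2⟩ | ⟨a1, a2⟩ | ⟨a1, a2⟩
    · refine ⟨a2, ?_⟩
      rcases mixf_cases k g h (i + 1) with ⟨b1, b2⟩ | ⟨b1, b2⟩ | ⟨b1, b2⟩
      · rw [h4] at b2; exact absurd b2 (by simp [ty])
      · rw [h4] at b2; exact absurd b2 (by simp [ty])
      · rcases mixf_cases k g h (i + 2 * l + 1) with ⟨c1, c2⟩ | ⟨c1, c2⟩ | ⟨c1, c2⟩
        · exfalso; omega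
        · exact c2
        · exact absurd c2 h3
    · exfalso
      rcases mixf_cases k g h (i + 1) with ⟨b1, b2⟩ | ⟨b1, b2⟩ | ⟨b1, b2⟩
      · omega
      · rw [h4] at b2; exact absurd b2 (by simp [ty])
      · rcases mixf_cases k g h (i + 2 * l + 1) with ⟨c1, c2⟩ | ⟨c1, c2⟩ | ⟨c1, c2⟩
        · omega
        · omega
        · exact h3 c2
    · exact absurd a2 h1

/-- the blocks used -/
def Form (B : Blk V) : Prop :=
  (∃ b a ha v, B = pureB b a ha v) ∨ (∃ b a ha, B = cenB b a ha) ∨ ∃ k g h, B = mixB k g h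

lemma countable_Blk [Countable V] : Countable (Blk V) := by
  have : Function.Injective fun B : Blk V => List.ofFn fun i : Fin B.len => B.f i := by
    intro B C h
    have h1 : B.len = C.len := by
      have := congrArg List.length h
      simpa using this
    have h2 : ∀ i : ℕ, i < B.len → B.f i = C.f i := by
      intro i hi
      have h3 := congrArg (fun l => l[i]?) h
      simp only [List.getElem?_ofFn] at h3
      rw [dif_pos hi, dif_pos (h1 ▸ hi)] at h3
      exact Option.some.inj h3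
    apply Blk.ext h1
    funext i
    by_cases hi : 0 ≤ i ∧ i < B.len
    · obtain ⟨n, rfl⟩ := Int.eq_ofNat_of_zero_le hi.1
      exact h2 n (by omega)
    · rw [B.out i (by omega), C.out i (by omega)]
  exact this.countable

lemma exists_enum [Countable V] [Nonempty V] : ∃ u : ℕ → Blk V, (∀ j, Form (u j)) ∧
    ∀ B, Form B → ∀ n, ∃ j ≥ n, u j = B := by
  haveI : Countable (Blk V) := countable_Blk
  haveI : Nonempty {B : Blk V // Form B} :=
    ⟨⟨pureB true 1 one_pos fun _ => Classical.arbitrary V, Or.inl ⟨_, _, _, _, rfl⟩⟩⟩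
  obtain ⟨e, he⟩ := exists_surjective_nat {B : Blk V // Form B}
  refine ⟨fun j => (e (Nat.unpair j).1).1, fun j => (e _).2, fun B hB n => ?_⟩
  obtain ⟨m, hm⟩ := he ⟨B, hB⟩
  refine ⟨Nat.pair m n, Nat.right_le_pair m n, ?_⟩
  simp only [Nat.unpair_pair]
  rw [hm]

/-! ### Patterns of windows -/

/-- letters of one kind on an interval -/
def IsL (T : ℕ) (b : Bool) (x : ℤ → A V) : Prop := ∃ a₁ a₂ : ℕ, a₁ ≤ T ∧ a₂ ≤ T ∧
  ∀ t : ℕ, t < T → (a₁ ≤ t → t < a₂ → ty (x t) = some (b, true)) ∧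
    (¬ (a₁ ≤ t ∧ t < a₂) → x t = none)

/-- centres of one kind on an interval -/
def IsC (T : ℕ) (b : Bool) (x : ℤ → A V) : Prop := ∃ a₁ a₂ : ℕ, a₁ ≤ T ∧ a₂ ≤ T ∧
  ∀ t : ℕ, t < T → (a₁ ≤ t → t < a₂ → x t = some (b, none)) ∧
    (¬ (a₁ ≤ t ∧ t < a₂) → x t = none)

/-- mixed windows -/
def IsM (T : ℕ) (x : ℤ → A V) : Prop := ∃ k, mm k < T ∧ ∃ a₁ a₂ a₃ a₄ : ℕ,
  a₁ ≤ T ∧ a₂ ≤ T ∧ a₃ ≤ T ∧ a₄ ≤ T ∧ a₂ ≤ a₁ + nk k ∧ a₄ ≤ a₃ + nk k ∧ a₂ ≤ a₃ ∧
  ∀ t : ℕ, t < T → (a₁ ≤ t → t < a₂ → ty (x t) = some (false, true)) ∧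
    (a₃ ≤ t → t < a₄ → ty (x t) = some (true, true)) ∧
    (¬ (a₁ ≤ t ∧ t < a₂) → ¬ (a₃ ≤ t ∧ t < a₄) → x t = none)

/-- windows of `w k` -/
def IsE (u : ℕ → Blk V) (T k : ℕ) (x : ℤ → A V) : Prop :=
  ∃ i' : ℤ, ∀ t : ℕ, t < T → x t = (w u k).f (i' + t)

/-- clipping -/
def clip (T : ℕ) (z : ℤ) : ℕ := min T z.toNat

lemma clip_le {T : ℕ} {z : ℤ} {t : ℕ} (ht : t < T) : clip T z ≤ t ↔ z ≤ t := by
  unfold clip; omega

lemma lt_clip {T : ℕ} {z : ℤ} {t : ℕ} (ht : t < T) : t < clip T z ↔ (t : ℤ) < z := by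
  unfold clip; omega

lemma classify {u : ℕ → Blk V} (hu : ∀ j, Form (u j)) {T k : ℕ} (hT : T ≤ g u k)
    {x : ℤ → A V} (hx : x ∈ X u) :
    (∃ b, IsL T b x) ∨ (∃ b, IsC T b x) ∨ IsM T x ∨ IsE u T k x := by
  obtain ⟨B, hB, i', hi'⟩ := loc_X u hT hx 0
  simp only [zero_add] at hi'
  rcases hB with hB | ⟨j, -, hB⟩
  · have hB' : B = w u k := hB
    exact Or.inr (Or.inr (Or.inr ⟨i', fun t ht => by rw [hi' t ht, hB']⟩))
  · rcases hu j with ⟨b, a, ha, v, h⟩ | ⟨b, a, ha, h⟩ | ⟨k', g, h, h'⟩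
    · left
      refine ⟨b, clip T (-i'), clip T (a - i'), min_le_left _ _, min_le_left _ _, fun t ht => ?_⟩
      rw [hi' t ht, hB, h, clip_le ht, lt_clip ht]
      refine ⟨fun h1 h2 => ?_, fun h1 => ?_⟩
      · change ty (if _ then _ else _) = _
        rw [if_pos (by omega)]; rfl
      · change (if _ then _ else _) = _
        rw [if_neg (by omega)]
    · right; left
      refine ⟨b, clip T (-i'), clip T (a - i'), min_le_left _ _, min_le_left _ _, fun t ht => ?_⟩
      rw [hi' t ht, hB, h, clip_le ht, lt_clip ht]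
      refine ⟨fun h1 h2 => ?_, fun h1 => ?_⟩
      · change (if _ then _ else _) = _
        rw [if_pos (by omega)]
      · change (if _ then _ else _) = _
        rw [if_neg (by omega)]
    · have hn := nk_pos k'
      have hm := mm_pos k'
      have hw : (wk k' : ℤ) = 2 * nk k' + mm k' := by unfold wk; push_cast; ring
      by_cases hmT : mm k' < T
      · right; right; left
        refine ⟨k', hmT, clip T (-i'), clip T (nk k' - i'), clip T (nk k' + mm k' - i'),
          clip T (wk k' - i'), min_le_left _ _, min_le_left _ _, min_le_left _ _, min_le_left _ _,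
          by unfold clip; omega, by unfold clip; omega, by unfold clip; omega, fun t ht => ?_⟩
        rw [hi' t ht, hB, h', clip_le ht, lt_clip ht, clip_le ht, lt_clip ht]
        change (_ → _ → ty (mixf k' g h _) = _) ∧ (_ → _ → ty (mixf k' g h _) = _) ∧
          (_ → _ → mixf k' g h _ = _)
        rcases mixf_cases k' g h (i' + t) with ⟨a1, a2⟩ | ⟨a1, a2⟩ | ⟨a1, a2⟩
        · exact ⟨fun _ _ => a2, fun _ _ => by omega, fun _ _ => by omega⟩
        · exact ⟨fun _ _ => by omega, fun _ _ => a2, fun _ _ => by omega⟩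
        · exact ⟨fun _ _ => by omega, fun _ _ => by omega, fun _ _ => a2⟩
      · left
        by_cases hc : 0 < nk k' - i'
        · refine ⟨false, clip T (-i'), clip T (nk k' - i'), min_le_left _ _, min_le_left _ _,
            fun t ht => ?_⟩
          rw [hi' t ht, hB, h', clip_le ht, lt_clip ht]
          change (_ → _ → ty (mixf k' g h _) = _) ∧ (_ → mixf k' g h _ = _)
          rcases mixf_cases k' g h (i' + t) with ⟨a1, a2⟩ | ⟨a1, a2⟩ | ⟨a1, a2⟩
          · exact ⟨fun _ _ => a2, fun _ => by omega⟩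
          · exfalso; omega
          · exact ⟨fun _ _ => by omega, fun _ => a2⟩
        · refine ⟨true, clip T (nk k' + mm k' - i'), clip T (wk k' - i'), min_le_left _ _,
            min_le_left _ _, fun t ht => ?_⟩
          rw [hi' t ht, hB, h', clip_le ht, lt_clip ht]
          change (_ → _ → ty (mixf k' g h _) = _) ∧ (_ → mixf k' g h _ = _)
          rcases mixf_cases k' g h (i' + t) with ⟨a1, a2⟩ | ⟨a1, a2⟩ | ⟨a1, a2⟩
          · exfalso; omega
          · exact ⟨fun _ _ => a2, fun _ => by omega⟩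
          · exact ⟨fun _ _ => by omega, fun _ => a2⟩

end Q69BlockForm
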