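import Mathlib
import Pool.Agent.Q69.BlockForm

/-!
# Counting windows
-/

set_option autoImplicit false
open Set Filter Topology

namespace Q69BlockCount

open Q69Block Q69BlockForm

variable {V : Type} [Fintype V]

/-- a finite set of points with pairwise distinct words on `[0, T)` -/
def DW (T : ℕ) (E : Finset (ℤ → A V)) : Prop :=
  ∀ x ∈ E, ∀ y ∈ E, x ≠ y → ∃ t : ℕ, t < T ∧ x t ≠ y t

omit [Fintype V] in
lemma DW.mono {T : ℕ} {E E' : Finset (ℤ → A V)} (h : DW T E) (hE : E' ⊆ E) : DW T E' :=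
  fun x hx y hy => h x (hE hx) y (hE hy)

omit [Fintype V] in
lemma card_code {β : Type} [Fintype β] {T : ℕ} {E : Finset (ℤ → A V)} (hE : DW T E)
    (R : (ℤ → A V) → β → Prop) (hR : ∀ x ∈ E, ∃ c, R x c)
    (hinj : ∀ x ∈ E, ∀ y ∈ E, ∀ c, R x c → R y c → ∀ t : ℕ, t < T → x t = y t) :
    E.card ≤ Fintype.card β := by
  classical
  rcases E.eq_empty_or_nonempty with rfl | ⟨x₀, hx₀⟩
  · simp
  haveI : Nonempty β := ⟨(hR x₀ hx₀).choose⟩
  choose! c hc using hR
  rw [← Finset.card_univ]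
  refine Finset.card_le_card_of_injOn c (fun _ _ => Finset.mem_coe.2 (Finset.mem_univ _)) ?_
  intro x hx y hy hxy
  by_contra hne
  obtain ⟨t, ht, h⟩ := hE x hx y hy hne
  have h2 := hc y hy
  rw [← hxy] at h2
  exact h (hinj x hx y hy (c x) (hc x hx) h2 t ht)

omit [Fintype V] in
lemma card_C {T : ℕ} {b : Bool} {E : Finset (ℤ → A V)} (hE : DW T E)
    (h : ∀ x ∈ E, IsC T b x) : E.card ≤ (T + 1) ^ 2 := by
  have hc : Fintype.card (Fin (T + 1) × Fin (T + 1)) = (T + 1) ^ 2 := by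
    rw [Fintype.card_prod, Fintype.card_fin]; ring
  rw [← hc]
  refine card_code hE (fun x c => ∀ t : ℕ, t < T →
    ((c.1 : ℕ) ≤ t → t < c.2 → x t = some (b, none)) ∧ (¬ ((c.1 : ℕ) ≤ t ∧ t < c.2) → x t = none))
    (fun x hx => ?_) (fun x _ y _ c h1 h2 t ht => ?_)
  · obtain ⟨a₁, a₂, e1, e2, e3⟩ := h x hx
    exact ⟨(⟨a₁, by omega⟩, ⟨a₂, by omega⟩), e3⟩
  · by_cases hc : (c.1 : ℕ) ≤ t ∧ t < c.2
    · rw [(h1 t ht).1 hc.1 hc.2, (h2 t ht).1 hc.1 hc.2]
    · rw [(h1 t ht).2 hc, (h2 t ht).2 hc]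

/-- the letter of `V` -/
noncomputable def lt [Nonempty V] : A V → V
  | some (_, some v) => v
  | _ => Classical.arbitrary V

omit [Fintype V] in
lemma eq_of_lt [Nonempty V] {b : Bool} {x y : A V} (hx : ty x = some (b, true))
    (hy : ty y = some (b, true)) (h : lt x = lt y) : x = y := by
  rcases x with _ | ⟨b', _ | v⟩
  · exact absurd hx (by simp [ty])
  · exact absurd hx (by simp [ty])
  · rcases y with _ | ⟨b'', _ | v'⟩
    · exact absurd hy (by simp [ty])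
    · exact absurd hy (by simp [ty])
    · simp only [ty, Option.some.injEq, Prod.mk.injEq, and_true] at hx hy
      simp only [lt] at h
      rw [hx, hy, h]

lemma card_L [Nonempty V] {T : ℕ} {b : Bool} {E : Finset (ℤ → A V)} (hE : DW T E)
    (h : ∀ x ∈ E, IsL T b x) : E.card ≤ (T + 1) ^ 2 * Fintype.card V ^ T := by
  classical
  have hc : Fintype.card ((Fin (T + 1) × Fin (T + 1)) × (Fin T → V)) =
      (T + 1) ^ 2 * Fintype.card V ^ T := by
    rw [Fintype.card_prod, Fintype.card_prod, Fintype.card_fin, Fintype.card_fun, Fintype.card_fin]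
    ring
  rw [← hc]
  refine card_code hE (fun x c => (∀ t : ℕ, t < T →
    ((c.1.1 : ℕ) ≤ t → t < c.1.2 → ty (x t) = some (b, true)) ∧
      (¬ ((c.1.1 : ℕ) ≤ t ∧ t < c.1.2) → x t = none)) ∧ ∀ t : Fin T, c.2 t = lt (x t))
    (fun x hx => ?_) (fun x _ y _ c h1 h2 t ht => ?_)
  · obtain ⟨a₁, a₂, e1, e2, e3⟩ := h x hx
    exact ⟨((⟨a₁, by omega⟩, ⟨a₂, by omega⟩), fun t => lt (x t)), e3, fun _ => rfl⟩
  · by_cases hc : (c.1.1 : ℕ) ≤ t ∧ t < c.1.2
    · refine eq_of_lt ((h1.1 t ht).1 hc.1 hc.2) ((h2.1 t ht).1 hc.1 hc.2) ?_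
      rw [← h1.2 ⟨t, ht⟩, ← h2.2 ⟨t, ht⟩]
    · rw [(h1.1 t ht).2 hc, (h2.1 t ht).2 hc]

lemma card_M [Nonempty V] {T : ℕ} {E : Finset (ℤ → A V)} (hE : DW T E)
    (h : ∀ x ∈ E, IsM T x) : E.card ≤ (T + 1) ^ 4 * Fintype.card V ^ T := by
  classical
  have hc : Fintype.card (((Fin (T + 1) × Fin (T + 1)) × (Fin (T + 1) × Fin (T + 1))) ×
      (Fin T → V)) = (T + 1) ^ 4 * Fintype.card V ^ T := by
    rw [Fintype.card_prod, Fintype.card_prod, Fintype.card_prod, Fintype.card_fin,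
      Fintype.card_fun, Fintype.card_fin]
    ring
  rw [← hc]
  refine card_code hE (fun x c => (∀ t : ℕ, t < T →
    ((c.1.1.1 : ℕ) ≤ t → t < c.1.1.2 → ty (x t) = some (false, true)) ∧
    ((c.1.2.1 : ℕ) ≤ t → t < c.1.2.2 → ty (x t) = some (true, true)) ∧
      (¬ ((c.1.1.1 : ℕ) ≤ t ∧ t < c.1.1.2) → ¬ ((c.1.2.1 : ℕ) ≤ t ∧ t < c.1.2.2) → x t = none)) ∧
      ∀ t : Fin T, c.2 t = lt (x t))
    (fun x hx => ?_) (fun x _ y _ c h1 h2 t ht => ?_)
  · obtain ⟨-, -, a₁, a₂, a₃, a₄, e1, e2, e3, e4, -, -, -, e⟩ := h x hx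
    exact ⟨(((⟨a₁, by omega⟩, ⟨a₂, by omega⟩), (⟨a₃, by omega⟩, ⟨a₄, by omega⟩)),
      fun t => lt (x t)), e, fun _ => rfl⟩
  · have hl : lt (x t) = lt (y t) := by rw [← h1.2 ⟨t, ht⟩, ← h2.2 ⟨t, ht⟩]
    by_cases hc : (c.1.1.1 : ℕ) ≤ t ∧ t < c.1.1.2
    · exact eq_of_lt ((h1.1 t ht).1 hc.1 hc.2) ((h2.1 t ht).1 hc.1 hc.2) hl
    · by_cases hc' : (c.1.2.1 : ℕ) ≤ t ∧ t < c.1.2.2
      · exact eq_of_lt ((h1.1 t ht).2.1 hc'.1 hc'.2) ((h2.1 t ht).2.1 hc'.1 hc'.2) hl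
      · rw [(h1.1 t ht).2.2 hc hc', (h2.1 t ht).2.2 hc hc']

lemma mm_lt {k k' : ℕ} (h : mm k < mm k') : k < k' := by
  by_contra hcon
  push Not at hcon
  have : mm k' ≤ mm k := Nat.pow_le_pow_right (by norm_num) (by omega)
  omega

lemma nk_mono {k k' : ℕ} (h : k ≤ k') : nk k ≤ nk k' :=
  Nat.pow_le_pow_right (by norm_num) (by omega)

/-- the mixed windows at the scale `mm (k + 1)` are few -/
lemma card_M' {k : ℕ} {E : Finset (ℤ → A V)} (hE : DW (mm (k + 1)) E)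
    (h : ∀ x ∈ E, IsM (mm (k + 1)) x) :
    E.card ≤ (mm (k + 1) + 1) ^ 4 * Fintype.card (A V) ^ (2 * nk k) := by
  classical
  set T := mm (k + 1) with hT
  have hc : Fintype.card (((Fin (T + 1) × Fin (T + 1)) × (Fin (T + 1) × Fin (T + 1))) ×
      ((Fin (nk k) → A V) × (Fin (nk k) → A V))) =
      (T + 1) ^ 4 * Fintype.card (A V) ^ (2 * nk k) := by
    rw [Fintype.card_prod, Fintype.card_prod, Fintype.card_prod, Fintype.card_fin,
      Fintype.card_prod, Fintype.card_fun, Fintype.card_fin]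
    ring
  rw [← hc]
  refine card_code hE (fun x c => (∀ t : ℕ, t < T →
      (¬ ((c.1.1.1 : ℕ) ≤ t ∧ t < c.1.1.2) → ¬ ((c.1.2.1 : ℕ) ≤ t ∧ t < c.1.2.2) → x t = none)) ∧
      (c.1.1.2 : ℕ) ≤ c.1.1.1 + nk k ∧ (c.1.2.2 : ℕ) ≤ c.1.2.1 + nk k ∧
      (∀ t : Fin (nk k), c.2.1 t = x (c.1.1.1 + t : ℕ)) ∧
      ∀ t : Fin (nk k), c.2.2 t = x (c.1.2.1 + t : ℕ))
    (fun x hx => ?_) (fun x _ y _ c h1 h2 t ht => ?_)
  · obtain ⟨k', hk', a₁, a₂, a₃, a₄, e1, e2, e3, e4, e5, e6, -, e⟩ := h x hx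
    have hkk : k' ≤ k := Nat.lt_succ_iff.1 (mm_lt hk')
    have := nk_mono hkk
    exact ⟨(((⟨a₁, by omega⟩, ⟨a₂, by omega⟩), (⟨a₃, by omega⟩, ⟨a₄, by omega⟩)),
      (fun t => x (a₁ + t : ℕ), fun t => x (a₃ + t : ℕ))),
      fun t ht => (e t ht).2.2, by simp only; omega, by simp only; omega, fun _ => rfl,
      fun _ => rfl⟩
  · obtain ⟨p1, p2, p3, p4, p5⟩ := h1
    obtain ⟨q1, -, -, q4, q5⟩ := h2
    by_cases hc : (c.1.1.1 : ℕ) ≤ t ∧ t < c.1.1.2
    · have e1 := p4 ⟨t - c.1.1.1, by omega⟩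
      have e2 := q4 ⟨t - c.1.1.1, by omega⟩
      simp only [Nat.add_sub_cancel' hc.1] at e1 e2
      rw [← e1, ← e2]
    · by_cases hc' : (c.1.2.1 : ℕ) ≤ t ∧ t < c.1.2.2
      · have e1 := p5 ⟨t - c.1.2.1, by omega⟩
        have e2 := q5 ⟨t - c.1.2.1, by omega⟩
        simp only [Nat.add_sub_cancel' hc'.1] at e1 e2
        rw [← e1, ← e2]
      · rw [p1 t ht hc hc', q1 t ht hc hc']

omit [Fintype V] in
lemma card_E {u : ℕ → Blk V} {T k : ℕ} {E : Finset (ℤ → A V)} (hE : DW T E)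
    (h : ∀ x ∈ E, IsE u T k x) : E.card ≤ (w u k).len + T + 1 := by
  have hc : Fintype.card (Fin ((w u k).len + T + 1)) = (w u k).len + T + 1 := Fintype.card_fin _
  rw [← hc]
  refine card_code hE (fun x c => ∀ t : ℕ, t < T → x t = (w u k).f ((c : ℕ) - T + t))
    (fun x hx => ?_) (fun x _ y _ c h1 h2 t ht => ?_)
  · obtain ⟨i', hi'⟩ := h x hx
    refine ⟨⟨(max (-(T : ℤ)) (min i' (w u k).len) + T).toNat, by omega⟩, fun t ht => ?_⟩
    rw [hi' t ht]
    simp only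
    have e : (((max (-(T : ℤ)) (min i' (w u k).len) + T).toNat : ℕ) : ℤ) =
        max (-(T : ℤ)) (min i' (w u k).len) + T := Int.toNat_of_nonneg (by omega)
    rw [e]
    by_cases h1 : i' < -(T : ℤ)
    · rw [(w u k).out _ (by omega), (w u k).out _ (by omega)]
    · by_cases h2 : ((w u k).len : ℤ) < i'
      · rw [(w u k).out _ (by omega), (w u k).out _ (by omega)]
      · congr 1; omega
  · rw [h1 t ht, h2 t ht]

/-- a good level for the scale `T` -/
lemma exists_level (u : ℕ → Blk V) (T : ℕ) : ∃ k, T ≤ g u k ∧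
    (w u k).len ≤ 3 * T + (w u 0).len := by
  classical
  have hex : ∃ k, T ≤ g u k := ⟨T, (lt_g u T).le⟩
  refine ⟨Nat.find hex, Nat.find_spec hex, ?_⟩
  rcases Nat.eq_zero_or_pos (Nat.find hex) with h | h
  · rw [h]; omega
  · obtain ⟨j, hj⟩ : ∃ j, Nat.find hex = j + 1 := ⟨Nat.find hex - 1, by omega⟩
    have h1 := Nat.find_min hex (m := j) (by omega)
    rw [hj]
    have h2 := w_len_lt u j
    omega

/-- the number of words -/
lemma card_words [Nonempty V] {u : ℕ → Blk V} (hu : ∀ j, Form (u j)) {T : ℕ}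
    {E : Finset (ℤ → A V)} (hE : DW T E) (hX : ∀ x ∈ E, x ∈ X u) :
    E.card ≤ ((w u 0).len + 12) * (T + 1) ^ 4 * Fintype.card V ^ T := by
  classical
  obtain ⟨k, hk, hlen⟩ := exists_level u T
  have hcov : E ⊆ (E.filter fun x => IsL T false x) ∪ (E.filter fun x => IsL T true x) ∪
      (E.filter fun x => IsC T false x) ∪ (E.filter fun x => IsC T true x) ∪
      (E.filter fun x => IsM T x) ∪ (E.filter fun x => IsE u T k x) := by
    intro x hx
    simp only [Finset.mem_union, Finset.mem_filter]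
    rcases classify hu hk (hX x hx) with ⟨_ | _, h⟩ | ⟨_ | _, h⟩ | h | h <;> tauto
  have h1 := card_L (hE.mono (Finset.filter_subset (fun x => IsL T false x) E))
    fun x hx => (Finset.mem_filter.1 hx).2
  have h2 := card_L (hE.mono (Finset.filter_subset (fun x => IsL T true x) E))
    fun x hx => (Finset.mem_filter.1 hx).2
  have h3 := card_C (hE.mono (Finset.filter_subset (fun x => IsC T false x) E))
    fun x hx => (Finset.mem_filter.1 hx).2
  have h4 := card_C (hE.mono (Finset.filter_subset (fun x => IsC T true x) E))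
    fun x hx => (Finset.mem_filter.1 hx).2
  have h5 := card_M (hE.mono (Finset.filter_subset (fun x => IsM T x) E))
    fun x hx => (Finset.mem_filter.1 hx).2
  have h6 := card_E (hE.mono (Finset.filter_subset (fun x => IsE u T k x) E))
    fun x hx => (Finset.mem_filter.1 hx).2
  have h7 := Finset.card_le_card hcov
  have h8 := Finset.card_union_le ((E.filter fun x => IsL T false x) ∪
    (E.filter fun x => IsL T true x) ∪ (E.filter fun x => IsC T false x) ∪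
    (E.filter fun x => IsC T true x) ∪ (E.filter fun x => IsM T x)) (E.filter fun x => IsE u T k x)
  have h9 := Finset.card_union_le ((E.filter fun x => IsL T false x) ∪
    (E.filter fun x => IsL T true x) ∪ (E.filter fun x => IsC T false x) ∪
    (E.filter fun x => IsC T true x)) (E.filter fun x => IsM T x)
  have h10 := Finset.card_union_le ((E.filter fun x => IsL T false x) ∪
    (E.filter fun x => IsL T true x) ∪ (E.filter fun x => IsC T false x))
    (E.filter fun x => IsC T true x)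
  have h11 := Finset.card_union_le ((E.filter fun x => IsL T false x) ∪
    (E.filter fun x => IsL T true x)) (E.filter fun x => IsC T false x)
  have h12 := Finset.card_union_le (E.filter fun x => IsL T false x)
    (E.filter fun x => IsL T true x)
  set P := Fintype.card V ^ T with hP
  have hP1 : 1 ≤ P := Nat.one_le_pow _ _ Fintype.card_pos
  set Q := (T + 1) ^ 2 with hQ
  have hQ1 : T + 1 ≤ Q := by rw [hQ, pow_two]; exact Nat.le_mul_self _
  have hQ2 : (T + 1) ^ 4 = Q * Q := by rw [hQ]; ring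
  have hQ3 : Q ≤ Q * Q := Nat.le_mul_self _
  rw [hQ2] at h5 ⊢
  have f1 : Q * P ≤ Q * Q * P := Nat.mul_le_mul_right _ hQ3
  have f2 : Q ≤ Q * P := Nat.le_mul_of_pos_right _ (by omega)
  have f3 : (w u 0).len * (T + 1) ≤ (w u 0).len * (Q * Q * P) :=
    Nat.mul_le_mul_left _ (hQ1.trans (f2.trans f1))
  have f4 : (w u 0).len ≤ (w u 0).len * (T + 1) := Nat.le_mul_of_pos_right _ (by omega)
  have f5 : ((w u 0).len + 12) * (Q * Q) * P = (w u 0).len * (Q * Q * P) + 12 * (Q * Q * P) := by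
    ring
  rw [f5]
  have f6 : 4 * T + 1 ≤ 4 * Q := by omega
  omega

end Q69BlockCount
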