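import Mathlib
import Pool.Agent.Q69.BlockCount

/-!
# The metric systems of the block sequences
-/

set_option autoImplicit false
open Set Filter Topology

namespace Q69BlockSys

open Q69Block Q69BlockForm Q69BlockCount

/-- the parameters: the closeness relations of the two kinds of letters, and the blocks -/
structure Par (V : Type) where
  /-- closeness -/
  r : Bool → V → V → Prop
  symm : ∀ b v v', r b v v' → r b v' v
  /-- the blocks -/
  u : ℕ → Blk V

variable {V : Type} (P : Par V)

/-- close letters -/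
def cl : A V → A V → Prop
  | some (b, none), some (b', some _) => b = b'
  | some (b, some _), some (b', none) => b = b'
  | some (b, some v), some (b', some v') => b = b' ∧ P.r b v v'
  | _, _ => False

lemma cl_symm {a b : A V} (h : cl P a b) : cl P b a := by
  rcases a with _ | ⟨c, _ | v⟩ <;> rcases b with _ | ⟨c', _ | v'⟩ <;> simp only [cl] at h ⊢
  · exact h.symm
  · exact h.symm
  · obtain ⟨rfl, h2⟩ := h
    exact ⟨rfl, P.symm _ _ _ h2⟩

open Classical in
/-- the metric of the alphabet, with values `0, 1, 2` -/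
noncomputable def dd (a b : A V) : ℝ := if a = b then 0 else if cl P a b then 1 else 2

lemma dd_le (a b : A V) : dd P a b ≤ 2 := by unfold dd; split_ifs <;> norm_num

lemma dd_nonneg (a b : A V) : 0 ≤ dd P a b := by unfold dd; split_ifs <;> norm_num

lemma dd_ge {a b : A V} (h : a ≠ b) : 1 ≤ dd P a b := by
  unfold dd; rw [if_neg h]; split_ifs <;> norm_num

lemma dd_self (a : A V) : dd P a a = 0 := by unfold dd; rw [if_pos rfl]

lemma dd_symm (a b : A V) : dd P a b = dd P b a := by
  unfold dd
  by_cases h : a = b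
  · rw [if_pos h, if_pos h.symm]
  · rw [if_neg h, if_neg (Ne.symm h)]
    by_cases h2 : cl P a b
    · rw [if_pos h2, if_pos (cl_symm P h2)]
    · rw [if_neg h2, if_neg fun h3 => h2 (cl_symm P h3)]

lemma dd_tri (a b c : A V) : dd P a c ≤ dd P a b + dd P b c := by
  by_cases h1 : a = b
  · subst h1; rw [dd_self]; linarith
  by_cases h2 : b = c
  · subst h2; rw [dd_self]; linarith
  linarith [dd_ge P h1, dd_ge P h2, dd_le P a c]

/-- far letters -/
def far (a b : A V) : Prop := a ≠ b ∧ ¬ cl P a b

lemma far_iff (a b : A V) : far P a b ↔ dd P a b = 2 := by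
  unfold far dd
  split_ifs with h1 h2
  · simp [h1]
  · simp [h1, h2]
  · simp [h1, h2]

lemma not_far_iff (a b : A V) : ¬ far P a b ↔ dd P a b ≤ 1 := by
  unfold far dd
  split_ifs with h1 h2
  · simp [h1]
  · simp [h2]
  · simp [h1, h2]

/-- the terms of the distance -/
noncomputable def tm (x y : ℤ → A V) (n : ℤ) : ℝ := dd P (x n) (y n) / 4 ^ n.natAbs

lemma tm_le (x y : ℤ → A V) (n : ℤ) : tm P x y n ≤ 2 := by
  unfold tm
  rw [div_le_iff₀ (by positivity)]
  have : (1 : ℝ) ≤ 4 ^ n.natAbs := one_le_pow₀ (by norm_num)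
  linarith [dd_le P (x n) (y n)]

lemma tm_nonneg (x y : ℤ → A V) (n : ℤ) : 0 ≤ tm P x y n :=
  div_nonneg (dd_nonneg P _ _) (by positivity)

lemma tm_bdd (x y : ℤ → A V) : BddAbove (range (tm P x y)) := by
  refine ⟨2, ?_⟩
  rintro _ ⟨n, rfl⟩
  exact tm_le P x y n

/-- the distance -/
noncomputable def DD (x y : ℤ → A V) : ℝ := ⨆ n : ℤ, tm P x y n

lemma DD_le {x y : ℤ → A V} {c : ℝ} (h : ∀ n, tm P x y n ≤ c) : DD P x y ≤ c := ciSup_le h

lemma le_DD (x y : ℤ → A V) (n : ℤ) : tm P x y n ≤ DD P x y := le_ciSup (tm_bdd P x y) n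

/-- the space -/
def Sp : Type := X P.u

/-- the sequence of a point -/
def Sp.v {P : Par V} (x : Sp P) : ℤ → A V := Subtype.val x

lemma Sp.mem {P : Par V} (x : Sp P) : x.v ∈ X P.u := Subtype.property x

/-- points of the space -/
def mk {P : Par V} (x : ℤ → A V) (hx : x ∈ X P.u) : Sp P := ⟨x, hx⟩

@[simp] lemma mk_v {P : Par V} (x : ℤ → A V) (hx : x ∈ X P.u) : (mk x hx).v = x := rfl

lemma Sp.ext {P : Par V} {x y : Sp P} (h : x.v = y.v) : x = y := Subtype.ext h

noncomputable instance : MetricSpace (Sp P) where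
  dist x y := DD P x.v y.v
  dist_self x := by
    apply le_antisymm
    · exact DD_le P fun n => by unfold tm; rw [dd_self, zero_div]
    · exact (tm_nonneg P _ _ 0).trans (le_DD P _ _ 0)
  dist_comm x y := by
    unfold DD tm
    simp only [dd_symm P (x.v _) (y.v _)]
  dist_triangle x y z := by
    refine DD_le P fun n => ?_
    have h1 : tm P x.v z.v n ≤ tm P x.v y.v n + tm P y.v z.v n := by
      unfold tm
      rw [← add_div]
      exact div_le_div_of_nonneg_right (dd_tri P _ _ _) (by positivity)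
    linarith [le_DD P x.v y.v n, le_DD P y.v z.v n]
  eq_of_dist_eq_zero := by
    intro x y h
    apply Sp.ext
    funext n
    by_contra hne
    have h1 := le_DD P x.v y.v n
    have h2 : 0 < tm P x.v y.v n := by
      unfold tm
      have := dd_ge P hne
      positivity
    have h3 : DD P x.v y.v = 0 := h
    linarith

lemma dist_def (x y : Sp P) : dist x y = DD P x.v y.v := rfl

lemma dist_le_two (x y : Sp P) : dist x y ≤ 2 := DD_le P (tm_le P _ _)

lemma two_le_dist (x y : Sp P) : 2 ≤ dist x y ↔ far P (x.v 0) (y.v 0) := by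
  rw [far_iff]
  constructor
  · intro h
    by_contra hne
    have h0 : dd P (x.v 0) (y.v 0) ≤ 1 := by
      rw [← not_far_iff, far_iff]; exact hne
    have : dist x y ≤ 1 := by
      refine DD_le P fun n => ?_
      by_cases hn : n = 0
      · subst hn
        unfold tm
        simpa using h0
      · unfold tm
        rw [div_le_iff₀ (by positivity)]
        have h1 : (4 : ℝ) ^ 1 ≤ 4 ^ n.natAbs := pow_le_pow_right₀ (by norm_num) (by omega)
        linarith [dd_le P (x.v n) (y.v n)]
    linarith
  · intro h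
    have := le_DD P x.v y.v 0
    unfold tm at this
    rw [h] at this
    rw [dist_def]
    simpa using this

lemma one_le_dist {x y : Sp P} (h : x.v 0 ≠ y.v 0) : 1 ≤ dist x y := by
  have h1 := le_DD P x.v y.v 0
  have h2 := dd_ge P h
  unfold tm at h1
  simp only [Int.natAbs_zero, pow_zero, div_one] at h1
  exact h2.trans h1

lemma dist_le_of_agree {x y : Sp P} {j : ℕ} (h : ∀ n : ℤ, n.natAbs ≤ j → x.v n = y.v n) :
    dist x y ≤ 2 / 4 ^ j := by
  refine DD_le P fun n => ?_
  unfold tm
  by_cases hn : n.natAbs ≤ j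
  · rw [h n hn, dd_self, zero_div]; positivity
  · push Not at hn
    exact div_le_div₀ (by norm_num) (dd_le P _ _) (by positivity)
      (pow_le_pow_right₀ (by norm_num) hn.le)

lemma small_pow {ε : ℝ} (hε : 0 < ε) : ∃ j : ℕ, (2 : ℝ) / 4 ^ j < ε := by
  obtain ⟨j, hj⟩ := exists_pow_lt_of_lt_one (half_pos hε) (by norm_num : (1 / 4 : ℝ) < 1)
  refine ⟨j, ?_⟩
  rw [div_pow, one_pow] at hj
  have : (2 : ℝ) / 4 ^ j = 2 * (1 / 4 ^ j) := by ring
  linarith

/-! ### Compactness -/

instance compactSpace [Fintype V] : CompactSpace (Sp P) := by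
  classical
  letI : TopologicalSpace (A V) := ⊥
  haveI : DiscreteTopology (A V) := ⟨rfl⟩
  have hwin : ∀ (x : ℤ → A V) (N : ℕ), IsOpen {y : ℤ → A V | ∀ i : ℤ, |i| ≤ N → y i = x i} := by
    intro x N
    have h1 : {y : ℤ → A V | ∀ i : ℤ, |i| ≤ N → y i = x i} =
        ⋂ i ∈ Finset.Icc (-(N : ℤ)) N, (fun y : ℤ → A V => y i) ⁻¹' {x i} := by
      ext y
      simp only [mem_setOf_eq, mem_iInter, Finset.mem_Icc, mem_preimage, mem_singleton_iff, abs_le]
    rw [h1]
    exact isOpen_biInter_finset fun i _ => (isOpen_discrete _).preimage (continuous_apply i)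
  have hclosed : IsClosed (X P.u) := by
    rw [← closure_subset_iff_isClosed]
    intro x hx N
    obtain ⟨y, hy, hyX⟩ := mem_closure_iff.1 hx _ (hwin x N) (fun i _ => rfl)
    obtain ⟨m, hm⟩ := hyX N
    exact ⟨m, fun i hi => (hy i hi).symm.trans (hm i hi)⟩
  haveI : CompactSpace (X P.u) := isCompact_iff_compactSpace.1 hclosed.isCompact
  have hcont : Continuous (fun x : X P.u => (mk x.1 x.2 : Sp P)) := by
    rw [continuous_iff_continuousAt]
    intro x
    rw [ContinuousAt, Metric.tendsto_nhds]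
    intro ε hε
    obtain ⟨j, hj⟩ := small_pow hε
    have hO : IsOpen {y : X P.u | ∀ i : ℤ, |i| ≤ j → y.1 i = x.1 i} :=
      (hwin x.1 j).preimage continuous_subtype_val
    filter_upwards [hO.mem_nhds (fun i _ => rfl)] with y hy
    refine lt_of_le_of_lt (dist_le_of_agree P (j := j) fun n hn => ?_) hj
    exact hy n (by rw [Int.abs_eq_natAbs]; exact_mod_cast hn)
  have : range (fun x : X P.u => (mk x.1 x.2 : Sp P)) = univ := by
    rw [eq_univ_iff_forall]
    intro x
    exact ⟨x, rfl⟩
  exact ⟨this ▸ isCompact_range hcont⟩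

/-! ### The shift -/

/-- translation -/
def tr (a : ℤ) (x : Sp P) : Sp P := mk (fun i => x.v (i + a)) (X_shift P.u x.mem a)

lemma tr_v (a : ℤ) (x : Sp P) (i : ℤ) : (tr P a x).v i = x.v (i + a) := rfl

lemma tr_dist {a : ℤ} (ha : a.natAbs ≤ 1) (x y : Sp P) :
    dist (tr P a x) (tr P a y) ≤ 4 * dist x y := by
  refine DD_le P fun n => ?_
  have h1 := le_DD P x.v y.v (n + a)
  rw [dist_def]
  have h2 : tm P (tr P a x).v (tr P a y).v n ≤ 4 * tm P x.v y.v (n + a) := by
    unfold tm
    rw [tr_v, tr_v, mul_div_assoc', div_le_div_iff₀ (by positivity) (by positivity)]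
    have h3 : (4 : ℝ) ^ (n + a).natAbs ≤ 4 * 4 ^ n.natAbs := by
      rw [← pow_succ']
      exact pow_le_pow_right₀ (by norm_num) (by omega)
    have h4 := dd_nonneg P (x.v (n + a)) (y.v (n + a))
    nlinarith
  linarith

lemma tr_continuous {a : ℤ} (ha : a.natAbs ≤ 1) : Continuous (tr P a) := by
  have : LipschitzWith 4 (tr P a) := LipschitzWith.of_dist_le_mul fun x y => by
    simpa using tr_dist P ha x y
  exact this.continuous

/-- the shift -/
def F : Sp P ≃ₜ Sp P where
  toFun := tr P 1
  invFun := tr P (-1)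
  left_inv x := by apply Sp.ext; funext i; rw [tr_v, tr_v]; congr 1; ring
  right_inv x := by apply Sp.ext; funext i; rw [tr_v, tr_v]; congr 1; ring
  continuous_toFun := tr_continuous P (by decide)
  continuous_invFun := tr_continuous P (by decide)

lemma F_iter (n : ℕ) (x : Sp P) (i : ℤ) : ((F P)^[n] x).v i = x.v (i + n) := by
  induction n generalizing i with
  | zero => simp
  | succ n ih =>
    rw [Function.iterate_succ_apply']
    change (tr P 1 _).v i = _
    rw [tr_v, ih]
    congr 1; push_cast; ring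

/-- the recurrent point has a dense forward orbit -/
lemma dense_orbit : Dense (range fun n : ℕ => (F P)^[n] (mk (xs P.u) (xs_mem P.u))) := by
  rw [Metric.dense_iff]
  intro x ε hε
  obtain ⟨j, hj⟩ := small_pow hε
  obtain ⟨m, hm⟩ := x.mem j
  obtain ⟨n, hn⟩ := recur P.u m j
  refine ⟨(F P)^[n] (mk (xs P.u) (xs_mem P.u)), ?_, n, rfl⟩
  rw [Metric.mem_ball]
  refine lt_of_le_of_lt (dist_le_of_agree P (j := j) fun i hi => ?_) hj
  have hi' : |i| ≤ j := by rw [Int.abs_eq_natAbs]; exact_mod_cast hi
  rw [F_iter, mk_v, hm i hi', hn i hi']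
  congr 1; ring

end Q69BlockSys
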