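import Mathlib
import Pool.Agent.Q69.BlockSys

/-!
# Bounds for separated and spanning sets of the block systems
-/

set_option autoImplicit false
open Set Filter Topology

namespace Q69BlockBound

open Q69Block Q69BlockForm Q69BlockCount Q69BlockSys

variable {V : Type} {P : Par V}

/-- a standard choice of the blocks -/
def Std (P : Par V) : Prop := (∀ j, Form (P.u j)) ∧ ∀ B, Form B → ∀ n, ∃ j ≥ n, P.u j = B

lemma form_mem (hP : Std P) {B : Blk V} (hB : Form B) : B.f ∈ X P.u := blk_mem P.u (hP.2 B hB)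

/-- distance at time `t` -/
lemma two_le_iter (x y : Sp P) (t : ℕ) :
    2 ≤ dist ((F P)^[t] x) ((F P)^[t] y) ↔ far P (x.v t) (y.v t) := by
  rw [two_le_dist, F_iter, F_iter, zero_add]

lemma lt_two_iter (x y : Sp P) (t : ℕ) :
    dist ((F P)^[t] x) ((F P)^[t] y) < 2 ↔ ¬ far P (x.v t) (y.v t) := by
  rw [← two_le_iter, not_le]

/-- the general upper bound for separated sets -/
lemma sep_upper [Fintype V] [Nonempty V] (hP : Std P) {δ : ℝ} {j : ℕ} (hj : (2 : ℝ) / 4 ^ j < δ)
    {T : ℕ} {E : Finset (Sp P)}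
    (hE : ∀ x ∈ E, ∀ y ∈ E, x ≠ y → ∃ t < T, δ ≤ dist ((F P)^[t] x) ((F P)^[t] y)) :
    E.card ≤ ((w P.u 0).len + 12) * (T + 2 * j + 1) ^ 4 * Fintype.card V ^ (T + 2 * j) := by
  classical
  set φ : Sp P → (ℤ → A V) := fun x i => x.v (i - j) with hφ
  have hinj : Function.Injective φ := by
    intro x y h
    apply Sp.ext
    funext i
    have := congrFun h (i + j)
    simpa [hφ] using this
  rw [← Finset.card_image_of_injective E hinj]
  apply card_words hP.1
  · intro x hx y hy hne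
    obtain ⟨x', hx', rfl⟩ := Finset.mem_image.1 hx
    obtain ⟨y', hy', rfl⟩ := Finset.mem_image.1 hy
    obtain ⟨t, ht, hd⟩ := hE x' hx' y' hy' (fun h => hne (by rw [h]))
    by_contra hcon
    push Not at hcon
    have : dist ((F P)^[t] x') ((F P)^[t] y') ≤ 2 / 4 ^ j := by
      apply dist_le_of_agree
      intro n hn
      rw [F_iter, F_iter]
      have := hcon (n + t + j).toNat (by omega)
      simp only [hφ] at this
      have e : (((n + t + j).toNat : ℕ) : ℤ) - j = n + t := by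
        rw [Int.toNat_of_nonneg (by omega)]; ring
      rw [e] at this
      exact this
    linarith
  · intro x hx
    obtain ⟨x', -, rfl⟩ := Finset.mem_image.1 hx
    have := X_shift P.u x'.mem (-j)
    exact this

/-- representatives of the words with a given property -/
lemma exists_reps [Fintype V] (T : ℕ) (Q : (ℤ → A V) → Prop) : ∃ E : Finset (ℤ → A V), DW T E ∧
    (∀ x ∈ E, x ∈ X P.u ∧ Q x) ∧ ∀ x ∈ X P.u, Q x → ∃ y ∈ E, ∀ t : ℕ, t < T → y t = x t := by
  classical
  set W : Finset (Fin T → A V) := Finset.univ.filter fun v => ∃ x ∈ X P.u, Q x ∧ ∀ t : Fin T,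
    x (t : ℕ) = v t with hW
  have hch : ∀ v ∈ W, ∃ x ∈ X P.u, Q x ∧ ∀ t : Fin T, x (t : ℕ) = v t := fun v hv =>
    (Finset.mem_filter.1 hv).2
  choose! rep h1 h2 h3 using hch
  refine ⟨W.image rep, ?_, ?_, ?_⟩
  · intro x hx y hy hne
    obtain ⟨v, hv, rfl⟩ := Finset.mem_image.1 hx
    obtain ⟨v', hv', rfl⟩ := Finset.mem_image.1 hy
    obtain ⟨t, ht⟩ := Function.ne_iff.1 (show v ≠ v' from fun h => hne (by rw [h]))
    exact ⟨t, t.2, by rw [h3 v hv t, h3 v' hv' t]; exact ht⟩
  · intro x hx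
    obtain ⟨v, hv, rfl⟩ := Finset.mem_image.1 hx
    exact ⟨h1 v hv, h2 v hv⟩
  · intro x hx hQ
    have hv : (fun t : Fin T => x (t : ℕ)) ∈ W :=
      Finset.mem_filter.2 ⟨Finset.mem_univ _, x, hx, hQ, fun _ => rfl⟩
    exact ⟨rep _, Finset.mem_image_of_mem _ hv, fun t ht => h3 _ hv ⟨t, ht⟩⟩

/-- the centres -/
lemma exists_centre (hP : Std P) (b : Bool) (a₁ a₂ : ℕ) : ∃ x ∈ X P.u, ∀ t : ℕ,
    (a₁ ≤ t → t < a₂ → x t = some (b, none)) ∧ (¬ (a₁ ≤ t ∧ t < a₂) → x t = none) := by
  by_cases h : a₁ < a₂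
  · have hm := form_mem hP (Or.inr (Or.inl ⟨b, a₂ - a₁, by omega, rfl⟩) :
      Form (cenB b (a₂ - a₁) (by omega)))
    refine ⟨_, X_shift P.u hm (-a₁), fun t => ⟨fun h1 h2 => ?_, fun h1 => ?_⟩⟩
    · change (if _ then _ else _) = _
      rw [if_pos (by omega)]
    · change (if _ then _ else _) = _
      rw [if_neg (by omega)]
  · exact ⟨_, none_mem P.u, fun t => ⟨fun h1 h2 => by omega, fun _ => rfl⟩⟩

/-- few centres at the scale `mm (k + 1)` -/
lemma span_upper [Fintype V] [Nonempty V] (hP : Std P) (k : ℕ) : ∃ S : Finset (Sp P),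
    (∀ x, ∃ s ∈ S, ∀ t < mm (k + 1), dist ((F P)^[t] s) ((F P)^[t] x) < 2) ∧
    S.card ≤ ((w P.u 0).len + 12) * (mm (k + 1) + 1) ^ 4 * Fintype.card (A V) ^ (2 * nk k) := by
  classical
  set T := mm (k + 1) with hT
  obtain ⟨k', hk', hlen⟩ := exists_level P.u T
  obtain ⟨E₁, d1, m1, c1⟩ := exists_reps (P := P) T (fun x => IsM T x)
  obtain ⟨E₂, d2, m2, c2⟩ := exists_reps (P := P) T (fun x => IsE P.u T k' x)
  choose cen hcen1 hcen2 using exists_centre hP
  set E₀ : Finset (ℤ → A V) := (Finset.univ : Finset (Bool × (Fin (T + 1) × Fin (T + 1)))).image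
    (fun c => cen c.1 c.2.1 c.2.2) with hE₀
  have hX : ∀ x ∈ E₀ ∪ E₁ ∪ E₂, x ∈ X P.u := by
    intro x hx
    rw [Finset.mem_union, Finset.mem_union] at hx
    rcases hx with (hx | hx) | hx
    · obtain ⟨c, -, rfl⟩ := Finset.mem_image.1 hx
      exact hcen1 _ _ _
    · exact (m1 x hx).1
    · exact (m2 x hx).1
  refine ⟨(E₀ ∪ E₁ ∪ E₂).attach.image fun x => mk x.1 (hX x.1 x.2), ?_, ?_⟩
  · intro x
    have key : ∀ y ∈ E₀ ∪ E₁ ∪ E₂, (∀ t : ℕ, t < T → ¬ far P (y t) (x.v t)) →
        ∃ s ∈ (E₀ ∪ E₁ ∪ E₂).attach.image fun x => (mk x.1 (hX x.1 x.2) : Sp P),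
          ∀ t < T, dist ((F P)^[t] s) ((F P)^[t] x) < 2 := by
      intro y hy h
      refine ⟨mk y (hX y hy), Finset.mem_image.2 ⟨⟨y, hy⟩, Finset.mem_attach _ _, rfl⟩,
        fun t ht => ?_⟩
      rw [lt_two_iter, mk_v]
      exact h t ht
    have hself : ∀ a b : A V, a = b → ¬ far P a b := fun a b h hf => hf.1 h
    rcases classify hP.1 hk' x.mem with ⟨b, a₁, a₂, e1, e2, e⟩ | ⟨b, a₁, a₂, e1, e2, e⟩ | h | h
    · refine key (cen b a₁ a₂) ?_ fun t ht => ?_
      · rw [Finset.mem_union, Finset.mem_union]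
        exact Or.inl (Or.inl (Finset.mem_image.2
          ⟨(b, (⟨a₁, by omega⟩, ⟨a₂, by omega⟩)), Finset.mem_univ _, rfl⟩))
      · by_cases hc : a₁ ≤ t ∧ t < a₂
        · rw [(hcen2 b a₁ a₂ t).1 hc.1 hc.2]
          have h1 := (e t ht).1 hc.1 hc.2
          intro hf
          apply hf.2
          rcases hx : x.v t with _ | ⟨b', _ | v⟩
          · rw [hx] at h1; exact absurd h1 (by simp [ty])
          · rw [hx] at h1; exact absurd h1 (by simp [ty])
          · rw [hx] at h1
            simp only [ty, Option.some.injEq, Prod.mk.injEq, and_true] at h1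
            exact h1.symm
        · rw [(hcen2 b a₁ a₂ t).2 hc, (e t ht).2 hc]
          exact hself _ _ rfl
    · refine key (cen b a₁ a₂) ?_ fun t ht => ?_
      · rw [Finset.mem_union, Finset.mem_union]
        exact Or.inl (Or.inl (Finset.mem_image.2
          ⟨(b, (⟨a₁, by omega⟩, ⟨a₂, by omega⟩)), Finset.mem_univ _, rfl⟩))
      · apply hself
        by_cases hc : a₁ ≤ t ∧ t < a₂
        · rw [(hcen2 b a₁ a₂ t).1 hc.1 hc.2, (e t ht).1 hc.1 hc.2]
        · rw [(hcen2 b a₁ a₂ t).2 hc, (e t ht).2 hc]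
    · obtain ⟨y, hy, hy2⟩ := c1 _ x.mem h
      exact key y (by rw [Finset.mem_union, Finset.mem_union]; exact Or.inl (Or.inr hy))
        fun t ht => hself _ _ (hy2 t ht)
    · obtain ⟨y, hy, hy2⟩ := c2 _ x.mem h
      exact key y (by rw [Finset.mem_union]; exact Or.inr hy)
        fun t ht => hself _ _ (hy2 t ht)
  · have h0 : E₀.card ≤ 2 * (T + 1) ^ 2 := by
      refine Finset.card_image_le.trans (le_of_eq ?_)
      rw [Finset.card_univ, Fintype.card_prod, Fintype.card_prod, Fintype.card_fin,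
        Fintype.card_bool]
      ring
    have h1 : E₁.card ≤ (T + 1) ^ 4 * Fintype.card (A V) ^ (2 * nk k) :=
      card_M' d1 fun x hx => (m1 x hx).2
    have h2 : E₂.card ≤ (w P.u k').len + T + 1 := card_E d2 fun x hx => (m2 x hx).2
    have h3 : ((E₀ ∪ E₁ ∪ E₂).attach.image fun x => (mk x.1 (hX x.1 x.2) : Sp P)).card ≤
        (E₀ ∪ E₁ ∪ E₂).card := by
      refine Finset.card_image_le.trans (le_of_eq ?_)
      rw [Finset.card_attach]
    have h4 := Finset.card_union_le (E₀ ∪ E₁) E₂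
    have h5 := Finset.card_union_le E₀ E₁
    set R := Fintype.card (A V) ^ (2 * nk k) with hR
    have hR1 : 1 ≤ R := Nat.one_le_pow _ _ Fintype.card_pos
    set Q := (T + 1) ^ 2 with hQ
    have hQ1 : T + 1 ≤ Q := by rw [hQ, pow_two]; exact Nat.le_mul_self _
    have hQ2 : (T + 1) ^ 4 = Q * Q := by rw [hQ]; ring
    have hQ3 : Q ≤ Q * Q := Nat.le_mul_self _
    rw [hQ2] at h1 ⊢
    have f1 : Q * Q ≤ Q * Q * R := Nat.le_mul_of_pos_right _ (by omega)
    have f3 : (w P.u 0).len * (T + 1) ≤ (w P.u 0).len * (Q * Q * R) :=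
      Nat.mul_le_mul_left _ (hQ1.trans (hQ3.trans f1))
    have f4 : (w P.u 0).len ≤ (w P.u 0).len * (T + 1) := Nat.le_mul_of_pos_right _ (by omega)
    have f5 : ((w P.u 0).len + 12) * (Q * Q) * R =
        (w P.u 0).len * (Q * Q * R) + 12 * (Q * Q * R) := by
      ring
    rw [f5]
    have f6 : 4 * T + 1 ≤ 4 * Q := by omega
    omega

/-! ### The lower bound for spanning sets at the scale `wk k` -/

/-- extension of a finite word -/
noncomputable def ex [Nonempty V] {n : ℕ} (g : Fin n → V) (i : ℕ) : V :=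
  if h : i < n then g ⟨i, h⟩ else Classical.arbitrary V

lemma ex_eq [Nonempty V] {n : ℕ} (g : Fin n → V) (i : Fin n) : ex g i = g i := by
  unfold ex; rw [dif_pos i.2]

lemma mm_even (k : ℕ) : ∃ l, 1 ≤ l ∧ mm k = 2 * l := by
  refine ⟨32 * 64 ^ (2 * k + 1), ?_, ?_⟩
  · have : 0 < 64 ^ (2 * k + 1) := by positivity
    omega
  · unfold mm; rw [pow_succ]; ring

/-- the target points -/
noncomputable def tgt [Nonempty V] (hP : Std P) (k : ℕ) (g h : Fin (nk k) → V) : Sp P :=
  mk (mixB k (ex g) (ex h)).f (form_mem hP (Or.inr (Or.inr ⟨k, ex g, ex h, rfl⟩)))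

lemma tgt_G [Nonempty V] (hP : Std P) (k : ℕ) (g h : Fin (nk k) → V) (i : Fin (nk k)) :
    (tgt hP k g h).v (i : ℕ) = some (false, some (g i)) := by
  change mixf k (ex g) (ex h) _ = _
  have := i.2
  rw [mixf_G (by omega)]
  congr 3
  exact ex_eq g i

lemma tgt_H [Nonempty V] (hP : Std P) (k : ℕ) (g h : Fin (nk k) → V) (i : Fin (nk k)) :
    (tgt hP k g h).v (nk k + mm k + i : ℕ) = some (true, some (h i)) := by
  change mixf k (ex g) (ex h) _ = _
  have := i.2
  rw [mixf_H (by unfold wk; push_cast; omega)]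
  congr 3
  have e : (((nk k + mm k + i : ℕ) : ℤ) - nk k - mm k).toNat = i := by omega
  rw [e]
  exact ex_eq h i

lemma tgt_J [Nonempty V] (hP : Std P) (k : ℕ) (g h : Fin (nk k) → V) {i : ℤ}
    (h1 : (nk k : ℤ) ≤ i) (h2 : i < nk k + mm k) : (tgt hP k g h).v i = none :=
  mixf_J (by omega) (by omega)

/-- the letters of a centre of a target -/
lemma centre_struct [Nonempty V] (hP : Std P) {k : ℕ} {g h : Fin (nk k) → V} {s : Sp P}
    (hs : ∀ t : ℕ, t < wk k → ¬ far P (s.v t) ((tgt hP k g h).v t)) :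
    (∀ i : Fin (nk k), ty (s.v (i : ℕ)) = some (false, true)) ∧
    (∀ i : Fin (nk k), ty (s.v (nk k + mm k + i : ℕ)) = some (true, true)) := by
  have hn := nk_pos k
  have hm := mm_pos k
  have hw : wk k = 2 * nk k + mm k := rfl
  have hne : ∀ (a : A V) (b : Bool) (v : V), ¬ far P a (some (b, some v)) → a ≠ none := by
    rintro a b v h1 rfl
    apply h1
    exact ⟨fun h => Option.some_ne_none _ h.symm, fun h => h⟩
  have hnone : ∀ (a : A V), ¬ far P a none → a = none := by
    intro a h1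
    by_contra h2
    apply h1
    refine ⟨h2, fun h3 => ?_⟩
    rcases a with _ | ⟨c, _ | v⟩
    · exact h2 rfl
    · exact h3
    · exact h3
  have sG : ∀ t : ℕ, t < nk k → s.v t ≠ none := by
    intro t ht
    have := hs t (by omega)
    have e := tgt_G hP k g h ⟨t, ht⟩
    rw [show ((⟨t, ht⟩ : Fin (nk k)) : ℕ) = t from rfl] at e
    rw [e] at this
    exact hne _ _ _ this
  have sH : ∀ t : ℕ, t < nk k → s.v (nk k + mm k + t : ℕ) ≠ none := by
    intro t ht
    have := hs (nk k + mm k + t) (by omega)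
    have e := tgt_H hP k g h ⟨t, ht⟩
    rw [show ((⟨t, ht⟩ : Fin (nk k)) : ℕ) = t from rfl] at e
    rw [e] at this
    exact hne _ _ _ this
  have sJ : ∀ i : ℤ, (nk k : ℤ) ≤ i → i < nk k + mm k → s.v i = none := by
    intro i h1 h2
    obtain ⟨t, rfl⟩ := Int.eq_ofNat_of_zero_le (show 0 ≤ i by omega)
    have := hs t (by omega)
    have e := tgt_J hP k g h (i := (t : ℤ)) h1 h2
    rw [e] at this
    exact hnone _ this
  obtain ⟨l, hl, hml⟩ := mm_even k
  have hgap := X_gap P.u s.mem (i := (nk k : ℤ) - 1) hl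
    (by have := sG (nk k - 1) (by omega); rwa [Nat.cast_sub hn, Nat.cast_one] at this)
    (fun j hj1 hj2 => sJ j (by omega) (by omega))
    (by
      have := sH 0 hn
      have e : ((nk k + mm k + 0 : ℕ) : ℤ) = (nk k : ℤ) - 1 + 2 * l + 1 := by
        rw [hml]; push_cast; ring
      rwa [e] at this)
  constructor
  · have key : ∀ d : ℕ, d < nk k → ty (s.v ((nk k - 1 - d : ℕ) : ℤ)) = some (false, true) := by
      intro d
      induction d with
      | zero =>
        intro _
        have e : ((nk k - 1 - 0 : ℕ) : ℤ) = (nk k : ℤ) - 1 := by omega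
        rw [e]; exact hgap.1
      | succ d ih =>
        intro hd
        have h1 := ih (by omega)
        have h2 := X_adj P.u s.mem (i := ((nk k - 1 - (d + 1) : ℕ) : ℤ)) (sG _ (by omega)) (by
          have e : ((nk k - 1 - (d + 1) : ℕ) : ℤ) + 1 = ((nk k - 1 - d : ℕ) : ℤ) := by omega
          rw [e]; exact sG _ (by omega))
        have e : ((nk k - 1 - (d + 1) : ℕ) : ℤ) + 1 = ((nk k - 1 - d : ℕ) : ℤ) := by omega
        rw [e, h1] at h2
        exact h2
    intro i
    have := key (nk k - 1 - i) (by omega)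
    have e : nk k - 1 - (nk k - 1 - i) = (i : ℕ) := by have := i.2; omega
    rwa [e] at this
  · have key : ∀ d : ℕ, d < nk k → ty (s.v ((nk k + mm k + d : ℕ) : ℤ)) = some (true, true) := by
      intro d
      induction d with
      | zero =>
        intro _
        have e : ((nk k + mm k + 0 : ℕ) : ℤ) = (nk k : ℤ) - 1 + 2 * l + 1 := by
          rw [hml]; push_cast; ring
        rw [e]; exact hgap.2
      | succ d ih =>
        intro hd
        have h1 := ih (by omega)
        have e : ((nk k + mm k + d : ℕ) : ℤ) + 1 = ((nk k + mm k + (d + 1) : ℕ) : ℤ) := by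
          push_cast; ring
        have h2 := X_adj P.u s.mem (i := ((nk k + mm k + d : ℕ) : ℤ)) (sH _ (by omega)) (by
          rw [e]; exact sH _ hd)
        rw [e, h1] at h2
        exact h2.symm
    intro i
    exact key i i.2

lemma near_letter [Nonempty V] {b : Bool} {a : A V} {v : V} (h1 : ty a = some (b, true))
    (h2 : ¬ far P a (some (b, some v))) : lt a = v ∨ P.r b (lt a) v := by
  rcases a with _ | ⟨c, _ | v'⟩
  · exact absurd h1 (by simp [ty])
  · exact absurd h1 (by simp [ty])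
  · simp only [ty, Option.some.injEq, Prod.mk.injEq, and_true] at h1
    subst h1
    simp only [lt]
    by_contra hcon
    push Not at hcon
    apply h2
    refine ⟨fun h => hcon.1 ?_, fun h => hcon.2 h.2⟩
    simpa using h

/-- the lower bound for spanning sets -/
lemma span_lower [Fintype V] [Nonempty V] (hP : Std P) {d₀ d₁ : ℕ}
    (hd₀ : ∀ v : V, Set.ncard {v' | v = v' ∨ P.r false v v'} ≤ d₀)
    (hd₁ : ∀ v : V, Set.ncard {v' | v = v' ∨ P.r true v v'} ≤ d₁) {k : ℕ} {S : Finset (Sp P)}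
    (hS : ∀ x, ∃ s ∈ S, ∀ t < wk k, dist ((F P)^[t] s) ((F P)^[t] x) < 2) :
    Fintype.card V ^ (2 * nk k) ≤ (d₀ * d₁) ^ nk k * S.card := by
  classical
  have hcov : ∀ p : (Fin (nk k) → V) × (Fin (nk k) → V), ∃ s ∈ S,
      ∀ t : ℕ, t < wk k → ¬ far P (s.v t) ((tgt hP k p.1 p.2).v t) := by
    intro p
    obtain ⟨s, hs, h⟩ := hS (tgt hP k p.1 p.2)
    exact ⟨s, hs, fun t ht => (lt_two_iter _ _ _).1 (h t ht)⟩
  choose φ hφ1 hφ2 using hcov
  have hcard : Fintype.card V ^ (2 * nk k) =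
      (Finset.univ : Finset ((Fin (nk k) → V) × (Fin (nk k) → V))).card := by
    rw [Finset.card_univ, Fintype.card_prod, Fintype.card_fun, Fintype.card_fin]
    ring
  rw [hcard]
  refine Finset.card_le_mul_card_image_of_maps_to (f := φ) (fun p _ => hφ1 p) _ fun s _ => ?_
  set NG : Fin (nk k) → Finset V := fun i =>
    Finset.univ.filter fun v' => lt (s.v (i : ℕ)) = v' ∨ P.r false (lt (s.v (i : ℕ))) v' with hNG
  set NH : Fin (nk k) → Finset V := fun i => Finset.univ.filter fun v' =>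
    lt (s.v (nk k + mm k + i : ℕ)) = v' ∨ P.r true (lt (s.v (nk k + mm k + i : ℕ))) v' with hNH
  have hsub : (Finset.univ.filter fun p => φ p = s) ⊆
      (Fintype.piFinset NG) ×ˢ (Fintype.piFinset NH) := by
    intro p hp
    have hps := (Finset.mem_filter.1 hp).2
    have h1 := hφ2 p
    rw [hps] at h1
    obtain ⟨h2, h3⟩ := centre_struct hP h1
    have hw : wk k = 2 * nk k + mm k := rfl
    rw [Finset.mem_product, Fintype.mem_piFinset, Fintype.mem_piFinset]
    constructor
    · intro i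
      rw [hNG]
      refine Finset.mem_filter.2 ⟨Finset.mem_univ _, near_letter (h2 i) ?_⟩
      have := h1 i (by have := i.2; omega)
      rwa [tgt_G] at this
    · intro i
      rw [hNH]
      refine Finset.mem_filter.2 ⟨Finset.mem_univ _, near_letter (h3 i) ?_⟩
      have := h1 (nk k + mm k + i) (by have := i.2; omega)
      rwa [tgt_H] at this
  refine (Finset.card_le_card hsub).trans ?_
  rw [Finset.card_product, Fintype.card_piFinset, Fintype.card_piFinset, mul_pow]
  have hG : ∀ i, (NG i).card ≤ d₀ := by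
    intro i
    refine le_trans (le_of_eq ?_) (hd₀ (lt (s.v (i : ℕ))))
    rw [← Set.ncard_coe_finset]
    congr 1
    ext v'
    simp [hNG]
  have hH : ∀ i, (NH i).card ≤ d₁ := by
    intro i
    refine le_trans (le_of_eq ?_) (hd₁ (lt (s.v (nk k + mm k + i : ℕ))))
    rw [← Set.ncard_coe_finset]
    congr 1
    ext v'
    simp [hNH]
  apply Nat.mul_le_mul
  · calc ∏ i, (NG i).card ≤ ∏ _i : Fin (nk k), d₀ := Finset.prod_le_prod' fun i _ => hG i
      _ = d₀ ^ nk k := by simp
  · calc ∏ i, (NH i).card ≤ ∏ _i : Fin (nk k), d₁ := Finset.prod_le_prod' fun i _ => hH i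
      _ = d₁ ^ nk k := by simp

end Q69BlockBound
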