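import Mathlib

/-!
# Auxiliary estimates for the bridge theorem
-/

set_option autoImplicit false
open Finset

namespace Q69.BridgeAux

/-- Number of sparse partial colourings. -/
lemma sparse_card {I J : Type*} [Fintype I] [DecidableEq I] [Fintype J] (m : ℕ) {t : ℝ}
    (ht : 0 < t) (ht1 : t ≤ 1) :
    (((univ.filter fun b : I → Option J =>
      m * (univ.filter fun i => (b i).isSome = true).card ≤ Fintype.card I).card : ℕ) : ℝ) *
        t ^ Fintype.card I ≤ (1 + Fintype.card J * t ^ m) ^ Fintype.card I := by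
  classical
  have h1 : ∑ b : I → Option J, ∏ i, (if (b i).isSome = true then t ^ m else 1) =
      (1 + Fintype.card J * t ^ m) ^ Fintype.card I := by
    have h2 := Finset.prod_univ_sum (fun _ : I => (Finset.univ : Finset (Option J)))
      (fun _ b => if b.isSome = true then t ^ m else 1)
    rw [Fintype.piFinset_univ] at h2
    rw [← h2]
    have h3 : ∑ b : Option J, (if b.isSome = true then t ^ m else 1) =
        1 + Fintype.card J * t ^ m := by
      rw [Fintype.sum_option]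
      simp
    rw [h3, Finset.prod_const, Finset.card_univ]
  rw [← h1, ← nsmul_eq_mul, ← Finset.sum_const]
  refine (Finset.sum_le_sum fun b hb => ?_).trans
    (Finset.sum_le_sum_of_subset_of_nonneg (Finset.filter_subset _ _) fun b _ _ => ?_)
  · rw [Finset.prod_ite, Finset.prod_const_one, mul_one, Finset.prod_const, ← pow_mul]
    exact pow_le_pow_of_le_one ht.le ht1 (Finset.mem_filter.1 hb).2
  · exact Finset.prod_nonneg fun i _ => by split_ifs <;> positivity

lemma exists_mt {κ : ℝ} (hκ : 0 < κ) (c : ℕ) :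
    ∃ (m : ℕ) (t : ℝ), 0 < m ∧ 0 < t ∧ t ≤ 1 ∧ 1 + c * t ^ m ≤ Real.exp κ * t := by
  have ht1 : Real.exp (-(κ / 2)) < 1 := by
    rw [Real.exp_lt_one_iff]; linarith
  have hgap : 0 < Real.exp (κ / 2) - 1 := by
    have := Real.add_one_lt_exp (show κ / 2 ≠ 0 by positivity)
    linarith
  obtain ⟨m, hm⟩ := exists_pow_lt_of_lt_one (show 0 < (Real.exp (κ / 2) - 1) / (c + 1) by positivity)
    ht1
  refine ⟨m + 1, Real.exp (-(κ / 2)), Nat.succ_pos _, Real.exp_pos _, ht1.le, ?_⟩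
  have h1 : Real.exp κ * Real.exp (-(κ / 2)) = Real.exp (κ / 2) := by
    rw [← Real.exp_add]; congr 1; ring
  rw [h1]
  have h2 : Real.exp (-(κ / 2)) ^ (m + 1) ≤ Real.exp (-(κ / 2)) ^ m :=
    pow_le_pow_of_le_one (Real.exp_pos _).le ht1.le (Nat.le_succ _)
  have h3 : (c : ℝ) * Real.exp (-(κ / 2)) ^ (m + 1) ≤ c * ((Real.exp (κ / 2) - 1) / (c + 1)) :=
    mul_le_mul_of_nonneg_left (h2.trans hm.le) (Nat.cast_nonneg _)
  have h4 : (c : ℝ) * ((Real.exp (κ / 2) - 1) / (c + 1)) ≤ Real.exp (κ / 2) - 1 := by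
    rw [mul_div_assoc', div_le_iff₀ (by positivity)]
    nlinarith
  linarith

lemma sparse_le {I J : Type*} [Fintype I] [DecidableEq I] [Fintype J] {m : ℕ} {t κ : ℝ} {c : ℕ}
    (ht : 0 < t) (ht1 : t ≤ 1) (h : 1 + c * t ^ m ≤ Real.exp κ * t) (hJ : Fintype.card J ≤ c) :
    (((univ.filter fun b : I → Option J =>
      m * (univ.filter fun i => (b i).isSome = true).card ≤ Fintype.card I).card : ℕ) : ℝ) ≤
        Real.exp (κ * Fintype.card I) := by
  have h1 := sparse_card (I := I) (J := J) m ht ht1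
  have h2 : (1 + Fintype.card J * t ^ m) ^ Fintype.card I ≤
      (Real.exp κ * t) ^ Fintype.card I := by
    apply pow_le_pow_left₀ (by positivity)
    refine le_trans ?_ h
    gcongr
  rw [mul_pow, ← Real.exp_nat_mul, mul_comm _ κ] at h2
  exact le_of_mul_le_mul_right (h1.trans h2) (pow_pos ht _)

/-- Truncation of a product of near-one factors. -/
lemma trunc {I : Type*} [Fintype I] [DecidableEq I] (m : ℕ) {R : ℝ} (hR : 1 ≤ R) (v : I → ℂ)
    (hv : ∀ i, ‖v i‖ ≤ (R ^ m)⁻¹) :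
    ‖∏ i, (1 + v i) - ∑ A ∈ univ.filter (fun A : Finset I => m * A.card ≤ Fintype.card I),
      ∏ i ∈ A, v i‖ ≤ (2 / R) ^ Fintype.card I := by
  have hR0 : 0 < R := lt_of_lt_of_le one_pos hR
  have h1 : ∏ i, (1 + v i) = ∑ A : Finset I, ∏ i ∈ A, v i := by
    rw [Finset.prod_one_add, Finset.powerset_univ]
  rw [h1, ← Finset.sum_filter_add_sum_filter_not univ
    (fun A : Finset I => m * A.card ≤ Fintype.card I), add_sub_cancel_left]
  refine (norm_sum_le _ _).trans ?_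
  have h2 : ∀ A ∈ univ.filter (fun A : Finset I => ¬ m * A.card ≤ Fintype.card I),
      ‖∏ i ∈ A, v i‖ ≤ (R ^ Fintype.card I)⁻¹ := by
    intro A hA
    have hA' : Fintype.card I ≤ m * A.card := (not_le.1 (Finset.mem_filter.1 hA).2).le
    rw [norm_prod]
    calc ∏ i ∈ A, ‖v i‖ ≤ ∏ _i ∈ A, (R ^ m)⁻¹ :=
          Finset.prod_le_prod (fun _ _ => norm_nonneg _) fun i _ => hv i
      _ = (R ^ (m * A.card))⁻¹ := by rw [Finset.prod_const, inv_pow, ← pow_mul]
      _ ≤ (R ^ Fintype.card I)⁻¹ :=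
          inv_anti₀ (pow_pos hR0 _) (pow_le_pow_right₀ hR hA')
  refine (Finset.sum_le_sum h2).trans ?_
  rw [Finset.sum_const, nsmul_eq_mul, div_pow, div_eq_mul_inv]
  apply mul_le_mul_of_nonneg_right _ (by positivity)
  have h3 : (univ.filter (fun A : Finset I => ¬ m * A.card ≤ Fintype.card I)).card ≤
      2 ^ Fintype.card I := by
    refine (Finset.card_filter_le _ _).trans ?_
    rw [Finset.card_univ, Fintype.card_finset]
  exact_mod_cast h3

/-- Small perturbations of an almost orthonormal family are independent. -/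
lemma indep {P Y : Type*} [Fintype P] [Nonempty P] [Fintype Y] (u w : Y → P → ℂ) {e τ : ℝ}
    (hu : ∀ y p, ‖u y p‖ = 1) (hw : ∀ y p, ‖w y p - u y p‖ ≤ e)
    (ho : ∀ y y', y ≠ y' → ‖∑ p, u y p * (starRingEnd ℂ) (u y' p)‖ ≤ τ * Fintype.card P)
    (hτ : 0 ≤ τ) (he : 0 ≤ e) (h : Fintype.card Y * (τ + e) + e < 1) : LinearIndependent ℂ w := by
  classical
  rw [Fintype.linearIndependent_iff]
  intro g hg
  by_contra hcon
  push Not at hcon
  obtain ⟨y₁, hy₁⟩ := hcon
  obtain ⟨y₀, -, hmax⟩ := Finset.exists_max_image univ (fun y => ‖g y‖) ⟨y₁, mem_univ _⟩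
  have hpos : 0 < ‖g y₀‖ := lt_of_lt_of_le (norm_pos_iff.2 hy₁) (hmax y₁ (mem_univ _))
  have hP : (0 : ℝ) < Fintype.card P := by exact_mod_cast Fintype.card_pos
  let ip : (P → ℂ) → (P → ℂ) → ℂ := fun a b => ∑ p, a p * (starRingEnd ℂ) (b p)
  have hwe : ∀ y, ‖ip (fun p => w y p - u y p) (u y₀)‖ ≤ e * Fintype.card P := by
    intro y
    refine (norm_sum_le _ _).trans ?_
    calc ∑ p, ‖(w y p - u y p) * (starRingEnd ℂ) (u y₀ p)‖ ≤ ∑ _p : P, e := by
          apply Finset.sum_le_sum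
          intro p _
          rw [norm_mul, RCLike.norm_conj, hu, mul_one]
          exact hw y p
      _ = e * Fintype.card P := by rw [Finset.sum_const, Finset.card_univ, nsmul_eq_mul, mul_comm]
  have hdec : ∀ y, ip (w y) (u y₀) = ip (u y) (u y₀) + ip (fun p => w y p - u y p) (u y₀) := by
    intro y
    simp only [ip]
    rw [← Finset.sum_add_distrib]
    exact Finset.sum_congr rfl fun p _ => by ring
  have hself : ip (u y₀) (u y₀) = Fintype.card P := by
    simp only [ip]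
    rw [Finset.sum_congr rfl (g := fun _ => (1 : ℂ))]
    · simp
    · intro p _
      rw [Complex.mul_conj, Complex.normSq_eq_norm_sq, hu]
      simp
  have hzero : ∑ y, g y * ip (w y) (u y₀) = 0 := by
    have : ∑ y, g y * ip (w y) (u y₀) = ∑ p, (∑ y, g y • w y) p * (starRingEnd ℂ) (u y₀ p) := by
      simp only [ip, Finset.sum_apply, Pi.smul_apply, smul_eq_mul, Finset.mul_sum, Finset.sum_mul]
      rw [Finset.sum_comm]
      exact Finset.sum_congr rfl fun p _ => Finset.sum_congr rfl fun y _ => by ring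
    rw [this, hg]
    simp
  rw [← Finset.add_sum_erase _ _ (mem_univ y₀)] at hzero
  have h1 : ‖g y₀‖ * (Fintype.card P * (1 - e)) ≤ ‖g y₀ * ip (w y₀) (u y₀)‖ := by
    rw [norm_mul]
    apply mul_le_mul_of_nonneg_left _ (norm_nonneg _)
    rw [hdec, hself]
    have h2 := hwe y₀
    have h3 : ‖(Fintype.card P : ℂ)‖ ≤ ‖(Fintype.card P : ℂ) +
        ip (fun p => w y₀ p - u y₀ p) (u y₀)‖ + ‖ip (fun p => w y₀ p - u y₀ p) (u y₀)‖ := by
      have := norm_sub_le ((Fintype.card P : ℂ) + ip (fun p => w y₀ p - u y₀ p) (u y₀))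
        (ip (fun p => w y₀ p - u y₀ p) (u y₀))
      rwa [add_sub_cancel_right] at this
    rw [Complex.norm_natCast] at h3
    linarith
  have h2 : ‖∑ y ∈ univ.erase y₀, g y * ip (w y) (u y₀)‖ ≤
      Fintype.card Y * (‖g y₀‖ * ((τ + e) * Fintype.card P)) := by
    refine (norm_sum_le _ _).trans ?_
    calc ∑ y ∈ univ.erase y₀, ‖g y * ip (w y) (u y₀)‖
        ≤ ∑ _y ∈ univ.erase y₀, ‖g y₀‖ * ((τ + e) * Fintype.card P) := by
          apply Finset.sum_le_sum
          intro y hy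
          rw [norm_mul]
          apply mul_le_mul (hmax y (mem_univ _)) _ (norm_nonneg _) (norm_nonneg _)
          rw [hdec]
          refine (norm_add_le _ _).trans ?_
          have h3 := ho y y₀ (Finset.ne_of_mem_erase hy)
          have h4 := hwe y
          change ‖ip (u y) (u y₀)‖ ≤ _ at h3
          linarith
      _ ≤ ∑ _y : Y, ‖g y₀‖ * ((τ + e) * Fintype.card P) := by
          apply Finset.sum_le_sum_of_subset_of_nonneg (Finset.erase_subset _ _)
          intro y _ _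
          positivity
      _ = _ := by rw [Finset.sum_const, Finset.card_univ, nsmul_eq_mul]
  have h3 : ‖g y₀ * ip (w y₀) (u y₀)‖ = ‖∑ y ∈ univ.erase y₀, g y * ip (w y) (u y₀)‖ := by
    rw [← norm_neg (∑ y ∈ univ.erase y₀, g y * ip (w y) (u y₀))]
    congr 1
    exact eq_neg_of_add_eq_zero_left hzero
  rw [h3] at h1
  have h4 := h1.trans h2
  have h5 : ‖g y₀‖ * Fintype.card P * (1 - e) ≤
      ‖g y₀‖ * Fintype.card P * (Fintype.card Y * (τ + e)) := by nlinarith
  have h6 := le_of_mul_le_mul_left h5 (by positivity)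
  linarith

/-- Geometric sums. -/
lemma geom_bound (r : ℂ) (hr : ‖r‖ = 1) (hr1 : r ≠ 1) (N : ℕ) :
    ‖∑ i ∈ range N, r ^ i‖ ≤ 2 / ‖r - 1‖ := by
  rw [geom_sum_eq hr1, norm_div]
  apply div_le_div_of_nonneg_right _ (norm_nonneg _)
  refine (norm_sub_le _ _).trans ?_
  rw [norm_pow, hr, one_pow, norm_one]
  norm_num

universe u

/-- Finitely many points at which given characters are almost orthonormal. -/
lemma exists_points {K : Type u} [CommGroup K] (Y : Finset (K →* Circle)) {τ : ℝ} (hτ : 0 < τ) :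
    ∃ (P : Type u) (_ : Fintype P) (_ : Nonempty P) (p : P → K), ∀ η ∈ Y, ∀ η' ∈ Y, η ≠ η' →
      ‖∑ x, (η (p x) : ℂ) * (starRingEnd ℂ) (η' (p x) : ℂ)‖ ≤ τ * Fintype.card P := by
  classical
  let Z := ((Y ×ˢ Y).filter fun z => z.1 ≠ z.2 : Finset _)
  have hg : ∀ z : Z, ∃ g : K, z.1.1 g ≠ z.1.2 g := by
    rintro ⟨z, hz⟩
    by_contra hcon
    push Not at hcon
    exact (Finset.mem_filter.1 hz).2 (MonoidHom.ext hcon)
  choose g hg using hg
  let rr : Z → Z → ℂ := fun z z' => (z.1.1 (g z') : ℂ) * (starRingEnd ℂ) (z.1.2 (g z') : ℂ)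
  have hrr : ∀ z z', ‖rr z z'‖ = 1 := by
    intro z z'
    simp only [rr]
    rw [norm_mul, RCLike.norm_conj, Circle.norm_coe, Circle.norm_coe, mul_one]
  have hrr1 : ∀ z, rr z z ≠ 1 := by
    intro z h
    apply hg z
    have h1 : (starRingEnd ℂ) (z.1.2 (g z) : ℂ) * (z.1.2 (g z) : ℂ) = 1 := by
      rw [mul_comm, Complex.mul_conj, Complex.normSq_eq_norm_sq, Circle.norm_coe]; simp
    have h2 : (z.1.1 (g z) : ℂ) = z.1.2 (g z) := by
      calc (z.1.1 (g z) : ℂ) = (z.1.1 (g z) : ℂ) *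
            ((starRingEnd ℂ) (z.1.2 (g z) : ℂ) * (z.1.2 (g z) : ℂ)) := by rw [h1, mul_one]
        _ = rr z z * (z.1.2 (g z) : ℂ) := by simp only [rr]; ring
        _ = _ := by rw [h, one_mul]
    exact Circle.coe_injective h2
  obtain ⟨N, hN⟩ := exists_nat_gt (∑ z : Z, 2 / ‖rr z z - 1‖ / τ)
  have hNz : ∀ z : Z, 2 / ‖rr z z - 1‖ ≤ τ * (N + 1 : ℕ) := by
    intro z
    have h1 : 2 / ‖rr z z - 1‖ / τ ≤ ∑ z : Z, 2 / ‖rr z z - 1‖ / τ :=
      Finset.single_le_sum (f := fun z => 2 / ‖rr z z - 1‖ / τ) (fun _ _ => by positivity)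
        (mem_univ z)
    have h2 := h1.trans hN.le
    rw [div_le_iff₀ hτ] at h2
    push_cast
    nlinarith
  refine ⟨Z → Fin (N + 1), inferInstance, inferInstance, fun ν => ∏ z, g z ^ (ν z : ℕ), ?_⟩
  intro η hη η' hη' hne
  let z₀ : Z := ⟨(η, η'), Finset.mem_filter.2 ⟨Finset.mem_product.2 ⟨hη, hη'⟩, hne⟩⟩
  have h1 : ∀ ν : Z → Fin (N + 1), (η (∏ z, g z ^ (ν z : ℕ)) : ℂ) *
      (starRingEnd ℂ) (η' (∏ z, g z ^ (ν z : ℕ)) : ℂ) = ∏ z, rr z₀ z ^ (ν z : ℕ) := by
    intro ν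
    rw [map_prod, map_prod]
    have e1 : ∀ (s : Finset Z) (f : Z → Circle), ((∏ z ∈ s, f z : Circle) : ℂ) = ∏ z ∈ s, (f z : ℂ) :=
      fun s f => map_prod Circle.coeHom f s
    rw [e1, e1, map_prod, ← Finset.prod_mul_distrib]
    apply Finset.prod_congr rfl
    intro z _
    rw [map_pow, map_pow, Circle.coe_pow, Circle.coe_pow, map_pow, ← mul_pow]
  have h2 : ∑ ν : Z → Fin (N + 1), ∏ z, rr z₀ z ^ (ν z : ℕ) =
      ∏ z, ∑ i ∈ range (N + 1), rr z₀ z ^ i := by
    have h3 := Finset.prod_univ_sum (fun _ : Z => (Finset.univ : Finset (Fin (N + 1))))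
      (fun z i => rr z₀ z ^ (i : ℕ))
    rw [Fintype.piFinset_univ] at h3
    rw [← h3]
    apply Finset.prod_congr rfl
    intro z _
    rw [Finset.sum_range]
  rw [Finset.sum_congr rfl fun ν _ => h1 ν, h2, norm_prod, ← Finset.mul_prod_erase _ _ (mem_univ z₀)]
  have h4 : ‖∑ i ∈ range (N + 1), rr z₀ z₀ ^ i‖ ≤ τ * (N + 1 : ℕ) :=
    (geom_bound _ (hrr _ _) (hrr1 _) _).trans (hNz z₀)
  have h5 : ∏ z ∈ univ.erase z₀, ‖∑ i ∈ range (N + 1), rr z₀ z ^ i‖ ≤
      ∏ _z ∈ univ.erase z₀, ((N + 1 : ℕ) : ℝ) := by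
    apply Finset.prod_le_prod (fun _ _ => norm_nonneg _)
    intro z _
    refine (norm_sum_le _ _).trans ?_
    rw [Finset.sum_congr rfl (g := fun _ => (1 : ℝ)) fun i _ => by rw [norm_pow, hrr, one_pow]]
    simp
  rw [Finset.prod_const, Finset.card_erase_of_mem (mem_univ z₀), Finset.card_univ] at h5
  have h6 : (Fintype.card (Z → Fin (N + 1)) : ℝ) =
      ((N + 1 : ℕ) : ℝ) * ((N + 1 : ℕ) : ℝ) ^ (Fintype.card Z - 1) := by
    rw [Fintype.card_fun, Fintype.card_fin, ← pow_succ', Nat.sub_add_cancel, Nat.cast_pow]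
    exact Fintype.card_pos_iff.2 ⟨z₀⟩
  rw [h6, ← mul_assoc]
  exact mul_le_mul h4 h5 (Finset.prod_nonneg fun _ _ => norm_nonneg _) (by positivity)

end Q69.BridgeAux
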