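import Mathlib

/-!
# Cylinders in one-sided sequence spaces over a discrete alphabet
-/

set_option autoImplicit false
open Filter Topology Set

namespace Q69.Cyl

variable {A : Type*} [TopologicalSpace A] [DiscreteTopology A]

lemma isClopen_coord (X : Set (ℕ → A)) (i : ℕ) (P : Set A) :
    IsClopen {y : X | y.1 i ∈ P} :=
  ⟨(isClosed_discrete P).preimage
      ((continuous_apply (A := fun _ : ℕ => A) i).comp continuous_subtype_val),
    (isOpen_discrete P).preimage
      ((continuous_apply (A := fun _ : ℕ => A) i).comp continuous_subtype_val)⟩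

lemma isClopen_cyl (X : Set (ℕ → A)) (x : ℕ → A) (L : ℕ) :
    IsClopen {y : X | ∀ i < L, y.1 i = x i} := by
  have : {y : X | ∀ i < L, y.1 i = x i} = ⋂ i ∈ Finset.range L, {y : X | y.1 i ∈ ({x i} : Set A)} := by
    ext y; simp
  rw [this]
  exact isClopen_biInter_finset fun i _ => isClopen_coord X i _

lemma nhds_cyl {X : Set (ℕ → A)} {x : X} {U : Set X} (hU : U ∈ 𝓝 x) :
    ∃ L : ℕ, ∀ y : X, (∀ i < L, y.1 i = x.1 i) → y ∈ U := by
  rw [nhds_subtype_eq_comap, mem_comap] at hU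
  obtain ⟨V, hV, hVU⟩ := hU
  obtain ⟨W, hWV, hW, hxW⟩ := mem_nhds_iff.1 hV
  obtain ⟨F, u, hu, huW⟩ := isOpen_pi_iff.1 hW x.1 hxW
  refine ⟨F.sup id + 1, fun y hy => hVU (hWV (huW ?_))⟩
  intro i hi
  have : i ≤ F.sup id := Finset.le_sup (f := id) hi
  rw [hy i (by omega)]
  exact (hu i hi).2

/-- closure in terms of cylinders -/
lemma mem_closure_cyl {X : Set (ℕ → A)} {x : X} {S : Set X} :
    x ∈ closure S ↔ ∀ L : ℕ, ∃ y ∈ S, ∀ i < L, y.1 i = x.1 i := by
  rw [mem_closure_iff_nhds]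
  constructor
  · intro h L
    obtain ⟨y, hy1, hy2⟩ := h _ ((isClopen_cyl X x.1 L).2.mem_nhds (fun i _ => rfl))
    exact ⟨y, hy2, hy1⟩
  · intro h U hU
    obtain ⟨L, hL⟩ := nhds_cyl hU
    obtain ⟨y, hy1, hy2⟩ := h L
    exact ⟨y, hL y hy2, hy1⟩

lemma isOpen_iff_cyl {X : Set (ℕ → A)} {U : Set X} :
    IsOpen U ↔ ∀ x ∈ U, ∃ L : ℕ, ∀ y : X, (∀ i < L, y.1 i = x.1 i) → y ∈ U := by
  constructor
  · intro hU x hx
    exact nhds_cyl (hU.mem_nhds hx)
  · intro h
    rw [isOpen_iff_mem_nhds]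
    intro x hx
    obtain ⟨L, hL⟩ := h x hx
    exact mem_of_superset ((isClopen_cyl X x.1 L).2.mem_nhds (fun i _ => rfl)) fun y hy => hL y hy

/-- closedness of a set of sequences -/
lemma isClosed_iff_cyl {X : Set (ℕ → A)} :
    IsClosed X ↔ ∀ x : ℕ → A, (∀ L : ℕ, ∃ y ∈ X, ∀ i < L, y i = x i) → x ∈ X := by
  constructor
  · intro hX x h
    rw [← hX.closure_eq, mem_closure_iff_nhds]
    intro U hU
    obtain ⟨W, hWV, hW, hxW⟩ := mem_nhds_iff.1 hU
    obtain ⟨F, u, hu, huW⟩ := isOpen_pi_iff.1 hW x hxW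
    obtain ⟨y, hyX, hy⟩ := h (F.sup id + 1)
    refine ⟨y, hWV (huW ?_), hyX⟩
    intro i hi
    have : i ≤ F.sup id := Finset.le_sup (f := id) hi
    rw [hy i (by omega)]
    exact (hu i hi).2
  · intro h
    apply isClosed_of_closure_subset
    intro x hx
    apply h
    intro L
    have hopen : IsOpen {y : ℕ → A | ∀ i < L, y i = x i} := by
      have : {y : ℕ → A | ∀ i < L, y i = x i} =
          ⋂ i ∈ Finset.range L, {y : ℕ → A | y i ∈ ({x i} : Set A)} := by
        ext y; simp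
      rw [this]
      exact isOpen_biInter_finset fun i _ =>
        (isOpen_discrete ({x i} : Set A)).preimage (continuous_apply (A := fun _ : ℕ => A) i)
    obtain ⟨y, hy1, hy2⟩ := mem_closure_iff.1 hx _ hopen (fun i _ => rfl)
    exact ⟨y, hy2, hy1⟩

/-- the shift on an invariant set of sequences -/
def shiftOn {X : Set (ℕ → A)} (hX : ∀ x ∈ X, (fun k => x (k + 1)) ∈ X) (x : X) : X :=
  ⟨fun k => x.1 (k + 1), hX x.1 x.2⟩

omit [DiscreteTopology A] in
lemma shiftOn_cont {X : Set (ℕ → A)} (hX : ∀ x ∈ X, (fun k => x (k + 1)) ∈ X) :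
    Continuous (shiftOn hX) := by
  apply Continuous.subtype_mk
  apply continuous_pi
  intro i
  exact (continuous_apply (A := fun _ : ℕ => A) (i + 1)).comp continuous_subtype_val

omit [TopologicalSpace A] [DiscreteTopology A] in
lemma shiftOn_iter {X : Set (ℕ → A)} (hX : ∀ x ∈ X, (fun k => x (k + 1)) ∈ X) (n : ℕ) :
    ∀ (x : X) (i : ℕ), ((shiftOn hX)^[n] x).1 i = x.1 (i + n) := by
  induction n with
  | zero => intro x i; rfl
  | succ n ih =>
    intro x i
    rw [Function.iterate_succ_apply, ih]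
    simp only [shiftOn]
    congr 1

end Q69.Cyl
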