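import Mathlib

/-!
# Sets of natural numbers of density zero and of positive lower density
-/

set_option autoImplicit false
open Set Filter Topology

namespace Q69Dens

open Classical in
/-- the number of elements of `A` below `T` -/
noncomputable def ct (A : ℕ → Prop) (T : ℕ) : ℕ := ((Finset.range T).filter A).card

lemma ct_mono {A B : ℕ → Prop} (h : ∀ n, A n → B n) (T : ℕ) : ct A T ≤ ct B T := by
  classical
  exact Finset.card_le_card fun n hn => by
    simp only [Finset.mem_filter] at hn ⊢
    exact ⟨hn.1, h n hn.2⟩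

lemma ct_le (A : ℕ → Prop) (T : ℕ) : ct A T ≤ T := by
  classical
  exact (Finset.card_filter_le _ _).trans (by simp)

lemma ct_or (A B : ℕ → Prop) (T : ℕ) : ct (fun n => A n ∨ B n) T ≤ ct A T + ct B T := by
  classical
  unfold ct
  refine (Finset.card_le_card ?_).trans
    (Finset.card_union_le ((Finset.range T).filter A) ((Finset.range T).filter B))
  intro n hn
  simp only [Finset.mem_filter, Finset.mem_union] at hn ⊢
  tauto

lemma ct_not (A : ℕ → Prop) (T : ℕ) : ct A T + ct (fun n => ¬ A n) T = T := by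
  classical
  unfold ct
  rw [Finset.card_filter_add_card_filter_not, Finset.card_range]

lemma ct_mono_T (A : ℕ → Prop) {S T : ℕ} (h : S ≤ T) : ct A S ≤ ct A T := by
  classical
  exact Finset.card_le_card fun n hn => by
    simp only [Finset.mem_filter, Finset.mem_range] at hn ⊢
    exact ⟨hn.1.trans_le h, hn.2⟩

lemma ct_succ_le (A : ℕ → Prop) (T : ℕ) : ct A (T + 1) ≤ ct A T + 1 := by
  classical
  unfold ct
  rw [Finset.range_add_one, Finset.filter_insert]
  split_ifs
  · exact Finset.card_insert_le _ _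
  · omega

lemma ct_shift_le (A : ℕ → Prop) (n T : ℕ) : ct (fun k => A (k + n)) T ≤ ct A (T + n) := by
  classical
  unfold ct
  refine Finset.card_le_card_of_injOn (fun k => k + n) ?_ ?_
  · intro k hk
    simp only [Finset.coe_filter, Finset.mem_range, mem_setOf_eq] at hk ⊢
    exact ⟨by omega, hk.2⟩
  · intro a _ b _ h
    exact Nat.add_right_cancel h

lemma ct_le_shift (A : ℕ → Prop) (n T : ℕ) : ct A T ≤ ct (fun k => A (k + n)) T + n := by
  induction n generalizing A with
  | zero => simp
  | succ n ih =>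
    have h1 := ih A
    have h2 : ct (fun k => A (k + n)) T ≤ ct (fun k => A (k + (n + 1))) T + 1 := by
      have h3 := ih
      clear h1
      set B : ℕ → Prop := fun k => A (k + n)
      change ct B T ≤ ct (fun k => A (k + (n + 1))) T + 1
      have h4 : ct (fun k => A (k + (n + 1))) T = ct (fun k => B (k + 1)) T := by
        congr 1
        funext k
        simp only [B]
        congr 1; ring
      rw [h4]
      classical
      unfold ct
      set S : Finset ℕ := (Finset.range T).filter fun k => B (k + 1) with hS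
      have e1 : ((Finset.range T).filter B) ⊆ insert 0 (S.image fun k : ℕ => k + 1) := by
        intro k hk
        simp only [Finset.mem_filter, Finset.mem_range, Finset.mem_insert,
          Finset.mem_image, hS] at hk ⊢
        rcases Nat.eq_zero_or_pos k with h | h
        · exact Or.inl h
        · exact Or.inr ⟨k - 1, ⟨by omega, by rw [Nat.sub_add_cancel h]; exact hk.2⟩, by omega⟩
      have e2 : (insert 0 (S.image fun k : ℕ => k + 1)).card ≤ (S.image fun k : ℕ => k + 1).card + 1 :=
        Finset.card_insert_le _ _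
      have e3 : (S.image fun k : ℕ => k + 1).card ≤ S.card := Finset.card_image_le
      have e4 := Finset.card_le_card e1
      omega
    omega

/-- density zero -/
def Z (A : ℕ → Prop) : Prop := ∀ ε : ℝ, 0 < ε → ∀ᶠ T : ℕ in atTop, (ct A T : ℝ) ≤ ε * T

/-- positive lower density -/
def PL (A : ℕ → Prop) : Prop := ∃ c : ℝ, 0 < c ∧ ∀ᶠ T : ℕ in atTop, c * T ≤ ct A T

lemma Z.mono {A B : ℕ → Prop} (hA : Z A) (h : ∀ n, B n → A n) : Z B := fun ε hε =>
  (hA ε hε).mono fun T hT => le_trans (by exact_mod_cast ct_mono h T) hT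

lemma Z.or {A B : ℕ → Prop} (hA : Z A) (hB : Z B) : Z fun n => A n ∨ B n := fun ε hε => by
  filter_upwards [hA (ε / 2) (by positivity), hB (ε / 2) (by positivity)] with T h1 h2
  have := ct_or A B T
  have h3 : (ct (fun n => A n ∨ B n) T : ℝ) ≤ ct A T + ct B T := by exact_mod_cast this
  linarith

lemma Z_finite (n₀ : ℕ) : Z fun n => n < n₀ := fun ε hε => by
  obtain ⟨N, hN⟩ := exists_nat_ge (n₀ / ε)
  filter_upwards [eventually_ge_atTop N] with T hT
  have h1 : ct (fun n => n < n₀) T ≤ n₀ := by
    classical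
    calc ct (fun n => n < n₀) T ≤ (Finset.range n₀).card := Finset.card_le_card fun k hk => by
          simp only [Finset.mem_filter, Finset.mem_range] at hk ⊢
          exact hk.2
      _ = n₀ := Finset.card_range _
  have h2 : (n₀ : ℝ) ≤ ε * T := by
    rw [div_le_iff₀ hε] at hN
    have : (N : ℝ) ≤ T := by exact_mod_cast hT
    nlinarith
  exact le_trans (by exact_mod_cast h1) h2

lemma Z.eventually {A B : ℕ → Prop} (hA : Z A) {n₀ : ℕ} (h : ∀ n, n₀ ≤ n → B n → A n) : Z B :=
  (hA.or (Z_finite n₀)).mono fun n hn => by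
    rcases le_or_gt n₀ n with h1 | h1
    · exact Or.inl (h n h1 hn)
    · exact Or.inr h1

lemma Z.shift {A : ℕ → Prop} (hA : Z A) (n : ℕ) : Z fun k => A (k + n) := fun ε hε => by
  obtain ⟨N, hN⟩ := eventually_atTop.1 (hA (ε / 2) (by positivity))
  filter_upwards [eventually_ge_atTop (max N n)] with T hT
  have h1 := ct_shift_le A n T
  have h2 := hN (T + n) (le_trans ((le_max_left _ _).trans hT) (Nat.le_add_right _ _))
  have h3 : (n : ℝ) ≤ T := by exact_mod_cast (le_max_right _ _).trans hT
  have h4 : (ct (fun k => A (k + n)) T : ℝ) ≤ ct A (T + n) := by exact_mod_cast h1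
  push_cast at h2
  nlinarith

lemma Z.bex {A : ℕ → ℕ → Prop} {L : ℕ} (h : ∀ i < L, Z (A i)) : Z fun n => ∃ i < L, A i n := by
  induction L with
  | zero =>
    exact (Z_finite 0).mono fun n hn => by
      obtain ⟨i, hi, -⟩ := hn
      exact absurd hi (Nat.not_lt_zero _)
  | succ L ih =>
    refine ((ih fun i hi => h i (by omega)).or (h L (by omega))).mono fun n hn => ?_
    obtain ⟨i, hi, hA⟩ := hn
    rcases Nat.lt_succ_iff_lt_or_eq.1 hi with h1 | rfl
    · exact Or.inl ⟨i, h1, hA⟩
    · exact Or.inr hA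

lemma PL.sub {A B C : ℕ → Prop} (hA : PL A) (hC : Z C) (h : ∀ n, A n → B n ∨ C n) : PL B := by
  obtain ⟨c, hc, h1⟩ := hA
  refine ⟨c / 2, by positivity, ?_⟩
  filter_upwards [h1, hC (c / 2) (by positivity)] with T h2 h3
  have h4 := (ct_mono h T).trans (ct_or B C T)
  have h5 : (ct A T : ℝ) ≤ ct B T + ct C T := by exact_mod_cast h4
  linarith

lemma PL.shift {A : ℕ → Prop} (hA : PL A) (n : ℕ) : PL fun k => A (k + n) := by
  obtain ⟨c, hc, h1⟩ := hA
  obtain ⟨M, hM⟩ := exists_nat_ge (n / (c / 2))
  refine ⟨c / 2, by positivity, ?_⟩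
  filter_upwards [h1, eventually_ge_atTop M] with T h2 h3
  have h4 : (ct A T : ℝ) ≤ ct (fun k => A (k + n)) T + n := by exact_mod_cast ct_le_shift A n T
  rw [div_le_iff₀ (by positivity)] at hM
  have h5 : (M : ℝ) ≤ T := by exact_mod_cast h3
  nlinarith

end Q69Dens
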