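import Pool.Agent.Q69.AvgFactor

/-!
# Finite tracing of concatenated orbit segments

`FT f`: concatenations of long orbit segments of a common length are traced in average.  It follows
from average shadowing, from asymptotic average shadowing and from almost specification.
-/

set_option autoImplicit false
open Filter Topology Set

namespace Q69.FinTrace

open Q69.AvgFactor

/-- finite tracing -/
def FT {X : Type*} [MetricSpace X] (f : X → X) : Prop :=
  ∀ ε > 0, ∃ N₀ : ℕ, ∀ N ≥ N₀, 0 < N → ∀ (k : ℕ) (a : ℕ → X), ∃ z,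
    ∑ i ∈ Finset.range (k * N), dist (f^[i] z) (f^[i % N] (a (i / N))) ≤ ε * (k * N)

lemma windows {g : ℕ → ℝ} {L : ℕ} {η : ℝ} (T J : ℕ)
    (h : ∀ j < J, η ≤ ∑ i ∈ Finset.range L, g (T + (L * j + i))) :
    η * J ≤ ∑ i ∈ Finset.range (L * J), g (T + i) := by
  induction J with
  | zero => simp
  | succ J ih =>
    rw [Nat.mul_succ, Finset.sum_range_add]
    have h1 := ih fun j hj => h j (by omega)
    have h2 := h J (by omega)
    push_cast
    linarith

lemma windows_le {g : ℕ → ℝ} {L : ℕ} {η : ℝ} (J : ℕ)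
    (h : ∀ j < J, ∑ i ∈ Finset.range L, g (L * j + i) ≤ η) :
    ∑ i ∈ Finset.range (L * J), g i ≤ η * J := by
  induction J with
  | zero => simp
  | succ J ih =>
    rw [Nat.mul_succ, Finset.sum_range_add]
    have h1 := ih fun j hj => h j (by omega)
    have h2 := h J (by omega)
    push_cast
    linarith

variable {X : Type*} [MetricSpace X]

/-- the periodic concatenation -/
def q (f : X → X) (N k : ℕ) (a : ℕ → X) (i : ℕ) : X := f^[i % N] (a (i / N % k))

lemma q_eq_blift {f : X → X} {N k : ℕ} (hN : 0 < N) (a : ℕ → X) (i : ℕ) :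
    q f N k a i = blift f id (fun m => a (m / N % k)) N i := by
  simp only [q, blift, id]
  rw [Nat.mul_div_cancel_left _ hN]

lemma q_err {f : X → X} {N k : ℕ} (hN : 0 < N) {D : ℝ} (hD0 : 0 ≤ D) (hD : ∀ a b : X, dist a b ≤ D)
    (a : ℕ → X) (n m : ℕ) :
    ∑ i ∈ Finset.range n, dist (f (q f N k a (i + m))) (q f N k a (i + m + 1)) ≤
      D * (n / N + 1) := by
  simp only [q_eq_blift hN]
  exact blift_jump_sum hN hD0 hD n m

lemma q_period {f : X → X} {N k : ℕ} (hN : 0 < N) (hk : 0 < k) (a : ℕ → X) {j i : ℕ}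
    (hi : i < k * N) : q f N k a (k * N * j + i) = f^[i % N] (a (i / N)) := by
  unfold q
  have h1 : (k * N * j + i) % N = i % N := by
    rw [show k * N * j + i = N * (k * j) + i by ring, Nat.mul_add_mod]
  have h2 : (k * N * j + i) / N = k * j + i / N := by
    rw [show k * N * j + i = N * (k * j) + i by ring, Nat.mul_add_div hN]
  have h3 : i / N < k := (Nat.div_lt_iff_lt_mul hN).2 hi
  rw [h1, h2, Nat.mul_add_mod, Nat.mod_eq_of_lt h3]

lemma ft_of_asp [CompactSpace X] {f : X → X} (hf : HasAvgShadowing f) : FT f := by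
  intro ε hε
  obtain ⟨D, hD0, hD⟩ := exists_bound X
  obtain ⟨δ, hδ, hsh⟩ := hf ε hε
  obtain ⟨N₀, hN₀⟩ := exists_nat_gt (2 * (D + 1) / δ)
  refine ⟨N₀, fun N hN hNpos k a => ?_⟩
  rcases Nat.eq_zero_or_pos k with rfl | hk
  · exact ⟨a 0, by simp⟩
  have hNpos' : (0 : ℝ) < N := by exact_mod_cast hNpos
  have hN' : 2 * (D + 1) / δ < N := lt_of_lt_of_le hN₀ (by exact_mod_cast hN)
  have hps : IsAvgPseudoOrbit f δ (q f N k a) := by
    refine ⟨N₀, fun n hn m => ?_⟩
    have hn' : 2 * (D + 1) / δ < n := lt_of_lt_of_le hN₀ (by exact_mod_cast hn)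
    have hn0 : (0 : ℝ) < n := lt_of_le_of_lt (by positivity) hn'
    have h1 := q_err (f := f) (k := k) hNpos hD0 hD a n m
    rw [one_div, inv_mul_lt_iff₀ hn0]
    refine lt_of_le_of_lt h1 ?_
    have h2 : D / N < δ / 2 := by
      rw [div_lt_iff₀ hNpos']
      rw [div_lt_iff₀ hδ] at hN'
      linarith
    have h3 : D < n * (δ / 2) := by
      rw [div_lt_iff₀ hδ] at hn'
      linarith
    have h4 : D * ((n : ℝ) / N + 1) = n * (D / N) + D := by ring
    rw [h4]
    have h5 : n * (D / N) < n * (δ / 2) := mul_lt_mul_of_pos_left h2 hn0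
    linarith
  obtain ⟨z, hz⟩ := hsh _ hps
  have hbdd : IsBoundedUnder (· ≤ ·) atTop
      (fun n : ℕ => (1 / (n : ℝ)) * ∑ i ∈ Finset.range n, dist (f^[i] z) (q f N k a i)) :=
    isBoundedUnder_of ⟨max D 0, fun n => avg_le hD _ _ n⟩
  obtain ⟨n₀, hn₀⟩ := eventually_atTop.1 (eventually_lt_of_limsup_lt hz hbdd)
  by_contra hcon
  push Not at hcon
  have hL : 0 < k * N := Nat.mul_pos hk hNpos
  have h1 := windows (g := fun i => dist (f^[i] z) (q f N k a i)) (L := k * N)
    (η := ε * (k * N)) 0 (n₀ + 1) (fun j _ => by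
      refine (hcon (f^[k * N * j] z)).le.trans (le_of_eq ?_)
      apply Finset.sum_congr rfl
      intro i hi
      rw [zero_add, q_period hNpos hk a (Finset.mem_range.1 hi), ← Function.iterate_add_apply,
        add_comm i])
  simp only [zero_add] at h1
  have h2 := hn₀ (k * N * (n₀ + 1)) (by nlinarith)
  have hpos : (0 : ℝ) < ((k * N * (n₀ + 1) : ℕ) : ℝ) := by positivity
  rw [one_div, inv_mul_lt_iff₀ hpos] at h2
  have h3 : ε * (k * N) * ((n₀ + 1 : ℕ) : ℝ) = ((k * N * (n₀ + 1) : ℕ) : ℝ) * ε := by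
    push_cast; ring
  rw [h3] at h1
  linarith

/-- stage times -/
def T (L : ℕ → ℕ) : ℕ → ℕ
  | 0 => 0
  | s + 1 => T L s + L s * ((s + 2) * (T L s + 1))

lemma ft_of_aasp [CompactSpace X] {f : X → X} (hf : HasAsympAvgShadowing f) : FT f := by
  classical
  by_contra hcon
  unfold FT at hcon
  push Not at hcon
  obtain ⟨ε, hε, hcon⟩ := hcon
  obtain ⟨D, hD0, hD⟩ := exists_bound X
  choose N hN hNpos k a hz using fun s : ℕ => hcon (s + 1)
  have hk : ∀ s, 0 < k s := by
    intro s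
    rcases Nat.eq_zero_or_pos (k s) with h | h
    · have := hz s (a s 0)
      rw [h] at this
      simp at this
    · exact h
  have hL : ∀ s, 0 < k s * N s := fun s => Nat.mul_pos (hk s) (hNpos s)
  set TT := T (fun s => k s * N s) with hTT
  have hTs : ∀ s, TT (s + 1) = TT s + (k s * N s) * ((s + 2) * (TT s + 1)) := fun s => rfl
  have hTge : ∀ s, (s + 2) * (TT s + 1) ≤ TT (s + 1) := by
    intro s
    rw [hTs]
    have := Nat.mul_le_mul_right ((s + 2) * (TT s + 1)) (hL s)
    rw [Nat.succ_mul, Nat.zero_mul, zero_add] at this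
    omega
  have hTlt : ∀ s, TT s < TT (s + 1) := by
    intro s
    have := hTge s
    nlinarith
  have hTmono : StrictMono TT := strictMono_nat_of_lt_succ hTlt
  have hTs' : ∀ s, s ≤ TT s := fun s => hTmono.le_apply
  -- the stage
  let κ : ℕ → ℕ := fun n => Nat.findGreatest (fun s => TT s ≤ n) n
  have hκ1 : ∀ n, TT (κ n) ≤ n := by
    intro n
    exact Nat.findGreatest_spec (P := fun s => TT s ≤ n) (m := 0) (Nat.zero_le _) (Nat.zero_le _)
  have hκ2 : ∀ n, n < TT (κ n + 1) := by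
    intro n
    by_contra h
    push Not at h
    have h1 : κ n + 1 ≤ n := (hTs' _).trans h
    have := Nat.le_findGreatest (P := fun s => TT s ≤ n) h1 h
    change κ n + 1 ≤ κ n at this
    omega
  have hκ_of : ∀ s n, TT s ≤ n → n < TT (s + 1) → κ n = s := by
    intro s n h1 h2
    have a1 := hTmono.lt_iff_lt.1 (lt_of_le_of_lt h1 (hκ2 n))
    have a2 := hTmono.lt_iff_lt.1 (lt_of_le_of_lt (hκ1 n) h2)
    omega
  have hκtop : Tendsto κ atTop atTop := by
    refine tendsto_atTop_atTop.2 fun s => ⟨TT s, fun n hn => ?_⟩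
    have := hTmono.lt_iff_lt.1 (lt_of_le_of_lt hn (hκ2 n))
    omega
  let x : ℕ → X := fun i => q f (N (κ i)) (k (κ i)) (a (κ i)) (i - TT (κ i))
  have hx : ∀ s i, TT s + i < TT (s + 1) → x (TT s + i) = q f (N s) (k s) (a s) i := by
    intro s i hi
    have h1 : κ (TT s + i) = s := hκ_of s _ (Nat.le_add_right _ _) hi
    simp only [x, h1, Nat.add_sub_cancel_left]
  -- errors in a stage
  have hwin : ∀ s n, TT s + n ≤ TT (s + 1) →
      ∑ i ∈ Finset.range n, dist (f (x (TT s + i))) (x (TT s + i + 1)) ≤ D * (n / (s + 1) + 2) := by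
    intro s n hn
    have h1 : ∀ i ∈ Finset.range n, dist (f (x (TT s + i))) (x (TT s + i + 1)) ≤
        dist (f (q f (N s) (k s) (a s) (i + 0))) (q f (N s) (k s) (a s) (i + 0 + 1)) +
          (if i = n - 1 then D else 0) := by
      intro i hi
      rw [Finset.mem_range] at hi
      rw [add_zero]
      split_ifs with h
      · have : 0 ≤ dist (f (q f (N s) (k s) (a s) i)) (q f (N s) (k s) (a s) (i + 1)) :=
          dist_nonneg
        linarith [hD (f (x (TT s + i))) (x (TT s + i + 1))]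
      · rw [add_zero, hx s i (by omega), add_assoc, hx s (i + 1) (by omega)]
    refine (Finset.sum_le_sum h1).trans ?_
    rw [Finset.sum_add_distrib]
    have h2 := q_err (f := f) (k := k s) (hNpos s) hD0 hD (a s) n 0
    have h3 : ∑ i ∈ Finset.range n, (if i = n - 1 then D else 0) ≤ D := by
      rw [Finset.sum_ite_eq']
      split_ifs
      · exact le_rfl
      · exact hD0
    have h4 : (n : ℝ) / N s ≤ n / (s + 1) := by
      apply div_le_div_of_nonneg_left (Nat.cast_nonneg _) (by positivity)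
      exact_mod_cast hN s
    have h5 : D * ((n : ℝ) / N s + 1) ≤ D * (n / (s + 1) + 1) := by gcongr
    linarith
  have hsum : ∀ s n, TT (s + 1) ≤ n → n ≤ TT (s + 2) →
      ∑ i ∈ Finset.range n, dist (f (x i)) (x (i + 1)) ≤ n * (5 * D / (s + 1)) := by
    intro s n h1 h2
    obtain ⟨r, rfl⟩ : ∃ r, n = TT (s + 1) + r := ⟨n - TT (s + 1), by omega⟩
    obtain ⟨m, hm⟩ : ∃ m, TT (s + 1) = TT s + m := ⟨TT (s + 1) - TT s, by have := hTlt s; omega⟩
    rw [Finset.sum_range_add, hm, Finset.sum_range_add, ← hm]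
    have p1 : ∑ i ∈ Finset.range (TT s), dist (f (x i)) (x (i + 1)) ≤ TT s * D := by
      refine (Finset.sum_le_sum fun i _ => hD _ _).trans ?_
      rw [Finset.sum_const, Finset.card_range, nsmul_eq_mul]
    have p2 := hwin s m hm.ge
    have p3 := hwin (s + 1) r h2
    have g1 : (((s + 2) * (TT s + 1) : ℕ) : ℝ) ≤ TT (s + 1) := by exact_mod_cast hTge s
    push_cast at g1
    have g2 : ((TT (s + 1) : ℕ) : ℝ) = TT s + m := by exact_mod_cast hm
    have hs0 : (0 : ℝ) < s + 1 := by positivity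
    have hTpos : (0 : ℝ) ≤ TT s := Nat.cast_nonneg _
    have hrpos : (0 : ℝ) ≤ r := Nat.cast_nonneg _
    have g3 : (r : ℝ) / (((s + 1 : ℕ) : ℝ) + 1) ≤ r / (s + 1) := by
      apply div_le_div_of_nonneg_left hrpos hs0
      push_cast; linarith
    have g4 : (s + 2 : ℝ) ≤ TT (s + 1) := by
      have : (0 : ℝ) ≤ (s + 2) * TT s := by positivity
      nlinarith
    have p3' : ∑ i ∈ Finset.range r, dist (f (x (TT (s + 1) + i))) (x (TT (s + 1) + i + 1)) ≤
        D * (r / (s + 1) + 2) := by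
      refine p3.trans ?_
      gcongr
    have g5 : (TT s : ℝ) + 1 ≤ TT (s + 1) / (s + 1) := by
      rw [le_div_iff₀ hs0]
      nlinarith
    have g6 : (1 : ℝ) ≤ (TT (s + 1) + r) / (s + 1) := by
      rw [le_div_iff₀ hs0]
      linarith
    have total : TT s * D + (D * (m / (s + 1) + 2) + D * (r / (s + 1) + 2)) ≤
        ((TT (s + 1) + r : ℕ) : ℝ) * (5 * D / (s + 1)) := by
      push_cast
      have e1 : ((TT (s + 1) : ℝ) + r) * (5 * D / (s + 1)) =
          D * (5 * ((TT (s + 1) + r) / (s + 1))) := by ring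
      rw [e1]
      have e2 : (m : ℝ) / (s + 1) + r / (s + 1) ≤ (TT (s + 1) + r) / (s + 1) := by
        rw [← add_div]
        apply div_le_div_of_nonneg_right _ hs0.le
        linarith
      have e3 : (TT (s + 1) : ℝ) / (s + 1) ≤ (TT (s + 1) + r) / (s + 1) := by
        apply div_le_div_of_nonneg_right _ hs0.le
        linarith
      have e4 : TT s + ((m : ℝ) / (s + 1) + 2 + (r / (s + 1) + 2)) ≤
          5 * ((TT (s + 1) + r) / (s + 1)) := by linarith
      have := mul_le_mul_of_nonneg_left e4 hD0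
      linarith
    linarith
  have hpo : IsAsympAvgPseudoOrbit f x := by
    have hlim : Tendsto (fun n : ℕ => 5 * D / (κ n : ℝ)) atTop (𝓝 0) := by
      have h1 : Tendsto (fun n : ℕ => (κ n : ℝ)) atTop atTop :=
        tendsto_natCast_atTop_atTop.comp hκtop
      exact h1.const_div_atTop _
    refine squeeze_zero' (Eventually.of_forall fun n => ?_) ?_ hlim
    · exact mul_nonneg (by positivity) (Finset.sum_nonneg fun i _ => dist_nonneg)
    · filter_upwards [eventually_ge_atTop (TT 1), eventually_gt_atTop 0] with n hn hn0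
      have hκn : 1 ≤ κ n := by
        have := hTmono.lt_iff_lt.1 (lt_of_le_of_lt hn (hκ2 n))
        omega
      obtain ⟨s, hs⟩ : ∃ s, κ n = s + 1 := ⟨κ n - 1, by omega⟩
      have h1 := hsum s n (by rw [← hs]; exact hκ1 n) (by
        have := (hκ2 n).le
        rwa [hs] at this)
      have hn0' : (0 : ℝ) < n := by exact_mod_cast hn0
      rw [one_div, inv_mul_le_iff₀ hn0', hs]
      push_cast
      exact h1
  obtain ⟨z, hzz⟩ := hf x hpo
  -- contradiction at the ends of the stages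
  have hlow : ∀ s, ε / 2 ≤ (1 / ((TT (s + 1) : ℕ) : ℝ)) *
      ∑ i ∈ Finset.range (TT (s + 1)), dist (f^[i] z) (x i) := by
    intro s
    have hpos : (0 : ℝ) < (TT (s + 1) : ℕ) := by
      have := hTlt s
      exact_mod_cast (by omega : 0 < TT (s + 1))
    rw [one_div, le_inv_mul_iff₀ hpos, hTs s, Finset.sum_range_add]
    have h1 := windows (g := fun i => dist (f^[i] z) (x i)) (L := k s * N s)
      (η := ε * (k s * N s)) (TT s) ((s + 2) * (TT s + 1)) (fun j hj => by
        refine (hz s (f^[TT s + k s * N s * j] z)).le.trans (le_of_eq ?_)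
        apply Finset.sum_congr rfl
        intro i hi
        rw [Finset.mem_range] at hi
        have hlt : TT s + (k s * N s * j + i) < TT (s + 1) := by
          rw [hTs]
          have : k s * N s * (j + 1) ≤ k s * N s * ((s + 2) * (TT s + 1)) :=
            Nat.mul_le_mul_left _ hj
          rw [Nat.mul_succ] at this
          omega
        rw [hx s _ hlt, q_period (hNpos s) (hk s) (a s) hi, ← Function.iterate_add_apply]
        congr 2
        omega)
    have h2 : 0 ≤ ∑ i ∈ Finset.range (TT s), dist (f^[i] z) (x i) :=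
      Finset.sum_nonneg fun i _ => dist_nonneg
    have h3 : (((TT s + k s * N s * ((s + 2) * (TT s + 1)) : ℕ)) : ℝ) * (ε / 2) ≤
        ε * (k s * N s) * (((s + 2) * (TT s + 1) : ℕ) : ℝ) := by
      push_cast
      have hL' : (1 : ℝ) ≤ k s * N s := by exact_mod_cast hL s
      have hTn : (0 : ℝ) ≤ TT s := Nat.cast_nonneg _
      have hsn : (0 : ℝ) ≤ s := Nat.cast_nonneg _
      have h4 : (TT s : ℝ) ≤ (k s * N s) * ((s + 2) * (TT s + 1)) := by
        have h5 : (TT s : ℝ) ≤ (s + 2) * (TT s + 1) := by nlinarith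
        have h6 : (0 : ℝ) ≤ (s + 2) * (TT s + 1) := by positivity
        nlinarith
      nlinarith
    linarith
  have h1 : Tendsto (fun s : ℕ => TT (s + 1)) atTop atTop :=
    (hTmono.tendsto_atTop).comp (tendsto_add_atTop_nat 1)
  have h2 := (Tendsto.comp hzz h1).eventually_lt_const (half_pos hε)
  obtain ⟨s, hs⟩ := h2.exists
  exact absurd (hlow s) (not_le.2 hs)

/-! ### Almost specification -/

/-- `g` is a mistake function (for `ε ∈ (0, ε₀]`). -/
def IsMistake (ε₀ : ℝ) (g : ℕ → ℝ → ℕ) : Prop :=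
  0 < ε₀ ∧ ∀ ε, 0 < ε → ε ≤ ε₀ → (∀ n ≥ 1, g n ε ≤ g (n + 1) ε) ∧
    Tendsto (fun n : ℕ => (g n ε : ℝ) / n) atTop (𝓝 0)

/-- The extension `g(n,ε) = g(n,ε₀)` for `ε > ε₀`. -/
def ext (ε₀ : ℝ) (g : ℕ → ℝ → ℕ) (n : ℕ) (ε : ℝ) : ℕ := g n (min ε ε₀)

/-- `y` is `ε`-close to `x` during the first `n` steps with at most `G` mistakes. -/
def InBall (f : X → X) (G n : ℕ) (x : X) (ε : ℝ) (y : X) : Prop :=
  ∃ Λ : Finset ℕ, Λ ⊆ Finset.range n ∧ n - G ≤ Λ.card ∧ ∀ j ∈ Λ, dist (f^[j] x) (f^[j] y) < ε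

/-- The almost specification property. -/
def AlmostSpec (f : X → X) : Prop :=
  ∃ (ε₀ : ℝ) (g : ℕ → ℝ → ℕ) (kg : ℝ → ℕ), IsMistake ε₀ g ∧
    (∀ ε > 0, ∀ n ≥ kg ε, ext ε₀ g n ε < n) ∧
    ∀ (m : ℕ) (ε : Fin m → ℝ) (x : Fin m → X) (n : Fin m → ℕ), 1 ≤ m → (∀ j, 0 < ε j) →
      (∀ j, kg (ε j) ≤ n j) → ∃ z, ∀ j,
        InBall f (ext ε₀ g (n j) (ε j)) (n j) (x j) (ε j) (f^[∑ i ∈ Finset.Iio j, n i] z)

lemma ft_of_as [CompactSpace X] {f : X → X} (hf : AlmostSpec f) : FT f := by
  intro ε hε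
  obtain ⟨D, hD0, hD⟩ := exists_bound X
  obtain ⟨ε₀, g, kg, ⟨hε₀, hg⟩, hkg, hspec⟩ := hf
  have h1 := (hg (min (ε / 2) ε₀) (lt_min (half_pos hε) hε₀) (min_le_right _ _)).2
  have h2 : ∀ᶠ n : ℕ in atTop, (g n (min (ε / 2) ε₀) : ℝ) / n < ε / (2 * (D + 1)) :=
    h1.eventually_lt_const (by positivity)
  obtain ⟨N₁, hN₁⟩ := eventually_atTop.1 h2
  refine ⟨max N₁ (kg (ε / 2)), fun N hN hNpos k a => ?_⟩
  rcases Nat.eq_zero_or_pos k with rfl | hk
  · exact ⟨a 0, by simp⟩
  obtain ⟨z, hz⟩ := hspec k (fun _ => ε / 2) (fun j => a j) (fun _ => N) hk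
    (fun _ => half_pos hε) (fun _ => (le_max_right _ _).trans hN)
  refine ⟨z, ?_⟩
  have hNpos' : (0 : ℝ) < N := by exact_mod_cast hNpos
  have hG : (ext ε₀ g N (ε / 2) : ℝ) * D ≤ ε / 2 * N := by
    have h3 := hN₁ N ((le_max_left _ _).trans hN)
    rw [div_lt_iff₀ hNpos'] at h3
    have h4 : (ext ε₀ g N (ε / 2) : ℝ) * D ≤ ε / (2 * (D + 1)) * N * D :=
      mul_le_mul_of_nonneg_right h3.le hD0
    refine h4.trans ?_
    have h5 : ε / (2 * (D + 1)) * N * D = ε / 2 * N * (D / (D + 1)) := by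
      field_simp
    rw [h5]
    have h6 : D / (D + 1) ≤ 1 := by
      rw [div_le_one (by positivity)]; linarith
    have h7 : 0 ≤ ε / 2 * N := by positivity
    nlinarith
  rw [mul_comm k N]
  have key := windows_le (g := fun i => dist (f^[i] z) (f^[i % N] (a (i / N)))) (L := N)
    (η := ε * N) k (fun j hj => by
      obtain ⟨Λ, hΛ, hc, hd⟩ := hz ⟨j, hj⟩
      have hsum : ∑ i ∈ Finset.Iio (⟨j, hj⟩ : Fin k), N = N * j := by
        rw [Finset.sum_const, Fin.card_Iio, smul_eq_mul, mul_comm]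
      rw [hsum] at hd
      have e1 : ∑ i ∈ Finset.range N, dist (f^[N * j + i] z)
          (f^[(N * j + i) % N] (a ((N * j + i) / N))) =
          ∑ i ∈ Finset.range N, dist (f^[i] (f^[N * j] z)) (f^[i] (a j)) := by
        apply Finset.sum_congr rfl
        intro i hi
        rw [Finset.mem_range] at hi
        rw [Nat.mul_add_mod, Nat.mod_eq_of_lt hi, Nat.mul_add_div hNpos, Nat.div_eq_of_lt hi,
          add_zero, ← Function.iterate_add_apply, add_comm i]
      rw [e1, ← Finset.sum_sdiff hΛ]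
      have e2 : ∑ i ∈ Finset.range N \ Λ, dist (f^[i] (f^[N * j] z)) (f^[i] (a j)) ≤
          (ext ε₀ g N (ε / 2) : ℝ) * D := by
        refine (Finset.sum_le_sum fun i _ => hD _ _).trans ?_
        rw [Finset.sum_const, nsmul_eq_mul]
        apply mul_le_mul_of_nonneg_right _ hD0
        have : (Finset.range N \ Λ).card ≤ ext ε₀ g N (ε / 2) := by
          rw [Finset.card_sdiff_of_subset hΛ, Finset.card_range]
          omega
        exact_mod_cast this
      have e3 : ∑ i ∈ Λ, dist (f^[i] (f^[N * j] z)) (f^[i] (a j)) ≤ ε / 2 * N := by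
        have e4 : ∑ i ∈ Λ, dist (f^[i] (f^[N * j] z)) (f^[i] (a j)) ≤ ∑ _i ∈ Λ, ε / 2 :=
          Finset.sum_le_sum fun i hi => by
            rw [dist_comm]; exact (hd i hi).le
        refine e4.trans ?_
        rw [Finset.sum_const, nsmul_eq_mul, mul_comm]
        apply mul_le_mul_of_nonneg_left _ (by positivity)
        have := Finset.card_le_card hΛ
        rw [Finset.card_range] at this
        exact_mod_cast this
      linarith)
  refine key.trans (le_of_eq (by ring))

end Q69.FinTrace
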