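import Mathlib
import Pool.Agent.Q69.Dens

/-!
# Frequencies
-/

set_option autoImplicit false
open Set Filter Topology

namespace Q69Freq

open Q69Dens

/-! ### Frequencies -/

/-- the frequency function -/
noncomputable def fr (A : ℕ → Prop) (n : ℕ) : ℝ := (ct A (n + 1) : ℝ) / n

lemma fr_nonneg (A : ℕ → Prop) (n : ℕ) : 0 ≤ fr A n := by unfold fr; positivity

lemma fr_le (A : ℕ → Prop) (n : ℕ) : fr A n ≤ 2 := by
  unfold fr
  rcases Nat.eq_zero_or_pos n with h | h
  · subst h; simp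
  · have hn : (0 : ℝ) < n := by exact_mod_cast h
    rw [div_le_iff₀ hn]
    have : ct A (n + 1) ≤ 2 * n := (ct_le A (n + 1)).trans (by omega)
    exact_mod_cast this

lemma bdd_le (A : ℕ → Prop) : IsBoundedUnder (· ≤ ·) atTop (fr A) :=
  isBoundedUnder_of ⟨2, fr_le A⟩

lemma bdd_ge (A : ℕ → Prop) : IsBoundedUnder (· ≥ ·) atTop (fr A) :=
  isBoundedUnder_of ⟨0, fr_nonneg A⟩

lemma cobdd_le (A : ℕ → Prop) : IsCoboundedUnder (· ≤ ·) atTop (fr A) :=
  (bdd_ge A).isCoboundedUnder_le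

lemma cobdd_ge (A : ℕ → Prop) : IsCoboundedUnder (· ≥ ·) atTop (fr A) :=
  (bdd_le A).isCoboundedUnder_ge

lemma limsup_le {A : ℕ → Prop} {a : ℝ} (h : ∀ᶠ n in atTop, fr A n ≤ a) :
    limsup (fr A) atTop ≤ a := limsup_le_of_le (cobdd_le A) h

lemma le_liminf {A : ℕ → Prop} {a : ℝ} (h : ∀ᶠ n in atTop, a ≤ fr A n) :
    a ≤ liminf (fr A) atTop := le_liminf_of_le (cobdd_ge A) h

lemma le_limsup {A : ℕ → Prop} {a : ℝ} (h : ∃ᶠ n in atTop, a ≤ fr A n) :
    a ≤ limsup (fr A) atTop := le_limsup_of_frequently_le h (bdd_le A)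

lemma liminf_le {A : ℕ → Prop} {a : ℝ} (h : ∃ᶠ n in atTop, fr A n ≤ a) :
    liminf (fr A) atTop ≤ a := liminf_le_of_frequently_le h (bdd_ge A)

lemma limsup_lt_one {A : ℕ → Prop} (h : PL fun n => ¬ A n) : limsup (fr A) atTop < 1 := by
  obtain ⟨c, hc, hT⟩ := h
  refine lt_of_le_of_lt (limsup_le (a := 1 - c / 2) ?_) (by linarith)
  obtain ⟨M, hM⟩ := exists_nat_ge (1 / (c / 2))
  filter_upwards [(tendsto_add_atTop_nat 1).eventually hT, eventually_ge_atTop (M + 1)] with n h1 h2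
  have hn : (0 : ℝ) < n := by
    have : 0 < n := by omega
    exact_mod_cast this
  have h3 : (ct A (n + 1) : ℝ) + ct (fun k => ¬ A k) (n + 1) = n + 1 := by
    exact_mod_cast ct_not A (n + 1)
  unfold fr
  rw [div_le_iff₀ hn]
  have h4 : (M : ℝ) ≤ n := by
    have : M ≤ n := by omega
    exact_mod_cast this
  rw [div_le_iff₀ (by positivity)] at hM
  push_cast at h1
  nlinarith

lemma one_le_liminf {A : ℕ → Prop} (h : Z fun n => ¬ A n) : 1 ≤ liminf (fr A) atTop := by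
  apply le_of_forall_pos_le_add
  intro ε hε
  have : 1 - ε ≤ liminf (fr A) atTop := by
    apply le_liminf
    filter_upwards [(tendsto_add_atTop_nat 1).eventually (h ε hε), eventually_ge_atTop 1]
      with n h1 h2
    have hn : (0 : ℝ) < n := by exact_mod_cast h2
    have h3 : (ct A (n + 1) : ℝ) + ct (fun k => ¬ A k) (n + 1) = n + 1 := by
      exact_mod_cast ct_not A (n + 1)
    unfold fr
    rw [le_div_iff₀ hn]
    push_cast at h1
    have h4 : (ct A (n + 1) : ℝ) ≥ (1 - ε) * (n + 1) := by linarith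
    by_cases hε1 : ε ≤ 1
    · nlinarith
    · have : (0 : ℝ) ≤ ct A (n + 1) := Nat.cast_nonneg _
      nlinarith
  linarith

lemma fr_mono {A B : ℕ → Prop} (h : ∀ n, A n → B n) (n : ℕ) : fr A n ≤ fr B n := by
  unfold fr
  have : (ct A (n + 1) : ℝ) ≤ ct B (n + 1) := by exact_mod_cast ct_mono h _
  exact div_le_div_of_nonneg_right this (Nat.cast_nonneg _)

end Q69Freq
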