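import Mathlib

/-!
# The weighted spectrum of the golden mean
-/

namespace Q69.Golden

open Set Filter Topology Real

/-- The value `∑_{i=1}^n c_i φ^{n-i}` of a digit string `c` (here indexed by `0, …, n-1`). -/
noncomputable def val (n : ℕ) (c : Fin n → ℤ) : ℝ :=
  ∑ i : Fin n, (c i : ℝ) * Real.goldenRatio ^ (n - 1 - (i : ℕ))

/-- The spectrum `X(φ)`: all values `∑_{i=1}^n c_i φ^{n-i}` with digits `c_i ∈ {-1,0,1}`. -/
def Spec : Set ℝ :=
  {x | ∃ (n : ℕ) (c : Fin n → ℤ), (∀ i, c i = -1 ∨ c i = 0 ∨ c i = 1) ∧ x = val n c}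

/-- The difference string `a_i - b_i` of two `0,1` strings. -/
def diff {n : ℕ} (p : (Fin n → Fin 2) × (Fin n → Fin 2)) : Fin n → ℤ :=
  fun i => ((p.1 i : ℕ) : ℤ) - ((p.2 i : ℕ) : ℤ)

/-- `N n x` is the number of pairs `(a,b)` of `0,1` strings of length `n` with
`∑ (a_i - b_i) φ^{n-i} = x`. -/
noncomputable def N (n : ℕ) (x : ℝ) : ℕ :=
  Set.ncard {p : (Fin n → Fin 2) × (Fin n → Fin 2) | val n (diff p) = x}

/-- `lam` is the exponential growth rate of `N n 0`, and `μ x` is the limit of `lam⁻ⁿ N n x` for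
every `x` in the spectrum. -/
structure IsWeight (lam : ℝ) (μ : ℝ → ℝ) : Prop where
  pos : 0 < lam
  growth : Tendsto (fun n : ℕ => ((N n 0 : ℕ) : ℝ) ^ ((1 : ℝ) / (n : ℝ))) atTop (𝓝 lam)
  lim : ∀ x ∈ Spec, Tendsto (fun n : ℕ => ((N n x : ℕ) : ℝ) / lam ^ n) atTop (𝓝 (μ x))

theorem phi_sq : goldenRatio * goldenRatio = goldenRatio + 1 := by
  have := Real.goldenRatio_sq
  nlinarith

theorem psi_sq : goldenConj * goldenConj = goldenConj + 1 := by
  have := Real.goldenConj_sq
  nlinarith

theorem phi_gt : (1.618 : ℝ) < goldenRatio := by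
  have h1 := phi_sq
  have h2 := Real.one_lt_goldenRatio
  by_contra h
  push Not at h
  nlinarith

theorem phi_lt : goldenRatio < (1.6181 : ℝ) := by
  have h1 := phi_sq
  have h2 := Real.one_lt_goldenRatio
  by_contra h
  push Not at h
  nlinarith

theorem psi_eq : goldenConj = 1 - goldenRatio := by
  have := Real.goldenRatio_add_goldenConj
  linarith

theorem val_succ (n : ℕ) (c : Fin (n + 1) → ℤ) :
    val (n + 1) c = goldenRatio * val n (fun i => c i.castSucc) + c (Fin.last n) := by
  unfold val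
  rw [Fin.sum_univ_castSucc, Finset.mul_sum]
  congr 1
  · apply Finset.sum_congr rfl
    intro i _
    have : n + 1 - 1 - ((i.castSucc : Fin (n + 1)) : ℕ) = (n - 1 - (i : ℕ)) + 1 := by
      have := i.2
      simp only [Fin.val_castSucc]
      omega
    rw [this, pow_succ]
    ring
  · simp

theorem val_zero (c : Fin 0 → ℤ) : val 0 c = 0 := by
  unfold val
  simp

/-- Every value is `a + b φ` with integers `a, b` and small conjugate. -/
theorem val_conj (n : ℕ) (c : Fin n → ℤ) (hc : ∀ i, |c i| ≤ 1) :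
    ∃ a b : ℤ, val n c = a + b * goldenRatio ∧
      |(a : ℝ) + b * goldenConj| < goldenRatio + 1 := by
  induction n with
  | zero =>
    refine ⟨0, 0, ?_, ?_⟩
    · simp [val_zero]
    · have := Real.goldenRatio_pos
      simp only [Int.cast_zero, zero_mul, add_zero, abs_zero]
      linarith
  | succ n ih =>
    obtain ⟨a, b, h1, h2⟩ := ih (fun i => c i.castSucc) (fun i => hc _)
    refine ⟨b + c (Fin.last n), a + b, ?_, ?_⟩
    · rw [val_succ, h1]
      push_cast
      linear_combination (b : ℝ) * phi_sq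
    · have h3 : ((b + c (Fin.last n) : ℤ) : ℝ) + ((a + b : ℤ) : ℝ) * goldenConj =
          goldenConj * ((a : ℝ) + b * goldenConj) + c (Fin.last n) := by
        push_cast
        linear_combination (-(b : ℝ)) * psi_sq
      rw [h3]
      have h4 : |((c (Fin.last n) : ℤ) : ℝ)| ≤ 1 := by
        have := hc (Fin.last n)
        exact_mod_cast this
      have h5 : |goldenConj| = goldenRatio - 1 := by
        rw [psi_eq, abs_of_neg]
        · ring
        · linarith [Real.one_lt_goldenRatio]
      calc |goldenConj * ((a : ℝ) + b * goldenConj) + c (Fin.last n)|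
          ≤ |goldenConj * ((a : ℝ) + b * goldenConj)| + |((c (Fin.last n) : ℤ) : ℝ)| :=
            abs_add_le _ _
        _ = (goldenRatio - 1) * |((a : ℝ) + b * goldenConj)| + |((c (Fin.last n) : ℤ) : ℝ)| := by
            rw [abs_mul, h5]
        _ < (goldenRatio - 1) * (goldenRatio + 1) + 1 := by
            have := Real.one_lt_goldenRatio
            nlinarith
        _ = goldenRatio + 1 := by
            linear_combination phi_sq

theorem rep_unique {a b a' b' : ℤ} (h : (a : ℝ) + b * goldenRatio = a' + b' * goldenRatio) :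
    a = a' ∧ b = b' := by
  have hirr := Real.goldenRatio_irrational
  by_cases hb : b = b'
  · subst hb
    refine ⟨?_, rfl⟩
    have : (a : ℝ) = a' := by linarith
    exact_mod_cast this
  · exfalso
    have hb' : ((b - b' : ℤ) : ℝ) ≠ 0 := by
      exact_mod_cast sub_ne_zero.mpr hb
    apply hirr
    refine ⟨((a' - a : ℤ) : ℚ) / ((b - b' : ℤ) : ℚ), ?_⟩
    push_cast at hb' ⊢
    rw [div_eq_iff hb']
    linarith

theorem spec_conj {x : ℝ} (hx : x ∈ Spec) : ∃ a b : ℤ, x = a + b * goldenRatio ∧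
    |(a : ℝ) + b * goldenConj| < goldenRatio + 1 := by
  obtain ⟨n, c, hc, rfl⟩ := hx
  apply val_conj
  intro i
  rcases hc i with h | h | h <;> rw [h] <;> norm_num

theorem spec_conj' {a b : ℤ} (hx : (a : ℝ) + b * goldenRatio ∈ Spec) :
    |(a : ℝ) + b * goldenConj| < goldenRatio + 1 := by
  obtain ⟨a', b', h1, h2⟩ := spec_conj hx
  obtain ⟨rfl, rfl⟩ := rep_unique h1
  exact h2

theorem diff_abs {n : ℕ} (p : (Fin n → Fin 2) × (Fin n → Fin 2)) (i : Fin n) :
    diff p i = -1 ∨ diff p i = 0 ∨ diff p i = 1 := by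
  unfold diff
  have h1 := (p.1 i).2
  have h2 := (p.2 i).2
  omega

theorem val_diff_mem {n : ℕ} (p : (Fin n → Fin 2) × (Fin n → Fin 2)) : val n (diff p) ∈ Spec :=
  ⟨n, diff p, diff_abs p, rfl⟩

theorem N_eq_zero {x : ℝ} (hx : x ∉ Spec) (n : ℕ) : N n x = 0 := by
  unfold N
  rw [Set.ncard_eq_zero]
  ext p
  simp only [mem_setOf_eq, mem_empty_iff_false, iff_false]
  rintro rfl
  exact hx (val_diff_mem p)

theorem val_neg (n : ℕ) (c : Fin n → ℤ) : val n (fun i => - c i) = - val n c := by
  unfold val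
  rw [← Finset.sum_neg_distrib]
  apply Finset.sum_congr rfl
  intro i _
  push_cast
  ring

theorem diff_swap {n : ℕ} (p : (Fin n → Fin 2) × (Fin n → Fin 2)) :
    diff p.swap = fun i => - diff p i := by
  ext i
  simp [diff]

theorem N_neg (n : ℕ) (x : ℝ) : N n (-x) = N n x := by
  unfold N
  have : {p : (Fin n → Fin 2) × (Fin n → Fin 2) | val n (diff p) = -x} =
      Prod.swap '' {p : (Fin n → Fin 2) × (Fin n → Fin 2) | val n (diff p) = x} := by
    ext p
    constructor
    · intro hp
      refine ⟨p.swap, ?_, Prod.swap_swap p⟩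
      simp only [mem_setOf_eq] at hp ⊢
      rw [diff_swap, val_neg, hp, neg_neg]
    · rintro ⟨q, hq, rfl⟩
      simp only [mem_setOf_eq] at hq ⊢
      rw [diff_swap, val_neg, hq]
  rw [this, Set.ncard_image_of_injective _ Prod.swap_injective]

theorem N_sum (n : ℕ) (x : ℝ) : N n x =
    ∑ a : Fin n → Fin 2, ∑ b : Fin n → Fin 2, open Classical in
      (if val n (diff (a, b)) = x then 1 else 0) := by
  classical
  unfold N
  rw [← Fintype.sum_prod_type', ← Finset.card_filter, Set.ncard_eq_toFinset_card']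
  congr 1
  ext p
  simp

theorem N_succ (n : ℕ) (x : ℝ) : N (n + 1) x =
    2 * N n (x / goldenRatio) + N n ((x - 1) / goldenRatio) + N n ((x + 1) / goldenRatio) := by
  classical
  have hphi : goldenRatio ≠ 0 := Real.goldenRatio_ne_zero
  have key : ∀ (α β : Fin 2) (a b : Fin n → Fin 2),
      val (n + 1) (diff (Fin.snoc (α := fun _ => Fin 2) a α, Fin.snoc (α := fun _ => Fin 2) b β)) =
        goldenRatio * val n (diff (a, b)) + (((α : ℕ) : ℝ) - ((β : ℕ) : ℝ)) := by
    intro α β a b
    rw [val_succ]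
    congr 1
    · congr 1
      congr 1
      funext i
      simp [diff]
    · simp [diff]
  have hsum : ∀ f : (Fin (n + 1) → Fin 2) → ℕ, ∑ a, f a =
      ∑ α : Fin 2, ∑ a : Fin n → Fin 2, f (Fin.snoc (α := fun _ => Fin 2) a α) := by
    intro f
    rw [← Fintype.sum_prod_type']
    exact (Fintype.sum_equiv (Fin.snocEquiv (fun _ => Fin 2)) _ _ (fun p => rfl)).symm
  rw [N_sum, hsum]
  simp_rw [hsum, key]
  simp only [Fin.sum_univ_two, Fin.val_zero, Fin.val_one, Nat.cast_zero, Nat.cast_one, sub_zero,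
    sub_self, add_zero, zero_sub, Finset.sum_add_distrib]
  have e0 : ∀ v : ℝ, (goldenRatio * v = x) ↔ (v = x / goldenRatio) := by
    intro v
    rw [eq_div_iff hphi, mul_comm]
  have e1 : ∀ v : ℝ, (goldenRatio * v + -1 = x) ↔ (v = (x + 1) / goldenRatio) := by
    intro v
    rw [eq_div_iff hphi, mul_comm]
    constructor <;> intro h <;> linarith
  have e2 : ∀ v : ℝ, (goldenRatio * v + 1 = x) ↔ (v = (x - 1) / goldenRatio) := by
    intro v
    rw [eq_div_iff hphi, mul_comm]
    constructor <;> intro h <;> linarith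
  simp only [e0, e1, e2, N_sum]
  ring

end Q69.Golden
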