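import Pool.Agent.Q69.Golden

/-!
# Existence of the weights on the spectrum of the golden mean
-/

namespace Q69.Golden

open Set Filter Topology Real

theorem not_spec {a b : ℤ} {x : ℝ} (hx : x = a + b * goldenRatio)
    (h : goldenRatio + 1 ≤ |(a : ℝ) + b * goldenConj|) : x ∉ Spec := by
  intro hm
  rw [hx] at hm
  exact absurd (spec_conj' hm) (not_lt.mpr h)

theorem div_phi {x : ℝ} : x / goldenRatio = x * (goldenRatio - 1) := by
  have hphi : goldenRatio ≠ 0 := Real.goldenRatio_ne_zero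
  rw [div_eq_iff hphi]
  linear_combination (-x) * phi_sq

theorem A_succ (n : ℕ) : N (n + 1) 0 = 2 * N n 0 + 2 * N n (goldenRatio - 1) := by
  rw [N_succ]
  have e1 : ((0 : ℝ) - 1) / goldenRatio = -(goldenRatio - 1) := by rw [div_phi]; ring
  have e2 : ((0 : ℝ) + 1) / goldenRatio = (goldenRatio - 1) := by rw [div_phi]; ring
  rw [e1, e2, N_neg, zero_div]
  ring

theorem B_succ (n : ℕ) : N (n + 1) (goldenRatio - 1) = N n 1 := by
  rw [N_succ]
  have hp := Real.one_lt_goldenRatio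
  have e1 : N n ((goldenRatio - 1) / goldenRatio) = 0 := by
    apply N_eq_zero
    apply not_spec (a := 2) (b := -1)
    · rw [div_phi]; push_cast; linear_combination phi_sq
    · rw [psi_eq]
      push_cast
      rw [abs_of_pos] <;> linarith
  have e2 : N n ((goldenRatio - 1 - 1) / goldenRatio) = 0 := by
    apply N_eq_zero
    apply not_spec (a := 3) (b := -2)
    · rw [div_phi]; push_cast; linear_combination phi_sq
    · rw [psi_eq]
      push_cast
      rw [abs_of_pos] <;> linarith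
  have e3 : (goldenRatio - 1 + 1) / goldenRatio = 1 := by
    rw [sub_add_cancel, div_self Real.goldenRatio_ne_zero]
  rw [e1, e2, e3]
  ring

theorem C_succ (n : ℕ) : N (n + 1) 1 = N n 0 + 2 * N n (goldenRatio - 1) := by
  rw [N_succ]
  have hp := Real.one_lt_goldenRatio
  have e1 : (1 : ℝ) / goldenRatio = goldenRatio - 1 := by rw [div_phi]; ring
  have e2 : ((1 : ℝ) - 1) / goldenRatio = 0 := by simp
  have e3 : N n ((1 + 1) / goldenRatio) = 0 := by
    apply N_eq_zero
    apply not_spec (a := -2) (b := 2)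
    · rw [div_phi]; push_cast; ring
    · rw [psi_eq]
      push_cast
      rw [abs_of_neg] <;> linarith
  rw [e1, e2, e3]
  ring

theorem D_succ (n : ℕ) : N (n + 1) goldenRatio = 2 * N n 1 + N n goldenRatio := by
  rw [N_succ]
  have hp := Real.one_lt_goldenRatio
  have e1 : goldenRatio / goldenRatio = 1 := div_self Real.goldenRatio_ne_zero
  have e2 : N n ((goldenRatio - 1) / goldenRatio) = 0 := by
    apply N_eq_zero
    apply not_spec (a := 2) (b := -1)
    · rw [div_phi]; push_cast; linear_combination phi_sq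
    · rw [psi_eq]
      push_cast
      rw [abs_of_pos] <;> linarith
  have e3 : (goldenRatio + 1) / goldenRatio = goldenRatio := by
    rw [← phi_sq]
    field_simp
  rw [e1, e2, e3]
  ring

theorem N_zero_zero : N 0 0 = 1 := by
  rw [N_sum]
  simp [val_zero]

theorem N_zero_ne {x : ℝ} (hx : x ≠ 0) : N 0 x = 0 := by
  rw [N_sum]
  simp [val_zero, hx.symm]

/-- Second order contraction. -/
theorem tendsto_of_contract {e : ℕ → ℝ} {α β : ℝ} (hab : |α| + |β| ≤ 1 / 2)
    (h : ∀ n, e (n + 2) = α * e (n + 1) + β * e n) : Tendsto e atTop (𝓝 0) := by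
  set K := |e 0| + (4 / 3) * |e 1| with hK
  have hK0 : 0 ≤ K := by positivity
  have hb : ∀ n, |e n| ≤ K * (3 / 4) ^ n ∧ |e (n + 1)| ≤ K * (3 / 4) ^ (n + 1) := by
    intro n
    induction n with
    | zero =>
      constructor
      · have := abs_nonneg (e 1)
        simp only [pow_zero, mul_one, hK]
        linarith
      · have := abs_nonneg (e 0)
        simp only [zero_add, pow_one, hK]
        linarith
    | succ n ih =>
      refine ⟨ih.2, ?_⟩
      rw [show n + 1 + 1 = n + 2 by ring, h n]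
      have h1 : |α * e (n + 1) + β * e n| ≤ |α| * |e (n + 1)| + |β| * |e n| := by
        calc _ ≤ |α * e (n + 1)| + |β * e n| := abs_add_le _ _
          _ = _ := by rw [abs_mul, abs_mul]
      have h2 : |α| * |e (n + 1)| ≤ |α| * (K * (3 / 4) ^ (n + 1)) :=
        mul_le_mul_of_nonneg_left ih.2 (abs_nonneg _)
      have h3 : |β| * |e n| ≤ |β| * (K * (3 / 4) ^ n) :=
        mul_le_mul_of_nonneg_left ih.1 (abs_nonneg _)
      have h4 : 0 ≤ K * (3 / 4 : ℝ) ^ n := by positivity
      have h5 : (3 / 4 : ℝ) ^ (n + 1) = (3 / 4) ^ n * (3 / 4) := pow_succ _ _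
      have h6 : (3 / 4 : ℝ) ^ (n + 2) = (3 / 4) ^ n * (9 / 16) := by
        rw [pow_add]; norm_num
      rw [h6]
      rw [h5] at h2
      have h7 : (|α| * (3 / 4) + |β|) * (K * (3 / 4) ^ n) ≤ (9 / 16) * (K * (3 / 4) ^ n) := by
        apply mul_le_mul_of_nonneg_right _ h4
        have := abs_nonneg α
        linarith
      nlinarith
  have hlim : Tendsto (fun n : ℕ => K * (3 / 4 : ℝ) ^ n) atTop (𝓝 0) := by
    have := tendsto_pow_atTop_nhds_zero_of_lt_one (r := (3 / 4 : ℝ)) (by norm_num) (by norm_num)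
    simpa using this.const_mul K
  exact squeeze_zero_norm (fun n => by rw [Real.norm_eq_abs]; exact (hb n).1) hlim

/-- The growth rate. -/
theorem exists_root : ∃ l : ℝ, 2.4 ≤ l ∧ l ≤ 2.5 ∧ l ^ 3 = 2 * l ^ 2 + 2 * l - 2 := by
  have hc : ContinuousOn (fun l : ℝ => l ^ 3 - 2 * l ^ 2 - 2 * l + 2) (Icc 2.4 2.5) := by
    fun_prop
  have := intermediate_value_Icc (by norm_num : (2.4 : ℝ) ≤ 2.5) hc
  have h0 : (0 : ℝ) ∈ Icc ((fun l : ℝ => l ^ 3 - 2 * l ^ 2 - 2 * l + 2) 2.4)
      ((fun l : ℝ => l ^ 3 - 2 * l ^ 2 - 2 * l + 2) 2.5) := by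
    constructor <;> norm_num
  obtain ⟨l, hl, hl2⟩ := this h0
  exact ⟨l, hl.1, hl.2, by simp only at hl2; linarith⟩

theorem base_limits {l : ℝ} (h1 : 2.4 ≤ l) (h2 : l ≤ 2.5) (h3 : l ^ 3 = 2 * l ^ 2 + 2 * l - 2) :
    ∃ L : ℝ, 0 < L ∧ Tendsto (fun n : ℕ => (N n 0 : ℝ) / l ^ n) atTop (𝓝 L) ∧
      Tendsto (fun n : ℕ => (N n (goldenRatio - 1) : ℝ) / l ^ n) atTop (𝓝 ((l * L - 2 * L) / 2)) ∧
      Tendsto (fun n : ℕ => (N n 1 : ℝ) / l ^ n) atTop (𝓝 (l * ((l * L - 2 * L) / 2))) ∧
      Tendsto (fun n : ℕ => (N n goldenRatio : ℝ) / l ^ n) atTop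
        (𝓝 (2 * L - 2 * (l * ((l * L - 2 * L) / 2)))) := by
  have hl0 : (0 : ℝ) < l := by linarith
  have hA1 : ∀ n, (N (n + 1) 0 : ℝ) = 2 * N n 0 + 2 * N n (goldenRatio - 1) := by
    intro n; rw [A_succ]; push_cast; ring
  have hB1 : ∀ n, (N (n + 1) (goldenRatio - 1) : ℝ) = N n 1 := by
    intro n; rw [B_succ]
  have hC1 : ∀ n, (N (n + 1) 1 : ℝ) = N n 0 + 2 * N n (goldenRatio - 1) := by
    intro n; rw [C_succ]; push_cast; ring
  have hD1 : ∀ n, (N (n + 1) goldenRatio : ℝ) = 2 * N n 1 + N n goldenRatio := by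
    intro n; rw [D_succ]; push_cast; ring
  have hA0 : (N 0 0 : ℝ) = 1 := by rw [N_zero_zero]; norm_num
  have hphi := Real.one_lt_goldenRatio
  have hB0 : (N 0 (goldenRatio - 1) : ℝ) = 0 := by
    rw [N_zero_ne (by linarith)]; norm_num
  have hC0 : (N 0 1 : ℝ) = 0 := by
    rw [N_zero_ne (by norm_num)]; norm_num
  have hD0 : (N 0 goldenRatio : ℝ) = 0 := by
    rw [N_zero_ne (by linarith)]; norm_num
  set A : ℕ → ℝ := fun n => (N n 0 : ℝ) with hA
  set B : ℕ → ℝ := fun n => (N n (goldenRatio - 1) : ℝ) with hB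
  set C : ℕ → ℝ := fun n => (N n 1 : ℝ) with hC
  set D : ℕ → ℝ := fun n => (N n goldenRatio : ℝ) with hD
  have rA : ∀ n, A (n + 1) = 2 * A n + 2 * B n := hA1
  have rB : ∀ n, B (n + 1) = C n := hB1
  have rC : ∀ n, C (n + 1) = A n + 2 * B n := hC1
  have rD : ∀ n, D (n + 1) = 2 * C n + D n := hD1
  have iA : A 0 = 1 := hA0
  have iB : B 0 = 0 := hB0
  have iC : C 0 = 0 := hC0
  have iD : D 0 = 0 := hD0
  have rA2 : ∀ n, A (n + 2) = 2 * A (n + 1) + 2 * C n := by
    intro n
    rw [rA (n + 1), rB n]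
  have hE : ∀ n, A (n + 2) + (l - 2) * A (n + 1) - (2 / l) * A n =
      l ^ n * (2 * l - 2 / l) := by
    intro n
    induction n with
    | zero =>
      rw [rA2, rA, iA, iB, iC]
      ring
    | succ n ih =>
      have h4 : A (n + 3) = 2 * A (n + 2) + 2 * A (n + 1) - 2 * A n := by
        rw [rA2 (n + 1), rC n]
        have := rA n
        rw [this]
        ring
      have h5 : A (n + 1 + 2) + (l - 2) * A (n + 1 + 1) - (2 / l) * A (n + 1) =
          l * (A (n + 2) + (l - 2) * A (n + 1) - (2 / l) * A n) := by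
        rw [show n + 1 + 2 = n + 3 by ring, h4, show n + 1 + 1 = n + 2 by ring]
        have h6 : l * (l - 2) = 2 - 2 / l := by
          field_simp
          linarith
        have h7 : l * (2 / l) = 2 := by field_simp
        have h8 : 2 / l = 2 - l * (l - 2) := by linarith
        rw [h8] at h7 ⊢
        linear_combination (A n) * h7
      rw [h5, ih]
      ring
  set p : ℝ := (l - 2) / l with hp
  set q : ℝ := 2 / l ^ 3 with hq
  have hpb : 0 ≤ p ∧ p ≤ 0.21 := by
    constructor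
    · rw [hp]; apply div_nonneg <;> linarith
    · rw [hp, div_le_iff₀ hl0]; linarith
  have hl3 : (13 : ℝ) ≤ l ^ 3 := by
    nlinarith
  have hqb : 0 ≤ q ∧ q ≤ 0.2 := by
    constructor
    · rw [hq]; positivity
    · rw [hq, div_le_iff₀ (by linarith)]; linarith
  set L : ℝ := ((2 * l - 2 / l) / l ^ 2) / (1 + p - q) with hL
  have hLpos : 0 < L := by
    rw [hL]
    apply div_pos
    · apply div_pos _ (by positivity)
      have : 2 / l < 1 := by rw [div_lt_one hl0]; linarith
      linarith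
    · linarith [hpb.1, hqb.2]
  have hLe : L * (1 + p - q) = (2 * l - 2 / l) / l ^ 2 := by
    rw [hL]
    apply div_mul_cancel₀
    linarith [hpb.1, hqb.2]
  have limA : Tendsto (fun n => A n / l ^ n) atTop (𝓝 L) := by
    have hcon : ∀ n, (A (n + 2) / l ^ (n + 2) - L) =
        (-p) * (A (n + 1) / l ^ (n + 1) - L) + q * (A n / l ^ n - L) := by
      intro n
      have h4 : A (n + 2) / l ^ (n + 2) + p * (A (n + 1) / l ^ (n + 1)) - q * (A n / l ^ n) =
          (2 * l - 2 / l) / l ^ 2 := by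
        have h5 := hE n
        have h6 : A (n + 2) = l ^ n * (2 * l - 2 / l) - (l - 2) * A (n + 1) + (2 / l) * A n := by
          linarith
        rw [h6, hp, hq]
        field_simp
        ring
      rw [← hLe] at h4
      linarith
    have h5 : |-p| + |q| ≤ 1 / 2 := by
      rw [abs_neg, abs_of_nonneg hpb.1, abs_of_nonneg hqb.1]
      linarith [hpb.2, hqb.2]
    have h6 := tendsto_of_contract (e := fun n => A n / l ^ n - L) h5 hcon
    have h7 := h6.add_const L
    simpa using h7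
  have limB : Tendsto (fun n => B n / l ^ n) atTop (𝓝 ((l * L - 2 * L) / 2)) := by
    have h4 : (fun n => B n / l ^ n) =
        fun n => (l * (A (n + 1) / l ^ (n + 1)) - 2 * (A n / l ^ n)) / 2 := by
      funext n
      rw [rA n, pow_succ]
      field_simp
      ring
    rw [h4]
    have h5 := (tendsto_add_atTop_iff_nat 1).mpr limA
    exact ((h5.const_mul l).sub (limA.const_mul 2)).div_const 2
  have limC : Tendsto (fun n => C n / l ^ n) atTop (𝓝 (l * ((l * L - 2 * L) / 2))) := by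
    have h4 : (fun n => C n / l ^ n) = fun n => l * (B (n + 1) / l ^ (n + 1)) := by
      funext n
      rw [rB n, pow_succ]
      field_simp
    rw [h4]
    exact ((tendsto_add_atTop_iff_nat 1).mpr limB).const_mul l
  have hDn : ∀ n, D n = 2 * A n - 2 * C n - 2 := by
    intro n
    induction n with
    | zero => rw [iD, iA, iC]; norm_num
    | succ n ih =>
      rw [rD, ih, rA, rC]
      ring
  refine ⟨L, hLpos, limA, limB, limC, ?_⟩
  have h4 : (fun n => D n / l ^ n) =
      fun n => 2 * (A n / l ^ n) - 2 * (C n / l ^ n) - 2 * ((1 / l) ^ n) := by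
    funext n
    rw [hDn n]
    rw [one_div, inv_pow]
    ring
  rw [h4]
  have h5 : Tendsto (fun n : ℕ => 2 * ((1 / l) ^ n)) atTop (𝓝 0) := by
    have := tendsto_pow_atTop_nhds_zero_of_lt_one (r := 1 / l) (by positivity)
      (by rw [div_lt_one hl0]; linarith)
    simpa using this.const_mul 2
  have h6 := ((limA.const_mul 2).sub (limC.const_mul 2)).sub h5
  simpa using h6

/-- The spectrum is locally finite. -/
theorem spec_finite (R : ℝ) : (Spec ∩ Icc (-R) R).Finite := by
  have hphi := phi_gt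
  have hphi2 := phi_lt
  obtain ⟨K, hK⟩ := exists_nat_ge (3 * |R| + 6)
  apply Set.Finite.subset (s := (fun p : ℤ × ℤ => (p.1 : ℝ) + p.2 * goldenRatio) ''
    (Set.Icc ((-(K : ℤ)), (-(K : ℤ))) ((K : ℤ), (K : ℤ))))
  · exact (Set.finite_Icc _ _).image _
  · rintro x ⟨hx, hx1, hx2⟩
    obtain ⟨a, b, rfl, hab⟩ := spec_conj hx
    rw [psi_eq, abs_lt] at hab
    have hR : R ≤ |R| := le_abs_self R
    have hR0 : 0 ≤ |R| := abs_nonneg R
    have b1 : (b : ℝ) ≤ |R| + 3 := by
      by_contra hcon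
      push Not at hcon
      nlinarith [hab.1, hab.2]
    have b2 : -(|R| + 3) ≤ (b : ℝ) := by
      by_contra hcon
      push Not at hcon
      nlinarith [hab.1, hab.2]
    have a1 : (a : ℝ) ≤ 3 * |R| + 6 := by
      nlinarith
    have a2 : -(3 * |R| + 6) ≤ (a : ℝ) := by
      nlinarith
    refine ⟨(a, b), ⟨⟨?_, ?_⟩, ⟨?_, ?_⟩⟩, rfl⟩
    · have : (-(K : ℝ)) ≤ a := by linarith
      exact_mod_cast this
    · have : (-(K : ℝ)) ≤ b := by linarith
      exact_mod_cast this
    · have : (a : ℝ) ≤ K := by linarith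
      exact_mod_cast this
    · have : (b : ℝ) ≤ K := by linarith
      exact_mod_cast this

theorem spec_small {x : ℝ} (hx : x ∈ Spec) (h : |x| ≤ goldenRatio) :
    x = 0 ∨ x = 1 ∨ x = -1 ∨ x = goldenRatio - 1 ∨ x = -(goldenRatio - 1) ∨ x = goldenRatio ∨
      x = - goldenRatio := by
  have hphi := phi_gt
  have hphi2 := phi_lt
  obtain ⟨a, b, rfl, hab⟩ := spec_conj hx
  rw [psi_eq, abs_lt] at hab
  rw [abs_le] at h
  have b1 : b ≤ 1 := by
    by_contra hcon
    push Not at hcon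
    have : (2 : ℝ) ≤ b := by exact_mod_cast hcon
    nlinarith [hab.1, hab.2]
  have b2 : -1 ≤ b := by
    by_contra hcon
    push Not at hcon
    have hcon' : b ≤ -2 := by omega
    have : (b : ℝ) ≤ -2 := by exact_mod_cast hcon'
    nlinarith [hab.1, hab.2]
  have a1 : a ≤ 1 := by
    by_contra hcon
    push Not at hcon
    have h2 : (2 : ℝ) ≤ a := by exact_mod_cast hcon
    interval_cases b
    · push_cast at hab h; linarith [hab.1, hab.2]
    · push_cast at hab h; linarith [hab.1, hab.2]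
    · push_cast at hab h; linarith [hab.1, hab.2]
  have a2 : -1 ≤ a := by
    by_contra hcon
    push Not at hcon
    have hcon' : a ≤ -2 := by omega
    have h2 : (a : ℝ) ≤ -2 := by exact_mod_cast hcon'
    interval_cases b
    · push_cast at hab h; linarith [hab.1, hab.2]
    · push_cast at hab h; linarith [hab.1, hab.2]
    · push_cast at hab h; linarith [hab.1, hab.2]
  interval_cases b <;> interval_cases a <;> push_cast at hab h ⊢
  · exfalso; linarith [hab.1, hab.2]
  · right; right; right; right; right; right; ring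
  · right; right; right; right; left; ring
  · right; right; left; ring
  · left; ring
  · right; left; ring
  · right; right; right; left; ring
  · right; right; right; right; right; left; ring
  · exfalso; linarith [hab.1, hab.2]

/-- The weights exist. -/
theorem limit_exists {l : ℝ} (h1 : 2.4 ≤ l) (h2 : l ≤ 2.5) (h3 : l ^ 3 = 2 * l ^ 2 + 2 * l - 2)
    (x : ℝ) : ∃ m : ℝ, Tendsto (fun n : ℕ => (N n x : ℝ) / l ^ n) atTop (𝓝 m) := by
  have hl0 : (0 : ℝ) < l := by linarith
  have hphi := phi_gt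
  have hnot : ∀ y : ℝ, y ∉ Spec → ∃ m : ℝ, Tendsto (fun n : ℕ => (N n y : ℝ) / l ^ n) atTop (𝓝 m) := by
    intro y hy
    refine ⟨0, ?_⟩
    simp [N_eq_zero hy]
  have hstep : ∀ y : ℝ,
      (∃ m : ℝ, Tendsto (fun n : ℕ => (N n (y / goldenRatio) : ℝ) / l ^ n) atTop (𝓝 m)) →
      (∃ m : ℝ, Tendsto (fun n : ℕ => (N n ((y - 1) / goldenRatio) : ℝ) / l ^ n) atTop (𝓝 m)) →
      (∃ m : ℝ, Tendsto (fun n : ℕ => (N n ((y + 1) / goldenRatio) : ℝ) / l ^ n) atTop (𝓝 m)) →
      ∃ m : ℝ, Tendsto (fun n : ℕ => (N n y : ℝ) / l ^ n) atTop (𝓝 m) := by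
    rintro y ⟨m1, hm1⟩ ⟨m2, hm2⟩ ⟨m3, hm3⟩
    refine ⟨(2 * m1 + m2 + m3) / l, ?_⟩
    rw [← tendsto_add_atTop_iff_nat 1]
    have h4 : (fun n : ℕ => (N (n + 1) y : ℝ) / l ^ (n + 1)) = fun n : ℕ =>
        (2 * ((N n (y / goldenRatio) : ℝ) / l ^ n) + (N n ((y - 1) / goldenRatio) : ℝ) / l ^ n +
          (N n ((y + 1) / goldenRatio) : ℝ) / l ^ n) / l := by
      funext n
      rw [N_succ, pow_succ]
      push_cast
      field_simp
    rw [h4]
    exact (((hm1.const_mul 2).add hm2).add hm3).div_const l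
  by_contra hx
  set Bad : Set ℝ := {y | ¬ ∃ m : ℝ, Tendsto (fun n : ℕ => (N n y : ℝ) / l ^ n) atTop (𝓝 m)}
    with hBad
  have hfin : (Bad ∩ Icc (-|x|) |x|).Finite := by
    apply (spec_finite |x|).subset
    rintro y ⟨hy1, hy2⟩
    refine ⟨?_, hy2⟩
    by_contra hcon
    exact hy1 (hnot y hcon)
  have hne : (Bad ∩ Icc (-|x|) |x|).Nonempty := by
    refine ⟨x, hx, ?_⟩
    exact abs_le.mp le_rfl
  obtain ⟨y, hy, hmin⟩ := Set.exists_min_image _ (fun z : ℝ => |z|) hfin hne
  have hyx : |y| ≤ |x| := abs_le.mpr hy.2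
  have hsmall : ∀ z : ℝ, |z| < |y| → ∃ m : ℝ, Tendsto (fun n : ℕ => (N n z : ℝ) / l ^ n) atTop (𝓝 m) := by
    intro z hz
    by_contra hcon
    have := hmin z ⟨hcon, abs_le.mp (by linarith)⟩
    linarith
  by_cases hbig : |y| ≤ goldenRatio
  · apply hy.1
    have hyS : y ∈ Spec := by
      by_contra hcon
      exact hy.1 (hnot y hcon)
    obtain ⟨L, -, l1, l2, l3, l4⟩ := base_limits h1 h2 h3
    rcases spec_small hyS hbig with rfl | rfl | rfl | rfl | rfl | rfl | rfl
    · exact ⟨_, l1⟩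
    · exact ⟨_, l3⟩
    · simp_rw [N_neg]; exact ⟨_, l3⟩
    · exact ⟨_, l2⟩
    · simp_rw [N_neg]; exact ⟨_, l2⟩
    · exact ⟨_, l4⟩
    · simp_rw [N_neg]; exact ⟨_, l4⟩
  · push Not at hbig
    apply hy.1
    have hphi0 : (0 : ℝ) < goldenRatio := Real.goldenRatio_pos
    have hlt : |y| + 1 < |y| * goldenRatio := by
      have := phi_sq
      nlinarith
    apply hstep y
    · apply hsmall
      rw [abs_div, abs_of_pos hphi0, div_lt_iff₀ hphi0]
      linarith
    · apply hsmall
      rw [abs_div, abs_of_pos hphi0, div_lt_iff₀ hphi0]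
      have := abs_sub y 1
      rw [abs_one] at this
      linarith
    · apply hsmall
      rw [abs_div, abs_of_pos hphi0, div_lt_iff₀ hphi0]
      have := abs_add_le y 1
      rw [abs_one] at this
      linarith

theorem exists_weight : ∃ (lam : ℝ) (μ : ℝ → ℝ), IsWeight lam μ := by
  obtain ⟨l, h1, h2, h3⟩ := exists_root
  choose μ hμ using limit_exists h1 h2 h3
  refine ⟨l, μ, ?_, ?_, fun x _ => hμ x⟩
  · linarith
  · obtain ⟨L, hL, l1, -⟩ := base_limits h1 h2 h3
    have hl0 : (0 : ℝ) < l := by linarith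
    have h4 : Tendsto (fun n : ℕ => l * ((N n 0 : ℝ) / l ^ n) ^ ((1 : ℝ) / (n : ℝ))) atTop
        (𝓝 (l * L ^ (0 : ℝ))) := by
      apply Tendsto.const_mul
      apply l1.rpow tendsto_one_div_atTop_nhds_zero_nat (Or.inl hL.ne')
    rw [Real.rpow_zero, mul_one] at h4
    refine h4.congr' ?_
    filter_upwards [eventually_gt_atTop 0] with n hn
    have hn' : (n : ℝ) ≠ 0 := by exact_mod_cast hn.ne'
    rw [Real.div_rpow (Nat.cast_nonneg _) (by positivity), ← Real.rpow_natCast l n,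
      ← Real.rpow_mul hl0.le, mul_one_div_cancel hn', Real.rpow_one]
    field_simp

/-- Uniqueness of the growth rate. -/
theorem lam_eq {lam : ℝ} {μ : ℝ → ℝ} (h : IsWeight lam μ) :
    2.4 ≤ lam ∧ lam ≤ 2.5 ∧ lam ^ 3 = 2 * lam ^ 2 + 2 * lam - 2 := by
  obtain ⟨l, h1, h2, h3⟩ := exists_root
  obtain ⟨L, hL, l1, -⟩ := base_limits h1 h2 h3
  have hl0 : (0 : ℝ) < l := by linarith
  have h4 : Tendsto (fun n : ℕ => l * ((N n 0 : ℝ) / l ^ n) ^ ((1 : ℝ) / (n : ℝ))) atTop
      (𝓝 (l * L ^ (0 : ℝ))) := by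
    apply Tendsto.const_mul
    apply l1.rpow tendsto_one_div_atTop_nhds_zero_nat (Or.inl hL.ne')
  rw [Real.rpow_zero, mul_one] at h4
  have h5 : Tendsto (fun n : ℕ => ((N n 0 : ℕ) : ℝ) ^ ((1 : ℝ) / (n : ℝ))) atTop (𝓝 l) := by
    refine h4.congr' ?_
    filter_upwards [eventually_gt_atTop 0] with n hn
    have hn' : (n : ℝ) ≠ 0 := by exact_mod_cast hn.ne'
    rw [Real.div_rpow (Nat.cast_nonneg _) (by positivity), ← Real.rpow_natCast l n,
      ← Real.rpow_mul hl0.le, mul_one_div_cancel hn', Real.rpow_one]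
    field_simp
  have : lam = l := tendsto_nhds_unique h.growth h5
  rw [this]
  exact ⟨h1, h2, h3⟩

end Q69.Golden
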