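import Pool.Agent.Q69.GoldenSum

/-!
# The first Fourier coefficient does not vanish
-/

namespace Q69.Golden

open Set Filter Topology Real

variable {lam : ℝ} {M : ℝ → ℝ}

/-- A monotone function of polynomial growth has many good scales. -/
theorem good_scale {W : ℝ → ℝ} (hmono : Monotone W) (hpos : ∀ t, 0 ≤ t → 0 < W t) {C : ℝ}
    (hC : ∀ t, 1 ≤ t → W t ≤ C * t ^ 2) {a b ε : ℝ} (ha : 0 < a) (hb : 0 < b) (hε : 0 < ε)
    (n₀ : ℕ) : ∃ n : ℕ, n₀ ≤ n ∧ b ≤ a * n ∧ W (a * n + b) ≤ (1 + ε) * W (a * n - b) := by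
  by_contra hcon
  push Not at hcon
  obtain ⟨n₁, hn₁⟩ := exists_nat_ge (b / a)
  obtain ⟨D, hD⟩ := exists_nat_ge (2 * b / a)
  set m := max n₀ n₁ with hm
  have hDa : 2 * b ≤ a * D := by
    rw [div_le_iff₀ ha] at hD
    linarith
  have hma : b ≤ a * m := by
    rw [div_le_iff₀ ha] at hn₁
    have : (n₁ : ℝ) ≤ m := by exact_mod_cast le_max_right _ _
    nlinarith
  have hge : ∀ j : ℕ, b ≤ a * ((m + j * D : ℕ) : ℝ) := by
    intro j
    push_cast
    have : 0 ≤ a * ((j : ℝ) * D) := by positivity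
    nlinarith
  have hU : ∀ j : ℕ, (1 + ε) ^ j * W (a * m - b) ≤ W (a * ((m + j * D : ℕ) : ℝ) - b) := by
    intro j
    induction j with
    | zero => simp
    | succ j ih =>
      have h1 := hcon (m + j * D) (le_trans (le_max_left _ _) (Nat.le_add_right _ _)) (hge j)
      have h2 : W (a * ((m + j * D : ℕ) : ℝ) + b) ≤ W (a * ((m + (j + 1) * D : ℕ) : ℝ) - b) := by
        apply hmono
        push_cast
        linarith
      rw [pow_succ]
      nlinarith
  have hU0 : 0 < W (a * m - b) := hpos _ (by linarith)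
  have hC0 : 0 ≤ C := by
    have h1 := hC 1 le_rfl
    have h2 := hpos 1 zero_le_one
    nlinarith
  set K : ℝ := a * m + a * D + 1 with hK
  have hK0 : 0 ≤ K := by positivity
  have hbound : ∀ j : ℕ, 1 ≤ j → W (a * m - b) ≤ C * K ^ 2 * ((j : ℝ) ^ 2 / (1 + ε) ^ j) := by
    intro j hj
    have h1 := hU j
    have h2 : W (a * ((m + j * D : ℕ) : ℝ) - b) ≤ W (K * j) := by
      apply hmono
      rw [hK]
      push_cast
      have hj' : (1 : ℝ) ≤ j := by exact_mod_cast hj
      have : 0 ≤ a * (m : ℝ) * ((j : ℝ) - 1) := by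
        apply mul_nonneg (by positivity); linarith
      nlinarith
    have h3 : W (K * j) ≤ C * (K * j) ^ 2 := by
      apply hC
      have hj' : (1 : ℝ) ≤ j := by exact_mod_cast hj
      have : 1 ≤ K := by
        rw [hK]
        have : 0 ≤ a * m + a * D := by positivity
        linarith
      nlinarith
    have h4 : 0 < (1 + ε) ^ j := by positivity
    rw [mul_div_assoc', le_div_iff₀ h4]
    calc W (a * m - b) * (1 + ε) ^ j = (1 + ε) ^ j * W (a * m - b) := mul_comm _ _
      _ ≤ C * (K * j) ^ 2 := h1.trans (h2.trans h3)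
      _ = C * K ^ 2 * (j : ℝ) ^ 2 := by ring
  have hlim := (tendsto_pow_const_div_const_pow_of_one_lt 2 (show (1 : ℝ) < 1 + ε by linarith)).const_mul
    (C * K ^ 2)
  rw [mul_zero] at hlim
  have : W (a * m - b) ≤ 0 := by
    apply ge_of_tendsto hlim
    filter_upwards [eventually_ge_atTop 1] with j hj
    exact hbound j hj
  linarith

theorem Mass.W_poly (hM : Mass lam M) : ∃ C : ℝ, ∀ t, 1 ≤ t → W M t ≤ C * t ^ 2 := by
  have hphi0 : (0 : ℝ) < goldenRatio := Real.goldenRatio_pos
  have hphi1 := Real.one_lt_goldenRatio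
  have hlam : 0 < lam := by linarith [hM.lo]
  refine ⟨goldenRatio ^ 2 * W M (1 + goldenRatio), ?_⟩
  intro t ht
  obtain ⟨m, hm1, hm2⟩ := exists_nat_pow_near ht hphi1
  have h1 := hM.W_le (goldenRatio ^ (m + 1)) (m + 1)
  rw [div_self (pow_pos hphi0 _).ne'] at h1
  have h2 : W M t ≤ W M (goldenRatio ^ (m + 1)) := hM.W_mono hm2.le
  have h3 : 0 < W M (1 + goldenRatio) := hM.W_pos (by linarith)
  have h4 : (4 : ℝ) ^ (m + 1) ≤ lam ^ (m + 1) * (goldenRatio ^ 2) ^ (m + 1) := by
    rw [← mul_pow]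
    apply pow_le_pow_left₀ (by norm_num)
    rw [pow_two, phi_sq]
    nlinarith [hM.lo, phi_gt]
  have h5 : lam ^ (m + 1) * W M (goldenRatio ^ (m + 1)) ≤
      lam ^ (m + 1) * ((goldenRatio ^ 2) ^ (m + 1) * W M (1 + goldenRatio)) := by
    calc _ ≤ 4 ^ (m + 1) * W M (1 + goldenRatio) := h1
      _ ≤ (lam ^ (m + 1) * (goldenRatio ^ 2) ^ (m + 1)) * W M (1 + goldenRatio) :=
        mul_le_mul_of_nonneg_right h4 h3.le
      _ = _ := by ring
  have h6 : W M (goldenRatio ^ (m + 1)) ≤ (goldenRatio ^ 2) ^ (m + 1) * W M (1 + goldenRatio) :=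
    le_of_mul_le_mul_left h5 (by positivity)
  have h7 : (goldenRatio ^ 2) ^ (m + 1) ≤ goldenRatio ^ 2 * t ^ 2 := by
    have e : ∀ g : ℝ, (g ^ 2) ^ (m + 1) = g ^ 2 * (g ^ m) ^ 2 := by intro g; ring
    rw [e]
    apply mul_le_mul_of_nonneg_left _ (by positivity)
    exact pow_le_pow_left₀ (by positivity) hm1 2
  calc W M t ≤ (goldenRatio ^ 2) ^ (m + 1) * W M (1 + goldenRatio) := h2.trans h6
    _ ≤ (goldenRatio ^ 2 * t ^ 2) * W M (1 + goldenRatio) := mul_le_mul_of_nonneg_right h7 h3.le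
    _ = _ := by ring

/-- The first harmonic. -/
noncomputable def cs (x : ℝ) : ℝ := Real.cos (2 * π * x)

/-- The product in the transfer operator identity. -/
noncomputable def P (k : ℕ) : ℝ := ∏ j ∈ Finset.range k, 2 * (1 + Real.cos (2 * π * goldenConj ^ j))

theorem iter_cs (k : ℕ) (a b : ℤ) : Lop^[k] cs (a + b * goldenRatio) =
    P k * Real.cos (2 * π * (goldenConj ^ k * (a + b * goldenConj))) := by
  induction k generalizing a b with
  | zero =>
    simp only [Function.iterate_zero, id, P, Finset.range_zero, Finset.prod_empty, one_mul, pow_zero,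
      cs]
    have h1 : 2 * π * ((a : ℝ) + b * goldenRatio) =
        ((2 * a + b : ℤ) : ℝ) * (2 * π) - 2 * π * (a + b * goldenConj) := by
      rw [psi_eq]
      push_cast
      ring
    rw [h1, Real.cos_int_mul_two_pi_sub]
  | succ k ih =>
    rw [Function.iterate_succ_apply']
    have e0 : goldenRatio * ((a : ℝ) + b * goldenRatio) = ((b : ℤ) : ℝ) + ((a + b : ℤ) : ℝ) * goldenRatio := by
      push_cast
      linear_combination (b : ℝ) * phi_sq
    have e1 : goldenRatio * ((a : ℝ) + b * goldenRatio) + 1 =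
        ((b + 1 : ℤ) : ℝ) + ((a + b : ℤ) : ℝ) * goldenRatio := by
      push_cast
      linear_combination (b : ℝ) * phi_sq
    have e2 : goldenRatio * ((a : ℝ) + b * goldenRatio) - 1 =
        ((b - 1 : ℤ) : ℝ) + ((a + b : ℤ) : ℝ) * goldenRatio := by
      push_cast
      linear_combination (b : ℝ) * phi_sq
    show 2 * Lop^[k] cs (goldenRatio * ((a : ℝ) + b * goldenRatio)) +
      Lop^[k] cs (goldenRatio * ((a : ℝ) + b * goldenRatio) + 1) +
      Lop^[k] cs (goldenRatio * ((a : ℝ) + b * goldenRatio) - 1) = _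
    rw [e1, e2, e0, ih, ih, ih]
    set θ : ℝ := 2 * π * (goldenConj ^ (k + 1) * (a + b * goldenConj)) with hθ
    have f0 : 2 * π * (goldenConj ^ k * (((b : ℤ) : ℝ) + ((a + b : ℤ) : ℝ) * goldenConj)) = θ := by
      rw [hθ, pow_succ]
      push_cast
      linear_combination (-(2 * π * goldenConj ^ k * b)) * psi_sq
    have f1 : 2 * π * (goldenConj ^ k * (((b + 1 : ℤ) : ℝ) + ((a + b : ℤ) : ℝ) * goldenConj)) =
        θ + 2 * π * goldenConj ^ k := by
      rw [hθ, pow_succ]
      push_cast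
      linear_combination (-(2 * π * goldenConj ^ k * b)) * psi_sq
    have f2 : 2 * π * (goldenConj ^ k * (((b - 1 : ℤ) : ℝ) + ((a + b : ℤ) : ℝ) * goldenConj)) =
        θ - 2 * π * goldenConj ^ k := by
      rw [hθ, pow_succ]
      push_cast
      linear_combination (-(2 * π * goldenConj ^ k * b)) * psi_sq
    rw [f0, f1, f2, Real.cos_add, Real.cos_sub]
    have hP : P (k + 1) = P k * (2 * (1 + Real.cos (2 * π * goldenConj ^ k))) := by
      unfold P
      rw [Finset.prod_range_succ]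
    rw [hP]
    ring

theorem psi_pow_bound (j : ℕ) : |goldenConj ^ (j + 2)| < 1 / 2 := by
  have h1 := phi_gt
  have h2 := phi_lt
  have h3 : |goldenConj| < 0.6181 := by
    rw [psi_eq, abs_lt]
    constructor <;> linarith
  have h4 : |goldenConj ^ j| ≤ 1 := by
    rw [abs_pow]
    exact pow_le_one₀ (abs_nonneg _) (by linarith)
  have h5 : |goldenConj ^ 2| < 1 / 2 := by
    rw [abs_pow]
    have := abs_nonneg goldenConj
    nlinarith
  rw [pow_add, abs_mul]
  have := abs_nonneg (goldenConj ^ j)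
  have := abs_nonneg (goldenConj ^ 2)
  nlinarith

theorem P_pos (k : ℕ) : 0 < P k := by
  unfold P
  apply Finset.prod_pos
  intro j _
  have h1 : -1 ≤ Real.cos (2 * π * goldenConj ^ j) := Real.neg_one_le_cos _
  have h2 : Real.cos (2 * π * goldenConj ^ j) ≠ -1 := by
    rw [Ne, Real.cos_eq_neg_one_iff]
    rintro ⟨m, hm⟩
    have hpi := Real.pi_pos
    have h3 : goldenConj ^ j = 1 / 2 + m := by
      have : 2 * π * (goldenConj ^ j) = 2 * π * (1 / 2 + m) := by linarith
      exact mul_left_cancel₀ (by positivity) this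
    match j, h3 with
    | 0, h3 =>
      rw [pow_zero] at h3
      have : (2 * m : ℤ) = 1 := by
        have : (2 * m : ℝ) = 1 := by linarith
        exact_mod_cast this
      omega
    | 1, h3 =>
      rw [pow_one, psi_eq] at h3
      have a1 := phi_gt
      have a2 := phi_lt
      have b1 : (m : ℝ) < -1 := by linarith
      have b2 : (-2 : ℝ) < m := by linarith
      have c1 : m < -1 := by exact_mod_cast b1
      have c2 : -2 < m := by exact_mod_cast b2
      omega
    | (j + 2), h3 =>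
      have a1 := psi_pow_bound j
      rw [h3, abs_lt] at a1
      have b1 : (m : ℝ) < 0 := by linarith [a1.2]
      have b2 : (-1 : ℝ) < m := by linarith [a1.1]
      have c1 : m < 0 := by exact_mod_cast b1
      have c2 : -1 < m := by exact_mod_cast b2
      omega
  have h3 : -1 < Real.cos (2 * π * goldenConj ^ j) := lt_of_le_of_ne h1 (Ne.symm h2)
  linarith

theorem cs_abs (x : ℝ) : |cs x| ≤ 1 := Real.abs_cos_le_one _

theorem exists_k : ∃ k : ℕ, ∀ y ∈ Spec, P k / 2 ≤ Lop^[k] cs y := by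
  have h3 : |goldenConj| < 0.6181 := by
    have h1 := phi_gt
    have h2 := phi_lt
    rw [psi_eq, abs_lt]
    constructor <;> linarith
  have hlim : Tendsto (fun k : ℕ => 2 * π * (|goldenConj| ^ k * (goldenRatio + 1))) atTop (𝓝 0) := by
    have := tendsto_pow_atTop_nhds_zero_of_lt_one (abs_nonneg goldenConj) (by linarith)
    simpa using (this.mul_const (goldenRatio + 1)).const_mul (2 * π)
  obtain ⟨k, hk⟩ := (hlim.eventually (gt_mem_nhds (show (0 : ℝ) < 1 by norm_num))).exists
  refine ⟨k, fun y hy => ?_⟩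
  obtain ⟨a, b, rfl, hab⟩ := spec_conj hy
  rw [iter_cs]
  have h4 : |2 * π * (goldenConj ^ k * ((a : ℝ) + b * goldenConj))| ≤ 1 := by
    rw [abs_mul, abs_of_pos (show (0 : ℝ) < 2 * π by positivity), abs_mul, abs_pow]
    refine le_trans ?_ hk.le
    gcongr
  have h5 := Real.one_sub_sq_div_two_le_cos (x := 2 * π * (goldenConj ^ k * ((a : ℝ) + b * goldenConj)))
  have h6 : (2 * π * (goldenConj ^ k * ((a : ℝ) + b * goldenConj))) ^ 2 ≤ 1 := by
    rw [← sq_abs]
    have := abs_nonneg (2 * π * (goldenConj ^ k * ((a : ℝ) + b * goldenConj)))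
    nlinarith
  have h7 := P_pos k
  nlinarith

/-- The weighted cosine sum is a positive proportion of the mass along infinitely many scales. -/
theorem Mass.main (hM : Mass lam M) : ∃ c : ℝ, 0 < c ∧ ∀ n₀ : ℕ, ∃ n : ℕ, n₀ ≤ n ∧
    c * W M n ≤ J M (cut n cs) := by
  have hphi0 : (0 : ℝ) < goldenRatio := Real.goldenRatio_pos
  have hlam : 0 < lam := by linarith [hM.lo]
  obtain ⟨k, hk⟩ := exists_k
  have hP := P_pos k
  obtain ⟨C, hC⟩ := hM.W_poly
  set ε : ℝ := P k / 4 ^ (k + 1) with hε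
  have hε0 : 0 < ε := by positivity
  refine ⟨(P k / 4) / (4 ^ k * (1 + ε)), by positivity, ?_⟩
  intro n₀
  obtain ⟨n, hn, hn2, hn3⟩ := good_scale (W := W M) (fun s t hst => hM.W_mono hst)
    (fun t ht => hM.W_pos ht) hC (a := 1 / goldenRatio ^ k) (b := goldenRatio) (by positivity)
    hphi0 hε0 n₀
  refine ⟨n, hn, ?_⟩
  set T : ℝ := (n : ℝ) / goldenRatio ^ k with hT
  have hT' : 1 / goldenRatio ^ k * (n : ℝ) = T := by rw [hT]; ring
  rw [hT'] at hn2 hn3
  have hW0 : 0 < W M (T - goldenRatio) := hM.W_pos (by linarith)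
  -- upper bound for the mass
  have h1 : lam ^ k * W M n ≤ 4 ^ k * ((1 + ε) * W M (T - goldenRatio)) := by
    refine (hM.W_le n k).trans ?_
    exact mul_le_mul_of_nonneg_left hn3 (by positivity)
  -- lower bound for the cosine sum
  have h2 : lam ^ k * J M (cut n cs) = J M (Lop^[k] (cut n cs)) := hM.J_iter (bdd_cut _ _) k
  have h3 : (P k / 2 + 4 ^ k) * W M (T - goldenRatio) + (-(4 : ℝ) ^ k) * W M (T + goldenRatio) ≤
      J M (Lop^[k] (cut n cs)) := by
    unfold W
    rw [← J_mul, ← J_mul, ← hM.J_add ((bdd_cut _ _).mul _) ((bdd_cut _ _).mul _)]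
    apply hM.J_mono (((bdd_cut _ _).mul _).add ((bdd_cut _ _).mul _)) ((bdd_cut _ _).iter k)
    intro y hy
    by_cases c1 : |y| ≤ T - goldenRatio
    · have c2 : |y| ≤ T + goldenRatio := by linarith
      rw [cut_inner _ _ _ _ c1]
      simp only [cut, if_pos c1, if_pos c2]
      linarith [hk y hy]
    · by_cases c2 : |y| ≤ T + goldenRatio
      · simp only [cut, if_neg c1, if_pos c2]
        have := iter_abs (cut_abs cs_abs (n : ℝ)) k y
        rw [abs_le] at this
        linarith [this.1]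
      · rw [cut_outer _ _ _ _ (not_le.mp c2)]
        simp only [cut, if_neg c1, if_neg c2]
        simp
  have h4 : (P k / 4) * W M (T - goldenRatio) ≤ lam ^ k * J M (cut n cs) := by
    rw [h2]
    refine le_trans ?_ h3
    have h5 : (4 : ℝ) ^ k * W M (T + goldenRatio) ≤ 4 ^ k * ((1 + ε) * W M (T - goldenRatio)) :=
      mul_le_mul_of_nonneg_left hn3 (by positivity)
    have h6 : (4 : ℝ) ^ k * ε = P k / 4 := by
      rw [hε, pow_succ]
      field_simp
    have h7 : (4 : ℝ) ^ k * ((1 + ε) * W M (T - goldenRatio)) =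
        (4 ^ k + P k / 4) * W M (T - goldenRatio) := by
      rw [← h6]; ring
    rw [h7] at h5
    linarith
  have h5 : (P k / 4) / (4 ^ k * (1 + ε)) * (lam ^ k * W M n) ≤ lam ^ k * J M (cut n cs) := by
    refine le_trans ?_ h4
    have : (P k / 4) / (4 ^ k * (1 + ε)) * (lam ^ k * W M n) ≤
        (P k / 4) / (4 ^ k * (1 + ε)) * (4 ^ k * ((1 + ε) * W M (T - goldenRatio))) :=
      mul_le_mul_of_nonneg_left h1 (by positivity)
    refine this.trans (le_of_eq ?_)
    field_simp
  have h6 : 0 < lam ^ k := by positivity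
  have h7 : lam ^ k * ((P k / 4) / (4 ^ k * (1 + ε)) * W M n) ≤ lam ^ k * J M (cut n cs) := by
    linarith
  exact le_of_mul_le_mul_left h7 h6

end Q69.Golden
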