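import Pool.Agent.Q69.GoldenLim

/-!
# Sums over the weighted spectrum of the golden mean
-/

namespace Q69.Golden

open Set Filter Topology Real

/-- Weights on the spectrum which are compatible with the digit expansion. -/
structure Mass (lam : ℝ) (M : ℝ → ℝ) : Prop where
  lo : 2.4 ≤ lam
  nonneg : ∀ x, 0 ≤ M x
  supp : ∀ x, x ∉ Spec → M x = 0
  neg : ∀ x, M (-x) = M x
  zero_pos : 0 < M 0
  fe : ∀ x, lam * M x =
    2 * M (x / goldenRatio) + M ((x - 1) / goldenRatio) + M ((x + 1) / goldenRatio)

theorem IsWeight.mass {lam : ℝ} {μ : ℝ → ℝ} (h : IsWeight lam μ) :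
    ∃ M : ℝ → ℝ, Mass lam M ∧ ∀ x ∈ Spec, M x = μ x := by
  classical
  obtain ⟨h1, h2, h3⟩ := lam_eq h
  have hl0 : 0 < lam := h.pos
  set M : ℝ → ℝ := fun x => if x ∈ Spec then μ x else 0 with hM
  have hlim : ∀ x, Tendsto (fun n : ℕ => (N n x : ℝ) / lam ^ n) atTop (𝓝 (M x)) := by
    intro x
    by_cases hx : x ∈ Spec
    · simp only [hM, if_pos hx]
      exact h.lim x hx
    · simp only [hM, if_neg hx, N_eq_zero hx]
      simp
  refine ⟨M, ⟨h1, ?_, ?_, ?_, ?_, ?_⟩, ?_⟩
  · intro x
    exact ge_of_tendsto' (hlim x) (fun n => by positivity)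
  · intro x hx
    simp only [hM, if_neg hx]
  · intro x
    refine tendsto_nhds_unique (hlim (-x)) ?_
    simp_rw [N_neg]
    exact hlim x
  · obtain ⟨L, hL, l1, -⟩ := base_limits h1 h2 h3
    rw [tendsto_nhds_unique (hlim 0) l1]
    exact hL
  · intro x
    have h4 := (tendsto_add_atTop_iff_nat 1).mpr (hlim x)
    have h5 : (fun n : ℕ => (N (n + 1) x : ℝ) / lam ^ (n + 1)) = fun n : ℕ =>
        (2 * ((N n (x / goldenRatio) : ℝ) / lam ^ n) + (N n ((x - 1) / goldenRatio) : ℝ) / lam ^ n +
          (N n ((x + 1) / goldenRatio) : ℝ) / lam ^ n) / lam := by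
      funext n
      rw [N_succ, pow_succ]
      push_cast
      field_simp
    rw [h5] at h4
    have h6 := tendsto_nhds_unique h4
      (((((hlim (x / goldenRatio)).const_mul 2).add (hlim ((x - 1) / goldenRatio))).add
        (hlim ((x + 1) / goldenRatio))).div_const lam)
    rw [h6]
    field_simp
  · intro x hx
    simp only [hM, if_pos hx]

/-- Functions which vanish outside a bounded set. -/
def Bdd (h : ℝ → ℝ) : Prop := ∃ R : ℝ, ∀ x, R < |x| → h x = 0

/-- The weighted sum of `h`. -/
noncomputable def J (M : ℝ → ℝ) (h : ℝ → ℝ) : ℝ := ∑ᶠ x, M x * h x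

variable {lam : ℝ} {M : ℝ → ℝ}

theorem Mass.finite (hM : Mass lam M) {h : ℝ → ℝ} (hh : Bdd h) :
    (Function.support (fun x => M x * h x)).Finite := by
  obtain ⟨R, hR⟩ := hh
  apply (spec_finite R).subset
  intro x hx
  rw [Function.mem_support] at hx
  refine ⟨?_, ?_⟩
  · by_contra hcon
    exact hx (by rw [hM.supp x hcon, zero_mul])
  · rw [mem_Icc, ← abs_le]
    by_contra hcon
    push Not at hcon
    exact hx (by rw [hR x hcon, mul_zero])

theorem Bdd.add {f g : ℝ → ℝ} (hf : Bdd f) (hg : Bdd g) : Bdd (fun x => f x + g x) := by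
  obtain ⟨R, hR⟩ := hf
  obtain ⟨S, hS⟩ := hg
  refine ⟨max R S, fun x hx => ?_⟩
  show f x + g x = 0
  rw [hR x (lt_of_le_of_lt (le_max_left _ _) hx), hS x (lt_of_le_of_lt (le_max_right _ _) hx),
    add_zero]

theorem Bdd.mul {f : ℝ → ℝ} (hf : Bdd f) (c : ℝ) : Bdd (fun x => c * f x) := by
  obtain ⟨R, hR⟩ := hf
  exact ⟨R, fun x hx => by show c * f x = 0; rw [hR x hx, mul_zero]⟩

theorem Mass.J_add (hM : Mass lam M) {f g : ℝ → ℝ} (hf : Bdd f) (hg : Bdd g) :
    J M (fun x => f x + g x) = J M f + J M g := by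
  unfold J
  rw [← finsum_add_distrib (hM.finite hf) (hM.finite hg)]
  apply finsum_congr
  intro x
  ring

theorem J_mul {f : ℝ → ℝ} (c : ℝ) : J M (fun x => c * f x) = c * J M f := by
  unfold J
  rw [mul_finsum]
  apply finsum_congr
  intro x
  ring

theorem Mass.J_mono (hM : Mass lam M) {f g : ℝ → ℝ} (hf : Bdd f) (hg : Bdd g)
    (hfg : ∀ x ∈ Spec, f x ≤ g x) : J M f ≤ J M g := by
  have h1 : J M g = J M f + J M (fun x => g x + (-1) * f x) := by
    rw [hM.J_add hg (hf.mul (-1)), J_mul]
    ring
  have h2 : 0 ≤ J M (fun x => g x + (-1) * f x) := by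
    unfold J
    apply finsum_nonneg
    intro x
    by_cases hx : x ∈ Spec
    · apply mul_nonneg (hM.nonneg x)
      linarith [hfg x hx]
    · rw [hM.supp x hx, zero_mul]
  linarith

/-- The transfer operator. -/
noncomputable def Lop (h : ℝ → ℝ) (y : ℝ) : ℝ :=
  2 * h (goldenRatio * y) + h (goldenRatio * y + 1) + h (goldenRatio * y - 1)

theorem Bdd.comp {h : ℝ → ℝ} (hh : Bdd h) (c : ℝ) : Bdd (fun y => h (goldenRatio * y + c)) := by
  obtain ⟨R, hR⟩ := hh
  refine ⟨R + |c|, fun x hx => hR _ ?_⟩
  have h1 := Real.one_lt_goldenRatio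
  have h2 : |goldenRatio * x| = goldenRatio * |x| := by
    rw [abs_mul, abs_of_pos Real.goldenRatio_pos]
  have h3 : |goldenRatio * x| - |c| ≤ |goldenRatio * x + c| := by
    have := abs_add_le (goldenRatio * x + c) (-c)
    rw [abs_neg] at this
    have h4 : goldenRatio * x + c + -c = goldenRatio * x := by ring
    rw [h4] at this
    linarith
  have h4 : |x| ≤ goldenRatio * |x| := by nlinarith [abs_nonneg x]
  linarith

theorem Bdd.lop {h : ℝ → ℝ} (hh : Bdd h) : Bdd (Lop h) := by
  have h1 := ((hh.comp 0).mul 2).add (hh.comp 1)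
  have h2 := h1.add (hh.comp (-1))
  have h3 : Lop h = (fun y => 2 * h (goldenRatio * y + 0) + h (goldenRatio * y + 1) +
      h (goldenRatio * y + (-1))) := by
    funext y
    simp only [Lop, add_zero, sub_eq_add_neg]
  rw [h3]
  exact h2

theorem Mass.J_step (hM : Mass lam M) {h : ℝ → ℝ} (hh : Bdd h) : lam * J M h = J M (Lop h) := by
  have hphi : goldenRatio ≠ 0 := Real.goldenRatio_ne_zero
  have key : ∀ c : ℝ, (Function.support (fun x => M ((x - c) / goldenRatio) * h x)).Finite ∧
      ∑ᶠ x, M ((x - c) / goldenRatio) * h x = J M (fun y => h (goldenRatio * y + c)) := by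
    intro c
    set e : ℝ ≃ ℝ :=
      { toFun := fun x => (x - c) / goldenRatio
        invFun := fun y => goldenRatio * y + c
        left_inv := fun x => by field_simp; ring
        right_inv := fun y => by field_simp; ring } with he
    have h1 : (fun x => M ((x - c) / goldenRatio) * h x) =
        fun x => (fun y => M y * h (goldenRatio * y + c)) (e x) := by
      funext x
      have : goldenRatio * ((x - c) / goldenRatio) + c = x := by field_simp; ring
      simp only [he, Equiv.coe_fn_mk, this]
    constructor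
    · rw [h1]
      have h2 := hM.finite (hh.comp c)
      have h3 : Function.support (fun x => (fun y => M y * h (goldenRatio * y + c)) (e x)) =
          e ⁻¹' (Function.support (fun y => M y * h (goldenRatio * y + c))) := rfl
      rw [h3]
      exact h2.preimage e.injective.injOn
    · rw [h1]
      exact finsum_comp_equiv e (f := fun y => M y * h (goldenRatio * y + c))
  have e1 : lam * J M h = ∑ᶠ x, (2 * (M ((x - 0) / goldenRatio) * h x) +
      M ((x - 1) / goldenRatio) * h x + M ((x - (-1)) / goldenRatio) * h x) := by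
    unfold J
    rw [mul_finsum]
    apply finsum_congr
    intro x
    have := hM.fe x
    rw [sub_zero, sub_neg_eq_add]
    linear_combination (h x) * this
  have f0 : (Function.support (fun x => 2 * (M ((x - 0) / goldenRatio) * h x))).Finite := by
    apply (key 0).1.subset
    intro x hx
    rw [Function.mem_support] at hx ⊢
    intro hcon
    exact hx (by rw [hcon, mul_zero])
  have f01 : (Function.support (fun x => 2 * (M ((x - 0) / goldenRatio) * h x) +
      M ((x - 1) / goldenRatio) * h x)).Finite := by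
    apply (f0.union (key 1).1).subset
    exact Function.support_add _ _
  rw [e1, finsum_add_distrib f01 (key (-1)).1, finsum_add_distrib f0 (key 1).1, ← mul_finsum,
    (key 0).2, (key 1).2, (key (-1)).2]
  have h3 : Lop h = (fun y => (2 * h (goldenRatio * y + 0) + h (goldenRatio * y + 1)) +
      h (goldenRatio * y + (-1))) := by
    funext y
    simp only [Lop, add_zero, sub_eq_add_neg]
  rw [h3, hM.J_add (((hh.comp 0).mul 2).add (hh.comp 1)) (hh.comp (-1)),
    hM.J_add ((hh.comp 0).mul 2) (hh.comp 1), J_mul]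

theorem Bdd.iter {h : ℝ → ℝ} (hh : Bdd h) (k : ℕ) : Bdd (Lop^[k] h) := by
  induction k with
  | zero => exact hh
  | succ k ih => rw [Function.iterate_succ_apply']; exact ih.lop

theorem Mass.J_iter (hM : Mass lam M) {h : ℝ → ℝ} (hh : Bdd h) (k : ℕ) :
    lam ^ k * J M h = J M (Lop^[k] h) := by
  induction k with
  | zero => simp
  | succ k ih =>
    rw [Function.iterate_succ_apply', ← hM.J_step (hh.iter k), ← ih, pow_succ]
    ring

/-- Cut-off at distance `t`. -/
noncomputable def cut (t : ℝ) (F : ℝ → ℝ) (x : ℝ) : ℝ := open Classical in if |x| ≤ t then F x else 0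

theorem bdd_cut (t : ℝ) (F : ℝ → ℝ) : Bdd (cut t F) :=
  ⟨t, fun x hx => by simp [cut, not_le.mpr hx]⟩

theorem cut_outer (t : ℝ) (F : ℝ → ℝ) (k : ℕ) (y : ℝ) (hy : t / goldenRatio ^ k + goldenRatio < |y|) :
    Lop^[k] (cut t F) y = 0 := by
  have hphi0 : (0 : ℝ) < goldenRatio := Real.goldenRatio_pos
  induction k generalizing y with
  | zero =>
    have : t < |y| := by
      rw [pow_zero, div_one] at hy
      linarith
    simp [cut, not_le.mpr this]
  | succ k ih =>
    rw [Function.iterate_succ_apply']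
    have h2 : |goldenRatio * y| = goldenRatio * |y| := by
      rw [abs_mul, abs_of_pos hphi0]
    have h3 : t / goldenRatio ^ k + goldenRatio + 1 < goldenRatio * |y| := by
      have h4 : goldenRatio * (t / goldenRatio ^ (k + 1) + goldenRatio) =
          t / goldenRatio ^ k + goldenRatio + 1 := by
        rw [mul_add, phi_sq, pow_succ]
        field_simp
        ring
      rw [← h4]
      exact mul_lt_mul_of_pos_left hy hphi0
    have g0 := ih (goldenRatio * y) (by rw [h2]; linarith)
    have g1 := ih (goldenRatio * y + 1) (by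
      have := abs_add_le (goldenRatio * y + 1) (-1)
      rw [abs_neg, abs_one, add_neg_cancel_right, h2] at this
      linarith)
    have g2 := ih (goldenRatio * y - 1) (by
      have := abs_add_le (goldenRatio * y - 1) 1
      rw [abs_one, sub_add_cancel, h2] at this
      linarith)
    unfold Lop at g0 g1 g2 ⊢
    rw [g0, g1, g2]
    ring

theorem cut_inner (t : ℝ) (F : ℝ → ℝ) (k : ℕ) (y : ℝ) (hy : |y| ≤ t / goldenRatio ^ k - goldenRatio) :
    Lop^[k] (cut t F) y = Lop^[k] F y := by
  have hphi0 : (0 : ℝ) < goldenRatio := Real.goldenRatio_pos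
  induction k generalizing y with
  | zero =>
    have : |y| ≤ t := by
      rw [pow_zero, div_one] at hy
      linarith
    simp [cut, this]
  | succ k ih =>
    rw [Function.iterate_succ_apply', Function.iterate_succ_apply']
    have h2 : |goldenRatio * y| = goldenRatio * |y| := by
      rw [abs_mul, abs_of_pos hphi0]
    have h3 : goldenRatio * |y| ≤ t / goldenRatio ^ k - goldenRatio - 1 := by
      have h4 : goldenRatio * (t / goldenRatio ^ (k + 1) - goldenRatio) =
          t / goldenRatio ^ k - goldenRatio - 1 := by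
        rw [mul_sub, phi_sq, pow_succ]
        field_simp
        ring
      rw [← h4]
      exact mul_le_mul_of_nonneg_left hy hphi0.le
    have g0 := ih (goldenRatio * y) (by rw [h2]; linarith)
    have g1 := ih (goldenRatio * y + 1) (by
      have := abs_add_le (goldenRatio * y) 1
      rw [abs_one, h2] at this
      linarith)
    have g2 := ih (goldenRatio * y - 1) (by
      have := abs_sub (goldenRatio * y) 1
      rw [abs_one, h2] at this
      linarith)
    unfold Lop at g0 g1 g2 ⊢
    rw [g0, g1, g2]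

theorem lop_abs {F : ℝ → ℝ} {B : ℝ} (hF : ∀ x, |F x| ≤ B) (y : ℝ) : |Lop F y| ≤ 4 * B := by
  unfold Lop
  have h0 := hF (goldenRatio * y)
  have h1 := hF (goldenRatio * y + 1)
  have h2 := hF (goldenRatio * y - 1)
  rw [abs_le] at *
  constructor <;> linarith [h0.1, h0.2, h1.1, h1.2, h2.1, h2.2]

theorem iter_abs {F : ℝ → ℝ} (hF : ∀ x, |F x| ≤ 1) (k : ℕ) (y : ℝ) : |Lop^[k] F y| ≤ 4 ^ k := by
  induction k generalizing y with
  | zero => simpa using hF y
  | succ k ih =>
    rw [Function.iterate_succ_apply', pow_succ]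
    calc _ ≤ 4 * (4 : ℝ) ^ k := lop_abs ih y
      _ = _ := by ring

theorem cut_abs {F : ℝ → ℝ} (hF : ∀ x, |F x| ≤ 1) (t : ℝ) (x : ℝ) : |cut t F x| ≤ 1 := by
  unfold cut
  split_ifs
  · exact hF x
  · simp

/-- The mass of `[-t,t]`. -/
noncomputable def W (M : ℝ → ℝ) (t : ℝ) : ℝ := J M (cut t (fun _ => 1))

theorem Mass.W_mono (hM : Mass lam M) {s t : ℝ} (hst : s ≤ t) : W M s ≤ W M t := by
  apply hM.J_mono (bdd_cut _ _) (bdd_cut _ _)
  intro x _
  unfold cut
  split_ifs with h1 h2
  · exact le_rfl
  · exact absurd (h1.trans hst) h2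
  · norm_num
  · exact le_rfl

theorem Mass.W_pos (hM : Mass lam M) {t : ℝ} (ht : 0 ≤ t) : 0 < W M t := by
  have h1 : J M (fun x => open Classical in if x = 0 then (1 : ℝ) else 0) = M 0 := by
    classical
    unfold J
    rw [finsum_eq_single _ 0]
    · simp
    · intro x hx
      simp [hx]
  have h2 : J M (fun x => open Classical in if x = 0 then (1 : ℝ) else 0) ≤ W M t := by
    apply hM.J_mono _ (bdd_cut _ _)
    · intro x _
      unfold cut
      split_ifs with h1 h2 h2
      · exact le_rfl
      · exfalso; apply h2; rw [h1]; simpa using ht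
      · norm_num
      · exact le_rfl
    · refine ⟨0, fun x hx => ?_⟩
      exact if_neg (abs_pos.mp hx)
  linarith [hM.zero_pos]

theorem Mass.W_le (hM : Mass lam M) (t : ℝ) (k : ℕ) :
    lam ^ k * W M t ≤ 4 ^ k * W M (t / goldenRatio ^ k + goldenRatio) := by
  unfold W
  rw [hM.J_iter (bdd_cut _ _) k, ← J_mul]
  apply hM.J_mono ((bdd_cut _ _).iter k) ((bdd_cut _ _).mul _)
  intro x _
  by_cases hx : |x| ≤ t / goldenRatio ^ k + goldenRatio
  · have h1 : cut (t / goldenRatio ^ k + goldenRatio) (fun _ => (1 : ℝ)) x = 1 := by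
      unfold cut
      rw [if_pos hx]
    rw [h1, mul_one]
    exact (le_abs_self _).trans (iter_abs (cut_abs (by simp) t) k x)
  · push Not at hx
    rw [cut_outer _ _ _ _ hx]
    unfold cut
    rw [if_neg (not_le.mpr hx), mul_zero]

end Q69.Golden
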