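import Mathlib

/-!
# Metric mean dimension of Hölder interval maps

For an `α`-Hölder map `φ : [0,1] → [0,1]` (`0 < α ≤ 1`) the upper metric mean dimension is at most
`1 - α`.
-/

set_option autoImplicit false
open Filter Topology Set

namespace Q69.HolderMdim

/-- `A` is `(n, φ, ε)`-separated: for distinct `x, y ∈ A` one has
`d_n(x, y) = max_{0 ≤ j < n} |φ^j(x) - φ^j(y)| > ε`. -/
def IsSep (φ : unitInterval → unitInterval) (n : ℕ) (ε : ℝ) (A : Finset unitInterval) : Prop :=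
  ∀ x ∈ A, ∀ y ∈ A, x ≠ y → ∃ j < n, ε < |(φ^[j] x : ℝ) - (φ^[j] y : ℝ)|

/-- `sep(n, φ, ε)`: the maximal cardinality of an `(n, φ, ε)`-separated set. -/
noncomputable def sepNum (φ : unitInterval → unitInterval) (n : ℕ) (ε : ℝ) : ℕ :=
  sSup {k | ∃ A : Finset unitInterval, IsSep φ n ε A ∧ A.card = k}

/-- `sep(φ, ε) = limsup_{n → ∞} (1/n) log sep(n, φ, ε)`. -/
noncomputable def sepRate (φ : unitInterval → unitInterval) (ε : ℝ) : EReal :=
  limsup (fun n : ℕ => ((Real.log (sepNum φ n ε) / n : ℝ) : EReal)) atTop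

/-- The upper metric mean dimension `limsup_{ε → 0} sep(φ, ε) / |log ε|`. -/
noncomputable def upperMdim (φ : unitInterval → unitInterval) : EReal :=
  limsup (fun ε : ℝ => sepRate φ ε / ((|Real.log ε| : ℝ) : EReal)) (𝓝[>] 0)

/-- The lower metric mean dimension `liminf_{ε → 0} sep(φ, ε) / |log ε|`. -/
noncomputable def lowerMdim (φ : unitInterval → unitInterval) : EReal :=
  liminf (fun ε : ℝ => sepRate φ ε / ((|Real.log ε| : ℝ) : EReal)) (𝓝[>] 0)

/-- `φ` is `α`-Hölder: there is `K > 0` with `|φ(x) - φ(y)| ≤ K |x - y|^α` for all `x, y`. -/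
def IsHolder (α : ℝ) (φ : unitInterval → unitInterval) : Prop :=
  ∃ K > 0, ∀ x y : unitInterval, |(φ x : ℝ) - φ y| ≤ K * |(x : ℝ) - y| ^ α

/-- index of the cell of `x` -/
noncomputable def idx (ε : ℝ) (x : unitInterval) : ℤ := ⌊(x : ℝ) / ε⌋

/-- the itinerary of length `n` -/
noncomputable def code (φ : unitInterval → unitInterval) (ε : ℝ) : ℕ → unitInterval → List ℤ
  | 0, _ => []
  | n + 1, x => idx ε (φ^[n] x) :: code φ ε n x

lemma idx_eq_abs {ε : ℝ} (hε : 0 < ε) {x y : unitInterval} (h : idx ε x = idx ε y) :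
    |(x : ℝ) - y| ≤ ε := by
  have h1 := Int.abs_sub_lt_one_of_floor_eq_floor h
  rw [← sub_div, abs_div, abs_of_pos hε, div_lt_one hε] at h1
  exact h1.le

lemma idx_diff {ε D : ℝ} (hε : 0 < ε) {x y : unitInterval} (h : |(x : ℝ) - y| ≤ D) :
    ((idx ε x - idx ε y : ℤ) : ℝ) ≤ D / ε + 1 := by
  have h1 : ((idx ε x : ℤ) : ℝ) ≤ x / ε := Int.floor_le _
  have h2 : (x : ℝ) / ε - x/ε + y / ε < idx ε y + 1 := by
    have := Int.lt_floor_add_one ((y : ℝ) / ε)
    simp only [sub_self, zero_add]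
    exact this
  have h3 : (x : ℝ) / ε - y / ε ≤ D / ε := by
    rw [← sub_div]
    exact div_le_div_of_nonneg_right ((le_abs_self _).trans h) hε.le
  push_cast
  linarith

lemma card_le_of_diff {Z : Finset ℤ} {R : ℝ} (hR : 0 ≤ R)
    (h : ∀ a ∈ Z, ∀ b ∈ Z, ((a - b : ℤ) : ℝ) ≤ R) : Z.card ≤ ⌊R + 1⌋₊ := by
  rcases Z.eq_empty_or_nonempty with rfl | hne
  · simp
  · have hsub : Z ⊆ Finset.Icc (Z.min' hne) (Z.max' hne) := by
      intro z hz
      exact Finset.mem_Icc.2 ⟨Z.min'_le z hz, Z.le_max' z hz⟩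
    have h1 := Finset.card_le_card hsub
    rw [Int.card_Icc] at h1
    have h2 := h _ (Z.max'_mem hne) _ (Z.min'_mem hne)
    have h3 : Z.min' hne ≤ Z.max' hne := Z.min'_le _ (Z.max'_mem hne)
    apply Nat.le_floor
    have h4 : ((Z.card : ℤ)) ≤ Z.max' hne + 1 - Z.min' hne := by omega
    have h5 : ((Z.card : ℤ) : ℝ) ≤ ((Z.max' hne + 1 - Z.min' hne : ℤ) : ℝ) := by exact_mod_cast h4
    push_cast at h5 h2
    linarith

lemma card_codes {φ : unitInterval → unitInterval} {α K : ℝ} (hα : 0 < α) (hK : 0 < K)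
    (hφ : ∀ x y : unitInterval, |(φ x : ℝ) - φ y| ≤ K * |(x : ℝ) - y| ^ α)
    {ε : ℝ} (hε : 0 < ε) (A : Finset unitInterval) (n : ℕ) :
    ((A.image (code φ ε (n + 1))).card : ℝ) ≤ (1 / ε + 2) * (K * ε ^ α / ε + 2) ^ n := by
  induction n with
  | zero =>
    have h1 : A.image (code φ ε 1) = (A.image (idx ε)).image (fun i => [i]) := by
      rw [Finset.image_image]; rfl
    rw [h1, pow_zero, mul_one]
    have h2 : ((A.image (idx ε)).image (fun i => [i])).card ≤ (A.image (idx ε)).card :=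
      Finset.card_image_le
    have h3 : (A.image (idx ε)).card ≤ ⌊(1 / ε + 1) + 1⌋₊ := by
      apply card_le_of_diff (by positivity)
      intro a ha b hb
      obtain ⟨x, -, rfl⟩ := Finset.mem_image.1 ha
      obtain ⟨y, -, rfl⟩ := Finset.mem_image.1 hb
      apply idx_diff hε
      rw [abs_le]
      constructor <;> linarith [x.2.1, x.2.2, y.2.1, y.2.2]
    have h4 : ((⌊(1 / ε + 1) + 1⌋₊ : ℕ) : ℝ) ≤ (1 / ε + 1) + 1 := Nat.floor_le (by positivity)
    have h5 : ((((A.image (idx ε)).image (fun i => [i])).card : ℕ) : ℝ) ≤ (⌊(1 / ε + 1) + 1⌋₊ : ℕ) := by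
      exact_mod_cast h2.trans h3
    linarith
  | succ n ih =>
    set q : ℕ := ⌊(K * ε ^ α / ε + 1) + 1⌋₊ with hq
    have hmap : ∀ c ∈ A.image (code φ ε (n + 1 + 1)), c.tail ∈ A.image (code φ ε (n + 1)) := by
      intro c hc
      obtain ⟨x, hx, rfl⟩ := Finset.mem_image.1 hc
      exact Finset.mem_image.2 ⟨x, hx, rfl⟩
    have hfib : ∀ b ∈ A.image (code φ ε (n + 1)),
        ((A.image (code φ ε (n + 1 + 1))).filter (fun c => c.tail = b)).card ≤ q := by
      intro b _
      set Fb := (A.image (code φ ε (n + 1 + 1))).filter (fun c => c.tail = b) with hFb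
      have hinj : Set.InjOn (fun c : List ℤ => c.headI) Fb := by
        intro c hc c' hc' hcc
        simp only [hFb, Finset.coe_filter, Finset.mem_image, Set.mem_ofPred_eq] at hc hc'
        obtain ⟨⟨x, -, rfl⟩, h1⟩ := hc
        obtain ⟨⟨x', -, rfl⟩, h2⟩ := hc'
        simp only [code, List.tail_cons, List.headI_cons] at h1 h2 hcc ⊢
        rw [hcc, h1, h2]
      rw [← Finset.card_image_of_injOn hinj]
      apply card_le_of_diff (by positivity)
      intro a ha b' hb'
      obtain ⟨c, hc, rfl⟩ := Finset.mem_image.1 ha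
      obtain ⟨c', hc', rfl⟩ := Finset.mem_image.1 hb'
      simp only [hFb, Finset.mem_filter, Finset.mem_image] at hc hc'
      obtain ⟨⟨x, -, rfl⟩, h1⟩ := hc
      obtain ⟨⟨x', -, rfl⟩, h2⟩ := hc'
      simp only [code, List.tail_cons, List.headI_cons] at h1 h2 ⊢
      apply idx_diff hε
      have h3 : idx ε (φ^[n] x) = idx ε (φ^[n] x') := by
        rw [← h1] at h2
        exact (List.cons.inj h2).1.symm
      have h4 := idx_eq_abs hε h3
      rw [Function.iterate_succ_apply', Function.iterate_succ_apply']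
      refine (hφ _ _).trans ?_
      apply mul_le_mul_of_nonneg_left _ hK.le
      exact Real.rpow_le_rpow (abs_nonneg _) h4 hα.le
    have h1 := Finset.card_le_mul_card_image_of_maps_to hmap q hfib
    have h2 : (q : ℝ) ≤ (K * ε ^ α / ε + 1) + 1 := Nat.floor_le (by positivity)
    have h3 : (((A.image (code φ ε (n + 1 + 1))).card : ℕ) : ℝ) ≤
        q * ((A.image (code φ ε (n + 1))).card : ℝ) := by exact_mod_cast h1
    calc (((A.image (code φ ε (n + 1 + 1))).card : ℕ) : ℝ)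
        ≤ q * ((A.image (code φ ε (n + 1))).card : ℝ) := h3
      _ ≤ (K * ε ^ α / ε + 2) * ((1 / ε + 2) * (K * ε ^ α / ε + 2) ^ n) := by
          apply mul_le_mul (by linarith) ih (by positivity) (by positivity)
      _ = _ := by ring

lemma code_inj {φ : unitInterval → unitInterval} {ε : ℝ} (hε : 0 < ε) (n : ℕ) :
    ∀ {x y : unitInterval}, code φ ε n x = code φ ε n y → ∀ j < n,
      |(φ^[j] x : ℝ) - (φ^[j] y : ℝ)| ≤ ε := by
  induction n with
  | zero => intro x y _ j hj; omega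
  | succ n ih =>
    intro x y h j hj
    simp only [code] at h
    obtain ⟨h1, h2⟩ := List.cons.inj h
    rcases Nat.lt_or_ge j n with hjn | hjn
    · exact ih h2 j hjn
    · obtain rfl : j = n := by omega
      exact idx_eq_abs hε h1

lemma sep_card_le {φ : unitInterval → unitInterval} {α K : ℝ} (hα : 0 < α) (hK : 0 < K)
    (hφ : ∀ x y : unitInterval, |(φ x : ℝ) - φ y| ≤ K * |(x : ℝ) - y| ^ α)
    {ε : ℝ} (hε : 0 < ε) {A : Finset unitInterval} {n : ℕ} (hA : IsSep φ (n + 1) ε A) :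
    (A.card : ℝ) ≤ (1 / ε + 2) * (K * ε ^ α / ε + 2) ^ n := by
  have hinj : Set.InjOn (code φ ε (n + 1)) A := by
    intro x hx y hy hxy
    by_contra hne
    obtain ⟨j, hj, h⟩ := hA x hx y hy hne
    exact absurd (code_inj hε (n + 1) hxy j hj) (not_le.2 h)
  rw [← Finset.card_image_of_injOn hinj]
  exact card_codes hα hK hφ hε A n

lemma sepNum_le {φ : unitInterval → unitInterval} {α K : ℝ} (hα : 0 < α) (hK : 0 < K)
    (hφ : ∀ x y : unitInterval, |(φ x : ℝ) - φ y| ≤ K * |(x : ℝ) - y| ^ α)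
    {ε : ℝ} (hε : 0 < ε) (n : ℕ) :
    (sepNum φ (n + 1) ε : ℝ) ≤ (1 / ε + 2) * (K * ε ^ α / ε + 2) ^ n := by
  have h1 : sepNum φ (n + 1) ε ≤ ⌊(1 / ε + 2) * (K * ε ^ α / ε + 2) ^ n⌋₊ := by
    apply csSup_le'
    rintro k ⟨A, hA, rfl⟩
    exact Nat.le_floor (sep_card_le hα hK hφ hε hA)
  calc (sepNum φ (n + 1) ε : ℝ) ≤ (⌊(1 / ε + 2) * (K * ε ^ α / ε + 2) ^ n⌋₊ : ℝ) := by
        exact_mod_cast h1
    _ ≤ _ := Nat.floor_le (by positivity)

lemma sepRate_le {φ : unitInterval → unitInterval} {α K : ℝ} (hα : 0 < α) (hK : 0 < K)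
    (hφ : ∀ x y : unitInterval, |(φ x : ℝ) - φ y| ≤ K * |(x : ℝ) - y| ^ α)
    {ε : ℝ} (hε : 0 < ε) :
    sepRate φ ε ≤ ((Real.log (K * ε ^ α / ε + 2) : ℝ) : EReal) := by
  set B : ℝ := K * ε ^ α / ε + 2 with hB
  have hBpos : 2 ≤ B := by
    have : 0 ≤ K * ε ^ α / ε := by positivity
    linarith
  set C : ℝ := 1 / ε + 2 with hC
  have hCpos : 0 < C := by positivity
  have hlogB : 0 ≤ Real.log B := Real.log_nonneg (by linarith)
  have hlogC : 0 ≤ Real.log C := Real.log_nonneg (by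
    have : 0 < 1 / ε := by positivity
    linarith)
  have hbd : ∀ᶠ n : ℕ in atTop, ((Real.log (sepNum φ n ε) / n : ℝ) : EReal) ≤
      ((Real.log C / n + Real.log B : ℝ) : EReal) := by
    filter_upwards [eventually_ge_atTop 1] with n hn
    obtain ⟨m, rfl⟩ : ∃ m, n = m + 1 := ⟨n - 1, by omega⟩
    rw [EReal.coe_le_coe_iff]
    have hn0 : (0 : ℝ) < ((m + 1 : ℕ) : ℝ) := by positivity
    rw [div_le_iff₀ hn0, add_mul, div_mul_cancel₀ _ hn0.ne']
    rcases Nat.eq_zero_or_pos (sepNum φ (m + 1) ε) with h0 | h0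
    · rw [h0]; simp only [Nat.cast_zero, Real.log_zero]; positivity
    · have h1 := sepNum_le hα hK hφ hε m
      have h2 : Real.log (sepNum φ (m + 1) ε) ≤ Real.log (C * B ^ m) :=
        Real.log_le_log (by exact_mod_cast h0) h1
      rw [Real.log_mul hCpos.ne' (by positivity), Real.log_pow] at h2
      have h3 : (m : ℝ) * Real.log B ≤ Real.log B * ((m + 1 : ℕ) : ℝ) := by
        push_cast; nlinarith
      linarith
  have hlim : Tendsto (fun n : ℕ => ((Real.log C / n + Real.log B : ℝ) : EReal)) atTop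
      (𝓝 ((0 + Real.log B : ℝ) : EReal)) := by
    apply (continuous_coe_real_ereal.tendsto _).comp
    exact (tendsto_const_div_atTop_nhds_zero_nat _).add_const _
  calc sepRate φ ε ≤ limsup (fun n : ℕ => ((Real.log C / n + Real.log B : ℝ) : EReal)) atTop :=
        limsup_le_limsup hbd
    _ = ((0 + Real.log B : ℝ) : EReal) := hlim.limsup_eq
    _ = _ := by rw [zero_add]

lemma sepRate_nonneg (φ : unitInterval → unitInterval) (ε : ℝ) : 0 ≤ sepRate φ ε := by
  have h : ∀ᶠ n : ℕ in atTop, (0 : EReal) ≤ ((Real.log (sepNum φ n ε) / n : ℝ) : EReal) := by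
    refine Eventually.of_forall fun n => ?_
    rw [← EReal.coe_zero, EReal.coe_le_coe_iff]
    exact div_nonneg (Real.log_natCast_nonneg _) (Nat.cast_nonneg _)
  exact le_limsup_of_frequently_le h.frequently

/-- **The bound.** -/
theorem upperMdim_le {φ : unitInterval → unitInterval} {α : ℝ} (hα : 0 < α) (hα1 : α ≤ 1)
    (hφ : IsHolder α φ) : upperMdim φ ≤ ((1 - α : ℝ) : EReal) := by
  obtain ⟨K, hK, hφ⟩ := hφ
  have hbd : ∀ᶠ ε : ℝ in 𝓝[>] 0, sepRate φ ε / ((|Real.log ε| : ℝ) : EReal) ≤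
      (((1 - α) + Real.log (K + 2) / |Real.log ε| : ℝ) : EReal) := by
    have h1 : ∀ᶠ ε : ℝ in 𝓝[>] 0, ε < 1 :=
      (eventually_lt_nhds one_pos).filter_mono nhdsWithin_le_nhds
    filter_upwards [h1, eventually_mem_nhdsWithin] with ε hε1 hε0
    have hε : 0 < ε := hε0
    have hlog : 0 < |Real.log ε| := abs_pos.2 (Real.log_neg hε hε1).ne
    have hlog' : |Real.log ε| = - Real.log ε := abs_of_neg (Real.log_neg hε hε1)
    have h2 := sepRate_le hα hK hφ hε
    have h3 : Real.log (K * ε ^ α / ε + 2) ≤ Real.log (K + 2) + (1 - α) * |Real.log ε| := by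
      have e1 : ε ^ α / ε = ε ^ (α - 1) := by
        rw [Real.rpow_sub_one hε.ne']
      have e2 : 1 ≤ ε ^ (α - 1) :=
        Real.one_le_rpow_of_pos_of_le_one_of_nonpos hε hε1.le (by linarith)
      have e3 : K * ε ^ α / ε + 2 ≤ (K + 2) * ε ^ (α - 1) := by
        rw [mul_div_assoc, e1]; nlinarith
      have e4 : 0 < K * ε ^ α / ε + 2 := by positivity
      calc Real.log (K * ε ^ α / ε + 2) ≤ Real.log ((K + 2) * ε ^ (α - 1)) :=
            Real.log_le_log e4 e3
        _ = Real.log (K + 2) + (α - 1) * Real.log ε := by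
            rw [Real.log_mul (by positivity) (by positivity), Real.log_rpow hε]
        _ = _ := by rw [hlog']; ring
    have h4 : sepRate φ ε ≤ ((Real.log (K + 2) + (1 - α) * |Real.log ε| : ℝ) : EReal) :=
      h2.trans (EReal.coe_le_coe_iff.2 h3)
    have h5 : sepRate φ ε / ((|Real.log ε| : ℝ) : EReal) ≤
        ((Real.log (K + 2) + (1 - α) * |Real.log ε| : ℝ) : EReal) / ((|Real.log ε| : ℝ) : EReal) :=
      EReal.div_le_div_right_of_nonneg (by exact_mod_cast hlog.le) h4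
    refine h5.trans (le_of_eq ?_)
    rw [← EReal.coe_div, EReal.coe_eq_coe_iff]
    field_simp
    ring
  have hlim : Tendsto (fun ε : ℝ => (((1 - α) + Real.log (K + 2) / |Real.log ε| : ℝ) : EReal))
      (𝓝[>] 0) (𝓝 (((1 - α) + 0 : ℝ) : EReal)) := by
    apply (continuous_coe_real_ereal.tendsto _).comp
    apply Tendsto.const_add
    apply Tendsto.div_atTop tendsto_const_nhds
    exact tendsto_abs_atBot_atTop.comp Real.tendsto_log_nhdsGT_zero
  calc upperMdim φ ≤ limsup (fun ε : ℝ =>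
        (((1 - α) + Real.log (K + 2) / |Real.log ε| : ℝ) : EReal)) (𝓝[>] 0) :=
        limsup_le_limsup hbd
    _ = (((1 - α) + 0 : ℝ) : EReal) := hlim.limsup_eq
    _ = _ := by rw [add_zero]

lemma lowerMdim_nonneg (φ : unitInterval → unitInterval) : 0 ≤ lowerMdim φ := by
  have h : ∀ᶠ ε : ℝ in 𝓝[>] 0, 0 ≤ sepRate φ ε / ((|Real.log ε| : ℝ) : EReal) := by
    refine Eventually.of_forall fun ε => ?_
    exact EReal.div_nonneg (sepRate_nonneg φ ε) (by exact_mod_cast abs_nonneg _)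
  exact le_liminf_of_le (by isBoundedDefault) h

lemma lowerMdim_le_upperMdim (φ : unitInterval → unitInterval) : lowerMdim φ ≤ upperMdim φ :=
  liminf_le_limsup

end Q69.HolderMdim
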