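import Pool.Agent.Q69.IMBase

open Set Filter Topology

namespace Q69IM

variable {Γ : Type*} [AddCommGroup Γ]

/-- the uniform mean on `x + S` -/
noncomputable def avgM (S : Finset Γ) (x : Γ) : Linf Γ → ℂ :=
  fun f => (∑ γ ∈ S, f.1 (x + γ)) / S.card

/-- the averaged function -/
noncomputable def avgF (S : Finset Γ) (f : RL Γ) : RL Γ :=
  ⟨fun x => (∑ γ ∈ S, f.1 (x + γ)) / S.card, by
    obtain ⟨C, hC⟩ := f.2
    refine ⟨|C|, fun x => ?_⟩
    rcases S.eq_empty_or_nonempty with h | h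
    · simp [h]
    · have hc : (0 : ℝ) < S.card := by exact_mod_cast h.card_pos
      rw [abs_div, abs_of_pos hc, div_le_iff₀ hc]
      refine (Finset.abs_sum_le_sum_abs _ _).trans ?_
      refine (Finset.sum_le_sum fun γ _ => (hC (x + γ)).trans (le_abs_self C)).trans ?_
      simp [mul_comm]⟩

lemma avgF_apply (S : Finset Γ) (f : RL Γ) (x : Γ) :
    (avgF S f).1 x = (∑ γ ∈ S, f.1 (x + γ)) / S.card := rfl

lemma isMean_avgM (S : Finset Γ) (hS : S.Nonempty) (x : Γ) : IsMean (avgM S x) := by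
  have hc : (0 : ℝ) < S.card := by exact_mod_cast hS.card_pos
  have hc' : (S.card : ℂ) ≠ 0 := by exact_mod_cast hS.card_pos.ne'
  refine ⟨fun f g => ?_, fun c f => ?_, fun f hf => ?_, ?_⟩
  · change (∑ γ ∈ S, (f.1 (x + γ) + g.1 (x + γ))) / (S.card : ℂ) = _
    rw [Finset.sum_add_distrib, add_div]; rfl
  · change (∑ γ ∈ S, (c * f.1 (x + γ))) / (S.card : ℂ) = _
    rw [← Finset.mul_sum, mul_div_assoc]; rfl
  · choose r hr h using hf
    refine ⟨(∑ γ ∈ S, r (x + γ)) / S.card, div_nonneg (Finset.sum_nonneg fun γ _ => hr _) hc.le, ?_⟩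
    change (∑ γ ∈ S, f.1 (x + γ)) / (S.card : ℂ) = _
    push_cast
    rw [Finset.sum_congr rfl fun γ _ => h (x + γ)]
  · change (∑ γ ∈ S, (1 : ℂ)) / (S.card : ℂ) = 1
    rw [Finset.sum_const, nsmul_eq_mul, mul_one, div_self hc']

lemma ev_avgM (S : Finset Γ) (x : Γ) (f : RL Γ) : ev (avgM S x) f = (avgF S f).1 x := by
  change ((∑ γ ∈ S, ((f.1 (x + γ) : ℝ) : ℂ)) / (S.card : ℂ)).re = _
  rw [avgF_apply, ← Complex.ofReal_sum, ← Complex.ofReal_natCast, ← Complex.ofReal_div,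
    Complex.ofReal_re]

lemma avgF_tr (S : Finset Γ) (f : RL Γ) (g : Γ) (h1 : ∀ γ ∈ S, γ - g ∈ S) (h2 : ∀ γ ∈ S, γ + g ∈ S) :
    avgF S (trR g f) = avgF S f := by
  apply Subtype.ext; funext x
  rw [avgF_apply, avgF_apply]
  congr 1
  refine Finset.sum_bij (fun γ _ => γ - g) (fun γ hγ => h1 γ hγ) ?_ ?_ ?_
  · intro a _ b _ h
    exact sub_left_injective h
  · intro b hb
    exact ⟨b + g, h2 b hb, by simp⟩
  · intro a _
    rw [trR_apply, add_sub_assoc]

lemma avgF_add (S : Finset Γ) (f g : RL Γ) : avgF S (f + g) = avgF S f + avgF S g := by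
  apply Subtype.ext; funext x
  rw [RL_add, avgF_apply, avgF_apply, avgF_apply, ← add_div, ← Finset.sum_add_distrib]
  rfl

lemma avgF_sub (S : Finset Γ) (f g : RL Γ) : avgF S (f - g) = avgF S f - avgF S g := by
  apply Subtype.ext; funext x
  rw [RL_sub, avgF_apply, avgF_apply, avgF_apply, ← sub_div, ← Finset.sum_sub_distrib]
  rfl

/-- invariant means do not see averaging -/
lemma ev_avgF {m : Linf Γ → ℂ} (hm : m ∈ InvMeans Γ) (S : Finset Γ) (hS : S.Nonempty) (f : RL Γ) :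
    ev m (avgF S f) = ev m f := by
  have hc : (S.card : ℝ) ≠ 0 := by exact_mod_cast hS.card_pos.ne'
  have key : ∀ T : Finset Γ, ev m (∑ γ ∈ T, trR (-γ) f) = T.card * ev m f := by
    classical
    intro T
    induction T using Finset.induction_on with
    | empty => simp [ev_zero hm.1]
    | insert a T ha ih =>
      rw [Finset.sum_insert ha, ev_add hm.1, ih, ev_tr hm, Finset.card_insert_of_notMem ha]
      push_cast; ring
  have h2 : avgF S f = (1 / (S.card : ℝ)) • ∑ γ ∈ S, trR (-γ) f := by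
    apply Subtype.ext; funext x
    rw [RL_smul, avgF_apply]
    have : (∑ γ ∈ S, trR (-γ) f : RL Γ).1 x = ∑ γ ∈ S, f.1 (x + γ) := by
      rw [AddSubmonoidClass.coe_finset_sum, Finset.sum_apply]
      refine Finset.sum_congr rfl fun γ _ => ?_
      rw [trR_apply, sub_neg_eq_add]
    rw [this]; ring
  rw [h2, ev_smul hm.1, key]
  field_simp

/-- Cauchy-Schwarz for a mean -/
lemma ev_sq_le {m : Linf Γ → ℂ} (hm : IsMean m) (f : RL Γ) : (ev m f) ^ 2 ≤ ev m (f * f) := by
  have := ev_nonneg hm ((f - (ev m f) • (1 : RL Γ)) * (f - (ev m f) • (1 : RL Γ)))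
    (fun x => mul_self_nonneg _)
  have h2 : (f - (ev m f) • (1 : RL Γ)) * (f - (ev m f) • (1 : RL Γ)) =
      f * f + (-(2 * ev m f)) • f + ((ev m f) ^ 2) • (1 : RL Γ) := by
    apply Subtype.ext; funext x
    simp only [RL_mul, RL_sub, RL_smul, RL_one, RL_add]
    ring
  rw [h2, ev_add hm, ev_add hm, ev_smul hm, ev_const hm] at this
  nlinarith

end Q69IM
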