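import Mathlib

open Set Filter Topology

namespace Q69IM

/-- The bounded functions `Γ → ℂ`. -/
def Linf (Γ : Type*) : Subalgebra ℂ (Γ → ℂ) where
  carrier := {f | ∃ C : ℝ, ∀ x, ‖f x‖ ≤ C}
  mul_mem' := by
    rintro f g ⟨C, hC⟩ ⟨D, hD⟩
    refine ⟨|C| * |D|, fun x => ?_⟩
    rw [Pi.mul_apply, norm_mul]
    exact mul_le_mul ((hC x).trans (le_abs_self C)) ((hD x).trans (le_abs_self D))
      (norm_nonneg _) (abs_nonneg _)
  add_mem' := by
    rintro f g ⟨C, hC⟩ ⟨D, hD⟩
    refine ⟨C + D, fun x => ?_⟩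
    rw [Pi.add_apply]
    exact (norm_add_le _ _).trans (add_le_add (hC x) (hD x))
  algebraMap_mem' := by
    intro c
    exact ⟨‖c‖, fun x => by simp⟩

/-- The translate `x ↦ f (x - γ)`. -/
def tr {Γ : Type*} [AddCommGroup Γ] (γ : Γ) (f : Linf Γ) : Linf Γ :=
  ⟨fun x => f.1 (x - γ), by
    obtain ⟨C, hC⟩ := f.2
    exact ⟨C, fun x => hC _⟩⟩

/-- The indicator function of `A` as a bounded function. -/
noncomputable def indC {Γ : Type*} (A : Set Γ) : Linf Γ :=
  ⟨A.indicator (fun _ => 1), by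
    refine ⟨1, fun x => ?_⟩
    by_cases hx : x ∈ A
    · simp [hx]
    · simp [hx]⟩

/-- A mean: a positive normalised linear functional on the bounded functions. -/
structure IsMean {Γ : Type*} (m : Linf Γ → ℂ) : Prop where
  add : ∀ f g, m (f + g) = m f + m g
  smul : ∀ (c : ℂ) (f : Linf Γ), m (c • f) = c * m f
  pos : ∀ f : Linf Γ, (∀ x, ∃ r : ℝ, 0 ≤ r ∧ f.1 x = r) → ∃ r : ℝ, 0 ≤ r ∧ m f = r
  one : m 1 = 1

/-- The set of invariant means; its topology is that of pointwise convergence on the bounded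
functions, that is the weak-* topology. -/
def InvMeans (Γ : Type*) [AddCommGroup Γ] : Set (Linf Γ → ℂ) :=
  {m | IsMean m ∧ ∀ (γ : Γ) (f : Linf Γ), m (tr γ f) = m f}

/-- Bounded real functions. -/
def RL (Γ : Type*) : Subalgebra ℝ (Γ → ℝ) where
  carrier := {f | ∃ C : ℝ, ∀ x, |f x| ≤ C}
  mul_mem' := by
    rintro f g ⟨C, hC⟩ ⟨D, hD⟩
    refine ⟨|C| * |D|, fun x => ?_⟩
    rw [Pi.mul_apply, abs_mul]
    exact mul_le_mul ((hC x).trans (le_abs_self C)) ((hD x).trans (le_abs_self D))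
      (abs_nonneg _) (abs_nonneg _)
  add_mem' := by
    rintro f g ⟨C, hC⟩ ⟨D, hD⟩
    refine ⟨C + D, fun x => ?_⟩
    rw [Pi.add_apply]
    exact (abs_add_le _ _).trans (add_le_add (hC x) (hD x))
  algebraMap_mem' := by
    intro c
    exact ⟨|c|, fun x => by simp⟩

section basic

variable {Γ : Type*}

@[simp] lemma RL_add (f g : RL Γ) (x : Γ) : (f + g).1 x = f.1 x + g.1 x := rfl
@[simp] lemma RL_mul (f g : RL Γ) (x : Γ) : (f * g).1 x = f.1 x * g.1 x := rfl
@[simp] lemma RL_sub (f g : RL Γ) (x : Γ) : (f - g).1 x = f.1 x - g.1 x := rfl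
@[simp] lemma RL_neg (f : RL Γ) (x : Γ) : (-f).1 x = -f.1 x := rfl
@[simp] lemma RL_smul (c : ℝ) (f : RL Γ) (x : Γ) : (c • f).1 x = c * f.1 x := rfl
@[simp] lemma RL_one (x : Γ) : (1 : RL Γ).1 x = 1 := rfl
@[simp] lemma RL_zero (x : Γ) : (0 : RL Γ).1 x = 0 := rfl
@[simp] lemma RL_pow (f : RL Γ) (n : ℕ) (x : Γ) : (f ^ n).1 x = f.1 x ^ n := by
  simp

/-- Inclusion of the bounded real functions in the bounded complex functions. -/
def toC (f : RL Γ) : Linf Γ :=
  ⟨fun x => (f.1 x : ℂ), by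
    obtain ⟨C, hC⟩ := f.2
    exact ⟨C, fun x => by rw [Complex.norm_real]; exact hC x⟩⟩

lemma toC_add (f g : RL Γ) : toC (f + g) = toC f + toC g := by
  apply Subtype.ext; funext x
  change ((f.1 x + g.1 x : ℝ) : ℂ) = (f.1 x : ℂ) + (g.1 x : ℂ)
  push_cast; rfl

lemma toC_mul (f g : RL Γ) : toC (f * g) = toC f * toC g := by
  apply Subtype.ext; funext x
  change ((f.1 x * g.1 x : ℝ) : ℂ) = (f.1 x : ℂ) * (g.1 x : ℂ)
  push_cast; rfl

lemma toC_smul (c : ℝ) (f : RL Γ) : toC (c • f) = (c : ℂ) • toC f := by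
  apply Subtype.ext; funext x
  change ((c * f.1 x : ℝ) : ℂ) = (c : ℂ) * (f.1 x : ℂ)
  push_cast; rfl

lemma toC_one : toC (1 : RL Γ) = 1 := by
  apply Subtype.ext; funext x
  change ((1 : ℝ) : ℂ) = 1
  push_cast; rfl

/-- Real part of a bounded function. -/
def reL (f : Linf Γ) : RL Γ :=
  ⟨fun x => (f.1 x).re, by
    obtain ⟨C, hC⟩ := f.2
    exact ⟨C, fun x => (Complex.abs_re_le_norm _).trans (hC x)⟩⟩

/-- Imaginary part of a bounded function. -/
def imL (f : Linf Γ) : RL Γ :=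
  ⟨fun x => (f.1 x).im, by
    obtain ⟨C, hC⟩ := f.2
    exact ⟨C, fun x => (Complex.abs_im_le_norm _).trans (hC x)⟩⟩

lemma decomp (f : Linf Γ) : f = toC (reL f) + Complex.I • toC (imL f) := by
  apply Subtype.ext; funext x
  change f.1 x = ((f.1 x).re : ℂ) + Complex.I * ((f.1 x).im : ℂ)
  rw [mul_comm]; exact (Complex.re_add_im _).symm

/-- Real evaluation of a functional at a real function. -/
def ev (m : Linf Γ → ℂ) (f : RL Γ) : ℝ := (m (toC f)).re

/-- Indicator as a bounded real function. -/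
noncomputable def ind (A : Set Γ) : RL Γ :=
  ⟨A.indicator (fun _ => 1), by
    refine ⟨1, fun x => ?_⟩
    by_cases hx : x ∈ A
    · simp [hx]
    · simp [hx]⟩

lemma ind_mem {A : Set Γ} {x : Γ} (hx : x ∈ A) : (ind A).1 x = 1 := by
  change A.indicator (fun _ => (1 : ℝ)) x = 1
  simp [hx]

lemma ind_notMem {A : Set Γ} {x : Γ} (hx : x ∉ A) : (ind A).1 x = 0 := by
  change A.indicator (fun _ => (1 : ℝ)) x = 0
  simp [hx]

lemma ind_nonneg (A : Set Γ) (x : Γ) : 0 ≤ (ind A).1 x := by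
  by_cases hx : x ∈ A
  · rw [ind_mem hx]; norm_num
  · rw [ind_notMem hx]

lemma ind_le_one (A : Set Γ) (x : Γ) : (ind A).1 x ≤ 1 := by
  by_cases hx : x ∈ A
  · rw [ind_mem hx]
  · rw [ind_notMem hx]; norm_num

lemma indC_eq (A : Set Γ) : indC A = toC (ind A) := by
  apply Subtype.ext; funext x
  change A.indicator (fun _ => (1 : ℂ)) x = ((A.indicator (fun _ => (1 : ℝ)) x : ℝ) : ℂ)
  by_cases hx : x ∈ A <;> simp [hx]

variable {m : Linf Γ → ℂ}

lemma ev_add (hm : IsMean m) (f g : RL Γ) : ev m (f + g) = ev m f + ev m g := by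
  simp [ev, toC_add, hm.add]

lemma ev_smul (hm : IsMean m) (c : ℝ) (f : RL Γ) : ev m (c • f) = c * ev m f := by
  rw [ev, toC_smul, hm.smul, ev, Complex.re_ofReal_mul]

lemma ev_one (hm : IsMean m) : ev m 1 = 1 := by
  simp [ev, toC_one, hm.one]

lemma ev_neg (hm : IsMean m) (f : RL Γ) : ev m (-f) = - ev m f := by
  have := ev_smul hm (-1) f
  simpa using this

lemma ev_sub (hm : IsMean m) (f g : RL Γ) : ev m (f - g) = ev m f - ev m g := by
  rw [sub_eq_add_neg, ev_add hm, ev_neg hm, sub_eq_add_neg]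

lemma ev_zero (hm : IsMean m) : ev m 0 = 0 := by
  have := ev_smul hm 0 0
  simpa using this

lemma ev_nonneg (hm : IsMean m) (f : RL Γ) (hf : ∀ x, 0 ≤ f.1 x) : 0 ≤ ev m f := by
  obtain ⟨r, hr, h⟩ := hm.pos (toC f) (fun x => ⟨f.1 x, hf x, rfl⟩)
  simp [ev, h, hr]

lemma ev_mono (hm : IsMean m) {f g : RL Γ} (hf : ∀ x, f.1 x ≤ g.1 x) : ev m f ≤ ev m g := by
  have := ev_nonneg hm (g - f) (fun x => by simpa using hf x)
  rw [ev_sub hm] at this
  linarith

lemma ev_const (hm : IsMean m) (c : ℝ) : ev m (c • (1 : RL Γ)) = c := by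
  rw [ev_smul hm, ev_one hm, mul_one]

lemma ev_le (hm : IsMean m) {f : RL Γ} {C : ℝ} (hf : ∀ x, f.1 x ≤ C) : ev m f ≤ C := by
  have := ev_mono hm (f := f) (g := C • (1 : RL Γ)) (fun x => by simpa using hf x)
  rwa [ev_const hm] at this

lemma le_ev (hm : IsMean m) {f : RL Γ} {C : ℝ} (hf : ∀ x, C ≤ f.1 x) : C ≤ ev m f := by
  have := ev_mono hm (f := C • (1 : RL Γ)) (g := f) (fun x => by simpa using hf x)
  rwa [ev_const hm] at this

lemma abs_ev_le (hm : IsMean m) {f : RL Γ} {C : ℝ} (hf : ∀ x, |f.1 x| ≤ C) : |ev m f| ≤ C :=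
  abs_le.2 ⟨le_ev hm fun x => (abs_le.1 (hf x)).1, ev_le hm fun x => (abs_le.1 (hf x)).2⟩

/-- a mean is real on real functions -/
lemma ofReal_ev (hm : IsMean m) (f : RL Γ) : m (toC f) = (ev m f : ℂ) := by
  obtain ⟨C, hC⟩ := f.2
  obtain ⟨r, hr, h⟩ := hm.pos (toC (f + C • (1 : RL Γ)))
    (fun x => ⟨f.1 x + C, by have := (abs_le.1 (hC x)).1; linarith, by
      change ((f.1 x + C * 1 : ℝ) : ℂ) = _
      rw [mul_one]⟩)
  have h1 : m (toC (f + C • (1 : RL Γ))) = m (toC f) + C := by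
    rw [toC_add, hm.add, toC_smul, hm.smul, toC_one, hm.one, mul_one]
  have h2 : m (toC f) = ((r - C : ℝ) : ℂ) := by
    rw [h1] at h
    push_cast
    linear_combination h
  rw [ev, h2, Complex.ofReal_re]

lemma eval_eq (hm : IsMean m) (f : Linf Γ) :
    m f = (ev m (reL f) : ℂ) + Complex.I * (ev m (imL f) : ℂ) := by
  conv_lhs => rw [decomp f]
  rw [hm.add, hm.smul, ofReal_ev hm, ofReal_ev hm]

lemma mean_ext {m' : Linf Γ → ℂ} (hm : IsMean m) (hm' : IsMean m')
    (h : ∀ f : RL Γ, ev m f = ev m' f) : m = m' := by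
  funext f
  rw [eval_eq hm, eval_eq hm', h, h]

/-- full sets -/
lemma ev_congr (hm : IsMean m) {A : Set Γ} (hA : ev m (ind A) = 1) {f g : RL Γ}
    (hfg : ∀ x ∈ A, f.1 x = g.1 x) : ev m f = ev m g := by
  obtain ⟨C, hC⟩ := (f - g).2
  have key : ev m (f - g) = 0 := by
    have h1 : ev m (1 - ind A) = 0 := by rw [ev_sub hm, ev_one hm, hA, sub_self]
    have h2 : ev m (f - g) ≤ ev m (C • (1 - ind A)) := by
      apply ev_mono hm
      intro x
      by_cases hx : x ∈ A
      · simp [ind_mem hx, hfg x hx]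
      · have := (abs_le.1 (hC x)).2
        simpa [ind_notMem hx] using this
    have h3 : ev m (g - f) ≤ ev m (C • (1 - ind A)) := by
      apply ev_mono hm
      intro x
      by_cases hx : x ∈ A
      · simp [ind_mem hx, hfg x hx]
      · have := (abs_le.1 (hC x)).1
        simp only [RL_sub] at this
        simp only [RL_sub, RL_smul, RL_one, ind_notMem hx]
        linarith
    rw [ev_smul hm, h1, mul_zero] at h2 h3
    rw [ev_sub hm] at h2 h3 ⊢
    linarith
  rw [ev_sub hm] at key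
  linarith

lemma ev_ind_le (hm : IsMean m) (A : Set Γ) : ev m (ind A) ≤ 1 :=
  ev_le hm (ind_le_one A)

lemma ev_full_mono (hm : IsMean m) {A B : Set Γ} (hA : ev m (ind A) = 1) (hAB : A ⊆ B) :
    ev m (ind B) = 1 := by
  apply le_antisymm (ev_ind_le hm B)
  rw [← hA]
  apply ev_mono hm
  intro x
  by_cases hx : x ∈ A
  · rw [ind_mem hx, ind_mem (hAB hx)]
  · rw [ind_notMem hx]; exact ind_nonneg B x

lemma ev_full_inter (hm : IsMean m) {A B : Set Γ} (hA : ev m (ind A) = 1)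
    (hB : ev m (ind B) = 1) : ev m (ind (A ∩ B)) = 1 := by
  rw [← hA]
  apply ev_congr hm hB
  intro x hx
  by_cases hxA : x ∈ A
  · rw [ind_mem (show x ∈ A ∩ B from ⟨hxA, hx⟩), ind_mem hxA]
  · rw [ind_notMem (show x ∉ A ∩ B from fun h => hxA h.1), ind_notMem hxA]

end basic

section inv

variable {Γ : Type*} [AddCommGroup Γ]

/-- translate of a real function -/
def trR (γ : Γ) (f : RL Γ) : RL Γ :=
  ⟨fun x => f.1 (x - γ), by
    obtain ⟨C, hC⟩ := f.2
    exact ⟨C, fun x => hC _⟩⟩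

@[simp] lemma trR_apply (γ : Γ) (f : RL Γ) (x : Γ) : (trR γ f).1 x = f.1 (x - γ) := rfl

lemma toC_trR (γ : Γ) (f : RL Γ) : toC (trR γ f) = tr γ (toC f) := rfl

lemma ev_tr {m : Linf Γ → ℂ} (hm : m ∈ InvMeans Γ) (γ : Γ) (f : RL Γ) :
    ev m (trR γ f) = ev m f := by
  rw [ev, toC_trR, hm.2]; rfl

lemma mem_inv_iff {m : Linf Γ → ℂ} (hm : IsMean m) :
    m ∈ InvMeans Γ ↔ ∀ (γ : Γ) (f : RL Γ), ev m (trR γ f) = ev m f := by
  constructor
  · intro h γ f; exact ev_tr h γ f
  · intro h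
    refine ⟨hm, fun γ f => ?_⟩
    rw [eval_eq hm, eval_eq hm f]
    have h1 : reL (tr γ f) = trR γ (reL f) := rfl
    have h2 : imL (tr γ f) = trR γ (imL f) := rfl
    rw [h1, h2, h, h]

end inv

section top

variable {Γ : Type*}

lemma continuous_ev (f : RL Γ) : Continuous (fun m : Linf Γ → ℂ => ev m f) :=
  Complex.continuous_re.comp (continuous_apply _)

/-- The set of all means. -/
def Means (Γ : Type*) : Set (Linf Γ → ℂ) := {m | IsMean m}

lemma norm_le_of_mean {m : Linf Γ → ℂ} (hm : IsMean m) (f : Linf Γ) (C : ℝ)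
    (hC : ∀ x, ‖f.1 x‖ ≤ C) : ‖m f‖ ≤ 2 * C := by
  rw [eval_eq hm]
  have h1 : |ev m (reL f)| ≤ C :=
    abs_ev_le hm fun x => (Complex.abs_re_le_norm _).trans (hC x)
  have h2 : |ev m (imL f)| ≤ C :=
    abs_ev_le hm fun x => (Complex.abs_im_le_norm _).trans (hC x)
  refine (norm_add_le _ _).trans ?_
  rw [norm_mul, Complex.norm_I, one_mul, Complex.norm_real, Complex.norm_real,
    Real.norm_eq_abs, Real.norm_eq_abs]
  linarith

lemma isClosed_means : IsClosed (Means Γ) := by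
  have : Means Γ = {m | ∀ f g : Linf Γ, m (f + g) = m f + m g} ∩
      {m | ∀ (c : ℂ) (f : Linf Γ), m (c • f) = c * m f} ∩
      {m | ∀ f : Linf Γ, (∀ x, ∃ r : ℝ, 0 ≤ r ∧ f.1 x = r) → (0 ≤ (m f).re ∧ (m f).im = 0)} ∩
      {m | m 1 = 1} := by
    ext m
    simp only [Means, mem_setOf_eq, mem_inter_iff]
    constructor
    · intro h
      refine ⟨⟨⟨h.add, h.smul⟩, fun f hf => ?_⟩, h.one⟩
      obtain ⟨r, hr, h'⟩ := h.pos f hf
      rw [h']; simp [hr]
    · rintro ⟨⟨⟨h1, h2⟩, h3⟩, h4⟩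
      refine ⟨h1, h2, fun f hf => ?_, h4⟩
      obtain ⟨ha, hb⟩ := h3 f hf
      exact ⟨(m f).re, ha, Complex.ext (by simp) (by simp [hb])⟩
  rw [this]
  refine ((IsClosed.inter ?_ ?_).inter ?_).inter ?_
  · simp only [setOf_forall]
    exact isClosed_iInter fun f => isClosed_iInter fun g =>
      isClosed_eq (continuous_apply _) ((continuous_apply f).add (continuous_apply g))
  · simp only [setOf_forall]
    exact isClosed_iInter fun c => isClosed_iInter fun f =>
      isClosed_eq (continuous_apply _) (continuous_const.mul (continuous_apply _))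
  · simp only [setOf_forall]
    refine isClosed_iInter fun f => isClosed_iInter fun hf => ?_
    exact (isClosed_le continuous_const (Complex.continuous_re.comp (continuous_apply f))).inter
      (isClosed_eq (Complex.continuous_im.comp (continuous_apply f)) continuous_const)
  · exact isClosed_eq (continuous_apply _) continuous_const

lemma isCompact_means : IsCompact (Means Γ) := by
  have hB : ∀ f : Linf Γ, ∃ C : ℝ, ∀ x, ‖f.1 x‖ ≤ C := fun f => f.2
  choose C hC using hB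
  have h1 : IsCompact (Set.pi univ fun f : Linf Γ => Metric.closedBall (0 : ℂ) (2 * C f)) :=
    isCompact_univ_pi fun f => isCompact_closedBall _ _
  refine h1.of_isClosed_subset isClosed_means ?_
  intro m hm f _
  rw [mem_closedBall_zero_iff]
  exact norm_le_of_mean hm f (C f) (hC f)

variable [AddCommGroup Γ]

lemma isClosed_inv : IsClosed (InvMeans Γ) := by
  have : InvMeans Γ = Means Γ ∩ {m | ∀ (γ : Γ) (f : Linf Γ), m (tr γ f) = m f} := rfl
  rw [this]
  refine isClosed_means.inter ?_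
  simp only [setOf_forall]
  exact isClosed_iInter fun γ => isClosed_iInter fun f =>
    isClosed_eq (continuous_apply _) (continuous_apply _)

lemma isCompact_inv : IsCompact (InvMeans Γ) :=
  isCompact_means.of_isClosed_subset isClosed_inv fun _ h => h.1

end top

end Q69IM
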