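import Pool.Agent.Q69.IMAvg

open Set Filter Topology

namespace Q69IM

/-- index set with the lexicographic order -/
abbrev JJ (I : Type) := Lex (I × I)

/-- the group: direct sum of copies of `ℤ/2` -/
abbrev GG (I : Type) := JJ I →₀ ZMod 2

section setup

variable {I : Type} [LinearOrder I]

/-- `t` is the largest element of the support of `x` -/
def IsTop' (x : GG I) (t : JJ I) : Prop := t ∈ x.support ∧ ∀ j ∈ x.support, j ≤ t

lemma IsTop'.unique {x : GG I} {t t' : JJ I} (h : IsTop' x t) (h' : IsTop' x t') : t = t' :=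
  le_antisymm (h'.2 t h.1) (h.2 t' h'.1)

lemma IsTop'.add {x g : GG I} {t : JJ I} (h : IsTop' x t) (hg : ∀ j ∈ g.support, j < t) :
    IsTop' (x + g) t := by
  have hgt : g t = 0 := by
    by_contra hne
    exact lt_irrefl t (hg t (Finsupp.mem_support_iff.2 hne))
  refine ⟨?_, fun j hj => ?_⟩
  · rw [Finsupp.mem_support_iff, Finsupp.add_apply, hgt, add_zero]
    exact Finsupp.mem_support_iff.1 h.1
  · by_contra hlt
    push Not at hlt
    rw [Finsupp.mem_support_iff, Finsupp.add_apply] at hj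
    have h1 : x j = 0 := by
      by_contra hne
      exact absurd (h.2 j (Finsupp.mem_support_iff.2 hne)) (not_le.2 hlt)
    have h2 : g j = 0 := by
      by_contra hne
      exact absurd (hg j (Finsupp.mem_support_iff.2 hne)) (not_lt.2 hlt.le)
    rw [h1, h2, add_zero] at hj
    exact hj rfl

/-- points whose top lies beyond `j` -/
def Big (j : JJ I) : Set (GG I) := {x | ∃ t, IsTop' x t ∧ j < t}

open Classical in
/-- the second coordinate of the top -/
noncomputable def uu [Nonempty I] (x : GG I) : I :=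
  if h : ∃ t, IsTop' x t then (ofLex h.choose).2 else Classical.arbitrary I

lemma uu_eq [Nonempty I] {x : GG I} {t : JJ I} (h : IsTop' x t) : uu x = (ofLex t).2 := by
  have hex : ∃ t, IsTop' x t := ⟨t, h⟩
  rw [uu, dif_pos hex]
  rw [hex.choose_spec.unique h]

/-- parity above the threshold `β` -/
noncomputable def par (β : I) : GG I →+ ZMod 2 :=
  Finsupp.liftAddHom fun j => if β ≤ (ofLex j).1 then AddMonoidHom.id _ else 0

lemma par_single (β : I) (j : JJ I) : par β (Finsupp.single j 1) = if β ≤ (ofLex j).1 then 1 else 0 := by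
  rw [par, Finsupp.liftAddHom_apply_single]
  split_ifs <;> simp

lemma par_eq_zero (β : I) (g : GG I) (h : ∀ j ∈ g.support, (ofLex j).1 < β) : par β g = 0 := by
  rw [par, Finsupp.liftAddHom_apply, Finsupp.sum]
  apply Finset.sum_eq_zero
  intro j hj
  rw [if_neg (not_le.2 (h j hj))]; rfl

/-- sign of an element of `ℤ/2` -/
noncomputable def sg (a : ZMod 2) : ℝ := if a = 0 then 1 else -1

lemma sg_add (a b : ZMod 2) : sg (a + b) = sg a * sg b := by
  have h : ∀ a b : ZMod 2, (a + b = 0 ↔ (a = 0 ↔ b = 0)) := by decide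
  unfold sg
  by_cases ha : a = 0 <;> by_cases hb : b = 0 <;> simp [h, ha, hb]

lemma sg_zero : sg 0 = 1 := by simp [sg]
lemma sg_one : sg 1 = -1 := by simp [sg]
lemma sg_cases (a : ZMod 2) : sg a = 1 ∨ sg a = -1 := by
  unfold sg; split_ifs <;> simp

/-- the sign function -/
noncomputable def ss [Nonempty I] : RL (GG I) :=
  ⟨fun x => sg (par (uu x) x), 1, fun x => by
    change |sg (par (uu x) x)| ≤ 1
    rcases sg_cases (par (uu x) x) with h | h <;> rw [h] <;> simp⟩

lemma ss_apply [Nonempty I] (x : GG I) : (ss : RL (GG I)).1 x = sg (par (uu x) x) := rfl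

lemma ss_shift [Nonempty I] {x g : GG I} {t : JJ I} (h : IsTop' x t)
    (hg : ∀ j ∈ g.support, j < t) :
    (ss : RL (GG I)).1 (x + g) = (ss : RL (GG I)).1 x * sg (par (uu x) g) := by
  rw [ss_apply, ss_apply, uu_eq (h.add hg), uu_eq h, map_add, sg_add]

/-- finite subgroup -/
noncomputable def SS (Ψ : Finset (JJ I)) : Finset (GG I) :=
  Ψ.finsupp fun _ => Finset.univ

lemma mem_SS {Ψ : Finset (JJ I)} {g : GG I} : g ∈ SS Ψ ↔ g.support ⊆ Ψ := by
  rw [SS, Finset.mem_finsupp_iff]; simp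

lemma SS_nonempty (Ψ : Finset (JJ I)) : (SS Ψ).Nonempty := ⟨0, by rw [mem_SS]; simp⟩

lemma SS_add {Ψ : Finset (JJ I)} {g h : GG I} (hg : g ∈ SS Ψ) (hh : h ∈ SS Ψ) : g + h ∈ SS Ψ := by
  classical
  rw [mem_SS] at *
  exact Finsupp.support_add.trans (Finset.union_subset hg hh)

lemma SS_sub {Ψ : Finset (JJ I)} {g h : GG I} (hg : g ∈ SS Ψ) (hh : h ∈ SS Ψ) : g - h ∈ SS Ψ := by
  classical
  rw [mem_SS] at *
  exact Finsupp.support_sub.trans (Finset.union_subset hg hh)

variable [Nonempty I]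

/-- The closed faces. -/
def FF (δ : I) : Set (Linf (GG I) → ℂ) :=
  {m | m ∈ InvMeans (GG I) ∧ (∀ j : JJ I, ev m (ind (Big j)) = 1) ∧
    (∀ β < δ, ev m (ind {x | β < uu x}) = 1) ∧ ev m (ind {x | uu x ≤ δ}) = 1}

/-- tails -/
def TT (β : I) : Set (Linf (GG I) → ℂ) := {m | ev m (ind {x | β < uu x}) = 1}

/-- closed set of all invariant means concentrated at infinity -/
def K0 : Set (Linf (GG I) → ℂ) :=
  {m | m ∈ InvMeans (GG I) ∧ (∀ j : JJ I, ev m (ind (Big j)) = 1)}

lemma isClosed_K0 : IsClosed (K0 : Set (Linf (GG I) → ℂ)) := by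
  have : (K0 : Set (Linf (GG I) → ℂ)) = InvMeans (GG I) ∩ ⋂ j : JJ I, {m | ev m (ind (Big j)) = 1} := by
    ext m; simp [K0]
  rw [this]
  exact isClosed_inv.inter (isClosed_iInter fun j => isClosed_eq (continuous_ev _) continuous_const)

lemma isCompact_K0 : IsCompact (K0 : Set (Linf (GG I) → ℂ)) :=
  isCompact_inv.of_isClosed_subset isClosed_K0 fun _ h => h.1

lemma isClosed_TT (β : I) : IsClosed (TT β) :=
  isClosed_eq (continuous_ev _) continuous_const

lemma FF_eq (δ : I) : FF δ = K0 ∩ ((⋂ β : Iio δ, TT β.1) ∩ {m | ev m (ind {x | uu x ≤ δ}) = 1}) := by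
  ext m
  simp only [FF, K0, TT, mem_setOf_eq, mem_inter_iff, mem_iInter, Subtype.forall, mem_Iio]
  tauto

lemma isClosed_FF (δ : I) : IsClosed (FF δ) := by
  rw [FF_eq]
  exact isClosed_K0.inter ((isClosed_iInter fun β => isClosed_TT _).inter
    (isClosed_eq (continuous_ev _) continuous_const))

lemma isCompact_FF (δ : I) : IsCompact (FF δ) :=
  isCompact_inv.of_isClosed_subset (isClosed_FF δ) fun _ h => h.1

lemma ev_seg {Γ : Type*} {x y z : Linf Γ → ℂ} (hz : z ∈ openSegment ℝ x y) :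
    ∃ a b : ℝ, 0 < a ∧ 0 < b ∧ a + b = 1 ∧ ∀ f, ev z f = a * ev x f + b * ev y f := by
  obtain ⟨a, b, ha, hb, hab, rfl⟩ := hz
  refine ⟨a, b, ha, hb, hab, fun f => ?_⟩
  simp [ev]

/-- maximisers form an extreme subset -/
lemma isExtreme_max {Γ : Type*} (A : Set (Linf Γ → ℂ)) (f : RL Γ) (r : ℝ)
    (h : ∀ z ∈ A, ev z f ≤ r) : IsExtreme ℝ A {z ∈ A | ev z f = r} := by
  refine ⟨fun z hz => hz.1, ?_⟩
  intro x hx y hy z hz hzxy
  obtain ⟨a, b, ha, hb, hab, he⟩ := ev_seg hzxy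
  refine ⟨hx, le_antisymm (h x hx) ?_⟩
  have h1 := he f
  rw [hz.2] at h1
  have h2 := h y hy
  have h3 := h x hx
  have : a * r + b * r = r := by rw [← add_mul, hab, one_mul]
  by_contra hlt
  push Not at hlt
  nlinarith [mul_lt_mul_of_pos_left hlt ha, mul_le_mul_of_nonneg_left h2 hb.le]

lemma isExtreme_full {Γ : Type*} [AddCommGroup Γ] (B : Set Γ) :
    IsExtreme ℝ (InvMeans Γ) {m ∈ InvMeans Γ | ev m (ind B) = 1} :=
  isExtreme_max _ _ _ fun _ hz => ev_ind_le hz.1 _

lemma isExtreme_FF (δ : I) : IsExtreme ℝ (InvMeans (GG I)) (FF δ) := by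
  have h1 : FF δ = {m ∈ InvMeans (GG I) | ev m (ind {x | uu x ≤ δ}) = 1} ∩
      (⋂ j : JJ I, {m ∈ InvMeans (GG I) | ev m (ind (Big j)) = 1}) ∩
      (⋂ β : I, {m ∈ InvMeans (GG I) | β < δ → ev m (ind {x | β < uu x}) = 1}) := by
    ext m
    simp only [FF, mem_setOf_eq, mem_inter_iff, mem_iInter]
    constructor
    · rintro ⟨h1, h2, h3, h4⟩
      exact ⟨⟨⟨h1, h4⟩, fun j => ⟨h1, h2 j⟩⟩, fun β => ⟨h1, h3 β⟩⟩
    · rintro ⟨⟨⟨h1, h4⟩, h2⟩, h3⟩
      exact ⟨h1, fun j => (h2 j).2, fun β => (h3 β).2, h4⟩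
  have hJ : Nonempty (JJ I) := ⟨toLex (Classical.arbitrary I, Classical.arbitrary I)⟩
  rw [h1]
  refine ((isExtreme_full _).inter (isExtreme_iInter fun j => isExtreme_full _)).inter
    (isExtreme_iInter fun β => ?_)
  by_cases hβ : β < δ
  · have : {m ∈ InvMeans (GG I) | β < δ → ev m (ind {x | β < uu x}) = 1} =
        {m ∈ InvMeans (GG I) | ev m (ind {x | β < uu x}) = 1} := by
      ext m; simp [hβ]
    rw [this]; exact isExtreme_full _
  · have : {m ∈ InvMeans (GG I) | β < δ → ev m (ind {x | β < uu x}) = 1} = InvMeans (GG I) := by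
      ext m; simp [hβ]
    rw [this]

end setup

end Q69IM
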