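import Pool.Agent.Q69.IMMeas

open Set Filter Topology MeasureTheory

namespace Q69IM

/-- extension of a measure to the σ-algebra generated by a set of full outer measure -/
lemma ext_measure {X : Type*} (m m0 m1 : MeasurableSpace X) (hm : m ≤ m0) (μ : @Measure X m0)
    (D : Set X) (hm1 : m1 = m ⊔ MeasurableSpace.generateFrom {D})
    (hμ : @IsProbabilityMeasure X m0 μ)
    (hD : ∀ B, MeasurableSet[m] B → B ∩ D = ∅ → μ B = 0) :
    ∃ σ : @Measure X m1,
      (∀ B, MeasurableSet[m] B → σ B = μ B) ∧ σ Dᶜ = 0 ∧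
      ∀ φ : X → ℝ, StronglyMeasurable[m] φ →
        @integral X ℝ _ _ m1 σ φ = @integral X ℝ _ _ m0 μ φ := by
  set ν : @Measure X m := @Measure.trim X m m0 μ hm with hν
  set O : OuterMeasure X := OuterMeasure.restrict D (@Measure.toOuterMeasure X m ν) with hO
  have hOa : ∀ t, O t = ν (t ∩ D) := fun t => by rw [hO, OuterMeasure.restrict_apply]; rfl
  have hmm1 : m ≤ m1 := by rw [hm1]; exact le_sup_left
  have hDm1 : MeasurableSet[m1] D := by
    rw [hm1]
    exact (le_sup_right : MeasurableSpace.generateFrom {D} ≤ m ⊔ MeasurableSpace.generateFrom {D}) D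
        (MeasurableSpace.measurableSet_generateFrom rfl)
  have hle : m1 ≤ O.caratheodory := by
    rw [hm1]
    refine sup_le ?_ ?_
    · intro B hB
      rw [OuterMeasure.isCaratheodory_iff]
      intro t
      rw [hOa, hOa, hOa]
      have h1 := @measure_inter_add_diff X m ν B (t ∩ D) hB
      rw [← h1]
      congr 2
      · ext x; simp only [mem_inter_iff]; tauto
      · ext x; simp only [mem_inter_iff, mem_diff]; tauto
    · apply MeasurableSpace.generateFrom_le
      intro B hB
      rw [mem_singleton_iff] at hB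
      subst hB
      rw [OuterMeasure.isCaratheodory_iff]
      intro t
      rw [hOa, hOa, hOa]
      have h1 : t ∩ B ∩ B = t ∩ B := by rw [inter_assoc, inter_self]
      have h2 : (t \ B) ∩ B = ∅ := by ext x; simp
      rw [h1, h2, @measure_empty X _ _ _ ν, add_zero]
  set σ : @Measure X m1 := @OuterMeasure.toMeasure X m1 O hle with hσ
  have hsame : ∀ B, MeasurableSet[m] B → σ B = μ B := by
    intro B hB
    have h0 : σ B = O B := @toMeasure_apply X m1 O hle B (hmm1 B hB)
    rw [h0, hOa]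
    have hνB : ν B = μ B := @trim_measurableSet_eq X m m0 μ B hm hB
    rw [← hνB]
    refine le_antisymm (measure_mono inter_subset_left) ?_
    set T := @toMeasurable X m ν (B ∩ D) with hT
    have hTm : MeasurableSet[m] T := @measurableSet_toMeasurable X m ν _
    have hTe : ν T = ν (B ∩ D) := @measure_toMeasurable X m ν _
    have hTs : B ∩ D ⊆ T := @subset_toMeasurable X m ν _
    have h1 : ν (B \ T) = 0 := by
      have h2 : MeasurableSet[m] (B \ T) := @MeasurableSet.diff X m B T hB hTm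
      have h3 : ν (B \ T) = μ (B \ T) := @trim_measurableSet_eq X m m0 μ _ hm h2
      rw [h3]
      apply hD _ h2
      rw [eq_empty_iff_forall_notMem]
      rintro x ⟨⟨hx1, hx2⟩, hx3⟩
      exact hx2 (hTs ⟨hx1, hx3⟩)
    calc ν B ≤ ν (T ∪ (B \ T)) := measure_mono (fun x hx => by
          by_cases h : x ∈ T
          · exact Or.inl h
          · exact Or.inr ⟨hx, h⟩)
      _ ≤ ν T + ν (B \ T) := measure_union_le _ _
      _ = ν (B ∩ D) := by rw [h1, hTe, add_zero]
  refine ⟨σ, hsame, ?_, ?_⟩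
  · have h0 : σ Dᶜ = O Dᶜ := @toMeasure_apply X m1 O hle Dᶜ (@MeasurableSet.compl X D m1 hDm1)
    rw [h0, hOa, compl_inter_self, @measure_empty X _ _ _ ν]
  · intro φ hφ
    have htrim : @Measure.trim X m m1 σ hmm1 = ν := by
      refine @Measure.ext X m _ _ fun B hB => ?_
      rw [@trim_measurableSet_eq X m m1 σ B hmm1 hB, hsame B hB,
        @trim_measurableSet_eq X m m0 μ B hm hB]
    rw [@integral_trim ℝ _ _ X m m1 σ hmm1 φ hφ, htrim, @integral_trim ℝ _ _ X m m0 μ hm φ hφ]

section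

variable (Γ : Type*) [AddCommGroup Γ]

/-- The compact convex set of invariant means as a topological space (weak-* topology). -/
def MInv : Type _ := ↥(InvMeans Γ)

instance : TopologicalSpace (MInv Γ) := inferInstanceAs (TopologicalSpace ↥(InvMeans Γ))
instance : T2Space (MInv Γ) := inferInstanceAs (T2Space ↥(InvMeans Γ))
instance : CompactSpace (MInv Γ) := isCompact_iff_compactSpace.1 isCompact_inv

/-- The set of extreme invariant means. -/
def extM : Set (MInv Γ) := {ν | ν.1 ∈ (InvMeans Γ).extremePoints ℝ}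

/-- Zero sets of continuous real functions; they generate the Baire sets. -/
def zeroSets : Set (Set (MInv Γ)) := {s | ∃ h : C(MInv Γ, ℝ), s = h ⁻¹' {0}}

/-- The σ-algebra (= σ-ring, since it contains the whole space) generated by the set of extreme
invariant means and the Baire sets. -/
instance : MeasurableSpace (MInv Γ) :=
  MeasurableSpace.generateFrom ({extM Γ} ∪ zeroSets Γ)

variable {Γ}

/-- the Baire σ-algebra -/
def baire (Γ : Type*) [AddCommGroup Γ] : MeasurableSpace (MInv Γ) :=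
  MeasurableSpace.generateFrom (zeroSets Γ)

lemma inst_eq : (inferInstance : MeasurableSpace (MInv Γ)) =
    baire Γ ⊔ MeasurableSpace.generateFrom {extM Γ} := by
  rw [baire, MeasurableSpace.generateFrom_sup_generateFrom, union_comm]
  rfl

lemma baire_le_borel : baire Γ ≤ borel (MInv Γ) := by
  apply MeasurableSpace.generateFrom_le
  rintro s ⟨h, rfl⟩
  have h1 : IsClosed (h ⁻¹' {0}) := isClosed_singleton.preimage h.continuous
  have h2 : MeasurableSet[borel (MInv Γ)] (h ⁻¹' {0})ᶜ :=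
    MeasurableSpace.measurableSet_generateFrom h1.isOpen_compl
  exact (@MeasurableSet.compl_iff _ _ (borel (MInv Γ))).1 h2

lemma baire_cont (h : C(MInv Γ, ℝ)) : Measurable[baire Γ] h := by
  letI : MeasurableSpace (MInv Γ) := baire Γ
  refine measurable_of_isClosed fun s hs => ?_
  rcases s.eq_empty_or_nonempty with h0 | h0
  · rw [h0, preimage_empty]; exact MeasurableSet.empty
  · apply MeasurableSpace.measurableSet_generateFrom
    refine ⟨⟨fun ν => Metric.infDist (h ν) s, (Metric.continuous_infDist_pt s).comp h.continuous⟩, ?_⟩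
    ext ν
    rw [mem_preimage, mem_preimage, mem_singleton_iff, hs.mem_iff_infDist_zero h0]
    rfl

/-- evaluation -/
def evk (f : RL Γ) : C(MInv Γ, ℝ) :=
  ⟨fun ν => ev ν.1 f, (continuous_ev f).comp continuous_subtype_val⟩

/-- determined by countably many bounded functions -/
lemma sat_cont (h : C(MInv Γ, ℝ)) : ∃ F : Set (RL Γ), F.Countable ∧
    ∀ ν ν' : MInv Γ, (∀ f ∈ F, ev ν.1 f = ev ν'.1 f) → h ν = h ν' := by
  let A : Subalgebra ℝ C(MInv Γ, ℝ) :=
  { carrier := {h | ∃ F : Set (RL Γ), F.Countable ∧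
      ∀ ν ν' : MInv Γ, (∀ f ∈ F, ev ν.1 f = ev ν'.1 f) → h ν = h ν'}
    mul_mem' := by
      rintro g h ⟨F, hF, h1⟩ ⟨G, hG, h2⟩
      refine ⟨F ∪ G, hF.union hG, fun ν ν' hν => ?_⟩
      rw [ContinuousMap.mul_apply, ContinuousMap.mul_apply,
        h1 ν ν' fun f hf => hν f (Or.inl hf), h2 ν ν' fun f hf => hν f (Or.inr hf)]
    add_mem' := by
      rintro g h ⟨F, hF, h1⟩ ⟨G, hG, h2⟩
      refine ⟨F ∪ G, hF.union hG, fun ν ν' hν => ?_⟩
      rw [ContinuousMap.add_apply, ContinuousMap.add_apply,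
        h1 ν ν' fun f hf => hν f (Or.inl hf), h2 ν ν' fun f hf => hν f (Or.inr hf)]
    algebraMap_mem' := fun c => ⟨∅, countable_empty, fun ν ν' _ => rfl⟩ }
  have hsep : A.SeparatesPoints := by
    intro ν ν' hne
    have h1 : ∃ f : RL Γ, ev ν.1 f ≠ ev ν'.1 f := by
      by_contra hcon
      push Not at hcon
      exact hne (Subtype.ext (mean_ext ν.2.1 ν'.2.1 hcon))
    obtain ⟨f, hf⟩ := h1
    refine ⟨evk f, ⟨evk f, ⟨{f}, countable_singleton f, fun a b hab => ?_⟩, rfl⟩, hf⟩
    exact hab f rfl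
  have htop := ContinuousMap.subalgebra_topologicalClosure_eq_top_of_separatesPoints A hsep
  have hmem : h ∈ A.topologicalClosure := by rw [htop]; trivial
  have hcl : h ∈ closure (A : Set C(MInv Γ, ℝ)) := hmem
  rw [Metric.mem_closure_iff] at hcl
  have h2 : ∀ n : ℕ, ∃ g ∈ A, dist h g < 1 / ((n : ℝ) + 1) := fun n => hcl _ (by positivity)
  choose g hg hd using h2
  have hg' : ∀ n, ∃ F : Set (RL Γ), F.Countable ∧
      ∀ ν ν' : MInv Γ, (∀ f ∈ F, ev ν.1 f = ev ν'.1 f) → g n ν = g n ν' := hg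
  choose F hF hFg using hg'
  refine ⟨⋃ n, F n, countable_iUnion hF, fun ν ν' hν => ?_⟩
  have hb : ∀ n : ℕ, |h ν - h ν'| ≤ 2 * (1 / ((n : ℝ) + 1)) := by
    intro n
    have e1 := hFg n ν ν' fun f hf => hν f (mem_iUnion.2 ⟨n, hf⟩)
    have e2 : dist (h ν) (g n ν) ≤ dist h (g n) := ContinuousMap.dist_apply_le_dist ν
    have e3 : dist (h ν') (g n ν') ≤ dist h (g n) := ContinuousMap.dist_apply_le_dist ν'
    rw [Real.dist_eq] at e2 e3
    have e4 := hd n
    rw [e1] at e2
    have := abs_sub_abs_le_abs_sub (h ν) (h ν')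
    calc |h ν - h ν'| = |(h ν - g n ν') - (h ν' - g n ν')| := by ring_nf
      _ ≤ |h ν - g n ν'| + |h ν' - g n ν'| := abs_sub _ _
      _ ≤ 2 * (1 / ((n : ℝ) + 1)) := by linarith
  have hlim : Tendsto (fun n : ℕ => 2 * (1 / ((n : ℝ) + 1))) atTop (𝓝 (2 * 0)) :=
    tendsto_one_div_add_atTop_nhds_zero_nat.const_mul _
  rw [mul_zero] at hlim
  have h0 := ge_of_tendsto' hlim hb
  have : h ν - h ν' = 0 := by rw [← abs_nonpos_iff]; exact h0
  linarith

lemma sat_baire {B : Set (MInv Γ)} (hB : MeasurableSet[baire Γ] B) : ∃ F : Set (RL Γ), F.Countable ∧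
    ∀ ν ν' : MInv Γ, (∀ f ∈ F, ev ν.1 f = ev ν'.1 f) → (ν ∈ B ↔ ν' ∈ B) := by
  induction hB with
  | basic s hs =>
    obtain ⟨h, rfl⟩ := hs
    obtain ⟨F, hF, h1⟩ := sat_cont h
    refine ⟨F, hF, fun ν ν' hν => ?_⟩
    rw [mem_preimage, mem_preimage, h1 ν ν' hν]
  | empty => exact ⟨∅, countable_empty, fun ν ν' _ => Iff.rfl⟩
  | compl s _ ih =>
    obtain ⟨F, hF, h1⟩ := ih
    exact ⟨F, hF, fun ν ν' hν => not_congr (h1 ν ν' hν)⟩
  | iUnion s _ ih =>
    choose F hF h1 using ih
    refine ⟨⋃ n, F n, countable_iUnion hF, fun ν ν' hν => ?_⟩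
    rw [mem_iUnion, mem_iUnion]
    exact exists_congr fun n => h1 n ν ν' fun f hf => hν f (mem_iUnion.2 ⟨n, hf⟩)

end

end Q69IM
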