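import Pool.Agent.Q69.IMClub

open Set Filter Topology

namespace Q69IM

variable {I : Type} [LinearOrder I] [Nonempty I]

lemma exists_gt_all (hI : ∀ f : ℕ → I, ∃ b, ∀ n, f n < b) (s : Finset I) : ∃ b, ∀ a ∈ s, a < b := by
  obtain ⟨M, hM⟩ := s.exists_le
  obtain ⟨b, hb⟩ := hI fun _ => M
  exact ⟨b, fun a ha => (hM a ha).trans_lt (hb 0)⟩

/-- approximating sets -/
def CC (δ : I) (Ψ : Finset (JJ I)) : Set (Linf (GG I) → ℂ) :=
  {m | IsMean m ∧ (∀ γ ∈ SS Ψ, ∀ f : RL (GG I), ev m (trR γ f) = ev m f) ∧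
    (∀ j ∈ Ψ, ev m (ind (Big j)) = 1) ∧ ev m (ind {x | uu x = δ}) = 1}

lemma isClosed_CC (δ : I) (Ψ : Finset (JJ I)) : IsClosed (CC δ Ψ) := by
  have : CC δ Ψ = Means (GG I) ∩
      ((⋂ γ : SS Ψ, ⋂ f : RL (GG I), {m | ev m (trR γ.1 f) = ev m f}) ∩
      ((⋂ j : Ψ, {m | ev m (ind (Big j.1)) = 1}) ∩ {m | ev m (ind {x | uu x = δ}) = 1})) := by
    ext m
    simp only [CC, Means, mem_setOf_eq, mem_inter_iff, mem_iInter, Subtype.forall]
  rw [this]
  refine isClosed_means.inter ((isClosed_iInter fun γ => isClosed_iInter fun f =>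
    isClosed_eq (continuous_ev _) (continuous_ev _)).inter ((isClosed_iInter fun j =>
    isClosed_eq (continuous_ev _) continuous_const).inter
    (isClosed_eq (continuous_ev _) continuous_const)))

lemma ev_avgM_full {Γ : Type*} [AddCommGroup Γ] (S : Finset Γ) (hS : S.Nonempty) (x : Γ)
    (B : Set Γ) (h : ∀ γ ∈ S, x + γ ∈ B) : ev (avgM S x) (ind B) = 1 := by
  have hc : (S.card : ℝ) ≠ 0 := by exact_mod_cast hS.card_pos.ne'
  rw [ev_avgM, avgF_apply, Finset.sum_congr rfl fun γ hγ => ind_mem (h γ hγ)]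
  rw [Finset.sum_const, nsmul_eq_mul, mul_one, div_self hc]

lemma nonempty_CC (hI : ∀ f : ℕ → I, ∃ b, ∀ n, f n < b) (δ : I) (Ψ : Finset (JJ I)) :
    (CC δ Ψ).Nonempty := by
  classical
  obtain ⟨β, hβ⟩ := exists_gt_all hI (Ψ.image fun j => (ofLex j).1)
  set t : JJ I := toLex (β, δ) with ht
  have hlt : ∀ j ∈ Ψ, j < t := by
    intro j hj
    rw [ht, Prod.Lex.lt_iff]
    left
    exact hβ _ (Finset.mem_image_of_mem _ hj)
  have htop : IsTop' (Finsupp.single t 1) t := by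
    refine ⟨?_, fun j hj => ?_⟩
    · rw [Finsupp.mem_support_iff, Finsupp.single_eq_same]; exact one_ne_zero
    · have := Finsupp.support_single_subset hj
      rw [Finset.mem_singleton] at this
      exact this.le
  have htop2 : ∀ γ ∈ SS Ψ, IsTop' (Finsupp.single t 1 + γ) t := by
    intro γ hγ
    exact htop.add fun j hj => hlt j (mem_SS.1 hγ hj)
  refine ⟨avgM (SS Ψ) (Finsupp.single t 1), isMean_avgM _ (SS_nonempty Ψ) _, ?_, ?_, ?_⟩
  · intro γ hγ f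
    rw [ev_avgM, ev_avgM, avgF_tr _ _ _ (fun a ha => SS_sub ha hγ) (fun a ha => SS_add ha hγ)]
  · intro j hj
    exact ev_avgM_full _ (SS_nonempty Ψ) _ _ fun γ hγ => ⟨t, htop2 γ hγ, hlt j hj⟩
  · exact ev_avgM_full _ (SS_nonempty Ψ) _ _ fun γ hγ => uu_eq (htop2 γ hγ)

lemma nonempty_FF (hI : ∀ f : ℕ → I, ∃ b, ∀ n, f n < b) (δ : I) : (FF δ).Nonempty := by
  classical
  have h1 := IsCompact.nonempty_iInter_of_directed_nonempty_isCompact_isClosed
    (fun Ψ : Finset (JJ I) => CC δ Ψ) ?_ (nonempty_CC hI δ)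
    (fun Ψ => isCompact_means.of_isClosed_subset (isClosed_CC δ Ψ) fun _ h => h.1)
    (isClosed_CC δ)
  · obtain ⟨m, hm⟩ := h1
    rw [mem_iInter] at hm
    have hmean : IsMean m := (hm ∅).1
    refine ⟨m, ?_, ?_, ?_, ?_⟩
    · rw [mem_inv_iff hmean]
      intro γ f
      exact (hm γ.support).2.1 γ (mem_SS.2 subset_rfl) f
    · intro j
      exact (hm {j}).2.2.1 j (Finset.mem_singleton_self j)
    · intro β hβ
      apply ev_full_mono hmean (hm ∅).2.2.2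
      intro x hx
      rw [mem_setOf_eq] at hx ⊢
      rwa [hx]
    · apply ev_full_mono hmean (hm ∅).2.2.2
      intro x hx
      rw [mem_setOf_eq] at hx ⊢
      rw [hx]
  · intro Ψ Ψ'
    refine ⟨Ψ ∪ Ψ', ?_, ?_⟩
    · rintro m ⟨h1, h2, h3, h4⟩
      exact ⟨h1, fun γ hγ => h2 γ (mem_SS.2 ((mem_SS.1 hγ).trans Finset.subset_union_left)),
        fun j hj => h3 j (Finset.mem_union_left _ hj), h4⟩
    · rintro m ⟨h1, h2, h3, h4⟩
      exact ⟨h1, fun γ hγ => h2 γ (mem_SS.2 ((mem_SS.1 hγ).trans Finset.subset_union_right)),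
        fun j hj => h3 j (Finset.mem_union_right _ hj), h4⟩

/-- unbounded sets -/
def Unb (Z : Set (Linf (GG I) → ℂ)) : Prop := ∀ b : I, ∃ δ, b < δ ∧ (Z ∩ FF δ).Nonempty

lemma Unb.mono {Z Z' : Set (Linf (GG I) → ℂ)} (h : Unb Z) (hZ : Z ⊆ Z') : Unb Z' := by
  intro b
  obtain ⟨δ, hδ, z, hz⟩ := h b
  exact ⟨δ, hδ, z, hZ hz.1, hz.2⟩

lemma unb_iInter [WellFoundedLT I] (hI : ∀ f : ℕ → I, ∃ b, ∀ n, f n < b)
    (Z : ℕ → Set (Linf (GG I) → ℂ)) (hcl : ∀ n, IsClosed (Z n)) (hanti : Antitone Z)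
    (hunb : ∀ n, Unb (Z n)) : Unb (⋂ n, Z n) := by
  intro b
  have hunb' : ∀ (n : ℕ) (c : I), ∃ δ, c < δ ∧ ∃ z, z ∈ Z n ∩ FF δ := hunb
  choose D hD zz hzz using hunb'
  let d : ℕ → I := fun n => Nat.rec (D 0 b) (fun n c => D (n + 1) c) n
  have hd0 : d 0 = D 0 b := rfl
  have hds : ∀ n, d (n + 1) = D (n + 1) (d n) := fun _ => rfl
  have hmono : StrictMono d := strictMono_nat_of_lt_succ fun n => by rw [hds]; exact hD _ _
  let z : ℕ → Linf (GG I) → ℂ := fun n => Nat.casesOn n (zz 0 b) (fun n => zz (n + 1) (d n))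
  have hz : ∀ n, z n ∈ Z n ∩ FF (d n) := by
    intro n
    cases n with
    | zero => exact hzz 0 b
    | succ n => exact hzz (n + 1) (d n)
  have hU : ({c | ∀ n, d n ≤ c} : Set I).Nonempty := by
    obtain ⟨c, hc⟩ := hI d
    exact ⟨c, fun n => (hc n).le⟩
  set δ := WellFounded.min (wellFounded_lt : WellFounded ((· < ·) : I → I → Prop)) _ hU with hδdef
  have hδ1 : ∀ n, d n ≤ δ := WellFounded.min_mem _ _ hU
  have hδ2 : ∀ c < δ, ∃ n, c < d n := by
    intro c hc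
    by_contra hne
    push Not at hne
    have hmem : c ∈ ({c | ∀ n, d n ≤ c} : Set I) := hne
    exact absurd hc (WellFounded.not_lt_min wellFounded_lt _ hmem)
  have hK : ∀ n, z n ∈ (K0 : Set (Linf (GG I) → ℂ)) := fun n => ⟨(hz n).2.1, (hz n).2.2.1⟩
  obtain ⟨y, hy, hlim⟩ := isCompact_K0.ultrafilter_le_nhds ((hyperfilter ℕ).map z)
    (by
      rw [le_principal_iff]
      change z ⁻¹' K0 ∈ (hyperfilter ℕ : Filter ℕ)
      exact Filter.univ_mem' hK)
  have htend : Tendsto z (hyperfilter ℕ) (𝓝 y) := hlim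
  have hev : ∀ N : ℕ, ∀ᶠ n in (hyperfilter ℕ : Filter ℕ), N ≤ n := fun N =>
    (eventually_ge_atTop N).filter_mono Nat.hyperfilter_le_atTop
  refine ⟨δ, ?_, y, ?_, hy.1, hy.2, ?_, ?_⟩
  · exact (hD 0 b).trans_le (hδ1 0)
  · rw [mem_iInter]
    intro N
    exact (hcl N).mem_of_tendsto htend ((hev N).mono fun n hn => hanti hn (hz n).1)
  · intro β hβ
    obtain ⟨N, hN⟩ := hδ2 β hβ
    exact (isClosed_TT β).mem_of_tendsto htend
      ((hev N).mono fun n hn => (hz n).2.2.2.1 β (hN.trans_le (hmono.monotone hn)))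
  · have hc : IsClosed {m : Linf (GG I) → ℂ | ev m (ind {x | uu x ≤ δ}) = 1} :=
      isClosed_eq (continuous_ev _) continuous_const
    refine hc.mem_of_tendsto htend (Eventually.of_forall fun n => ?_)
    exact ev_full_mono (hz n).2.1.1 (hz n).2.2.2.2 fun x (hx : uu x ≤ d n) => hx.trans (hδ1 n)

/-- good closed sets -/
def Good (Z : Set (Linf (GG I) → ℂ)) : Prop :=
  IsClosed Z ∧ ∀ δ, IsExtreme ℝ (FF δ) (Z ∩ FF δ)

/-- admissible families -/
def Adm (F : Set (Set (Linf (GG I) → ℂ))) : Prop :=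
  (∀ Z ∈ F, Good Z) ∧ ∀ G ⊆ F, G.Finite → Unb (⋂₀ G)

lemma exists_maximal (hI : ∀ f : ℕ → I, ∃ b, ∀ n, f n < b) :
    ∃ F : Set (Set (Linf (GG I) → ℂ)), Maximal (· ∈ {F | Adm F}) F := by
  apply zorn_subset
  intro c hc hchain
  rcases c.eq_empty_or_nonempty with h0 | h0
  · refine ⟨∅, ⟨by simp, fun G hG _ => ?_⟩, by simp [h0]⟩
    rw [subset_empty_iff] at hG
    subst hG
    intro b
    obtain ⟨δ, hδ⟩ := hI fun _ => b
    obtain ⟨m, hm⟩ := nonempty_FF hI δ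
    exact ⟨δ, hδ 0, m, by simp, hm⟩
  · refine ⟨⋃₀ c, ⟨?_, ?_⟩, fun s hs => subset_sUnion_of_mem hs⟩
    · rintro Z ⟨F, hF, hZ⟩
      exact (hc hF).1 Z hZ
    · intro G hG hfin
      obtain ⟨F, hF, hGF⟩ := hchain.directedOn.exists_mem_subset_of_finite_of_subset_sUnion h0
        hfin hG
      exact (hc hF).2 G hGF hfin

lemma unb_countable [WellFoundedLT I] (hI : ∀ f : ℕ → I, ∃ b, ∀ n, f n < b)
    {F : Set (Set (Linf (GG I) → ℂ))} (hF : Adm F) {G : Set (Set (Linf (GG I) → ℂ))}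
    (hG : G ⊆ F) (hc : G.Countable) : Unb (⋂₀ G) := by
  rcases G.eq_empty_or_nonempty with h0 | h0
  · exact hF.2 G hG (by rw [h0]; exact finite_empty)
  · obtain ⟨e, rfl⟩ := hc.exists_eq_range h0
    have h1 := unb_iInter hI (fun n => ⋂₀ (e '' Iic n)) ?_ ?_ ?_
    · refine h1.mono ?_
      intro x hx
      rw [mem_iInter] at hx
      rintro _ ⟨n, rfl⟩
      exact hx n _ ⟨n, le_refl n, rfl⟩
    · intro n
      apply isClosed_sInter
      rintro _ ⟨i, _, rfl⟩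
      exact (hF.1 _ (hG ⟨i, rfl⟩)).1
    · intro a b hab
      exact sInter_subset_sInter (image_mono (Iic_subset_Iic.2 hab))
    · intro n
      exact hF.2 _ ((image_subset_range _ _).trans hG) ((finite_Iic n).image e)

lemma maximal_mem {F : Set (Set (Linf (GG I) → ℂ))} (hF : Maximal (· ∈ {F | Adm F}) F)
    {W : Set (Linf (GG I) → ℂ)} (hW : Good W)
    (h : ∀ G ⊆ F, G.Finite → Unb (⋂₀ G ∩ W)) : W ∈ F := by
  have h1 : insert W F ∈ {F | Adm F} := by
    refine ⟨?_, ?_⟩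
    · rintro Z (rfl | hZ)
      · exact hW
      · exact hF.1.1 Z hZ
    · intro G hG hfin
      have h2 := h (G \ {W}) (fun Z hZ => (hG hZ.1).resolve_left hZ.2) (hfin.subset diff_subset)
      refine h2.mono ?_
      rintro x ⟨hx, hxW⟩ Z hZ
      by_cases hZW : Z = W
      · rw [hZW]; exact hxW
      · exact hx Z ⟨hZ, hZW⟩
  exact hF.2 h1 (subset_insert W F) (mem_insert W F)

lemma extreme_empty {E : Type*} [AddCommMonoid E] [Module ℝ E] (A : Set E) :
    IsExtreme ℝ A (∅ : Set E) :=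
  ⟨empty_subset _, fun _ _ _ _ _ h => absurd h (notMem_empty _)⟩

lemma TT_inter_FF {β δ : I} (h : δ ≤ β) : TT β ∩ FF δ = ∅ := by
  rw [eq_empty_iff_forall_notMem]
  rintro z ⟨h1, h2⟩
  have h3 := ev_full_inter h2.1.1 h1 h2.2.2.2
  have h4 : ({x | β < uu x} ∩ {x | uu x ≤ δ} : Set (GG I)) = ∅ := by
    rw [eq_empty_iff_forall_notMem]
    rintro x ⟨hx1, hx2⟩
    exact absurd (lt_of_lt_of_le hx1 hx2) (not_lt.2 h)
  rw [h4] at h3
  have h5 : ev z (ind (∅ : Set (GG I))) = ev z 0 := by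
    congr 1
    apply Subtype.ext; funext x
    exact ind_notMem (notMem_empty x)
  rw [h5, ev_zero h2.1.1] at h3
  exact zero_ne_one h3

lemma FF_sub_TT {β δ : I} (h : β < δ) : FF δ ⊆ TT β := fun _ hz => hz.2.2.1 β h

lemma good_TT (β : I) : Good (TT β) := by
  refine ⟨isClosed_TT β, fun δ => ?_⟩
  rcases lt_or_ge β δ with h | h
  · rw [inter_eq_right.2 (FF_sub_TT h)]
  · rw [TT_inter_FF h]; exact extreme_empty _

lemma TT_mem {F : Set (Set (Linf (GG I) → ℂ))} (hF : Maximal (· ∈ {F | Adm F}) F) (β : I) :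
    TT β ∈ F := by
  apply maximal_mem hF (good_TT β)
  intro G hG hfin b
  obtain ⟨δ, hδ, z, hz⟩ := hF.1.2 G hG hfin (max b β)
  exact ⟨δ, (le_max_left _ _).trans_lt hδ, z,
    ⟨hz.1, FF_sub_TT ((le_max_right _ _).trans_lt hδ) hz.2⟩, hz.2⟩

/-- on some member of the maximal family the function `f` is constant -/
lemma exists_const [WellFoundedLT I] (hI : ∀ f : ℕ → I, ∃ b, ∀ n, f n < b)
    {F : Set (Set (Linf (GG I) → ℂ))} (hF : Maximal (· ∈ {F | Adm F}) F) (f : RL (GG I)) :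
    ∃ (r : ℝ) (W : Set (Linf (GG I) → ℂ)), W ∈ F ∧ ∀ z ∈ W, ev z f = r := by
  obtain ⟨C, hC⟩ := f.2
  set R : Set ℝ := {r | ∀ G ⊆ F, G.Countable → Unb (⋂₀ G ∩ {z | r ≤ ev z f})} with hR
  have hne : R.Nonempty := by
    refine ⟨-C, fun G hG hc b => ?_⟩
    obtain ⟨δ, hδ, z, hz1, hz2⟩ := unb_countable hI hF.1 hG hc b
    exact ⟨δ, hδ, z, ⟨hz1, le_ev hz2.1.1 fun x => (abs_le.1 (hC x)).1⟩, hz2⟩
  have hbdd : BddAbove R := by
    refine ⟨C, fun r hr => ?_⟩
    obtain ⟨δ, -, z, ⟨-, hz1⟩, hz2⟩ := hr ∅ (empty_subset _) countable_empty (Classical.arbitrary I)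
    exact le_trans hz1 (ev_le hz2.1.1 fun x => (abs_le.1 (hC x)).2)
  have hdown : ∀ r ∈ R, ∀ r' ≤ r, r' ∈ R := by
    intro r hr r' hr' G hG hc
    exact (hr G hG hc).mono fun z hz => ⟨hz.1, le_trans hr' hz.2⟩
  set r0 := sSup R with hr0def
  have hr0 : r0 ∈ R := by
    intro G hG hc
    have h1 := unb_iInter hI (fun n : ℕ => ⋂₀ G ∩ {z | r0 - 1 / ((n : ℝ) + 1) ≤ ev z f}) ?_ ?_ ?_
    · refine h1.mono ?_
      intro x hx
      rw [mem_iInter] at hx
      refine ⟨(hx 0).1, ?_⟩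
      change r0 ≤ ev x f
      by_contra hlt
      push Not at hlt
      obtain ⟨n, hn⟩ := exists_nat_one_div_lt (sub_pos.2 hlt)
      have := (hx n).2
      rw [mem_setOf_eq] at this
      linarith
    · intro n
      exact (isClosed_sInter fun Z hZ => (hF.1.1 Z (hG hZ)).1).inter
        (isClosed_le continuous_const (continuous_ev f))
    · intro a b hab
      refine inter_subset_inter_right _ fun z hz => ?_
      rw [mem_setOf_eq] at hz ⊢
      have : 1 / ((b : ℝ) + 1) ≤ 1 / ((a : ℝ) + 1) := by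
        apply one_div_le_one_div_of_le (by positivity)
        exact_mod_cast Nat.succ_le_succ hab
      linarith
    · intro n
      have hpos : (0 : ℝ) < 1 / ((n : ℝ) + 1) := by positivity
      obtain ⟨r, hr, hlt⟩ := exists_lt_of_lt_csSup hne (show r0 - 1 / ((n : ℝ) + 1) < sSup R by
        rw [← hr0def]; linarith)
      exact hdown r hr _ hlt.le G hG hc
  have hnot : ∀ n : ℕ, ∃ (G : Set (Set (Linf (GG I) → ℂ))) (b : I), G ⊆ F ∧ G.Countable ∧
      ∀ δ, b < δ → ¬ (⋂₀ G ∩ {z | r0 + 1 / ((n : ℝ) + 1) ≤ ev z f} ∩ FF δ).Nonempty := by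
    intro n
    have hpos : (0 : ℝ) < 1 / ((n : ℝ) + 1) := by positivity
    have h1 : r0 + 1 / ((n : ℝ) + 1) ∉ R := by
      intro hmem
      have := le_csSup hbdd hmem
      rw [← hr0def] at this
      linarith
    rw [hR, mem_setOf_eq] at h1
    push Not at h1
    obtain ⟨G, hG, hc, h2⟩ := h1
    unfold Unb at h2
    push Not at h2
    obtain ⟨b, hb⟩ := h2
    refine ⟨G, b, hG, hc, fun δ hδ hne => ?_⟩
    rw [hb δ hδ] at hne
    exact not_nonempty_empty hne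
  choose Gs bs hGs hGc hGb using hnot
  obtain ⟨bst, hbst⟩ := hI bs
  set G0 := ⋃ n, Gs n with hG0
  have hG0F : G0 ⊆ F := iUnion_subset hGs
  have hG0c : G0.Countable := countable_iUnion hGc
  have hle : ∀ δ, bst < δ → ∀ z ∈ ⋂₀ G0 ∩ FF δ, ev z f ≤ r0 := by
    intro δ hδ z hz
    by_contra hlt
    push Not at hlt
    obtain ⟨n, hn⟩ := exists_nat_one_div_lt (sub_pos.2 hlt)
    refine hGb n δ ((hbst n).trans hδ) ⟨z, ⟨fun Z hZ => hz.1 Z (mem_iUnion.2 ⟨n, hZ⟩), ?_⟩, hz.2⟩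
    rw [mem_setOf_eq]
    linarith
  set W : Set (Linf (GG I) → ℂ) := ⋂₀ G0 ∩ {z | ev z f = r0} ∩ TT bst with hWdef
  refine ⟨r0, W, ?_, fun z hz => hz.1.2⟩
  apply maximal_mem hF
  · refine ⟨((isClosed_sInter fun Z hZ => (hF.1.1 Z (hG0F hZ)).1).inter
      (isClosed_eq (continuous_ev f) continuous_const)).inter (isClosed_TT _), fun δ => ?_⟩
    rcases lt_or_ge bst δ with h | h
    · have h1 : W ∩ FF δ = {z ∈ ⋂₀ G0 ∩ FF δ | ev z f = r0} := by
        ext z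
        constructor
        · rintro ⟨⟨⟨ha, hb⟩, hc⟩, hd⟩
          exact ⟨⟨ha, hd⟩, hb⟩
        · rintro ⟨⟨ha, hd⟩, hb⟩
          exact ⟨⟨⟨ha, hb⟩, FF_sub_TT h hd⟩, hd⟩
      rw [h1]
      refine IsExtreme.trans ?_ (isExtreme_max _ f r0 (hle δ h))
      rcases G0.eq_empty_or_nonempty with h0 | h0
      · rw [h0, sInter_empty, univ_inter]
      · have h2 : ⋂₀ G0 ∩ FF δ = ⋂₀ ((fun Z => Z ∩ FF δ) '' G0) := by
          ext z
          constructor
          · rintro ⟨ha, hb⟩ _ ⟨Z, hZ, rfl⟩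
            exact ⟨ha Z hZ, hb⟩
          · intro hz
            obtain ⟨Z0, hZ0⟩ := h0
            exact ⟨fun Z hZ => (hz _ ⟨Z, hZ, rfl⟩).1, (hz _ ⟨Z0, hZ0, rfl⟩).2⟩
        rw [h2]
        apply isExtreme_sInter (h0.image _)
        rintro _ ⟨Z, hZ, rfl⟩
        exact (hF.1.1 Z (hG0F hZ)).2 δ
    · have h1 : W ∩ FF δ = ∅ := by
        rw [← subset_empty_iff, ← TT_inter_FF h]
        exact inter_subset_inter_left _ inter_subset_right
      rw [h1]; exact extreme_empty _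
  · intro G hG hfin b
    obtain ⟨δ, hδ, z, ⟨hz1, hz2⟩, hz3⟩ := hr0 (G ∪ G0) (union_subset hG hG0F)
      (hfin.countable.union hG0c) (max b bst)
    have hδ' : bst < δ := (le_max_right _ _).trans_lt hδ
    have hzG0 : z ∈ ⋂₀ G0 := fun Z hZ => hz1 Z (Or.inr hZ)
    exact ⟨δ, (le_max_left _ _).trans_lt hδ, z, ⟨fun Z hZ => hz1 Z (Or.inl hZ),
      ⟨hzG0, le_antisymm (hle δ hδ' z ⟨hzG0, hz3⟩) hz2⟩, FF_sub_TT hδ' hz3⟩, hz3⟩

/-- the nonergodic mean in the `G_δ`-closure of the ergodic means -/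
theorem exists_k [WellFoundedLT I] (hI : ∀ f : ℕ → I, ∃ b, ∀ n, f n < b) :
    ∃ k ∈ InvMeans (GG I), ev k ss = 0 ∧
      (∀ (γ : GG I) (f : RL (GG I)), ev k (f * trR γ ss) = ev k (f * ss)) ∧
      ∀ F : Set (RL (GG I)), F.Countable →
        ∃ ν ∈ (InvMeans (GG I)).extremePoints ℝ, ∀ f ∈ F, ev ν f = ev k f := by
  obtain ⟨F, hF⟩ := exists_maximal hI
  obtain ⟨k, hk0, hk⟩ := isCompact_K0.inter_iInter_nonempty (fun Z : F => Z.1)
    (fun Z => (hF.1.1 Z.1 Z.2).1) (by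
      intro u
      obtain ⟨δ, -, z, hz1, hz2⟩ := hF.1.2 ((fun Z : F => Z.1) '' (u : Set F))
        (by rintro _ ⟨Z, _, rfl⟩; exact Z.2) (u.finite_toSet.image _) (Classical.arbitrary I)
      refine ⟨z, ⟨hz2.1, hz2.2.1⟩, ?_⟩
      simp only [mem_iInter]
      intro Z hZ
      exact hz1 _ ⟨Z, hZ, rfl⟩)
  rw [mem_iInter] at hk
  have hconst : ∀ f : RL (GG I), ∃ W ∈ F, ∀ z ∈ W, ev z f = ev k f := by
    intro f
    obtain ⟨r, W, hW, h⟩ := exists_const hI hF f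
    refine ⟨W, hW, fun z hz => ?_⟩
    rw [h z hz, h k (hk ⟨W, hW⟩)]
  have hkey : ∀ A : Set (RL (GG I)), A.Countable →
      ∃ δ, ∃ ν ∈ (InvMeans (GG I)).extremePoints ℝ, ν ∈ FF δ ∧ ∀ f ∈ A, ev ν f = ev k f := by
    intro A hA
    choose W hW hWc using hconst
    obtain ⟨δ, -, hne⟩ := unb_countable hI hF.1 (G := insert (TT (Classical.arbitrary I)) (W '' A))
      (by
        rintro Z (rfl | ⟨f, _, rfl⟩)
        · exact TT_mem hF _
        · exact hW f) ((hA.image W).insert _) (Classical.arbitrary I)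
    set G := insert (TT (Classical.arbitrary I)) (W '' A) with hG
    have hcl : IsClosed (⋂₀ G) := by
      apply isClosed_sInter
      rintro Z (rfl | ⟨f, _, rfl⟩)
      · exact isClosed_TT _
      · exact (hF.1.1 _ (hW f)).1
    have hcomp : IsCompact (⋂₀ G ∩ FF δ) := by
      rw [inter_comm]; exact (isCompact_FF δ).inter_right hcl
    have hext : IsExtreme ℝ (InvMeans (GG I)) (⋂₀ G ∩ FF δ) := by
      refine (isExtreme_FF δ).trans ?_
      have h2 : ⋂₀ G ∩ FF δ = ⋂₀ ((fun Z => Z ∩ FF δ) '' G) := by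
        ext z
        constructor
        · rintro ⟨ha, hb⟩ _ ⟨Z, hZ, rfl⟩
          exact ⟨ha Z hZ, hb⟩
        · intro hz
          exact ⟨fun Z hZ => (hz _ ⟨Z, hZ, rfl⟩).1,
            (hz _ ⟨TT (Classical.arbitrary I), mem_insert _ _, rfl⟩).2⟩
      rw [h2]
      apply isExtreme_sInter ((insert_nonempty _ _).image _)
      rintro _ ⟨Z, hZ, rfl⟩
      rcases hZ with rfl | ⟨f, _, rfl⟩
      · exact (good_TT _).2 δ
      · exact (hF.1.1 _ (hW f)).2 δ
    obtain ⟨ν, hν⟩ := hcomp.extremePoints_nonempty hne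
    refine ⟨δ, ν, hext.extremePoints_subset_extremePoints hν, hν.1.2, fun f hf => ?_⟩
    exact hWc f ν (hν.1.1 _ (Or.inr ⟨f, hf, rfl⟩))
  refine ⟨k, hk0.1, ?_, ?_, fun A hA => ?_⟩
  · obtain ⟨δ, ν, -, hν, h⟩ := hkey {ss} (countable_singleton _)
    rw [← h ss rfl]
    set g : GG I := Finsupp.single (toLex (δ, δ)) 1 with hg
    have hsup : ∀ j ∈ g.support, j = toLex (δ, δ) := fun j hj =>
      Finset.mem_singleton.1 (Finsupp.support_single_subset hj)
    have h1 : ev ν (trR (-g) ss) = ev ν (-ss) := by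
      apply ev_congr hν.1.1 (ev_full_inter hν.1.1 (hν.2.1 (toLex (δ, δ))) hν.2.2.2)
      rintro x ⟨⟨t, ht, htl⟩, hx⟩
      rw [trR_apply, sub_neg_eq_add, ss_shift ht (fun j hj => by rw [hsup j hj]; exact htl),
        hg, par_single, if_pos (show uu x ≤ (ofLex (toLex (δ, δ))).1 from hx), sg_one]
      simp
    rw [ev_tr hν.1, ev_neg hν.1.1] at h1
    linarith
  · intro γ f
    obtain ⟨j0, hj0⟩ := γ.support.exists_le
    classical
    obtain ⟨β0, hβ0⟩ := (γ.support.image fun j => (ofLex j).1).exists_le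
    have hfull := ev_full_inter hk0.1.1 (hk0.2 j0) (show ev k (ind {x | β0 < uu x}) = 1 from
      hk ⟨TT β0, TT_mem hF β0⟩)
    apply ev_congr hk0.1.1 hfull
    rintro x ⟨⟨t, ht, htl⟩, hx⟩
    have hs : ∀ j ∈ (-γ).support, j ∈ γ.support := by
      intro j hj
      rwa [Finsupp.support_neg] at hj
    rw [RL_mul, RL_mul, trR_apply, sub_eq_add_neg,
      ss_shift ht (fun j hj => (hj0 j (hs j hj)).trans_lt htl),
      par_eq_zero _ _ (fun j hj => (hβ0 _ (Finset.mem_image_of_mem _ (hs j hj))).trans_lt hx),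
      sg_zero, mul_one]
  · obtain ⟨δ, ν, h1, -, h2⟩ := hkey A hA
    exact ⟨ν, h1, h2⟩

end Q69IM
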