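import Pool.Agent.Q69.IMExt

open Set Filter Topology MeasureTheory

namespace Q69IM

section defs

variable {Γ : Type*} [AddCommGroup Γ]

/-- `σ` is a Choquet decomposition of the invariant mean `m`. -/
structure IsChoquet (m : MInv Γ) (σ : Measure (MInv Γ)) : Prop where
  total : σ univ = 1
  conc : σ (extM Γ) = 1
  meas : ∀ f : Linf Γ, Measurable fun ν : MInv Γ => ν.1 f
  bary : ∀ f : Linf Γ, m.1 f = ∫ ν, ν.1 f ∂σ

/-- The bounded function `|f|²`. -/
noncomputable def absSq {Γ : Type*} (f : Linf Γ) : Linf Γ :=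
  ⟨fun x => ((‖f.1 x‖ ^ 2 : ℝ) : ℂ), by
    obtain ⟨C, hC⟩ := f.2
    refine ⟨C ^ 2, fun x => ?_⟩
    rw [Complex.norm_real, Real.norm_eq_abs, abs_of_nonneg (by positivity)]
    exact pow_le_pow_left₀ (norm_nonneg _) (hC x) 2⟩

/-- The square of the distance of `f` and `g` in `L²(m)`. -/
noncomputable def distSq {Γ : Type*} (m : Linf Γ → ℂ) (f g : Linf Γ) : ℝ :=
  (m (absSq (f - g))).re

/-- The indicator functions of the sets `C n` form a Cauchy sequence in `L²(m)` whose limit, an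
indicator element, is invariant under all translations. -/
structure IsInvIndicator (m : Linf Γ → ℂ) (C : ℕ → Set Γ) : Prop where
  cauchy : ∀ ε > 0, ∃ N, ∀ n ≥ N, ∀ k ≥ N, distSq m (indC (C n)) (indC (C k)) < ε
  inv : ∀ γ : Γ, Tendsto (fun n => distSq m (tr γ (indC (C n))) (indC (C n))) atTop (𝓝 0)

end defs

lemma distSq_ind {Γ : Type*} (m : Linf Γ → ℂ) (A B : Set Γ) :
    distSq m (indC A) (indC B) = ev m ((ind A - ind B) * (ind A - ind B)) := by
  rw [distSq, ev]
  congr 2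
  apply Subtype.ext; funext x
  rw [indC_eq, indC_eq]
  change ((‖((ind A).1 x : ℂ) - ((ind B).1 x : ℂ)‖ ^ 2 : ℝ) : ℂ) =
    ((((ind A).1 x - (ind B).1 x) * ((ind A).1 x - (ind B).1 x) : ℝ) : ℂ)
  rw [← Complex.ofReal_sub, Complex.norm_real, Real.norm_eq_abs, sq_abs, sq]

/-- the final contradiction -/
lemma no_indicator {Γ : Type*} {k a m : Linf Γ → ℂ} (hk : IsMean k) (ham : IsMean a)
    (s : RL Γ) (hs : s * s = 1) (hsb : ∀ x, |s.1 x| ≤ 1)
    (ha : ∀ f, ev a f = ev k f + ev k (f * s)) (hm : ∀ f, ev m f = (ev k f + ev a f) / 2)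
    (hks : ev k s = 0) (C : ℕ → Set Γ)
    (hC : ∀ ε > 0, ∃ N, ∀ n ≥ N, ∀ j ≥ N, ev m ((ind (C n) - ind (C j)) * (ind (C n) - ind (C j))) < ε)
    (hlim : ∀ f : RL Γ, Tendsto (fun n => ev m (f * ind (C n))) atTop (𝓝 (ev k f / 2))) : False := by
  set P : RL Γ := (1 / 2 : ℝ) • (1 + s) with hP
  have hPx : ∀ x, P.1 x = (1 + s.1 x) / 2 := fun x => by
    rw [hP, RL_smul, RL_add, RL_one]; ring
  have hsx : ∀ x, s.1 x * s.1 x = 1 := fun x => by rw [← RL_mul, hs, RL_one]
  have hP0 : ∀ x, 0 ≤ P.1 x := fun x => by rw [hPx]; linarith [(abs_le.1 (hsb x)).1]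
  have hP1 : ∀ x, P.1 x ≤ 1 := fun x => by rw [hPx]; linarith [(abs_le.1 (hsb x)).2]
  have hPs : P * s = P := by
    apply Subtype.ext; funext x
    change P.1 x * s.1 x = P.1 x
    rw [hPx]
    linear_combination (hsx x) / 2
  have hmP : ∀ g : RL Γ, ev m (P * g) = 3 / 2 * ev k (P * g) := by
    intro g
    have h1 : P * g * s = P * g := by rw [mul_right_comm, hPs]
    rw [hm, ha, h1]; ring
  have hkP : ev k P = 1 / 2 := by
    rw [hP, ev_smul hk, ev_add hk, ev_one hk, hks]; ring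
  have hkm : ∀ g : RL Γ, (∀ x, 0 ≤ g.1 x) → ev k g ≤ 2 * ev m g := by
    intro g hg
    rw [hm]
    linarith [ev_nonneg ham g hg]
  have l1 : Tendsto (fun n => ev k (P * ind (C n))) atTop (𝓝 (1 / 6)) := by
    have h1 := (hlim P).const_mul (2 / 3)
    rw [hkP] at h1
    refine (h1.congr fun n => ?_).trans_eq ?_ |> fun h => h
    · rw [hmP]; ring
    · norm_num
  obtain ⟨N, hN⟩ := hC (1 / 100) (by norm_num)
  have key : ∀ j ≥ N, ev k (P * ind (C j)) ≤ 3 / 100 := by
    intro j hj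
    have l2 : Tendsto (fun n => ev k (P * ind (C j) * ind (C n))) atTop
        (𝓝 (1 / 3 * ev k (P * ind (C j)))) := by
      have h1 := (hlim (P * ind (C j))).const_mul (2 / 3)
      have h2 : 2 / 3 * (ev k (P * ind (C j)) / 2) = 1 / 3 * ev k (P * ind (C j)) := by ring
      rw [h2] at h1
      refine h1.congr fun n => ?_
      rw [mul_assoc, hmP]; ring
    have h3 : ∀ᶠ n in atTop, ev k (P * ind (C j)) - 2 / 100 ≤ ev k (P * ind (C j) * ind (C n)) := by
      filter_upwards [eventually_ge_atTop N] with n hn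
      have h4 : ev k (P * ind (C j)) - ev k (P * ind (C j) * ind (C n)) ≤
          ev k ((ind (C j) - ind (C n)) * (ind (C j) - ind (C n))) := by
        rw [← ev_sub hk]
        apply ev_mono hk
        intro x
        simp only [RL_sub, RL_mul]
        have p0 := hP0 x
        have p1 := hP1 x
        by_cases h1 : x ∈ C j <;> by_cases h2 : x ∈ C n <;>
          simp only [ind_mem, ind_notMem, h1, h2, not_false_eq_true] <;> nlinarith
      have h5 := hkm ((ind (C j) - ind (C n)) * (ind (C j) - ind (C n)))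
        (fun x => mul_self_nonneg _)
      have h6 := hN j hj n hn
      linarith
    have h7 := ge_of_tendsto l2 h3
    linarith
  have h8 := le_of_tendsto l1 (eventually_atTop.2 ⟨N, key⟩)
  norm_num at h8

section main

variable {I : Type} [LinearOrder I] [Nonempty I]

/-- the weighted mean -/
noncomputable def wt (k : Linf (GG I) → ℂ) : Linf (GG I) → ℂ := fun f => k (f * (1 + toC ss))

lemma wt_ev {k : Linf (GG I) → ℂ} (hk : IsMean k) (f : RL (GG I)) :
    ev (wt k) f = ev k f + ev k (f * ss) := by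
  rw [← ev_add hk, ev, ev, wt]
  congr 2
  rw [mul_add, mul_one, toC_add, toC_mul]

lemma ss_abs (x : GG I) : |(ss : RL (GG I)).1 x| ≤ 1 := by
  rw [ss_apply]
  rcases sg_cases (par (uu x) x) with h | h <;> rw [h] <;> simp

lemma ss_sq : (ss : RL (GG I)) * ss = 1 := by
  apply Subtype.ext; funext x
  change (ss : RL (GG I)).1 x * (ss : RL (GG I)).1 x = 1
  rw [ss_apply]
  rcases sg_cases (par (uu x) x) with h | h <;> rw [h] <;> norm_num

lemma wt_mem {k : Linf (GG I) → ℂ} (hk : k ∈ InvMeans (GG I)) (h0 : ev k ss = 0)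
    (hinv : ∀ (γ : GG I) (f : RL (GG I)), ev k (f * trR γ ss) = ev k (f * ss)) :
    wt k ∈ InvMeans (GG I) := by
  have hmean : IsMean (wt k) := by
    refine ⟨fun f g => ?_, fun c f => ?_, fun f hf => ?_, ?_⟩
    · change k ((f + g) * (1 + toC ss)) = k (f * (1 + toC ss)) + k (g * (1 + toC ss))
      rw [add_mul, hk.1.add]
    · change k ((c • f) * (1 + toC ss)) = c * k (f * (1 + toC ss))
      rw [smul_mul_assoc, hk.1.smul]
    · apply hk.1.pos
      intro x
      obtain ⟨r, hr, h⟩ := hf x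
      refine ⟨r * (1 + (ss : RL (GG I)).1 x), mul_nonneg hr ?_, ?_⟩
      · linarith [(abs_le.1 (ss_abs x)).1]
      · change f.1 x * (1 + ((ss : RL (GG I)).1 x : ℂ)) = _
        rw [h]; push_cast; ring
    · change k (1 * (1 + toC ss)) = 1
      rw [one_mul, hk.1.add, hk.1.one, ofReal_ev hk.1, h0]; simp
  rw [mem_inv_iff hmean]
  intro γ f
  rw [wt_ev hk.1, wt_ev hk.1, ev_tr hk]
  congr 1
  rw [← hinv γ (trR γ f)]
  have : trR γ f * trR γ ss = trR γ (f * ss) := rfl
  rw [this, ev_tr hk]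

/-- the average of two means -/
noncomputable def mid (k a : Linf (GG I) → ℂ) : Linf (GG I) → ℂ := fun f => (k f + a f) / 2

lemma mid_mem {k a : Linf (GG I) → ℂ} (hk : k ∈ InvMeans (GG I)) (ha : a ∈ InvMeans (GG I)) :
    mid k a ∈ InvMeans (GG I) := by
  refine ⟨⟨fun f g => ?_, fun c f => ?_, fun f hf => ?_, ?_⟩, fun γ f => ?_⟩
  · change (k (f + g) + a (f + g)) / 2 = (k f + a f) / 2 + (k g + a g) / 2
    rw [hk.1.add, ha.1.add]; ring
  · change (k (c • f) + a (c • f)) / 2 = c * ((k f + a f) / 2)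
    rw [hk.1.smul, ha.1.smul]; ring
  · obtain ⟨r, hr, h⟩ := hk.1.pos f hf
    obtain ⟨r', hr', h'⟩ := ha.1.pos f hf
    refine ⟨(r + r') / 2, by positivity, ?_⟩
    change (k f + a f) / 2 = _
    rw [h, h']; push_cast; ring
  · change (k 1 + a 1) / 2 = 1
    rw [hk.1.one, ha.1.one]; norm_num
  · change (k (tr γ f) + a (tr γ f)) / 2 = (k f + a f) / 2
    rw [hk.2, ha.2]

lemma mid_ev (k a : Linf (GG I) → ℂ) (f : RL (GG I)) :
    ev (mid k a) f = (ev k f + ev a f) / 2 := by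
  change ((k (toC f) + a (toC f)) / 2).re = _
  rw [ev, ev, show ((2 : ℂ)) = ((2 : ℝ) : ℂ) by norm_num, Complex.div_ofReal_re, Complex.add_re]

/-- invariant means with the Borel σ-algebra -/
def KB (Γ : Type*) [AddCommGroup Γ] : Type _ := MInv Γ

instance (Γ : Type*) [AddCommGroup Γ] : TopologicalSpace (KB Γ) :=
  inferInstanceAs (TopologicalSpace (MInv Γ))
instance (Γ : Type*) [AddCommGroup Γ] : T2Space (KB Γ) := inferInstanceAs (T2Space (MInv Γ))
instance (Γ : Type*) [AddCommGroup Γ] : CompactSpace (KB Γ) :=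
  inferInstanceAs (CompactSpace (MInv Γ))
instance (Γ : Type*) [AddCommGroup Γ] : MeasurableSpace (KB Γ) := borel (MInv Γ)
instance (Γ : Type*) [AddCommGroup Γ] : BorelSpace (KB Γ) := ⟨rfl⟩

/-- inclusion in the space of all means -/
def incl (Γ : Type*) [AddCommGroup Γ] (ν : KB Γ) : MM Γ := ⟨ν.1, ν.2.1⟩

lemma incl_emb (Γ : Type*) [AddCommGroup Γ] : MeasurableEmbedding (incl Γ) := by
  have hc : Continuous (incl Γ) := by
    apply Continuous.subtype_mk
    exact continuous_subtype_val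
  have hi : Function.Injective (incl Γ) := by
    intro a b h
    have h2 : (incl Γ a).1 = (incl Γ b).1 := congrArg _ h
    exact Subtype.ext h2
  exact (hc.isClosedEmbedding hi).measurableEmbedding

/-- the Borel measure on the invariant means -/
theorem exists_mu {k a : Linf (GG I) → ℂ} (hk : k ∈ InvMeans (GG I)) (ha : a ∈ InvMeans (GG I))
    (s : RL (GG I)) (hs1 : ∀ x, |s.1 x| ≤ 1) (hks : ev k s = 0) (has : ev a s = 1)
    (hkF : ∀ F : Set (RL (GG I)), F.Countable →
        ∃ ν ∈ (InvMeans (GG I)).extremePoints ℝ, ∀ f ∈ F, ev ν f = ev k f) :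
    ∃ μ : Measure (KB (GG I)), IsProbabilityMeasure μ ∧
      (∀ f : RL (GG I), ∫ ν, ev ν.1 f ∂μ = (ev k f + ev a f) / 2) ∧
      (∀ f : RL (GG I), ∫ ν, ({ν : KB (GG I) | ev ν.1 s = 0}.indicator fun ν => ev ν.1 f) ν ∂μ =
        ev k f / 2) ∧
      (∀ B : Set (MInv (GG I)), MeasurableSet[baire (GG I)] B → B ∩ extM (GG I) = ∅ → μ B = 0) := by
  obtain ⟨ρ, hρ, h1, h2, h3⟩ := exists_rho ha
  obtain ⟨g, hgm, hgi⟩ := (incl_emb (GG I)).exists_measurable_extend
    (g := (id : KB (GG I) → KB (GG I))) measurable_id (fun _ => ⟨⟨k, hk⟩⟩)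
  have hg : ∀ ν : MM (GG I), ∀ h : ν.1 ∈ InvMeans (GG I), g ν = (⟨ν.1, h⟩ : MInv (GG I)) := by
    intro ν h
    have := congrFun hgi (⟨ν.1, h⟩ : MInv (GG I))
    exact this
  set ρK : Measure (KB (GG I)) := ρ.map g with hρK
  have hρKp : IsProbabilityMeasure ρK := Measure.isProbabilityMeasure_map hgm.aemeasurable
  set k' : KB (GG I) := (⟨k, hk⟩ : MInv (GG I)) with hk'
  have hcont : ∀ f : RL (GG I), Continuous (fun ν : KB (GG I) => ev ν.1 f) := fun f =>
    (evk f).continuous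
  have hZ : MeasurableSet {ν : KB (GG I) | ev ν.1 s = 0} :=
    (isClosed_eq (hcont s) continuous_const).measurableSet
  have hintK : ∀ (μ : Measure (KB (GG I))) [IsFiniteMeasure μ] (f : RL (GG I)),
      Integrable (fun ν : KB (GG I) => ev ν.1 f) μ := fun μ _ f =>
    (hcont f).integrable_of_hasCompactSupport (HasCompactSupport.of_compactSpace _)
  have e1 : ∀ f : RL (GG I), ∫ ν, ev ν.1 f ∂ρK = ev a f := by
    intro f
    rw [hρK, integral_map hgm.aemeasurable (hcont f).aestronglyMeasurable, ← h1 f]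
    apply integral_congr_ae
    filter_upwards [h3] with ν hν
    rw [hg ν hν]
  have e2 : ∀ᵐ ν ∂ρK, ev ν.1 s = 1 := by
    have hle : ∀ ν : KB (GG I), 0 ≤ 1 - ev ν.1 s := fun ν => by
      have := ev_le ν.2.1 (f := s) (C := 1) (fun x => (abs_le.1 (hs1 x)).2)
      linarith
    have hi : Integrable (fun ν : KB (GG I) => 1 - ev ν.1 s) ρK :=
      (integrable_const _).sub (hintK ρK s)
    have h0 : ∫ ν, (1 - ev ν.1 s) ∂ρK = 0 := by
      rw [integral_sub (integrable_const _) (hintK ρK s), e1, has]; simp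
    have := (integral_eq_zero_iff_of_nonneg hle hi).1 h0
    filter_upwards [this] with ν hν
    have : 1 - ev ν.1 s = 0 := hν
    linarith
  have e3 : ∀ f : RL (GG I), ∫ ν, ({ν : KB (GG I) | ev ν.1 s = 0}.indicator fun ν => ev ν.1 f) ν ∂ρK = 0 := by
    intro f
    have hae : (fun ν : KB (GG I) => ({ν : KB (GG I) | ev ν.1 s = 0}.indicator
        fun ν => ev ν.1 f) ν) =ᵐ[ρK] fun _ => (0 : ℝ) := ?_
    · rw [integral_congr_ae hae, integral_zero]
    filter_upwards [e2] with ν hν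
    rw [indicator_of_notMem]
    intro h0
    have h0' : ev ν.1 s = 0 := h0
    rw [hν] at h0'
    norm_num at h0'
  set μ : Measure (KB (GG I)) := (2⁻¹ : ENNReal) • Measure.dirac k' + (2⁻¹ : ENNReal) • ρK with hμ
  have hfin1 : IsFiniteMeasure ((2⁻¹ : ENNReal) • Measure.dirac k' : Measure (KB (GG I))) :=
    ⟨by simp⟩
  have hfin2 : IsFiniteMeasure ((2⁻¹ : ENNReal) • ρK : Measure (KB (GG I))) :=
    ⟨by simp⟩
  have hint : ∀ φ : KB (GG I) → ℝ, StronglyMeasurable φ → Integrable φ (Measure.dirac k') →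
      Integrable φ ρK → ∫ ν, φ ν ∂μ = (φ k' + ∫ ν, φ ν ∂ρK) / 2 := by
    intro φ hφ hd hr
    rw [hμ, integral_add_measure (hd.smul_measure (by simp)) (hr.smul_measure (by simp)),
      integral_smul_measure, integral_smul_measure, integral_dirac' _ _ hφ]
    simp only [ENNReal.toReal_inv, ENNReal.toReal_ofNat, smul_eq_mul]
    ring
  refine ⟨μ, ⟨?_⟩, fun f => ?_, fun f => ?_, fun B hB hBD => ?_⟩
  · rw [hμ]
    simp only [Measure.coe_add, Measure.coe_smul, Pi.add_apply, Pi.smul_apply, smul_eq_mul,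
      measure_univ, mul_one]
    exact ENNReal.inv_two_add_inv_two
  · rw [hint _ (hcont f).stronglyMeasurable (hintK _ f) (hintK _ f), e1]
  · rw [hint _ ((hcont f).stronglyMeasurable.indicator hZ) ((hintK _ f).indicator hZ)
      ((hintK _ f).indicator hZ), e3, indicator_of_mem (show k' ∈ {ν : KB (GG I) | ev ν.1 s = 0} from hks)]
    rw [add_zero]
  · obtain ⟨F, hF, hsat⟩ := sat_baire hB
    obtain ⟨B', hB'⟩ : ∃ B' : Set (KB (GG I)), B' = B := ⟨B, rfl⟩
    have hBb : MeasurableSet B' := by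
      rw [hB']; exact baire_le_borel B hB
    change μ (B : Set (KB (GG I))) = 0
    rw [← hB']
    have hkB : k' ∉ B' := by
      rw [hB']
      intro hmem
      obtain ⟨ν, hν, hνF⟩ := hkF F hF
      have h5 : (⟨ν, hν.1⟩ : MInv (GG I)) ∈ B := (hsat ⟨ν, hν.1⟩ k' hνF).2 hmem
      have h6 : (⟨ν, hν.1⟩ : MInv (GG I)) ∈ B ∩ extM (GG I) := ⟨h5, hν⟩
      rw [hBD] at h6
      exact h6
    have hρB : ρK B' = 0 := by
      rw [hρK, Measure.map_apply hgm hBb]
      have h4 := ae_extreme ha ρ h1 h2 h3 F hF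
      have h5 : ∀ᵐ ν ∂ρ, ν ∉ g ⁻¹' B' := by
        rw [hB']
        filter_upwards [h4] with ν hν hmem
        obtain ⟨hν1, μ', hμ', hμF⟩ := hν
        rw [mem_preimage, hg ν hν1] at hmem
        have h5 : (⟨μ', hμ'.1⟩ : MInv (GG I)) ∈ B := (hsat ⟨μ', hμ'.1⟩ ⟨ν.1, hν1⟩ hμF).2 hmem
        have h6 : (⟨μ', hμ'.1⟩ : MInv (GG I)) ∈ B ∩ extM (GG I) := ⟨h5, hμ'⟩
        rw [hBD] at h6
        exact h6
      rw [ae_iff] at h5
      simp only [not_not] at h5
      exact h5
    rw [hμ]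
    simp only [Measure.coe_add, Measure.coe_smul, Pi.add_apply, Pi.smul_apply, smul_eq_mul]
    rw [hρB, Measure.dirac_apply' _ hBb, indicator_of_notMem hkB]
    simp

end main

end Q69IM
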