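import Pool.Agent.Q69.IMFinal

open Set Filter Topology MeasureTheory

namespace Q69IM

lemma integral_cx {X : Type*} [MeasurableSpace X] (σ : Measure X) (u v : X → ℝ)
    (hu : Integrable u σ) (hv : Integrable v σ) :
    ∫ x, ((u x : ℂ) + Complex.I * (v x : ℂ)) ∂σ =
      ((∫ x, u x ∂σ : ℝ) : ℂ) + Complex.I * ((∫ x, v x ∂σ : ℝ) : ℂ) := by
  have e1 : ∫ x, (u x : ℂ) ∂σ = ((∫ x, u x ∂σ : ℝ) : ℂ) := integral_ofReal (𝕜 := ℂ)
  have e2 : ∫ x, (v x : ℂ) ∂σ = ((∫ x, v x ∂σ : ℝ) : ℂ) := integral_ofReal (𝕜 := ℂ)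
  have h1 : Integrable (fun x => (u x : ℂ)) σ := hu.ofReal
  have h2 : Integrable (fun x => Complex.I * (v x : ℂ)) σ := hv.ofReal.const_mul _
  rw [integral_add h1 h2, integral_const_mul, e1, e2]

lemma baire_le_inst {Γ : Type*} [AddCommGroup Γ] :
    baire Γ ≤ instMeasurableSpaceMInv Γ :=
  MeasurableSpace.generateFrom_mono subset_union_right

theorem main {I : Type} [LinearOrder I] [Nonempty I] [WellFoundedLT I]
    (hI : ∀ f : ℕ → I, ∃ b, ∀ n, f n < b) :
    ∃ (m : MInv (GG I)) (σ : Measure (MInv (GG I))) (E : Set (MInv (GG I))),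
      IsChoquet m σ ∧ MeasurableSet E ∧ E ⊆ extM (GG I) ∧
      ¬ ∃ C : ℕ → Set (GG I), IsInvIndicator m.1 C ∧
        ∀ f : Linf (GG I), Tendsto (fun n => m.1 (f * indC (C n))) atTop
          (𝓝 (∫ ν, E.indicator (fun ν => ν.1 f) ν ∂σ)) := by
  obtain ⟨k, hk, h0, hinv, hF⟩ := exists_k hI
  have ha := wt_mem hk h0 hinv
  have has : ev (wt k) ss = 1 := by rw [wt_ev hk.1, h0, ss_sq, ev_one hk.1, zero_add]
  obtain ⟨μ, hμp, m1, m2, m3⟩ := exists_mu hk ha ss ss_abs h0 has hF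
  obtain ⟨σ, s1, s2, s3⟩ := ext_measure (baire (GG I)) (borel (MInv (GG I)))
    (instMeasurableSpaceMInv (GG I)) baire_le_borel μ (extM (GG I)) inst_eq hμp m3
  have hprob : IsProbabilityMeasure σ := by
    constructor
    rw [s1 univ (@MeasurableSet.univ _ (baire (GG I)))]
    exact hμp.measure_univ
  have hextm : MeasurableSet (extM (GG I)) :=
    MeasurableSpace.measurableSet_generateFrom (Or.inl rfl)
  have hmeas : ∀ f : RL (GG I), Measurable (fun ν : MInv (GG I) => ev ν.1 f) := fun f =>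
    (baire_cont (evk f)).mono baire_le_inst le_rfl
  have hbd : ∀ f : RL (GG I), ∃ C : ℝ, ∀ ν : MInv (GG I), ‖ev ν.1 f‖ ≤ C := by
    intro f
    obtain ⟨C, hC⟩ := f.2
    exact ⟨C, fun ν => abs_ev_le ν.2.1 hC⟩
  have hint : ∀ f : RL (GG I), Integrable (fun ν : MInv (GG I) => ev ν.1 f) σ := by
    intro f
    obtain ⟨C, hC⟩ := hbd f
    exact Integrable.of_bound (hmeas f).aestronglyMeasurable C (Eventually.of_forall hC)
  set m : MInv (GG I) := ⟨mid k (wt k), mid_mem hk ha⟩ with hm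
  have hi1 : ∀ f : RL (GG I), ∫ ν, ev ν.1 f ∂σ = ev m.1 f := by
    intro f
    have h1 := s3 (fun ν => ev ν.1 f) ((baire_cont (evk f)).stronglyMeasurable)
    rw [h1, hm, mid_ev]
    exact m1 f
  set Z : Set (MInv (GG I)) := (evk ss) ⁻¹' {0} with hZ
  have hZb : MeasurableSet[baire (GG I)] Z :=
    MeasurableSpace.measurableSet_generateFrom ⟨evk ss, rfl⟩
  have hZm : MeasurableSet Z := baire_le_inst _ hZb
  have hi2 : ∀ f : RL (GG I), ∫ ν, (Z.indicator (fun ν => ev ν.1 f)) ν ∂σ = ev k f / 2 := by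
    intro f
    have h1 := s3 (Z.indicator fun ν => ev ν.1 f)
      ((baire_cont (evk f)).stronglyMeasurable.indicator hZb)
    rw [h1]
    exact m2 f
  have hmc : ∀ f : Linf (GG I), Measurable fun ν : MInv (GG I) => ν.1 f := by
    intro f
    have : (fun ν : MInv (GG I) => ν.1 f) =
        fun ν => (ev ν.1 (reL f) : ℂ) + Complex.I * (ev ν.1 (imL f) : ℂ) := by
      funext ν; exact eval_eq ν.2.1 f
    rw [this]
    exact (Complex.measurable_ofReal.comp (hmeas _)).add
      ((Complex.measurable_ofReal.comp (hmeas _)).const_mul _)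
  refine ⟨m, σ, extM (GG I) ∩ Z, ⟨measure_univ, ?_, hmc, ?_⟩, hextm.inter hZm, inter_subset_left, ?_⟩
  · exact (prob_compl_eq_zero_iff hextm).1 s2
  · intro f
    have h1 : ∫ ν, ν.1 f ∂σ =
        ∫ ν : MInv (GG I), ((ev ν.1 (reL f) : ℂ) + Complex.I * (ev ν.1 (imL f) : ℂ)) ∂σ :=
      integral_congr_ae (Eventually.of_forall fun ν => eval_eq ν.2.1 f)
    rw [h1, integral_cx σ _ _ (hint _) (hint _), hi1, hi1]
    exact eval_eq m.2.1 f
  · rintro ⟨C, hC, hlim⟩
    have hE : ∀ f : Linf (GG I),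
        ∫ ν, (extM (GG I) ∩ Z).indicator (fun ν => ν.1 f) ν ∂σ = k f / 2 := by
      intro f
      have h1 : ∫ ν, (extM (GG I) ∩ Z).indicator (fun ν => ν.1 f) ν ∂σ =
          ∫ ν : MInv (GG I), (((Z.indicator (fun ν => ev ν.1 (reL f)) ν : ℝ) : ℂ) +
            Complex.I * ((Z.indicator (fun ν => ev ν.1 (imL f)) ν : ℝ) : ℂ)) ∂σ := by
        apply integral_congr_ae
        have h2 : ∀ᵐ ν ∂σ, ν ∈ extM (GG I) := by
          rw [ae_iff]; exact s2
        filter_upwards [h2] with ν hν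
        by_cases hνZ : ν ∈ Z
        · rw [indicator_of_mem (show ν ∈ extM (GG I) ∩ Z from ⟨hν, hνZ⟩), indicator_of_mem hνZ,
            indicator_of_mem hνZ]
          exact eval_eq ν.2.1 f
        · rw [indicator_of_notMem (show ν ∉ extM (GG I) ∩ Z from fun h => hνZ h.2),
            indicator_of_notMem hνZ, indicator_of_notMem hνZ]
          simp
      rw [h1, integral_cx σ _ _ ((hint _).indicator hZm) ((hint _).indicator hZm), hi2, hi2,
        eval_eq hk.1 f]
      push_cast; ring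
    refine no_indicator (k := k) (a := wt k) (m := m.1) hk.1 ha.1 ss ss_sq ss_abs (wt_ev hk.1)
      (mid_ev k (wt k)) h0 C ?_ ?_
    · intro ε hε
      obtain ⟨N, hN⟩ := hC.cauchy ε hε
      refine ⟨N, fun n hn j hj => ?_⟩
      rw [← distSq_ind]
      exact hN n hn j hj
    · intro f
      have h1 := hlim (toC f)
      rw [hE] at h1
      have h2 := (Complex.continuous_re.tendsto _).comp h1
      have h3 : (k (toC f) / 2).re = ev k f / 2 := by
        rw [ev, show ((2 : ℂ)) = ((2 : ℝ) : ℂ) by norm_num, Complex.div_ofReal_re]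
      rw [h3] at h2
      refine h2.congr fun n => ?_
      change (m.1 (toC f * indC (C n))).re = ev m.1 (f * ind (C n))
      rw [indC_eq, ← toC_mul]
      rfl

end Q69IM
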