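import Pool.Agent.Q69.IMFilt

open Set Filter Topology MeasureTheory CompactlySupported

namespace Q69IM

/-- Riesz representation on a compact space -/
lemma rmk {X : Type*} [TopologicalSpace X] [CompactSpace X] [T2Space X] [MeasurableSpace X]
    [BorelSpace X] (L : C(X, ℝ) → ℝ) (hadd : ∀ g h, L (g + h) = L g + L h)
    (hsmul : ∀ (c : ℝ) g, L (c • g) = c * L g) (hmono : ∀ g h : C(X, ℝ), (∀ x, g x ≤ h x) → L g ≤ L h) :
    ∃ μ : Measure X, μ.Regular ∧ IsFiniteMeasure μ ∧ ∀ h : C(X, ℝ), ∫ x, h x ∂μ = L h := by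
  let Λ : C_c(X, ℝ) →ₚ[ℝ] ℝ :=
  { toFun := fun g => L g.toContinuousMap
    map_add' := fun g g' => hadd _ _
    map_smul' := fun c g => hsmul _ _
    monotone' := fun g g' h => hmono _ _ h }
  refine ⟨RealRMK.rieszMeasure Λ, inferInstance, inferInstance, fun h => ?_⟩
  let h' : C_c(X, ℝ) := ⟨h, HasCompactSupport.of_compactSpace _⟩
  exact RealRMK.integral_rieszMeasure Λ h'

/-- the space of means -/
def MM (Γ : Type*) : Type _ := ↥(Means Γ)

instance (Γ : Type*) : TopologicalSpace (MM Γ) := inferInstanceAs (TopologicalSpace ↥(Means Γ))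
instance (Γ : Type*) : T2Space (MM Γ) := inferInstanceAs (T2Space ↥(Means Γ))
instance (Γ : Type*) : CompactSpace (MM Γ) := isCompact_iff_compactSpace.1 isCompact_means
instance (Γ : Type*) : MeasurableSpace (MM Γ) := borel _
instance (Γ : Type*) : BorelSpace (MM Γ) := ⟨rfl⟩

/-- evaluation as a continuous function on the means -/
def evc {Γ : Type*} (f : RL Γ) : C(MM Γ, ℝ) :=
  ⟨fun ν => ev ν.1 f, (continuous_ev f).comp continuous_subtype_val⟩

section

variable {I : Type} [LinearOrder I]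

/-- sampling function -/
noncomputable def phi (Ψ : Finset (JJ I)) (h : C(MM (GG I), ℝ)) : RL (GG I) :=
  ⟨fun x => h ⟨avgM (SS Ψ) x, isMean_avgM _ (SS_nonempty Ψ) x⟩, ‖h‖, fun x => h.norm_coe_le_norm _⟩

lemma phi_evc (Ψ : Finset (JJ I)) (f : RL (GG I)) : phi Ψ (evc f) = avgF (SS Ψ) f := by
  apply Subtype.ext; funext x
  exact ev_avgM _ _ _

lemma phi_add (Ψ : Finset (JJ I)) (g h : C(MM (GG I), ℝ)) : phi Ψ (g + h) = phi Ψ g + phi Ψ h := by
  apply Subtype.ext; funext x; rfl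

lemma phi_mul (Ψ : Finset (JJ I)) (g h : C(MM (GG I), ℝ)) : phi Ψ (g * h) = phi Ψ g * phi Ψ h := by
  apply Subtype.ext; funext x; rfl

lemma phi_sub (Ψ : Finset (JJ I)) (g h : C(MM (GG I), ℝ)) : phi Ψ (g - h) = phi Ψ g - phi Ψ h := by
  apply Subtype.ext; funext x; rfl

lemma phi_smul (Ψ : Finset (JJ I)) (c : ℝ) (h : C(MM (GG I), ℝ)) : phi Ψ (c • h) = c • phi Ψ h := by
  apply Subtype.ext; funext x; rfl

lemma phi_one (Ψ : Finset (JJ I)) : phi Ψ (1 : C(MM (GG I), ℝ)) = 1 := by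
  apply Subtype.ext; funext x; rfl

/-- the averaging measure of an invariant mean -/
theorem exists_rho {a : Linf (GG I) → ℂ} (ha : a ∈ InvMeans (GG I)) :
    ∃ ρ : Measure (MM (GG I)), IsProbabilityMeasure ρ ∧
      (∀ f, ∫ ν, ev ν.1 f ∂ρ = ev a f) ∧
      (∀ f, ∀ ε > 0, ∃ Ψ : Finset (JJ I), ev a (avgF (SS Ψ) f * avgF (SS Ψ) f) <
        ∫ ν, (ev ν.1 f) ^ 2 ∂ρ + ε) ∧
      (∀ᵐ ν ∂ρ, ν.1 ∈ InvMeans (GG I)) := by
  classical
  let U : Ultrafilter (Finset (JJ I)) := Ultrafilter.of atTop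
  have hU : (U : Filter (Finset (JJ I))) ≤ atTop := Ultrafilter.of_le _
  have hlim : ∀ h : C(MM (GG I), ℝ), ∃ L : ℝ, Tendsto (fun Ψ => ev a (phi Ψ h)) U (𝓝 L) := by
    intro h
    obtain ⟨L, _, hL⟩ := (isCompact_Icc : IsCompact (Icc (-‖h‖) ‖h‖)).ultrafilter_le_nhds
      (U.map fun Ψ => ev a (phi Ψ h)) (by
        rw [le_principal_iff]
        change (fun Ψ => ev a (phi Ψ h)) ⁻¹' (Icc (-‖h‖) ‖h‖) ∈ (U : Filter _)
        refine Filter.univ_mem' fun Ψ => ?_
        exact abs_le.1 (abs_ev_le ha.1 fun x => h.norm_coe_le_norm _))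
    exact ⟨L, hL⟩
  choose L hL using hlim
  obtain ⟨ρ, hreg, hfin, hρ⟩ := rmk L (fun g h => by
      refine tendsto_nhds_unique (hL (g + h)) ?_
      simp only [phi_add, ev_add ha.1]
      exact (hL g).add (hL h))
    (fun c g => by
      refine tendsto_nhds_unique (hL (c • g)) ?_
      simp only [phi_smul, ev_smul ha.1]
      exact (hL g).const_mul c)
    (fun g h hgh => by
      refine le_of_tendsto_of_tendsto' (hL g) (hL h) fun Ψ => ev_mono ha.1 fun x => hgh _)
  have hone : L 1 = 1 := by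
    refine tendsto_nhds_unique (hL 1) ?_
    simp only [phi_one, ev_one ha.1]
    exact tendsto_const_nhds
  have hprob : IsProbabilityMeasure ρ := by
    constructor
    have h1 := hρ 1
    rw [hone] at h1
    simp only [ContinuousMap.one_apply, integral_const, smul_eq_mul, mul_one] at h1
    rw [measureReal_def] at h1
    rw [← ENNReal.ofReal_toReal (measure_ne_top ρ univ), h1, ENNReal.ofReal_one]
  refine ⟨ρ, hprob, fun f => ?_, fun f ε hε => ?_, ?_⟩
  · have h1 := hρ (evc f)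
    change ∫ ν, (evc f) ν ∂ρ = _
    rw [h1]
    refine tendsto_nhds_unique (hL (evc f)) ?_
    simp only [phi_evc, ev_avgF ha _ (SS_nonempty _)]
    exact tendsto_const_nhds
  · have h1 := hρ (evc f * evc f)
    have h2 : ∫ ν, (ev ν.1 f) ^ 2 ∂ρ = L (evc f * evc f) := by
      rw [← h1]
      refine integral_congr_ae (Eventually.of_forall fun ν => ?_)
      change (ev ν.1 f) ^ 2 = ev ν.1 f * ev ν.1 f
      ring
    rw [h2]
    have h3 := hL (evc f * evc f)
    simp only [phi_mul, phi_evc] at h3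
    exact (h3.eventually (gt_mem_nhds (show L (evc f * evc f) < L (evc f * evc f) + ε by
      linarith))).exists
  · -- invariance almost everywhere
    have hnull : ∀ (γ : GG I) (f : RL (GG I)), ρ {ν | ev ν.1 (trR γ f) ≠ ev ν.1 f} = 0 := by
      intro γ f
      set g : C(MM (GG I), ℝ) := evc (trR γ f) - evc f with hg
      have h1 : L (g * g) = 0 := by
        refine tendsto_nhds_unique (hL (g * g)) ?_
        refine tendsto_const_nhds.congr' ?_
        have h2 : ∀ᶠ Ψ in (U : Filter (Finset (JJ I))), γ.support ≤ Ψ :=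
          (eventually_ge_atTop γ.support).filter_mono hU
        refine h2.mono fun Ψ hΨ => ?_
        have hγ : γ ∈ SS Ψ := mem_SS.2 hΨ
        change 0 = ev a (phi Ψ (g * g))
        rw [phi_mul, hg, phi_sub, phi_evc, phi_evc,
          avgF_tr _ _ _ (fun a ha => SS_sub ha hγ) (fun a ha => SS_add ha hγ), sub_self, mul_zero,
          ev_zero ha.1]
      have h2 := hρ (g * g)
      rw [h1] at h2
      have hnn : 0 ≤ fun ν => (g * g) ν := fun ν => mul_self_nonneg (g ν)
      have hii : Integrable (fun ν => (g * g) ν) ρ :=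
        (g * g).continuous.integrable_of_hasCompactSupport (HasCompactSupport.of_compactSpace _)
      have h3 : (fun ν => (g * g) ν) =ᵐ[ρ] 0 := (integral_eq_zero_iff_of_nonneg hnn hii).1 h2
      rw [← nonpos_iff_eq_zero]
      refine (measure_mono ?_).trans (le_of_eq (ae_iff.1 h3))
      intro ν hν h0
      apply hν
      have h4 : (g ν) * (g ν) = 0 := h0
      have h5 : g ν = 0 := mul_self_eq_zero.1 h4
      exact sub_eq_zero.1 h5
    rw [ae_iff]
    have hopen : IsOpen {ν : MM (GG I) | ¬ ν.1 ∈ InvMeans (GG I)} :=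
      (isClosed_inv.preimage continuous_subtype_val).isOpen_compl
    rw [hopen.measure_eq_iSup_isCompact]
    simp only [ENNReal.iSup_eq_zero]
    intro C hC hCc
    apply hCc.measure_zero_of_nhdsWithin
    intro ν hν
    have h1 : ¬ ν.1 ∈ InvMeans (GG I) := hC hν
    rw [mem_inv_iff ν.2] at h1
    push Not at h1
    obtain ⟨γ, f, h⟩ := h1
    refine ⟨{ν | ev ν.1 (trR γ f) ≠ ev ν.1 f}, mem_nhdsWithin_of_mem_nhds ?_, hnull γ f⟩
    exact (isOpen_ne_fun (evc (trR γ f)).continuous (evc f).continuous).mem_nhds h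

/-- a countable family closed under the averaging operations -/
def clos (op : ℕ → RL (GG I) → RL (GG I)) (F : Set (RL (GG I))) : Set (RL (GG I)) :=
  ⋃ l : List ℕ, (fun f => l.foldr op f) '' F

lemma clos_countable (op : ℕ → RL (GG I) → RL (GG I)) {F : Set (RL (GG I))} (hF : F.Countable) :
    (clos op F).Countable := countable_iUnion fun _ => hF.image _

lemma sub_clos (op : ℕ → RL (GG I) → RL (GG I)) (F : Set (RL (GG I))) : F ⊆ clos op F := by
  intro f hf
  exact mem_iUnion.2 ⟨[], f, hf, rfl⟩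

lemma clos_op (op : ℕ → RL (GG I) → RL (GG I)) {F : Set (RL (GG I))} {f : RL (GG I)}
    (hf : f ∈ clos op F) (n : ℕ) : op n f ∈ clos op F := by
  obtain ⟨l, g, hg, rfl⟩ := mem_iUnion.1 hf
  exact mem_iUnion.2 ⟨n :: l, g, hg, rfl⟩

/-- an invariant mean which looks ergodic on a countable family agrees there with an extreme
invariant mean -/
lemma exists_extreme (A : ℕ → RL (GG I) → Finset (JJ I)) (F : Set (RL (GG I)))
    {ν : Linf (GG I) → ℂ} (hν : ν ∈ InvMeans (GG I))
    (h : ∀ f ∈ clos (fun n f => avgF (SS (A n f)) f * avgF (SS (A n f)) f) F, ∀ ε > 0, ∃ n,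
      ev ν (avgF (SS (A n f)) f * avgF (SS (A n f)) f) - (ev ν f) ^ 2 < ε) :
    ∃ μ ∈ (InvMeans (GG I)).extremePoints ℝ, ∀ f ∈ F, ev μ f = ev ν f := by
  set op : ℕ → RL (GG I) → RL (GG I) := fun n f => avgF (SS (A n f)) f * avgF (SS (A n f)) f with hop
  set C : Set (Linf (GG I) → ℂ) := InvMeans (GG I) ∩ ⋂ f : clos op F, {μ | ev μ f.1 = ev ν f.1} with hC
  have hCc : IsCompact C := isCompact_inv.inter_right (isClosed_iInter fun f =>
    isClosed_eq (continuous_ev _) continuous_const)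
  have hne : C.Nonempty := ⟨ν, hν, by simp⟩
  obtain ⟨μ, hμ⟩ := hCc.extremePoints_nonempty hne
  have hμC : ∀ f ∈ clos op F, ev μ f = ev ν f := by
    intro f hf
    have := hμ.1.2
    rw [mem_iInter] at this
    exact this ⟨f, hf⟩
  refine ⟨μ, ⟨hμ.1.1, ?_⟩, fun f hf => hμC f (sub_clos op F hf)⟩
  have key : ∀ x ∈ InvMeans (GG I), ∀ y ∈ InvMeans (GG I), μ ∈ openSegment ℝ x y → x ∈ C := by
    intro x hx y hy hxy
    refine ⟨hx, mem_iInter.2 ?_⟩
    rintro ⟨f, hf⟩
    change ev x f = ev ν f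
    obtain ⟨a, b, ha, hb, hab, hev⟩ := ev_seg hxy
    have hfe := hμC f hf
    set c := ev ν f with hc
    have hbound : ∀ ε > 0, (ev x f - c) ^ 2 ≤ ε / a := by
      intro ε hε
      obtain ⟨n, hn⟩ := h f hf ε hε
      set g := avgF (SS (A n f)) f with hg
      have h1 : ev μ (g * g) = ev ν (g * g) := hμC _ (clos_op op hf n)
      have h2 : ev μ g = c := by rw [hg, ev_avgF hμ.1.1 _ (SS_nonempty _), hfe]
      have h3 : ev x g = ev x f := ev_avgF hx _ (SS_nonempty _) _
      have hexp : ∀ m : Linf (GG I) → ℂ, IsMean m →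
          ev m ((g - c • (1 : RL (GG I))) * (g - c • (1 : RL (GG I)))) =
            ev m (g * g) - 2 * c * ev m g + c ^ 2 := by
        intro m hm
        have : (g - c • (1 : RL (GG I))) * (g - c • (1 : RL (GG I))) =
            g * g + (-(2 * c)) • g + (c ^ 2) • (1 : RL (GG I)) := by
          apply Subtype.ext; funext x
          simp only [RL_mul, RL_sub, RL_smul, RL_one, RL_add]
          ring
        rw [this, ev_add hm, ev_add hm, ev_smul hm, ev_const hm]; ring
      have h4 : ev μ ((g - c • (1 : RL (GG I))) * (g - c • (1 : RL (GG I)))) < ε := by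
        rw [hexp μ hμ.1.1.1, h1, h2]
        nlinarith
      have h5 := hev ((g - c • (1 : RL (GG I))) * (g - c • (1 : RL (GG I))))
      have h6 := ev_nonneg hy.1 ((g - c • (1 : RL (GG I))) * (g - c • (1 : RL (GG I))))
        (fun x => mul_self_nonneg _)
      have h7 := ev_sq_le hx.1 (g - c • (1 : RL (GG I)))
      rw [ev_sub hx.1, ev_const hx.1, h3] at h7
      rw [le_div_iff₀ ha]
      nlinarith [mul_nonneg hb.le h6, mul_le_mul_of_nonneg_left h7 ha.le]
    have hz : (ev x f - c) ^ 2 ≤ 0 := by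
      by_contra hlt
      push Not at hlt
      have := hbound (a * ((ev x f - c) ^ 2 / 2)) (by positivity)
      rw [mul_div_cancel_left₀ _ ha.ne'] at this
      linarith
    have : ev x f - c = 0 := by nlinarith
    linarith
  intro x hx y hy hxy
  have hxC := key x hx y hy hxy
  have hyC := key y hy x hx (by rwa [openSegment_symm])
  exact hμ.2 hxC hyC hxy

/-- almost every point of the averaging measure agrees on a countable family with an
extreme invariant mean -/
theorem ae_extreme {a : Linf (GG I) → ℂ} (ha : a ∈ InvMeans (GG I))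
    (ρ : Measure (MM (GG I))) [IsProbabilityMeasure ρ]
    (h1 : ∀ f, ∫ ν, ev ν.1 f ∂ρ = ev a f)
    (h2 : ∀ f, ∀ ε > 0, ∃ Ψ : Finset (JJ I), ev a (avgF (SS Ψ) f * avgF (SS Ψ) f) <
        ∫ ν, (ev ν.1 f) ^ 2 ∂ρ + ε)
    (h3 : ∀ᵐ ν ∂ρ, ν.1 ∈ InvMeans (GG I)) (F : Set (RL (GG I))) (hF : F.Countable) :
    ∀ᵐ ν ∂ρ, ν.1 ∈ InvMeans (GG I) ∧
      ∃ μ ∈ (InvMeans (GG I)).extremePoints ℝ, ∀ f ∈ F, ev μ f = ev ν.1 f := by
  have h2' : ∀ (n : ℕ) (f : RL (GG I)), ∃ Ψ : Finset (JJ I),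
      ev a (avgF (SS Ψ) f * avgF (SS Ψ) f) < ∫ ν, (ev ν.1 f) ^ 2 ∂ρ + 1 / ((n : ℝ) + 1) :=
    fun n f => h2 f _ (by positivity)
  choose A hA using h2'
  have hint : ∀ f : RL (GG I), Integrable (fun ν : MM (GG I) => ev ν.1 f) ρ := fun f =>
    (evc f).continuous.integrable_of_hasCompactSupport (HasCompactSupport.of_compactSpace _)
  have hint2 : ∀ f : RL (GG I), Integrable (fun ν : MM (GG I) => (ev ν.1 f) ^ 2) ρ := fun f =>
    ((evc f).continuous.pow 2).integrable_of_hasCompactSupport (HasCompactSupport.of_compactSpace _)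
  have hae : ∀ f : RL (GG I), ∀ k : ℕ, ∀ᵐ ν ∂ρ, ∃ n,
      ev ν.1 (avgF (SS (A n f)) f * avgF (SS (A n f)) f) - (ev ν.1 f) ^ 2 < 1 / ((k : ℝ) + 1) := by
    intro f k
    rw [ae_iff]
    set B : Set (MM (GG I)) := {ν | ¬ ∃ n,
      ev ν.1 (avgF (SS (A n f)) f * avgF (SS (A n f)) f) - (ev ν.1 f) ^ 2 < 1 / ((k : ℝ) + 1)} with hB
    have hle : ∀ n : ℕ, ρ.real B ≤ ((k : ℝ) + 1) * (1 / ((n : ℝ) + 1)) := by
      intro n
      set g : MM (GG I) → ℝ := fun ν =>
        ev ν.1 (avgF (SS (A n f)) f * avgF (SS (A n f)) f) - (ev ν.1 f) ^ 2 with hg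
      have hgi : Integrable g ρ := (hint _).sub (hint2 f)
      have hg0 : 0 ≤ᵐ[ρ] g := by
        filter_upwards [h3] with ν hν
        have := ev_sq_le hν.1 (avgF (SS (A n f)) f)
        rw [ev_avgF hν _ (SS_nonempty _)] at this
        change 0 ≤ ev ν.1 (avgF (SS (A n f)) f * avgF (SS (A n f)) f) - (ev ν.1 f) ^ 2
        linarith
      have hm := mul_meas_ge_le_integral_of_nonneg hg0 hgi (1 / ((k : ℝ) + 1))
      have hint3 : ∫ ν, g ν ∂ρ ≤ 1 / ((n : ℝ) + 1) := by
        rw [hg, integral_sub (hint _) (hint2 f), h1]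
        have := hA n f
        linarith
      have hsub : ρ.real B ≤ ρ.real {x | 1 / ((k : ℝ) + 1) ≤ g x} := by
        refine measureReal_mono ?_ (measure_ne_top _ _)
        intro ν hν
        rw [hB, mem_setOf_eq] at hν
        push Not at hν
        exact hν n
      have hk : (0 : ℝ) < (k : ℝ) + 1 := by positivity
      have h5 : 1 / ((k : ℝ) + 1) * ρ.real {x | 1 / ((k : ℝ) + 1) ≤ g x} ≤ 1 / ((n : ℝ) + 1) :=
        hm.trans hint3
      rw [div_mul_eq_mul_div, one_mul, div_le_iff₀ hk] at h5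
      linarith
    have hzero : ρ.real B ≤ 0 := by
      have hlim : Tendsto (fun n : ℕ => ((k : ℝ) + 1) * (1 / ((n : ℝ) + 1))) atTop (𝓝 (((k : ℝ) + 1) * 0)) :=
        tendsto_one_div_add_atTop_nhds_zero_nat.const_mul _
      rw [mul_zero] at hlim
      exact ge_of_tendsto' hlim hle
    have h0 : ρ.real B = 0 := le_antisymm hzero measureReal_nonneg
    exact (measureReal_eq_zero_iff).1 h0
  have hall : ∀ᵐ ν ∂ρ, ∀ f ∈ clos (fun n f => avgF (SS (A n f)) f * avgF (SS (A n f)) f) F,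
      ∀ k : ℕ, ∃ n, ev ν.1 (avgF (SS (A n f)) f * avgF (SS (A n f)) f) - (ev ν.1 f) ^ 2 <
        1 / ((k : ℝ) + 1) := by
    rw [ae_ball_iff (clos_countable _ hF)]
    intro f _
    rw [ae_all_iff]
    exact hae f
  filter_upwards [h3, hall] with ν hν hν2
  refine ⟨hν, exists_extreme A F hν fun f hf ε hε => ?_⟩
  obtain ⟨k, hk⟩ := exists_nat_one_div_lt hε
  obtain ⟨n, hn⟩ := hν2 f hf k
  exact ⟨n, hn.trans hk⟩

end

end Q69IM
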