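import Mathlib
import Pool.Agent.Q69.Dens

/-!
# A generalized Morse sequence with small frequencies
-/

set_option autoImplicit false
open Set Filter Topology

namespace Q69Morse

open Q69Dens

/-- the block numbers -/
def nn (k : ℕ) : ℕ := 2 ^ (k + 5)

/-- the block lengths -/
def N : ℕ → ℕ
  | 0 => 1
  | k + 1 => N k * nn k

lemma N_pos (k : ℕ) : 0 < N k := by
  induction k with
  | zero => exact one_pos
  | succ k ih => exact Nat.mul_pos ih (by unfold nn; positivity)

lemma nn_ge (k : ℕ) : 32 ≤ nn k := by
  unfold nn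
  have : (2 : ℕ) ^ 5 ≤ 2 ^ (k + 5) := Nat.pow_le_pow_right (by norm_num) (by omega)
  omega

lemma N_succ_ge (k : ℕ) : 32 * N k ≤ N (k + 1) := by
  change 32 * N k ≤ N k * nn k
  rw [mul_comm]
  exact Nat.mul_le_mul_left _ (nn_ge k)

lemma N_dvd {j k : ℕ} (h : j ≤ k) : N j ∣ N k := by
  induction k, h using Nat.le_induction with
  | base => exact dvd_rfl
  | succ k _ ih => exact ih.trans (Dvd.intro _ rfl)

lemma N_gt (k : ℕ) : k < N k := by
  induction k with
  | zero => exact one_pos
  | succ k ih =>
    have := N_succ_ge k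
    omega

lemma N_mono {j k : ℕ} (h : j ≤ k) : N j ≤ N k := Nat.le_of_dvd (N_pos k) (N_dvd h)

/-- the digits -/
def dig (k n : ℕ) : ℕ := n / N k % nn k

lemma dig_mod {k n n' : ℕ} (h : n % N (k + 1) = n' % N (k + 1)) : dig k n = dig k n' := by
  unfold dig
  rw [← Nat.mod_mul_right_div_self, ← Nat.mod_mul_right_div_self]
  change n % N (k + 1) / N k = n' % N (k + 1) / N k
  rw [h]

lemma dig_succ {K k n : ℕ} (h : ¬ N K ∣ n + 1) (hk : K ≤ k) : dig k (n + 1) = dig k n := by
  unfold dig
  rw [Nat.succ_div, if_neg (fun hd => h ((N_dvd hk).trans hd)), add_zero]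

/-- the sequence -/
def s : ℕ → ℕ → Bool
  | 0, _ => false
  | K + 1, n => xor (s K n) (decide (dig K n = 1))

lemma mod_of_mod {j k n n' : ℕ} (h : n % N k = n' % N k) (hjk : j ≤ k) :
    n % N j = n' % N j := by
  have := congrArg (· % N j) h
  simp only [Nat.mod_mod_of_dvd _ (N_dvd hjk)] at this
  exact this

lemma s_mod {K n n' : ℕ} (h : n % N K = n' % N K) : s K n = s K n' := by
  induction K with
  | zero => rfl
  | succ K ih =>
    simp only [s]
    rw [ih (mod_of_mod h (Nat.le_succ K)), dig_mod h]

lemma s_succ {K K' n : ℕ} (h : ¬ N K ∣ n + 1) (hK : K ≤ K') :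
    xor (s K' n) (s K' (n + 1)) = xor (s K n) (s K (n + 1)) := by
  induction K', hK using Nat.le_induction with
  | base => rfl
  | succ k hk ih =>
    simp only [s]
    rw [dig_succ h hk, ← ih]
    generalize s k n = a
    generalize s k (n + 1) = b
    generalize decide (dig k n = 1) = c
    cases a <;> cases b <;> cases c <;> rfl

/-- adding a digit -/
lemma s_add {K m : ℕ} (hm : m < N K) (b : Bool) :
    s (K + 1) (m + (if b then N K else 0)) = xor (s K m) b := by
  simp only [s]
  have h1 : s K (m + (if b then N K else 0)) = s K m := by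
    apply s_mod
    split_ifs <;> simp
  have h2 : decide (dig K (m + (if b then N K else 0)) = 1) = b := by
    unfold dig
    have hn := nn_ge K
    cases b with
    | true =>
      simp only [if_true]
      rw [Nat.add_div_right _ (N_pos K), Nat.div_eq_of_lt hm, Nat.mod_eq_of_lt (by omega)]
      rfl
    | false =>
      simp only [Bool.false_eq_true, if_false, add_zero]
      rw [Nat.div_eq_of_lt hm, Nat.zero_mod]
      rfl
  rw [h1, h2]

/-! ### Counting -/

lemma ct_add (A : ℕ → Prop) (S T : ℕ) : ct A (S + T) = ct A S + ct (fun n => A (S + n)) T := by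
  classical
  unfold ct
  rw [Finset.card_filter, Finset.card_filter, Finset.card_filter, Finset.sum_range_add]

lemma ct_periodic {A : ℕ → Prop} {P : ℕ} (h : ∀ n, A (P + n) ↔ A n) (a : ℕ) :
    ct A (P * a) = a * ct A P := by
  induction a with
  | zero => simp [ct]
  | succ a ih =>
    rw [Nat.mul_succ, add_comm (P * a) P, ct_add]
    have : (fun n => A (P + n)) = A := funext fun n => propext (h n)
    rw [this, ih]
    ring

lemma ct_dig (K : ℕ) : ct (fun n => dig K n = 1) (N (K + 1)) ≤ N K := by
  classical
  unfold ct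
  refine (Finset.card_le_card (t := Finset.Ico (N K) (2 * N K)) fun n hn => ?_).trans
    (by rw [Nat.card_Ico]; omega)
  simp only [Finset.mem_filter, Finset.mem_range, Finset.mem_Ico] at hn ⊢
  obtain ⟨h1, h2⟩ := hn
  unfold dig at h2
  have h3 : n / N K < nn K := Nat.div_lt_of_lt_mul h1
  rw [Nat.mod_eq_of_lt h3] at h2
  have h4 := Nat.div_add_mod n (N K)
  have h5 := Nat.mod_lt n (N_pos K)
  rw [h2] at h4
  omega

lemma ct_s (K : ℕ) : (ct (fun n => s K n = true) (N K) : ℝ) ≤ N K / 16 * (1 - (1 / 2) ^ K) := by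
  induction K with
  | zero => simp [ct, s]
  | succ K ih =>
    have h1 : ct (fun n => s (K + 1) n = true) (N (K + 1)) ≤ nn K * ct (fun n => s K n = true) (N K)
        + N K := by
      have h2 := ct_periodic (A := fun n => s K n = true) (P := N K) (fun n => by
        rw [s_mod (K := K) (n := N K + n) (n' := n) (by simp)]) (nn K)
      rw [← h2]
      refine le_trans ?_ (Nat.add_le_add_left (ct_dig K) _)
      refine le_trans (ct_mono (fun n hn => ?_) _) (ct_or _ _ _)
      simp only [s] at hn
      by_contra hcon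
      push Not at hcon
      obtain ⟨a, b⟩ := hcon
      replace a : s K n = false := by simpa using a
      rw [a, decide_eq_false b] at hn
      exact absurd hn (by decide)
    have h3 : (ct (fun n => s (K + 1) n = true) (N (K + 1)) : ℝ) ≤
        nn K * ct (fun n => s K n = true) (N K) + N K := by exact_mod_cast h1
    refine h3.trans ?_
    have h4 : ((N (K + 1) : ℕ) : ℝ) = N K * nn K := by
      change ((N K * nn K : ℕ) : ℝ) = _
      push_cast; rfl
    have hnn : (nn K : ℝ) = 2 ^ K * 32 := by
      unfold nn; push_cast; rw [pow_add]; norm_num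
    have h5 : (nn K : ℝ) * ct (fun n => s K n = true) (N K) ≤
        nn K * (N K / 16 * (1 - (1 / 2) ^ K)) := mul_le_mul_of_nonneg_left ih (Nat.cast_nonneg _)
    rw [h4]
    have h6 : (nn K : ℝ) * (1 / 2) ^ K = 32 := by
      rw [hnn, div_pow, one_pow]; field_simp
    have h7 : (N K : ℝ) * nn K / 16 * (1 - (1 / 2) ^ (K + 1)) =
        nn K * (N K / 16 * (1 - (1 / 2) ^ K)) + N K := by
      have : (1 / 2 : ℝ) ^ (K + 1) = (1 / 2) ^ K / 2 := by rw [pow_succ]; ring
      rw [this]
      linear_combination (N K : ℝ) / 32 * h6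
    linarith

lemma ct_s' (K : ℕ) : 16 * ct (fun n => s K n = true) (N K) ≤ N K := by
  have h := ct_s K
  have h1 : (0 : ℝ) ≤ (1 / 2) ^ K := by positivity
  have h2 : (0 : ℝ) ≤ N K := Nat.cast_nonneg _
  have h3 : (16 * ct (fun n => s K n = true) (N K) : ℝ) ≤ N K := by nlinarith
  exact_mod_cast h3

/-! ### The points -/

/-- the prescribed parities -/
def e (α : ℕ → Bool) (K : ℕ) : Bool := if K % 2 = 1 then α (Nat.unpair (K / 2)).1 else false

/-- the residues -/
def m (α : ℕ → Bool) : ℕ → ℕ
  | 0 => 0
  | K + 1 => m α K + (if xor (e α K) (e α (K + 1)) then N K else 0)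

lemma m_le (α : ℕ → Bool) (K : ℕ) : 2 * m α K ≤ N K := by
  induction K with
  | zero => simp [m]
  | succ K ih =>
    have := N_succ_ge K
    simp only [m]
    split_ifs <;> omega

lemma m_lt (α : ℕ → Bool) (K : ℕ) : m α K < N K := by
  have := m_le α K
  have := N_pos K
  omega

lemma m_mod {j k : ℕ} (α : ℕ → Bool) (h : j ≤ k) : m α k % N j = m α j := by
  induction k, h using Nat.le_induction with
  | base => exact Nat.mod_eq_of_lt (m_lt α j)
  | succ k hk ih =>
    simp only [m]
    split_ifs
    · obtain ⟨c, hc⟩ := N_dvd hk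
      rw [hc, Nat.add_mul_mod_self_left, ih]
    · rw [add_zero, ih]

/-- the value at `i` computed at the level `K` -/
def u (α : ℕ → Bool) (i K : ℕ) : Bool := xor (s K (m α K + i)) (e α K)

lemma u_succ {α : ℕ → Bool} {i K : ℕ} (h : 2 * i < N K) : u α i (K + 1) = u α i K := by
  have hm := m_le α K
  have h1 : m α K + i < N K := by omega
  unfold u
  have h2 : m α (K + 1) + i = (m α K + i) + (if xor (e α K) (e α (K + 1)) then N K else 0) := by
    simp only [m]; ring
  rw [h2, s_add h1]
  generalize s K (m α K + i) = a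
  generalize e α K = b
  generalize e α (K + 1) = c
  cases a <;> cases b <;> cases c <;> rfl

lemma u_eq {α : ℕ → Bool} {i K K' : ℕ} (h : 2 * i < N K) (hK : K ≤ K') :
    u α i K' = u α i K := by
  induction K', hK using Nat.le_induction with
  | base => rfl
  | succ k hk ih => rw [u_succ (h.trans_le (N_mono hk)), ih]

/-- the sequence of the address `α` -/
def x (α : ℕ → Bool) (i : ℕ) : Bool := u α i (i + 1)

lemma x_eq {α : ℕ → Bool} {i K : ℕ} (h : 2 * i < N K) : x α i = u α i K := by
  unfold x
  have h1 : 2 * i < N (i + 1) := by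
    have := N_succ_ge i
    have := N_gt i
    omega
  rcases le_total K (i + 1) with h2 | h2
  · exact u_eq h h2
  · exact (u_eq h1 h2).symm

lemma x_rule {α : ℕ → Bool} {i K : ℕ} (h : ¬ N K ∣ m α K + i + 1) :
    xor (x α i) (x α (i + 1)) = xor (s K (m α K + i)) (s K (m α K + i + 1)) := by
  set K' := max K (2 * (i + 1)) with hK'
  have h1 : 2 * (i + 1) < N K' := lt_of_le_of_lt (le_max_right _ _) (N_gt K')
  rw [x_eq (K := K') (by omega), x_eq (K := K') h1]
  have h2 : m α K' % N K = m α K := m_mod α (le_max_left _ _)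
  have h3 : ¬ N K ∣ (m α K' + i) + 1 := by
    intro hd
    apply h
    rw [Nat.dvd_iff_mod_eq_zero] at hd ⊢
    rw [← hd, ← h2]
    simp [Nat.add_mod]
  have h4 := s_succ h3 (le_max_left K (2 * (i + 1)))
  rw [← hK'] at h4
  have h5 : s K (m α K' + i) = s K (m α K + i) := s_mod (by rw [← h2]; simp [Nat.add_mod])
  have h6 : s K (m α K' + i + 1) = s K (m α K + i + 1) := s_mod (by rw [← h2]; simp [Nat.add_mod])
  rw [h5, h6] at h4
  rw [← h4]
  unfold u
  rw [← add_assoc]
  generalize s K' (m α K' + i) = a
  generalize s K' (m α K' + i + 1) = b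
  generalize e α K' = c
  cases a <;> cases b <;> cases c <;> rfl

lemma ct_shift_s (α : ℕ → Bool) (K : ℕ) :
    16 * ct (fun i => s K (m α K + i) = true) (N K / 2) ≤ N K := by
  refine le_trans (Nat.mul_le_mul_left _ ?_) (ct_s' K)
  have h1 : N K / 2 + m α K ≤ N K := by have := m_le α K; omega
  refine le_trans ?_ (ct_mono_T (fun n => s K n = true) h1)
  have := ct_shift_le (fun n => s K n = true) (m α K) (N K / 2)
  refine le_trans (le_of_eq ?_) this
  congr 1
  funext k
  rw [add_comm]

/-- many agreements -/
lemma ct_agree {α β : ℕ → Bool} {K : ℕ} (h : e α K = e β K) :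
    8 * ct (fun i => x α i ≠ x β i) (N K / 2) ≤ N K := by
  have h1 : ct (fun i => x α i ≠ x β i) (N K / 2) ≤
      ct (fun i => s K (m α K + i) = true) (N K / 2) +
      ct (fun i => s K (m β K + i) = true) (N K / 2) := by
    refine le_trans ?_ (ct_or _ _ _)
    classical
    refine Finset.card_le_card fun i hi => ?_
    simp only [Finset.mem_filter, Finset.mem_range] at hi ⊢
    refine ⟨hi.1, ?_⟩
    by_contra hcon
    push Not at hcon
    obtain ⟨a, b⟩ := hcon
    replace a : s K (m α K + i) = false := by simpa using a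
    replace b : s K (m β K + i) = false := by simpa using b
    apply hi.2
    rw [x_eq (K := K) (by omega), x_eq (K := K) (by omega)]
    unfold u
    rw [a, b, h]
  have h2 := ct_shift_s α K
  have h3 := ct_shift_s β K
  omega

/-- many disagreements -/
lemma ct_disagree {α β : ℕ → Bool} {K : ℕ} (h : e α K ≠ e β K) :
    8 * ct (fun i => x α i = x β i) (N K / 2) ≤ N K := by
  have h1 : ct (fun i => x α i = x β i) (N K / 2) ≤
      ct (fun i => s K (m α K + i) = true) (N K / 2) +
      ct (fun i => s K (m β K + i) = true) (N K / 2) := by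
    refine le_trans ?_ (ct_or _ _ _)
    classical
    refine Finset.card_le_card fun i hi => ?_
    simp only [Finset.mem_filter, Finset.mem_range] at hi ⊢
    refine ⟨hi.1, ?_⟩
    by_contra hcon
    push Not at hcon
    obtain ⟨a, b⟩ := hcon
    replace a : s K (m α K + i) = false := by simpa using a
    replace b : s K (m β K + i) = false := by simpa using b
    apply h
    have := hi.2
    rw [x_eq (K := K) (by omega), x_eq (K := K) (by omega)] at this
    unfold u at this
    rw [a, b] at this
    simpa using this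
  have h2 := ct_shift_s α K
  have h3 := ct_shift_s β K
  omega

end Q69Morse
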