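import Mathlib

/-!
# An unbounded recurrent cocycle of the integers in a Hilbert space

`b n = (2^k (e^{2 π i n / 2^{k(k+1)}} - 1))_k`.
-/

set_option autoImplicit false
open Filter Topology Set

namespace Q69.NullCocycle

/-- the character `n ↦ e^{2 π i n / 2^{k(k+1)}}` -/
noncomputable def chi (k : ℕ) (n : ℤ) : ℂ :=
  Complex.exp (((2 * Real.pi * n / 2 ^ (k * (k + 1)) : ℝ) : ℂ) * Complex.I)

lemma chi_norm (k : ℕ) (n : ℤ) : ‖chi k n‖ = 1 := Complex.norm_exp_ofReal_mul_I _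

lemma chi_add (k : ℕ) (m n : ℤ) : chi k (m + n) = chi k m * chi k n := by
  unfold chi
  rw [← Complex.exp_add]
  congr 1
  push_cast
  ring

lemma chi_sub_one (k : ℕ) (n : ℤ) : ‖chi k n - 1‖ ≤ 2 * Real.pi * |(n : ℝ)| / 2 ^ (k * (k + 1)) := by
  unfold chi
  have h := Real.norm_exp_I_mul_ofReal_sub_one_le (x := 2 * Real.pi * n / 2 ^ (k * (k + 1)))
  rw [mul_comm]
  refine h.trans (le_of_eq ?_)
  rw [Real.norm_eq_abs, abs_div, abs_mul, abs_mul, abs_two, abs_of_pos Real.pi_pos,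
    abs_of_pos (by positivity : (0 : ℝ) < 2 ^ (k * (k + 1)))]

/-- coordinates of the cocycle -/
noncomputable def cc (n : ℤ) (k : ℕ) : ℂ := 2 ^ k * (chi k n - 1)

lemma cc_le (n : ℤ) (k : ℕ) : ‖cc n k‖ ≤ 2 * Real.pi * |(n : ℝ)| * (1 / 2) ^ k := by
  unfold cc
  rw [norm_mul, norm_pow, Complex.norm_ofNat]
  calc 2 ^ k * ‖chi k n - 1‖ ≤ 2 ^ k * (2 * Real.pi * |(n : ℝ)| / 2 ^ (k * (k + 1))) := by
        gcongr; exact chi_sub_one k n
    _ = 2 * Real.pi * |(n : ℝ)| * (2 ^ k / 2 ^ (k * (k + 1))) := by ring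
    _ ≤ 2 * Real.pi * |(n : ℝ)| * (1 / 2) ^ k := by
        apply mul_le_mul_of_nonneg_left _ (by positivity)
        rcases Nat.eq_zero_or_pos k with rfl | hk
        · simp
        · rw [one_div, inv_pow, ← one_div, div_le_div_iff₀ (by positivity) (by positivity), one_mul,
            ← pow_add]
          apply pow_le_pow_right₀ (by norm_num)
          nlinarith

lemma cc_mem (n : ℤ) : Memℓp (cc n) 2 := by
  apply memℓp_gen
  have h : Summable fun k : ℕ => (2 * Real.pi * |(n : ℝ)|) ^ 2 * (1 / 4 : ℝ) ^ k :=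
    (summable_geometric_of_lt_one (by norm_num) (by norm_num)).mul_left _
  refine Summable.of_nonneg_of_le (fun k => by positivity) (fun k => ?_) h
  have h2 : (2 : ENNReal).toReal = 2 := by norm_num
  rw [h2, Real.rpow_two]
  calc ‖cc n k‖ ^ 2 ≤ (2 * Real.pi * |(n : ℝ)| * (1 / 2) ^ k) ^ 2 := by
        gcongr; exact cc_le n k
    _ = (2 * Real.pi * |(n : ℝ)|) ^ 2 * (1 / 4 : ℝ) ^ k := by
        rw [mul_pow, ← pow_mul, mul_comm k 2, pow_mul]; norm_num

/-- the Hilbert space -/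
abbrev HH : Type := lp (fun _ : ℕ => ℂ) 2

/-- the cocycle -/
noncomputable def bb (n : ℤ) : HH := ⟨cc n, cc_mem n⟩

lemma norm_sq_eq (x : HH) : ‖x‖ ^ 2 = ∑' k, ‖x k‖ ^ 2 := by
  have h := lp.norm_rpow_eq_tsum (p := 2) (by norm_num) x
  have h2 : (2 : ENNReal).toReal = 2 := by norm_num
  rw [h2] at h
  simpa [Real.rpow_two] using h

lemma bb_diff (m n : ℤ) : ‖bb m - bb n‖ = ‖bb (m - n)‖ := by
  have h : ‖bb m - bb n‖ ^ 2 = ‖bb (m - n)‖ ^ 2 := by
    rw [norm_sq_eq, norm_sq_eq]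
    congr 1
    funext k
    have e1 : (bb m - bb n : HH) k = cc m k - cc n k := rfl
    have e2 : (bb (m - n) : HH) k = cc (m - n) k := rfl
    rw [e1, e2]
    have e3 : cc m k - cc n k = chi k n * cc (m - n) k := by
      unfold cc
      have : chi k m = chi k n * chi k (m - n) := by rw [← chi_add]; congr 1; ring
      rw [this]; ring
    rw [e3, norm_mul, chi_norm, one_mul]
  have h1 := norm_nonneg (bb m - bb n)
  have h2 := norm_nonneg (bb (m - n))
  exact (pow_left_inj₀ h1 h2 (by norm_num)).1 h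

/-- the recurrence times -/
def pp (j : ℕ) : ℕ := 2 ^ (j * (j + 1))

lemma pp_tendsto : Tendsto pp atTop atTop := by
  apply tendsto_atTop_mono (f := fun j : ℕ => j)
  · intro j
    unfold pp
    calc j ≤ 2 ^ j := Nat.lt_two_pow_self.le
      _ ≤ 2 ^ (j * (j + 1)) := Nat.pow_le_pow_right (by norm_num) (by nlinarith)
  · exact tendsto_id

lemma chi_pp {k j : ℕ} (h : k ≤ j) : chi k (pp j) = 1 := by
  unfold chi pp
  have hle : k * (k + 1) ≤ j * (j + 1) := by nlinarith
  have e : (2 * Real.pi * (((2 ^ (j * (j + 1)) : ℕ) : ℤ) : ℝ) / 2 ^ (k * (k + 1)) : ℝ) =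
      ((2 ^ (j * (j + 1) - k * (k + 1)) : ℕ) : ℝ) * (2 * Real.pi) := by
    have : (2 : ℝ) ^ (j * (j + 1)) = 2 ^ (j * (j + 1) - k * (k + 1)) * 2 ^ (k * (k + 1)) := by
      rw [← pow_add]; congr 1; omega
    push_cast
    rw [this]
    field_simp
  rw [e]
  have := Complex.exp_nat_mul_two_pi_mul_I (2 ^ (j * (j + 1) - k * (k + 1)))
  rw [← this]
  congr 1
  push_cast
  ring

lemma cc_pp_le (j k : ℕ) : ‖cc (pp j) k‖ ≤ 2 * Real.pi * (1 / 2) ^ k := by
  rcases le_or_gt k j with h | h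
  · unfold cc
    rw [chi_pp h]
    simp only [sub_self, mul_zero, norm_zero]
    positivity
  · unfold cc
    rw [norm_mul, norm_pow, Complex.norm_ofNat]
    calc 2 ^ k * ‖chi k (pp j) - 1‖ ≤ 2 ^ k * (2 * Real.pi * |(((pp j : ℕ) : ℤ) : ℝ)| / 2 ^ (k * (k + 1))) := by
          gcongr; exact chi_sub_one k _
      _ = 2 * Real.pi * (2 ^ k * 2 ^ (j * (j + 1)) / 2 ^ (k * (k + 1))) := by
          have : |(((pp j : ℕ) : ℤ) : ℝ)| = 2 ^ (j * (j + 1)) := by
            unfold pp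
            push_cast
            exact abs_of_pos (by positivity)
          rw [this]; ring
      _ ≤ 2 * Real.pi * (1 / 2) ^ k := by
          apply mul_le_mul_of_nonneg_left _ (by positivity)
          rw [one_div, inv_pow, ← one_div, div_le_div_iff₀ (by positivity) (by positivity), one_mul,
            ← pow_add, ← pow_add]
          apply pow_le_pow_right₀ (by norm_num)
          obtain ⟨d, rfl⟩ := Nat.exists_eq_add_of_lt h
          nlinarith

lemma bb_pp : Tendsto (fun j => ‖bb (pp j)‖) atTop (𝓝 0) := by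
  have h : Tendsto (fun j => ‖bb (pp j)‖ ^ 2) atTop (𝓝 0) := by
    have h1 : Tendsto (fun j => ∑' k, ‖cc (pp j) k‖ ^ 2) atTop (𝓝 (∑' _k : ℕ, (0 : ℝ))) := by
      apply tendsto_tsum_of_dominated_convergence
        (bound := fun k => (2 * Real.pi) ^ 2 * (1 / 4 : ℝ) ^ k)
      · exact (summable_geometric_of_lt_one (by norm_num) (by norm_num)).mul_left _
      · intro k
        apply tendsto_const_nhds.congr'
        filter_upwards [eventually_ge_atTop k] with j hj
        unfold cc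
        rw [chi_pp hj]; simp
      · refine Eventually.of_forall fun j k => ?_
        rw [Real.norm_of_nonneg (by positivity)]
        calc ‖cc (pp j) k‖ ^ 2 ≤ (2 * Real.pi * (1 / 2) ^ k) ^ 2 := by
              gcongr; exact cc_pp_le j k
          _ = (2 * Real.pi) ^ 2 * (1 / 4 : ℝ) ^ k := by
              rw [mul_pow, ← pow_mul, mul_comm k 2, pow_mul]; norm_num
    rw [tsum_zero] at h1
    refine h1.congr fun j => ?_
    rw [norm_sq_eq]
    rfl
  have h2 := (Real.continuous_sqrt.tendsto 0).comp h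
  rw [Real.sqrt_zero] at h2
  refine h2.congr fun j => ?_
  simp [Real.sqrt_sq (norm_nonneg _)]

lemma bb_unbounded (R : ℝ) : ∃ n : ℕ, R ≤ ‖bb n‖ := by
  obtain ⟨k, hk⟩ := exists_nat_ge R
  refine ⟨2 ^ ((k + 1) * (k + 1 + 1) - 1), ?_⟩
  set n : ℕ := 2 ^ ((k + 1) * (k + 1 + 1) - 1) with hn
  have h1 : ‖(bb n : HH) (k + 1)‖ ≤ ‖bb n‖ := lp.norm_apply_le_norm (by norm_num) _ _
  have h2 : ‖(bb n : HH) (k + 1)‖ = 2 ^ (k + 1) * 2 := by
    have e1 : (bb n : HH) (k + 1) = cc n (k + 1) := rfl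
    rw [e1]
    unfold cc
    have e2 : chi (k + 1) (n : ℤ) = -1 := by
      unfold chi
      have e3 : (2 * Real.pi * ((n : ℤ) : ℝ) / 2 ^ ((k + 1) * (k + 1 + 1)) : ℝ) = Real.pi := by
        rw [hn]
        have : (2 : ℝ) ^ ((k + 1) * (k + 1 + 1)) = 2 * 2 ^ ((k + 1) * (k + 1 + 1) - 1) := by
          have h5 : 0 < (k + 1) * (k + 1 + 1) := by positivity
          rw [← pow_succ']
          congr 1
        push_cast
        rw [this]
        field_simp
      rw [e3, Complex.exp_pi_mul_I]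
    rw [e2, norm_mul, norm_pow, Complex.norm_ofNat]
    norm_num
  have h3 : (k : ℝ) ≤ 2 ^ (k + 1) * 2 := by
    have : k < 2 ^ k := Nat.lt_two_pow_self
    have h4 : (k : ℝ) < 2 ^ k := by exact_mod_cast this
    rw [pow_succ]
    have : (0 : ℝ) < 2 ^ k := by positivity
    linarith
  linarith

end Q69.NullCocycle
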