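import Mathlib

/-!
# Counting distance patterns in a Hilbert space

For a slowly varying Lipschitz function `φ`, the patterns `(φ ‖P s - M‖)_s`, `M` in a real inner
product space, seen with accuracy `ε`, are at most polynomially many in the number of points `P s`.
-/

set_option autoImplicit false
open Finset

namespace Q69.NullCoding

variable {E : Type*} [NormedAddCommGroup E] [InnerProductSpace ℝ E]

open Classical in
/-- the approximants of the greedy (perceptron) procedure -/
noncomputable def approx {ι : Type*} [Fintype ι] (Q : ι → E) (η : ℝ) : ℕ → Finset E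
  | 0 => {0}
  | t + 1 => (univ : Finset (Option (ι × Bool))).biUnion fun o =>
      (approx Q η t).image fun v => v + (match o with
        | none => 0
        | some (s, true) => η • Q s
        | some (s, false) => -(η • Q s))

lemma card_approx {ι : Type*} [Fintype ι] (Q : ι → E) (η : ℝ) (t : ℕ) :
    (approx Q η t).card ≤ (2 * Fintype.card ι + 1) ^ t := by
  classical
  induction t with
  | zero => simp [approx]
  | succ t ih =>
    rw [approx, pow_succ, mul_comm]
    refine (card_biUnion_le_card_mul _ _ _ (fun o _ => card_image_le)).trans ?_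
    rw [card_univ, Fintype.card_option, Fintype.card_prod, Fintype.card_bool]
    rw [mul_comm (Fintype.card ι) 2]
    exact Nat.mul_le_mul_left _ ih

lemma greedy {ι : Type*} [Fintype ι] (Q : ι → E) {B δ : ℝ} (hB : 0 < B) (hδ : 0 < δ)
    (I : Set ι) (hQ : ∀ s ∈ I, ‖Q s‖ ≤ B) (t : ℕ) : ∀ v : E, ‖v‖ ^ 2 ≤ t * (δ ^ 2 / B ^ 2) →
    ∃ w ∈ approx Q (δ / B ^ 2) t, ∀ s ∈ I, |inner ℝ (v - w) (Q s)| ≤ δ := by
  classical
  induction t with
  | zero =>
    intro v hv
    have hv0 : v = 0 := by
      have : ‖v‖ ^ 2 ≤ 0 := by simpa using hv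
      have : ‖v‖ = 0 := by nlinarith [norm_nonneg v]
      exact norm_eq_zero.1 this
    refine ⟨0, by simp [approx], fun s _ => ?_⟩
    rw [hv0]; simp [hδ.le]
  | succ t ih =>
    intro v hv
    by_cases h : ∀ s ∈ I, |inner ℝ v (Q s)| ≤ δ
    · have key : ∀ t, (0 : E) ∈ approx Q (δ / B ^ 2) t := by
        intro t
        induction t with
        | zero => simp [approx]
        | succ t ih =>
          rw [approx, mem_biUnion]
          exact ⟨none, mem_univ _, mem_image.2 ⟨0, ih, by simp⟩⟩
      refine ⟨0, key _, fun s hs => ?_⟩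
      rw [sub_zero]; exact h s hs
    · push Not at h
      obtain ⟨s, hs, hδs⟩ := h
      set η := δ / B ^ 2 with hη
      have hη0 : 0 < η := by positivity
      -- the sign
      obtain ⟨σ, hσ, hσ'⟩ : ∃ σ : ℝ, (σ = 1 ∨ σ = -1) ∧ |inner ℝ v (Q s)| = σ * inner ℝ v (Q s) := by
        rcases le_total 0 (inner ℝ v (Q s)) with h0 | h0
        · exact ⟨1, Or.inl rfl, by rw [abs_of_nonneg h0, one_mul]⟩
        · exact ⟨-1, Or.inr rfl, by rw [abs_of_nonpos h0]; ring⟩
      have hσ2 : σ ^ 2 = 1 := by rcases hσ with h | h <;> rw [h] <;> norm_num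
      have hv1 : ‖v - (σ * η) • Q s‖ ^ 2 ≤ t * (δ ^ 2 / B ^ 2) := by
        rw [norm_sub_sq_real, inner_smul_right, norm_smul, mul_pow]
        have e1 : ‖σ * η‖ ^ 2 = η ^ 2 := by
          rw [Real.norm_eq_abs, sq_abs, mul_pow, hσ2, one_mul]
        rw [e1]
        have e2 : 2 * (σ * η * inner ℝ v (Q s)) = 2 * η * |inner ℝ v (Q s)| := by rw [hσ']; ring
        rw [e2]
        have e3 : ‖Q s‖ ^ 2 ≤ B ^ 2 := by
          have := hQ s hs
          have := norm_nonneg (Q s)
          nlinarith
        have e4 : η ^ 2 * ‖Q s‖ ^ 2 ≤ η * δ := by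
          calc η ^ 2 * ‖Q s‖ ^ 2 ≤ η ^ 2 * B ^ 2 := by gcongr
            _ = η * δ := by rw [hη]; field_simp
        have e5 : 2 * η * δ ≤ 2 * η * |inner ℝ v (Q s)| := by
          apply mul_le_mul_of_nonneg_left hδs.le; positivity
        have e6 : η * δ = δ ^ 2 / B ^ 2 := by rw [hη]; field_simp
        push_cast at hv
        nlinarith
      obtain ⟨w, hw, hw'⟩ := ih _ hv1
      refine ⟨w + (σ * η) • Q s, ?_, fun r hr => ?_⟩
      · rw [approx, mem_biUnion]
        rcases hσ with h1 | h1
        · refine ⟨some (s, true), mem_univ _, mem_image.2 ⟨w, hw, ?_⟩⟩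
          simp [h1, hη]
        · refine ⟨some (s, false), mem_univ _, mem_image.2 ⟨w, hw, ?_⟩⟩
          simp [h1, hη]
      · have := hw' r hr
        rwa [show v - (w + (σ * η) • Q s) = v - (σ * η) • Q s - w by abel]

/-- slow variation at infinity -/
def SlowVar (φ : ℝ → ℝ) : Prop :=
  ∀ ε > 0, ∃ R : ℝ, 1 ≤ R ∧ ∀ u v, R ≤ u → R ≤ v → u ≤ 4 * v → v ≤ 4 * u → |φ u - φ v| ≤ ε

/-- The coding lemma. -/
theorem coding {φ : ℝ → ℝ} (h01 : ∀ u, 0 ≤ φ u ∧ φ u ≤ 1)
    (hlip : ∀ u v, 0 ≤ u → 0 ≤ v → |φ u - φ v| ≤ |u - v|) (hslow : SlowVar φ) {ε : ℝ} (hε : 0 < ε) :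
    ∃ C : ℕ, ∀ (N : ℕ) (P : Fin N → E), 0 < N → ∀ F : Finset E,
      (∀ M ∈ F, ∀ M' ∈ F, M ≠ M' → ∃ s, ε < |φ ‖P s - M‖ - φ ‖P s - M'‖|) →
      F.card ≤ C * (2 * N + 1) ^ C := by
  classical
  obtain ⟨R, hR1, hR⟩ := hslow (ε / 3) (by positivity)
  have hR0 : 0 < R := by linarith
  set δ : ℝ := ε ^ 2 / 5 with hδ
  have hδ0 : 0 < δ := by positivity
  -- number of steps and grids
  obtain ⟨t, ht⟩ := exists_nat_ge (R ^ 2 / (δ ^ 2 / (4 * R) ^ 2))
  obtain ⟨G, hG⟩ := exists_nat_gt (3 / ε)
  obtain ⟨G', hG'⟩ := exists_nat_gt (R ^ 2 / δ)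
  have hG0 : (0 : ℝ) < G := lt_trans (by positivity) hG
  refine ⟨max (G + G' + 2) (t + 2), fun N P hN F hF => ?_⟩
  haveI : Nonempty (Fin N) := ⟨⟨0, hN⟩⟩
  -- the minimiser
  have hmin : ∀ M : E, ∃ s0 : Fin N, ∀ s, ‖P s0 - M‖ ≤ ‖P s - M‖ := fun M =>
    Finite.exists_min fun s => ‖P s - M‖
  choose s0 hs0 using hmin
  -- distances
  let D : E → Fin N → ℝ := fun M s => ‖P s - P (s0 M)‖
  let r0 : E → ℝ := fun M => ‖P (s0 M) - M‖
  let Near : E → Finset (Fin N) := fun M => univ.filter fun s => D M s ≤ 2 * r0 M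
  -- codes
  let codeA : E → Fin N × ℕ × ℕ := fun M => (s0 M, (Near M).card, ⌊G * φ (r0 M)⌋₊)
  have htri1 : ∀ M s, ‖P s - M‖ ≤ D M s + r0 M := by
    intro M s
    calc ‖P s - M‖ = ‖(P s - P (s0 M)) + (P (s0 M) - M)‖ := by congr 1; abel
      _ ≤ _ := norm_add_le _ _
  have htri2 : ∀ M s, D M s ≤ ‖P s - M‖ + r0 M := by
    intro M s
    calc D M s = ‖(P s - M) - (P (s0 M) - M)‖ := by simp only [D]; congr 1; abel
      _ ≤ _ := norm_sub_le _ _
  -- bound for the far points
  have hA : (F.filter fun M => R ≤ r0 M).card ≤ N * ((N + 1) * (G + 1)) := by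
    have hinj : Set.InjOn codeA (F.filter fun M => R ≤ r0 M) := by
      intro M hM M' hM' hc
      rw [mem_coe, mem_filter] at hM hM'
      by_contra hne
      obtain ⟨s, hs⟩ := hF M hM.1 M' hM'.1 hne
      simp only [codeA, Prod.mk.injEq] at hc
      obtain ⟨c1, c2, c3⟩ := hc
      -- equality of the near sets
      have hD : ∀ s, D M s = D M' s := fun s => by simp only [D, c1]
      have hNear : Near M = Near M' := by
        rcases le_total (r0 M) (r0 M') with h | h
        · apply eq_of_subset_of_card_le _ c2.ge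
          intro s hs
          simp only [Near, mem_filter, mem_univ, true_and] at hs ⊢
          rw [← hD]; linarith
        · symm
          apply eq_of_subset_of_card_le _ c2.le
          intro s hs
          simp only [Near, mem_filter, mem_univ, true_and] at hs ⊢
          rw [hD]; linarith
      have hφ : |φ (r0 M) - φ (r0 M')| ≤ ε / 3 := by
        have a1 := Nat.floor_le (mul_nonneg hG0.le (h01 (r0 M)).1)
        have a2 := Nat.lt_floor_add_one (G * φ (r0 M))
        have a3 := Nat.floor_le (mul_nonneg hG0.le (h01 (r0 M')).1)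
        have a4 := Nat.lt_floor_add_one (G * φ (r0 M'))
        rw [c3] at a1 a2
        have a5 : |G * φ (r0 M) - G * φ (r0 M')| ≤ 1 := by rw [abs_le]; constructor <;> linarith
        rw [← mul_sub, abs_mul, abs_of_pos hG0] at a5
        have a6 : 1 ≤ G * (ε / 3) := by
          rw [div_lt_iff₀ hε] at hG; linarith
        by_contra hcon
        push Not at hcon
        have := mul_lt_mul_of_pos_left hcon hG0
        linarith
      have hrs : r0 M ≤ ‖P s - M‖ := hs0 M s
      have hrs' : r0 M' ≤ ‖P s - M'‖ := hs0 M' s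
      have hRM := hM.2
      have hRM' := hM'.2
      have t1 := htri1 M s
      have t2 := htri2 M s
      have t1' := htri1 M' s
      have t2' := htri2 M' s
      by_cases hns : s ∈ Near M
      · have hns' : s ∈ Near M' := hNear ▸ hns
        simp only [Near, mem_filter, mem_univ, true_and] at hns hns'
        have b1 := hR (‖P s - M‖) (r0 M) (by linarith) hRM (by linarith) (by linarith)
        have b2 := hR (‖P s - M'‖) (r0 M') (by linarith) hRM' (by linarith) (by linarith)
        rw [abs_le] at b1 b2 hφ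
        have : |φ ‖P s - M‖ - φ ‖P s - M'‖| ≤ ε := by
          rw [abs_le]; constructor <;> linarith [b1.1, b1.2, b2.1, b2.2, hφ.1, hφ.2]
        linarith
      · have hns' : s ∉ Near M' := fun h => hns (hNear ▸ h)
        simp only [Near, mem_filter, mem_univ, true_and, not_le] at hns hns'
        have b1 := hR (‖P s - M‖) (D M s) (by linarith) (by linarith) (by linarith) (by linarith)
        have b2 := hR (‖P s - M'‖) (D M' s) (by linarith) (by linarith) (by linarith) (by linarith)
        rw [← hD] at b2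
        rw [abs_le] at b1 b2
        have : |φ ‖P s - M‖ - φ ‖P s - M'‖| ≤ ε := by
          rw [abs_le]; constructor <;> linarith [b1.1, b1.2, b2.1, b2.2]
        linarith
    have hmaps : ∀ M ∈ F.filter (fun M => R ≤ r0 M),
        codeA M ∈ (univ : Finset (Fin N)) ×ˢ (range (N + 1) ×ˢ range (G + 1)) := by
      intro M _
      simp only [codeA, mem_product, mem_univ, true_and, mem_range]
      refine ⟨?_, ?_⟩
      · have : (Near M).card ≤ (univ : Finset (Fin N)).card := card_le_card (subset_univ _)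
        rw [card_univ, Fintype.card_fin] at this
        omega
      · have : ⌊G * φ (r0 M)⌋₊ ≤ G := by
          apply Nat.floor_le_of_le
          nlinarith [(h01 (r0 M)).2]
        omega
    have := card_le_card_of_injOn codeA hmaps hinj
    simpa using this
  -- bound for the close points
  have happ : ∀ M : E, r0 M < R → ∃ w ∈ approx (fun s => P s - P (s0 M)) (δ / (4 * R) ^ 2) t,
      ∀ s ∈ {s | D M s ≤ 4 * R}, |inner ℝ ((M - P (s0 M)) - w) (P s - P (s0 M))| ≤ δ := by
    intro M hM
    apply greedy (fun s => P s - P (s0 M)) (by positivity) hδ0 _ (fun s hs => hs)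
    have h1 : ‖M - P (s0 M)‖ ^ 2 ≤ R ^ 2 := by
      rw [norm_sub_rev]
      have := norm_nonneg (P (s0 M) - M)
      have hM' : ‖P (s0 M) - M‖ < R := hM
      nlinarith
    rw [div_le_iff₀ (by positivity)] at ht
    linarith
  let ww : E → E := fun M => if h : r0 M < R then (happ M h).choose else 0
  have hww1 : ∀ M, r0 M < R → ww M ∈ approx (fun s => P s - P (s0 M)) (δ / (4 * R) ^ 2) t := by
    intro M h
    simp only [ww, dif_pos h]
    exact (happ M h).choose_spec.1
  have hww2 : ∀ M, r0 M < R → ∀ s, D M s ≤ 4 * R →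
      |inner ℝ ((M - P (s0 M)) - ww M) (P s - P (s0 M))| ≤ δ := by
    intro M h
    simp only [ww, dif_pos h]
    exact (happ M h).choose_spec.2
  have hB : (F.filter fun M => r0 M < R).card ≤ N * ((2 * N + 1) ^ t * (G' + 1)) := by
    let codeB : E → (Σ _ : Fin N, E × ℕ) := fun M => ⟨s0 M, (ww M, ⌊r0 M ^ 2 / δ⌋₊)⟩
    have hinj : Set.InjOn codeB (F.filter fun M => r0 M < R) := by
      intro M hM M' hM' hc
      rw [mem_coe, mem_filter] at hM hM'
      by_contra hne
      obtain ⟨s, hs⟩ := hF M hM.1 M' hM'.1 hne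
      simp only [codeB, Sigma.mk.injEq, heq_eq_eq, Prod.mk.injEq] at hc
      obtain ⟨c1, c2, c3⟩ := hc
      have hD : ∀ s, D M s = D M' s := fun s => by simp only [D, c1]
      have hRM := hM.2
      have hRM' := hM'.2
      have t1 := htri1 M s
      have t2 := htri2 M s
      have t1' := htri1 M' s
      have t2' := htri2 M' s
      have n0 : 0 ≤ r0 M := norm_nonneg _
      have n0' : 0 ≤ r0 M' := norm_nonneg _
      by_cases hfar : 4 * R < D M s
      · have hfar' : 4 * R < D M' s := by rw [← hD]; exact hfar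
        have b1 := hR (‖P s - M‖) (D M s) (by linarith) (by linarith) (by linarith) (by linarith)
        have b2 := hR (‖P s - M'‖) (D M' s) (by linarith) (by linarith) (by linarith) (by linarith)
        rw [← hD] at b2
        rw [abs_le] at b1 b2
        have : |φ ‖P s - M‖ - φ ‖P s - M'‖| ≤ ε := by
          rw [abs_le]; constructor <;> linarith [b1.1, b1.2, b2.1, b2.2]
        linarith
      · push Not at hfar
        have hfar' : D M' s ≤ 4 * R := by rw [← hD]; exact hfar
        have g1 := hww2 M hRM s hfar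
        have g2 := hww2 M' hRM' s hfar'
        rw [← c1, ← c2] at g2
        set Q := P s - P (s0 M) with hQ
        have e1 : ∀ M'' : E, ‖P s - M''‖ ^ 2 =
            ‖Q‖ ^ 2 - 2 * inner ℝ Q (M'' - P (s0 M)) + ‖P (s0 M) - M''‖ ^ 2 := by
          intro M''
          rw [norm_sub_rev (P (s0 M)) M'', ← norm_sub_sq_real]
          congr 2
          rw [hQ]; abel
        have f1 := e1 M
        have f2 := e1 M'
        have r1 : ‖P (s0 M) - M'‖ = r0 M' := by simp only [r0, c1]
        have r2 : ‖P (s0 M) - M‖ = r0 M := rfl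
        rw [r1] at f2
        rw [r2] at f1
        rw [inner_sub_left, real_inner_comm] at g1 g2
        -- grid
        have a1 := Nat.floor_le (show 0 ≤ r0 M ^ 2 / δ by positivity)
        have a2 := Nat.lt_floor_add_one (r0 M ^ 2 / δ)
        have a3 := Nat.floor_le (show 0 ≤ r0 M' ^ 2 / δ by positivity)
        have a4 := Nat.lt_floor_add_one (r0 M' ^ 2 / δ)
        rw [c3] at a1 a2
        have a5 : |r0 M ^ 2 - r0 M' ^ 2| ≤ δ := by
          have : |r0 M ^ 2 / δ - r0 M' ^ 2 / δ| ≤ 1 := by
            rw [abs_le]; constructor <;> linarith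
          rwa [← sub_div, abs_div, abs_of_pos hδ0, div_le_one hδ0] at this
        have a6 : |‖P s - M‖ ^ 2 - ‖P s - M'‖ ^ 2| ≤ 5 * δ := by
          rw [f1, f2]
          rw [abs_le] at g1 g2 a5 ⊢
          constructor <;> linarith [g1.1, g1.2, g2.1, g2.2, a5.1, a5.2]
        have a7 : |‖P s - M‖ - ‖P s - M'‖| ≤ ε := by
          have n1 := norm_nonneg (P s - M)
          have n2 := norm_nonneg (P s - M')
          have a8 : (‖P s - M‖ - ‖P s - M'‖) ^ 2 ≤ |‖P s - M‖ ^ 2 - ‖P s - M'‖ ^ 2| := by
            rcases le_total ‖P s - M‖ ‖P s - M'‖ with h | h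
            · rw [abs_of_nonpos (by nlinarith)]; nlinarith
            · rw [abs_of_nonneg (by nlinarith)]; nlinarith
          have a9 : (‖P s - M‖ - ‖P s - M'‖) ^ 2 ≤ ε ^ 2 := by
            have : 5 * δ = ε ^ 2 := by rw [hδ]; ring
            linarith
          exact abs_le_of_sq_le_sq a9 hε.le
        have a10 := hlip ‖P s - M‖ ‖P s - M'‖ (norm_nonneg _) (norm_nonneg _)
        linarith
    have hmaps : ∀ M ∈ F.filter (fun M => r0 M < R),
        codeB M ∈ (univ : Finset (Fin N)).sigma fun i =>
          (approx (fun s => P s - P i) (δ / (4 * R) ^ 2) t) ×ˢ range (G' + 1) := by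
      intro M hM
      rw [mem_filter] at hM
      rw [mem_sigma]
      refine ⟨mem_univ _, ?_⟩
      rw [mem_product]
      refine ⟨hww1 M hM.2, ?_⟩
      rw [mem_range]
      have : ⌊r0 M ^ 2 / δ⌋₊ ≤ G' := by
        apply Nat.floor_le_of_le
        refine le_trans ?_ hG'.le
        apply div_le_div_of_nonneg_right _ hδ0.le
        have n0 : 0 ≤ r0 M := norm_nonneg _
        have := hM.2
        nlinarith
      exact Nat.lt_succ_of_le this
    have h1 := card_le_card_of_injOn codeB hmaps hinj
    rw [card_sigma] at h1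
    refine h1.trans ?_
    calc ∑ i : Fin N, ((approx (fun s => P s - P i) (δ / (4 * R) ^ 2) t) ×ˢ range (G' + 1)).card
        ≤ ∑ _i : Fin N, (2 * N + 1) ^ t * (G' + 1) := by
          apply sum_le_sum
          intro i _
          rw [card_product, card_range]
          have := card_approx (fun s => P s - P i) (δ / (4 * R) ^ 2) t
          rw [Fintype.card_fin] at this
          exact Nat.mul_le_mul_right _ this
      _ = N * ((2 * N + 1) ^ t * (G' + 1)) := by
          rw [sum_const, card_univ, Fintype.card_fin, smul_eq_mul]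
  -- conclusion
  have hsplit : F.card ≤ (F.filter fun M => R ≤ r0 M).card + (F.filter fun M => r0 M < R).card := by
    rw [← card_union_of_disjoint]
    · apply card_le_card
      intro M hM
      rw [mem_union, mem_filter, mem_filter]
      rcases le_or_gt R (r0 M) with h | h
      · exact Or.inl ⟨hM, h⟩
      · exact Or.inr ⟨hM, h⟩
    · rw [disjoint_filter]
      intro M _ h; exact not_lt.2 h
  set C := max (G + G' + 2) (t + 2) with hC
  set Y := 2 * N + 1 with hY
  have hY1 : 1 ≤ Y := by omega
  have hNY : N ≤ Y := by omega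
  have hN1Y : N + 1 ≤ Y := by omega
  have k1 : N * ((N + 1) * (G + 1)) ≤ (G + 1) * Y ^ C := by
    calc N * ((N + 1) * (G + 1)) ≤ Y * (Y * (G + 1)) := by gcongr
      _ = (G + 1) * Y ^ 2 := by ring
      _ ≤ (G + 1) * Y ^ C := by
          apply Nat.mul_le_mul_left
          exact Nat.pow_le_pow_right hY1 (by omega)
  have k2 : N * (Y ^ t * (G' + 1)) ≤ (G' + 1) * Y ^ C := by
    calc N * (Y ^ t * (G' + 1)) ≤ Y * (Y ^ t * (G' + 1)) := by gcongr
      _ = (G' + 1) * Y ^ (t + 1) := by ring
      _ ≤ (G' + 1) * Y ^ C := by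
          apply Nat.mul_le_mul_left
          exact Nat.pow_le_pow_right hY1 (by omega)
  calc F.card ≤ (G + 1) * Y ^ C + (G' + 1) * Y ^ C := hsplit.trans (add_le_add (hA.trans k1) (hB.trans k2))
    _ = (G + G' + 2) * Y ^ C := by ring
    _ ≤ C * Y ^ C := Nat.mul_le_mul_right _ (le_max_left _ _)

end Q69.NullCoding
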