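import Pool.Agent.Q69.NullCoding

/-!
# A transitive null system that is not mean equicontinuous

The system is the orbit closure of `f(n) = φ ‖b n‖` under the shift of `[0,1]^ℕ`, for a suitable
cocycle `b : ℤ → E` with values in a Hilbert space.
-/

set_option autoImplicit false
open Filter Topology Set

namespace Q69.NullSystem

open Q69.NullCoding

/-! ### The slowly varying function -/

/-- `φ(u) = (1 - cos (log (1 + log (1 + u)))) / 2` -/
noncomputable def phi (u : ℝ) : ℝ := (1 - Real.cos (Real.log (1 + Real.log (1 + u)))) / 2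

lemma phi_mem (u : ℝ) : 0 ≤ phi u ∧ phi u ≤ 1 := by
  have h1 := Real.cos_le_one (Real.log (1 + Real.log (1 + u)))
  have h2 := Real.neg_one_le_cos (Real.log (1 + Real.log (1 + u)))
  unfold phi
  constructor <;> linarith

lemma log_sub_le {u v : ℝ} (hu : 0 < u) (huv : u ≤ v) : Real.log v - Real.log u ≤ (v - u) / u := by
  have hv : 0 < v := lt_of_lt_of_le hu huv
  rw [← Real.log_div hv.ne' hu.ne']
  have := Real.log_le_sub_one_of_pos (div_pos hv hu)
  calc Real.log (v / u) ≤ v / u - 1 := this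
    _ = (v - u) / u := by field_simp

lemma cos_lip (x y : ℝ) : |Real.cos x - Real.cos y| ≤ |x - y| := by
  rw [Real.cos_sub_cos, abs_mul, abs_mul]
  have h1 := Real.abs_sin_le_one ((x + y) / 2)
  have h2 : |Real.sin ((x - y) / 2)| ≤ |(x - y) / 2| := Real.abs_sin_le_abs
  have h3 : |(x - y) / 2| = |x - y| / 2 := by rw [abs_div, abs_two]
  rw [h3] at h2
  have h4 : |(-2 : ℝ)| = 2 := by norm_num
  rw [h4]
  have h5 := abs_nonneg (Real.sin ((x - y) / 2))
  nlinarith [abs_nonneg (Real.sin ((x + y) / 2))]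

/-- the inner function -/
noncomputable def LL (u : ℝ) : ℝ := Real.log (1 + Real.log (1 + u))

lemma phi_sub (u v : ℝ) : |phi u - phi v| ≤ |LL u - LL v| / 2 := by
  have : phi u - phi v = -(Real.cos (LL u) - Real.cos (LL v)) / 2 := by
    unfold phi LL; ring
  rw [this, abs_div, abs_neg, abs_two]
  exact div_le_div_of_nonneg_right (cos_lip _ _) (by norm_num)

lemma LL_mono {u v : ℝ} (hu : 0 ≤ u) (huv : u ≤ v) : LL u ≤ LL v := by
  unfold LL
  have h1 : 0 ≤ Real.log (1 + u) := Real.log_nonneg (by linarith)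
  apply Real.log_le_log (by linarith)
  have := Real.log_le_log (by linarith : 0 < 1 + u) (by linarith : 1 + u ≤ 1 + v)
  linarith

lemma LL_lip {u v : ℝ} (hu : 0 ≤ u) (huv : u ≤ v) : LL v - LL u ≤ v - u := by
  unfold LL
  have h0 : 0 ≤ Real.log (1 + u) := Real.log_nonneg (by linarith)
  have h1 := log_sub_le (by linarith : 0 < 1 + Real.log (1 + u))
    (by linarith [Real.log_le_log (by linarith : 0 < 1 + u) (by linarith : 1 + u ≤ 1 + v)] :
      1 + Real.log (1 + u) ≤ 1 + Real.log (1 + v))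
  have h2 := log_sub_le (by linarith : 0 < 1 + u) (by linarith : 1 + u ≤ 1 + v)
  have h3 : (1 + v - (1 + u)) / (1 + u) ≤ v - u := by
    rw [div_le_iff₀ (by linarith)]; nlinarith
  have h4 : (1 + Real.log (1 + v) - (1 + Real.log (1 + u))) / (1 + Real.log (1 + u)) ≤
      Real.log (1 + v) - Real.log (1 + u) := by
    have h5 := Real.log_le_log (by linarith : 0 < 1 + u) (by linarith : 1 + u ≤ 1 + v)
    rw [div_le_iff₀ (by linarith)]; nlinarith
  linarith

lemma phi_lip (u v : ℝ) (hu : 0 ≤ u) (hv : 0 ≤ v) : |phi u - phi v| ≤ |u - v| := by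
  refine (phi_sub u v).trans ?_
  rcases le_total u v with h | h
  · have h1 := LL_mono hu h
    have h2 := LL_lip hu h
    rw [abs_of_nonpos (by linarith), abs_of_nonpos (by linarith)]
    linarith
  · have h1 := LL_mono hv h
    have h2 := LL_lip hv h
    rw [abs_of_nonneg (by linarith), abs_of_nonneg (by linarith)]
    linarith

lemma LL_slow {u v : ℝ} (hu : 1 ≤ u) (huv : u ≤ v) (hv : v ≤ 4 * u) :
    LL v - LL u ≤ Real.log 4 / Real.log (1 + u) := by
  unfold LL
  have h0 : 0 < Real.log (1 + u) := Real.log_pos (by linarith)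
  have hmon := Real.log_le_log (by linarith : 0 < 1 + u) (by linarith : 1 + u ≤ 1 + v)
  have h1 := log_sub_le (by linarith : 0 < 1 + Real.log (1 + u))
    (by linarith : 1 + Real.log (1 + u) ≤ 1 + Real.log (1 + v))
  have h2 : Real.log (1 + v) ≤ Real.log 4 + Real.log (1 + u) := by
    rw [← Real.log_mul (by norm_num) (by linarith)]
    exact Real.log_le_log (by linarith) (by linarith)
  have hl4 : 0 ≤ Real.log 4 := Real.log_nonneg (by norm_num)
  refine h1.trans ?_
  rw [div_le_div_iff₀ (by linarith) h0]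
  nlinarith

lemma phi_slow : SlowVar phi := by
  intro ε hε
  -- choose `R` with `log 4 / log (1 + R) ≤ ε`
  set R := max 1 (Real.exp (Real.log 4 / ε)) with hR
  refine ⟨R, le_max_left _ _, fun u v hu hv huv hvu => ?_⟩
  have hl4 : 0 < Real.log 4 := Real.log_pos (by norm_num)
  have key : ∀ u, R ≤ u → Real.log 4 / Real.log (1 + u) ≤ ε := by
    intro u hu
    have h1 : Real.exp (Real.log 4 / ε) ≤ 1 + u := by
      have := (le_max_right 1 (Real.exp (Real.log 4 / ε))).trans hu
      linarith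
    have h2 : Real.log 4 / ε ≤ Real.log (1 + u) := by
      rw [Real.le_log_iff_exp_le (lt_of_lt_of_le (Real.exp_pos _) h1)]; exact h1
    have h3 : 0 < Real.log (1 + u) := lt_of_lt_of_le (by positivity) h2
    rw [div_le_iff₀ h3]
    rw [div_le_iff₀ hε] at h2
    linarith
  have hu1 : 1 ≤ u := (le_max_left _ _).trans hu
  have hv1 : 1 ≤ v := (le_max_left _ _).trans hv
  refine (phi_sub u v).trans ?_
  rcases le_total u v with h | h
  · have h1 := LL_mono (by linarith : 0 ≤ u) h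
    have h2 := LL_slow hu1 h hvu
    have h3 := key u hu
    rw [abs_of_nonpos (by linarith)]
    linarith
  · have h1 := LL_mono (by linarith : 0 ≤ v) h
    have h2 := LL_slow hv1 h huv
    have h3 := key v hv
    rw [abs_of_nonneg (by linarith)]
    linarith

/-- `φ` takes the values `0` and `1` at arbitrarily large arguments. -/
lemma phi_values (c : ℝ) (hc : c = 0 ∨ c = 1) (R : ℝ) : ∃ u, R ≤ u ∧ phi u = c := by
  -- `u = exp (exp (2 π j + c π) - 1) - 1`
  have hlim : Tendsto (fun j : ℕ => Real.exp (Real.exp (j * (2 * Real.pi) + c * Real.pi) - 1) - 1)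
      atTop atTop := by
    have h1 : Tendsto (fun j : ℕ => (j : ℝ) * (2 * Real.pi) + c * Real.pi) atTop atTop := by
      apply tendsto_atTop_add_const_right
      exact tendsto_natCast_atTop_atTop.atTop_mul_const (by positivity)
    have h2 := (Real.tendsto_exp_atTop.comp h1)
    have h3 : Tendsto (fun j : ℕ => Real.exp (j * (2 * Real.pi) + c * Real.pi) - 1) atTop atTop :=
      tendsto_atTop_add_const_right _ (-1) h2
    have h4 := Real.tendsto_exp_atTop.comp h3
    exact tendsto_atTop_add_const_right _ (-1) h4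
  obtain ⟨j, hj⟩ := (hlim.eventually_ge_atTop R).exists
  refine ⟨_, hj, ?_⟩
  unfold phi
  rw [add_sub_cancel, Real.log_exp, add_sub_cancel, Real.log_exp]
  rw [add_comm, Real.cos_add_nat_mul_two_pi]
  rcases hc with h | h <;> rw [h]
  · simp
  · simp

/-! ### The product space -/

/-- The ambient space `[0,1]^ℕ`. -/
abbrev Om : Type := ℕ → unitInterval

attribute [local instance] PiCountable.metricSpace

lemma dist_small {ε : ℝ} (hε : 0 < ε) : ∃ K : ℕ, 0 < K ∧ ∃ ε' > 0, ∀ x y : Om,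
    (∀ k < K, dist (x k) (y k) < ε') → dist x y < ε := by
  obtain ⟨K, hK⟩ := exists_pow_lt_of_lt_one (show 0 < ε / 4 by positivity)
    (show (2 : ℝ)⁻¹ < 1 by norm_num)
  refine ⟨K + 1, Nat.succ_pos _, ε / (4 * (K + 1)), by positivity, fun x y h => ?_⟩
  rw [PiCountable.dist_eq_tsum]
  have hs := PiCountable.dist_summable x y
  rw [← hs.sum_add_tsum_nat_add (K + 1)]
  have h1 : ∑ i ∈ Finset.range (K + 1), min ((2 : ℝ)⁻¹ ^ Encodable.encode i) (dist (x i) (y i)) ≤
      ε / 4 := by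
    calc ∑ i ∈ Finset.range (K + 1), min ((2 : ℝ)⁻¹ ^ Encodable.encode i) (dist (x i) (y i))
        ≤ ∑ _i ∈ Finset.range (K + 1), ε / (4 * (K + 1)) := by
          apply Finset.sum_le_sum
          intro i hi
          exact (min_le_right _ _).trans (h i (Finset.mem_range.1 hi)).le
      _ = ε / 4 := by
          rw [Finset.sum_const, Finset.card_range, nsmul_eq_mul]
          push_cast
          field_simp
  have hg : Summable fun i : ℕ => (2 : ℝ)⁻¹ ^ (i + (K + 1)) := by
    have := (summable_geometric_of_lt_one (by norm_num) (show (2 : ℝ)⁻¹ < 1 by norm_num))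
    exact (summable_nat_add_iff (K + 1)).2 this
  have h2 : ∑' i : ℕ, min ((2 : ℝ)⁻¹ ^ Encodable.encode (i + (K + 1)))
      (dist (x (i + (K + 1))) (y (i + (K + 1)))) ≤ ε / 4 := by
    calc
      ∑' i : ℕ, min ((2 : ℝ)⁻¹ ^ Encodable.encode (i + (K + 1)))
          (dist (x (i + (K + 1))) (y (i + (K + 1)))) ≤ ∑' i : ℕ, (2 : ℝ)⁻¹ ^ (i + (K + 1)) := by
          apply Summable.tsum_le_tsum _ _ hg
          · intro i; exact min_le_left _ _
          · exact (summable_nat_add_iff (K + 1)).2 hs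
      _ = (2 : ℝ)⁻¹ ^ K := by
          simp_rw [pow_add]
          rw [tsum_mul_right, tsum_geometric_of_lt_one (by norm_num) (by norm_num)]
          norm_num
          ring
      _ ≤ ε / 4 := hK.le
  linarith

/-- the shift -/
def sh (x : Om) : Om := fun k => x (k + 1)

lemma sh_cont : Continuous sh :=
  continuous_pi fun i => continuous_apply (A := fun _ : ℕ => unitInterval) (i + 1)

lemma sh_iter (n : ℕ) : ∀ (x : Om) (k : ℕ), (sh^[n] x) k = x (k + n) := by
  induction n with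
  | zero => intro x k; rfl
  | succ n ih =>
    intro x k
    rw [Function.iterate_succ_apply, ih]
    simp only [sh]
    congr 1

/-- orbit closure -/
def oc (f : Om) : Set Om := closure (range fun n : ℕ => sh^[n] f)

lemma sh_mem {f x : Om} (hx : x ∈ oc f) : sh x ∈ oc f := by
  have h1 : sh x ∈ closure (sh '' (range fun n : ℕ => sh^[n] f)) :=
    image_closure_subset_closure_image sh_cont ⟨x, hx, rfl⟩
  refine closure_mono ?_ h1
  rintro _ ⟨_, ⟨n, rfl⟩, rfl⟩
  exact ⟨n + 1, Function.iterate_succ_apply' _ _ _⟩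

/-- the shift on the orbit closure -/
def TT (f : Om) (x : oc f) : oc f := ⟨sh x.1, sh_mem x.2⟩

lemma TT_cont (f : Om) : Continuous (TT f) :=
  (sh_cont.comp continuous_subtype_val).subtype_mk _

lemma TT_iter (f : Om) (n : ℕ) (x : oc f) : ((TT f)^[n] x).1 = sh^[n] x.1 := by
  induction n with
  | zero => rfl
  | succ n ih => rw [Function.iterate_succ_apply', Function.iterate_succ_apply', ← ih]; rfl

/-- neighbourhoods in `[0,1]^ℕ` -/
lemma mem_oc_iff {f x : Om} : x ∈ oc f ↔
    ∀ (S : Finset ℕ) (ε : ℝ), 0 < ε → ∃ n : ℕ, ∀ s ∈ S, dist (f (s + n)) (x s) < ε := by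
  constructor
  · intro hx S ε hε
    have hopen : IsOpen {y : Om | ∀ s ∈ S, dist (y s) (x s) < ε} := by
      have : {y : Om | ∀ s ∈ S, dist (y s) (x s) < ε} = ⋂ s ∈ S, {y : Om | dist (y s) (x s) < ε} := by
        ext; simp
      rw [this]
      apply isOpen_biInter_finset
      intro s _
      exact isOpen_lt ((continuous_apply (A := fun _ : ℕ => unitInterval) s).dist continuous_const)
        continuous_const
    obtain ⟨y, hy, n, hn⟩ := mem_closure_iff.1 hx _ hopen (fun s _ => by simpa using hε)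
    refine ⟨n, fun s hs => ?_⟩
    have := hy s hs
    rw [← hn] at this
    simpa [sh_iter] using this
  · intro h
    rw [oc, mem_closure_iff]
    intro o ho hxo
    obtain ⟨F, u, hu, huo⟩ := isOpen_pi_iff.1 ho x hxo
    -- a common radius
    have hrad : ∃ ε > 0, ∀ s ∈ F, ∀ t : unitInterval, dist t (x s) < ε → t ∈ u s := by
      classical
      have h1 : ∀ s : ℕ, ∃ ε > 0, s ∈ F → ∀ t : unitInterval, dist t (x s) < ε → t ∈ u s := by
        intro s
        by_cases hs : s ∈ F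
        · obtain ⟨ε, hε, hb⟩ := Metric.isOpen_iff.1 (hu s hs).1 (x s) (hu s hs).2
          exact ⟨ε, hε, fun _ t ht => hb ht⟩
        · exact ⟨1, one_pos, fun h => absurd h hs⟩
      choose e he he' using h1
      rcases F.eq_empty_or_nonempty with rfl | hne
      · exact ⟨1, one_pos, by simp⟩
      · refine ⟨F.inf' hne e, ?_, ?_⟩
        · rw [gt_iff_lt, Finset.lt_inf'_iff]; exact fun s _ => he s
        · intro s hs t ht
          exact he' s hs t (lt_of_lt_of_le ht (Finset.inf'_le _ hs))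
    obtain ⟨ε, hε, hε'⟩ := hrad
    obtain ⟨n, hn⟩ := h F ε hε
    refine ⟨sh^[n] f, huo ?_, ⟨n, rfl⟩⟩
    intro s hs
    rw [sh_iter]
    exact hε' s hs _ (hn s hs)

/-- recurrence of the generator gives transitivity -/
lemma transitive_of_recurrent {f : Om} {p : ℕ → ℕ} (hp : Tendsto p atTop atTop)
    (hrec : ∀ k, Tendsto (fun j => f (k + p j)) atTop (𝓝 (f k))) :
    ∀ U V : Set (oc f), IsOpen U → IsOpen V → U.Nonempty → V.Nonempty →
        ∃ n : ℕ, 1 ≤ n ∧ (V ∩ (TT f)^[n] ⁻¹' U).Nonempty := by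
  intro U V hU hV hUne hVne
  let x0 : oc f := ⟨f, subset_closure ⟨0, rfl⟩⟩
  -- density
  have hdense : ∀ W : Set (oc f), IsOpen W → W.Nonempty → ∃ n : ℕ, (TT f)^[n] x0 ∈ W := by
    intro W hW ⟨w, hw⟩
    obtain ⟨O, hO, rfl⟩ := isOpen_induced_iff.1 hW
    obtain ⟨y, hyO, n, hn⟩ := mem_closure_iff.1 w.2 O hO hw
    refine ⟨n, ?_⟩
    rw [mem_preimage, TT_iter]
    have : sh^[n] f = y := hn
    change sh^[n] f ∈ O
    rw [this]; exact hyO
  obtain ⟨n, hn⟩ := hdense U hU hUne
  obtain ⟨m, hm⟩ := hdense V hV hVne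
  have hlim : Tendsto (fun j => (TT f)^[n + p j] x0) atTop (𝓝 ((TT f)^[n] x0)) := by
    rw [tendsto_subtype_rng, tendsto_pi_nhds]
    intro k
    simp only [TT_iter, sh_iter]
    have := hrec (k + n)
    refine this.congr fun j => ?_
    congr 1
    ring
  have hev : ∀ᶠ j in atTop, (TT f)^[n + p j] x0 ∈ U := hlim.eventually (hU.mem_nhds hn)
  obtain ⟨j, hj1, hj2⟩ := (hev.and (hp.eventually_gt_atTop m)).exists
  refine ⟨n + p j - m, by omega, (TT f)^[m] x0, hm, ?_⟩
  rw [mem_preimage, ← Function.iterate_add_apply]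
  rw [show n + p j - m + m = n + p j by omega]
  exact hj1

/-- two fixed points in the orbit closure exclude mean equicontinuity -/
lemma not_meq {f : Om} {o e : oc f} (hoe : o ≠ e) (ho : TT f o = o) (he : TT f e = e)
    (h : ∀ ε : ℝ, 0 < ε → ∃ δ : ℝ, 0 < δ ∧ ∀ x y : oc f, dist x y < δ →
        ∀ᶠ n in atTop,
          (∑ i ∈ Finset.range n, dist ((TT f)^[i] x) ((TT f)^[i] y)) / (n : ℝ) < ε) : False := by
  let x0 : oc f := ⟨f, subset_closure ⟨0, rfl⟩⟩
  haveI : CompactSpace (oc f) := isCompact_iff_compactSpace.1 isClosed_closure.isCompact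
  have hbd : ∀ a b : oc f, dist a b ≤ Metric.diam (univ : Set (oc f)) := fun a b =>
    Metric.dist_le_diam_of_mem isCompact_univ.isBounded (mem_univ a) (mem_univ b)
  set B := Metric.diam (univ : Set (oc f)) with hB
  have hB0 : 0 ≤ B := Metric.diam_nonneg
  have hD : 0 < dist o e := dist_pos.2 hoe
  obtain ⟨δ, hδ, hδ'⟩ := h (dist o e / 4) (by positivity)
  have happr : ∀ w : oc f, ∃ n : ℕ, dist ((TT f)^[n] x0) w < δ := by
    intro w
    have := Metric.mem_closure_iff.1 w.2 δ hδ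
    obtain ⟨y, ⟨n, hn⟩, hy⟩ := this
    refine ⟨n, ?_⟩
    rw [dist_comm, Subtype.dist_eq, TT_iter]
    have e1 : sh^[n] f = y := hn
    change dist w.1 (sh^[n] f) < δ
    rw [e1]; exact hy
  have hfix : ∀ w : oc f, TT f w = w → ∀ i, (TT f)^[i] w = w := fun w hw i =>
    Function.iterate_fixed hw i
  have key : ∀ w : oc f, TT f w = w → ∃ m : ℕ, ∀ᶠ n : ℕ in atTop,
      ∑ i ∈ Finset.range n, dist ((TT f)^[i] x0) w ≤ m * B + n * (dist o e / 4) := by
    intro w hw
    obtain ⟨m, hm⟩ := happr w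
    refine ⟨m, ?_⟩
    filter_upwards [hδ' _ _ hm, eventually_gt_atTop 0] with n hn hn0
    have hn0' : (0 : ℝ) < n := by exact_mod_cast hn0
    rw [div_lt_iff₀ hn0'] at hn
    have h1 : ∑ i ∈ Finset.range n, dist ((TT f)^[i] x0) w ≤
        ∑ i ∈ Finset.range (m + n), dist ((TT f)^[i] x0) w := by
      apply Finset.sum_le_sum_of_subset_of_nonneg (Finset.range_mono (by omega))
      intro i _ _; exact dist_nonneg
    rw [Finset.sum_range_add] at h1
    have h2 : ∑ i ∈ Finset.range m, dist ((TT f)^[i] x0) w ≤ m * B := by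
      calc ∑ i ∈ Finset.range m, dist ((TT f)^[i] x0) w ≤ ∑ _i ∈ Finset.range m, B :=
            Finset.sum_le_sum fun i _ => hbd _ _
        _ = m * B := by rw [Finset.sum_const, Finset.card_range, nsmul_eq_mul]
    have h3 : ∑ i ∈ Finset.range n, dist ((TT f)^[m + i] x0) w =
        ∑ i ∈ Finset.range n, dist ((TT f)^[i] ((TT f)^[m] x0)) ((TT f)^[i] w) := by
      apply Finset.sum_congr rfl
      intro i _
      rw [hfix w hw, ← Function.iterate_add_apply, add_comm]
    rw [h3] at h1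
    linarith
  obtain ⟨m1, hm1⟩ := key o ho
  obtain ⟨m2, hm2⟩ := key e he
  have hlarge : ∀ᶠ n : ℕ in atTop, 2 * (m1 + m2) * B / dist o e < n :=
    tendsto_natCast_atTop_atTop.eventually_gt_atTop _
  obtain ⟨n, ⟨h1, h2⟩, h3⟩ := ((hm1.and hm2).and hlarge).exists
  rw [div_lt_iff₀ hD] at h3
  have h4 : (n : ℝ) * dist o e ≤ ∑ i ∈ Finset.range n, dist ((TT f)^[i] x0) o +
      ∑ i ∈ Finset.range n, dist ((TT f)^[i] x0) e := by
    rw [← Finset.sum_add_distrib]
    calc (n : ℝ) * dist o e = ∑ _i ∈ Finset.range n, dist o e := by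
          rw [Finset.sum_const, Finset.card_range, nsmul_eq_mul]
      _ ≤ _ := by
          apply Finset.sum_le_sum
          intro i _
          exact dist_triangle_left _ _ _
  nlinarith

/-! ### The main construction -/

variable {E : Type*} [NormedAddCommGroup E] [InnerProductSpace ℝ E]

/-- the generator -/
noncomputable def gen (b : ℤ → E) : Om := fun n => ⟨phi ‖b n‖, phi_mem _⟩

lemma gen_dist (b : ℤ → E) (m n : ℕ) : dist (gen b m) (gen b n) = |phi ‖b m‖ - phi ‖b n‖| := rfl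

lemma gen_null {b : ℤ → E} (hb : ∀ m n, ‖b m - b n‖ = ‖b (m - n)‖) :
    ∀ a : ℕ → ℕ, StrictMono a → ∀ ε : ℝ, 0 < ε → ∀ δ : ℝ, 0 < δ →
        ∀ᶠ n in atTop, ∀ F : Finset (oc (gen b)),
          (∀ x ∈ F, ∀ y ∈ F, x ≠ y → ∃ i < n, ε ≤ dist ((TT (gen b))^[a i] x)
            ((TT (gen b))^[a i] y)) →
          (F.card : ℝ) ≤ Real.exp (δ * n) := by
  intro a _ ε hε δ hδ
  obtain ⟨K, hK, ε', hε', hKε⟩ := dist_small hε
  obtain ⟨C, hC⟩ := coding (E := E) phi_mem phi_lip phi_slow (ε := ε' / 4) (by positivity)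
  -- polynomial against exponential
  have hpoly : ∀ᶠ n : ℕ in atTop, (C : ℝ) * ((2 * (n * K) + 1 : ℕ) : ℝ) ^ C ≤ Real.exp (δ * n) := by
    have h1 := (isLittleO_pow_exp_pos_mul_atTop C hδ)
    have hc : (0 : ℝ) < 1 / (C * (3 * K) ^ C + 1) := by positivity
    have h2 := (h1.bound hc)
    have h3 : ∀ᶠ n : ℕ in atTop, ‖((n : ℝ)) ^ C‖ ≤ 1 / (C * (3 * K) ^ C + 1) *
        ‖Real.exp (δ * (n : ℝ))‖ := tendsto_natCast_atTop_atTop.eventually h2
    filter_upwards [h3, eventually_gt_atTop 0] with n hn hn0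
    have hn1 : (1 : ℝ) ≤ n := by exact_mod_cast hn0
    have hK1 : (1 : ℝ) ≤ K := by exact_mod_cast hK
    rw [Real.norm_of_nonneg (by positivity), Real.norm_of_nonneg (Real.exp_pos _).le] at hn
    have h4 : ((2 * (n * K) + 1 : ℕ) : ℝ) ≤ 3 * K * n := by
      push_cast; nlinarith
    have h5 : ((2 * (n * K) + 1 : ℕ) : ℝ) ^ C ≤ (3 * K * n) ^ C :=
      pow_le_pow_left₀ (by positivity) h4 _
    calc (C : ℝ) * ((2 * (n * K) + 1 : ℕ) : ℝ) ^ C ≤ C * (3 * K * n) ^ C := by gcongr
      _ = (C * (3 * K) ^ C) * (n : ℝ) ^ C := by rw [mul_pow]; ring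
      _ ≤ (C * (3 * K) ^ C) * (1 / (C * (3 * K) ^ C + 1) * Real.exp (δ * n)) := by gcongr
      _ = ((C * (3 * K) ^ C) / (C * (3 * K) ^ C + 1)) * Real.exp (δ * n) := by ring
      _ ≤ 1 * Real.exp (δ * n) := by
          apply mul_le_mul_of_nonneg_right _ (Real.exp_pos _).le
          rw [div_le_one (by positivity)]; linarith
      _ = Real.exp (δ * n) := one_mul _
  filter_upwards [hpoly, eventually_gt_atTop 0] with n hn hn0 F hF
  refine le_trans ?_ hn
  classical
  -- orbit points approximating the elements of `F`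
  let S : Finset ℕ := (Finset.range n ×ˢ Finset.range K).image fun q => q.2 + a q.1
  have hm : ∀ x : oc (gen b), ∃ m : ℕ, ∀ s ∈ S, dist (gen b (s + m)) (x.1 s) < ε' / 4 := fun x =>
    mem_oc_iff.1 x.2 S (ε' / 4) (by positivity)
  choose m hm using hm
  let P : Fin (n * K) → E := fun j => b ((a (j / K) + j % K : ℕ) : ℤ)
  let M : oc (gen b) → E := fun x => b (-(m x : ℤ))
  have hPM : ∀ (i k : ℕ), i < n → k < K → ∃ j : Fin (n * K), ∀ x,
      phi ‖P j - M x‖ = (gen b (k + a i + m x) : ℝ) := by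
    intro i k hi hk
    have hlt : K * i + k < n * K := by
      have : K * (i + 1) ≤ K * n := Nat.mul_le_mul_left _ hi
      rw [mul_comm n K]
      rw [Nat.mul_add, mul_one] at this
      omega
    refine ⟨⟨K * i + k, hlt⟩, fun x => ?_⟩
    have e1 : (K * i + k) / K = i := by
      rw [Nat.mul_add_div hK, Nat.div_eq_of_lt hk, add_zero]
    have e2 : (K * i + k) % K = k := by
      rw [Nat.mul_add_mod, Nat.mod_eq_of_lt hk]
    simp only [P, M, e1, e2]
    rw [hb]
    simp only [gen]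
    congr 3
    push_cast
    ring
  have hsep : ∀ x ∈ F, ∀ y ∈ F, x ≠ y → ∃ j, ε' / 4 < |phi ‖P j - M x‖ - phi ‖P j - M y‖| := by
    intro x hx y hy hxy
    obtain ⟨i, hi, hd⟩ := hF x hx y hy hxy
    rw [Subtype.dist_eq, TT_iter, TT_iter] at hd
    have : ∃ k < K, ε' ≤ dist ((sh^[a i] x.1) k) ((sh^[a i] y.1) k) := by
      by_contra hcon
      push Not at hcon
      exact absurd (hKε _ _ hcon) (not_lt.2 hd)
    obtain ⟨k, hk, hdk⟩ := this
    rw [sh_iter, sh_iter] at hdk
    obtain ⟨j, hj⟩ := hPM i k hi hk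
    refine ⟨j, ?_⟩
    rw [hj x, hj y]
    have hS : k + a i ∈ S := Finset.mem_image.2 ⟨(i, k), by simp [hi, hk], rfl⟩
    have h1 := hm x _ hS
    have h2 := hm y _ hS
    have h3 : dist (x.1 (k + a i)) (y.1 (k + a i)) ≤ dist (x.1 (k + a i)) (gen b (k + a i + m x)) +
        dist (gen b (k + a i + m x)) (gen b (k + a i + m y)) +
        dist (gen b (k + a i + m y)) (y.1 (k + a i)) := dist_triangle4 _ _ _ _
    rw [dist_comm (x.1 (k + a i)) (gen b (k + a i + m x))] at h3
    have h4 : dist (gen b (k + a i + m x)) (gen b (k + a i + m y)) =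
        |(gen b (k + a i + m x) : ℝ) - (gen b (k + a i + m y) : ℝ)| := rfl
    rw [← h4]
    linarith
  have hinj : Set.InjOn M F := by
    intro x hx y hy hxy
    by_contra hne
    obtain ⟨j, hj⟩ := hsep x hx y hy hne
    rw [hxy, sub_self, abs_zero] at hj
    linarith
  have hcard := hC (n * K) P (Nat.mul_pos hn0 hK) (F.image M) (by
    intro A hA A' hA' hne
    obtain ⟨x, hx, rfl⟩ := Finset.mem_image.1 hA
    obtain ⟨y, hy, rfl⟩ := Finset.mem_image.1 hA'
    exact hsep x hx y hy (fun h => hne (by rw [h])))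
  rw [Finset.card_image_of_injOn hinj] at hcard
  exact_mod_cast hcard

lemma const_mem {b : ℤ → E} (hb : ∀ m n, ‖b m - b n‖ = ‖b (m - n)‖)
    (hunb : ∀ R : ℝ, ∃ n : ℕ, R ≤ ‖b n‖) (c : unitInterval) (hc : (c : ℝ) = 0 ∨ (c : ℝ) = 1) :
    (fun _ => c : Om) ∈ oc (gen b) := by
  rw [mem_oc_iff]
  intro S ε hε
  have hb0 : ‖b 0‖ = 0 := by
    have := hb 0 0
    rw [sub_self, sub_self, norm_zero] at this
    exact this.symm
  have htri : ∀ m n : ℤ, |‖b (m + n)‖ - ‖b m‖| ≤ ‖b n‖ := by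
    intro m n
    have h1 : ‖b (m + n) - b m‖ = ‖b n‖ := by rw [hb]; congr 2; ring
    rw [← h1]
    exact abs_norm_sub_norm_le _ _
  obtain ⟨R, hR1, hR⟩ := phi_slow (ε / 2) (by positivity)
  -- a bound for the increments
  obtain ⟨B, hB0, hB⟩ : ∃ B : ℝ, 0 ≤ B ∧ ∀ s ∈ insert 1 S, ‖b (s : ℕ)‖ ≤ B := by
    refine ⟨∑ s ∈ insert 1 S, ‖b (s : ℕ)‖, Finset.sum_nonneg fun _ _ => norm_nonneg _, ?_⟩
    intro s hs
    exact Finset.single_le_sum (f := fun s : ℕ => ‖b (s : ℕ)‖) (fun _ _ => norm_nonneg _) hs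
  obtain ⟨u, hu, huc⟩ := phi_values c hc (R + 4 * B)
  -- the first time the norm exceeds `u`
  classical
  have hex : ∃ n : ℕ, u ≤ ‖b n‖ := hunb u
  set n := Nat.find hex with hn
  have hn1 : u ≤ ‖b n‖ := Nat.find_spec hex
  have hupos : 0 < u := by linarith
  have hn2 : ‖b n‖ ≤ u + B := by
    have hnpos : n ≠ 0 := by
      intro h0
      rw [h0] at hn1
      simp only [Nat.cast_zero, hb0] at hn1
      linarith
    obtain ⟨k, hk⟩ := Nat.exists_eq_succ_of_ne_zero hnpos
    have hk2 : ¬ u ≤ ‖b k‖ := Nat.find_min hex (by rw [← hn, hk]; exact Nat.lt_succ_self k)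
    push Not at hk2
    have := htri k 1
    have e1 : ((k : ℤ) + 1) = (n : ℤ) := by rw [hk]; push_cast; ring
    rw [e1] at this
    have hB1 := hB 1 (Finset.mem_insert_self _ _)
    rw [Nat.cast_one] at hB1
    have := (abs_le.1 this).2
    linarith
  refine ⟨n, fun s hs => ?_⟩
  have h1 := htri n s
  have h2 := hB s (Finset.mem_insert_of_mem hs)
  have h3 := abs_le.1 h1
  have e2 : ((n : ℤ) + s) = ((s + n : ℕ) : ℤ) := by push_cast; ring
  rw [e2] at h3
  have h4 := hR ‖b ((s + n : ℕ) : ℤ)‖ u (by linarith [h3.1]) (by linarith) (by linarith [h3.2])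
    (by linarith [h3.1])
  have h5 : dist (gen b (s + n)) c = |phi ‖b ((s + n : ℕ) : ℤ)‖ - c| := rfl
  rw [h5, ← huc]
  linarith

/-- The main construction, for an abstract cocycle `b`. -/
theorem main {b : ℤ → E} (hb : ∀ m n, ‖b m - b n‖ = ‖b (m - n)‖) {p : ℕ → ℕ}
    (hp : Tendsto p atTop atTop) (hbp : Tendsto (fun j => ‖b (p j)‖) atTop (𝓝 0))
    (hunb : ∀ R : ℝ, ∃ n : ℕ, R ≤ ‖b n‖) :
    ∃ (X : Type) (_ : MetricSpace X) (_ : CompactSpace X) (T : X → X), Continuous T ∧
      (∀ U V : Set X, IsOpen U → IsOpen V → U.Nonempty → V.Nonempty →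
        ∃ n : ℕ, 1 ≤ n ∧ (V ∩ T^[n] ⁻¹' U).Nonempty) ∧
      (∀ a : ℕ → ℕ, StrictMono a → ∀ ε : ℝ, 0 < ε → ∀ δ : ℝ, 0 < δ →
        ∀ᶠ n in atTop, ∀ F : Finset X,
          (∀ x ∈ F, ∀ y ∈ F, x ≠ y → ∃ i < n, ε ≤ dist (T^[a i] x) (T^[a i] y)) →
          (F.card : ℝ) ≤ Real.exp (δ * n)) ∧
      ¬ (∀ ε : ℝ, 0 < ε → ∃ δ : ℝ, 0 < δ ∧ ∀ x y : X, dist x y < δ →
        ∀ᶠ n in atTop,
          (∑ i ∈ Finset.range n, dist (T^[i] x) (T^[i] y)) / (n : ℝ) < ε) := by
  refine ⟨oc (gen b), inferInstance, isCompact_iff_compactSpace.1 isClosed_closure.isCompact,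
    TT (gen b), TT_cont _, ?_, gen_null hb, ?_⟩
  · apply transitive_of_recurrent hp
    intro k
    rw [tendsto_iff_dist_tendsto_zero]
    refine squeeze_zero (fun _ => dist_nonneg) (fun j => ?_) hbp
    rw [gen_dist]
    refine (phi_lip _ _ (norm_nonneg _) (norm_nonneg _)).trans ?_
    have h1 : ‖b ((k + p j : ℕ) : ℤ) - b k‖ = ‖b (p j)‖ := by
      rw [hb]; congr 2; push_cast; ring
    rw [← h1]
    exact abs_norm_sub_norm_le _ _
  · intro h
    let o : oc (gen b) := ⟨fun _ => 0, const_mem hb hunb 0 (Or.inl rfl)⟩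
    let e : oc (gen b) := ⟨fun _ => 1, const_mem hb hunb 1 (Or.inr rfl)⟩
    have hoe : o ≠ e := by
      intro h
      have h1 := congrArg (fun x : oc (gen b) => (x.1 0 : ℝ)) h
      simp [o, e] at h1
    exact not_meq hoe rfl rfl h

end Q69.NullSystem
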