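import Mathlib
import Pool.Agent.Q69.Dens

/-!
# An index function with long runs and oscillating frequencies
-/

set_option autoImplicit false
open Set Filter Topology

namespace Q69Phase

open Q69Dens

/-- the index function: on `[4^k, 2·4^k)` the 2-adic valuation of `n / 2^k`, and `none` on
`[2·4^k, 4^(k+1))` -/
def g (n : ℕ) : Option ℕ :=
  if Nat.log 2 n % 2 = 0 then some (padicValNat 2 (n / 2 ^ (Nat.log 2 n / 2))) else none

lemma log_eq {n e : ℕ} (h1 : 2 ^ e ≤ n) (h2 : n < 2 ^ (e + 1)) : Nat.log 2 n = e :=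
  Nat.log_eq_of_pow_le_of_lt_pow h1 h2

lemma change {k n : ℕ} (hn : 4 ^ k ≤ n) (h : g (n + 1) ≠ g n) : 2 ^ k ∣ n + 1 := by
  by_contra hcon
  apply h
  have hn0 : n ≠ 0 := by
    rintro rfl
    exact absurd hn (not_le.2 (by positivity))
  set e := Nat.log 2 n with he
  have h1 : 2 ^ e ≤ n := Nat.pow_log_le_self 2 hn0
  have h2 : n < 2 ^ (e + 1) := Nat.lt_pow_succ_log_self (by norm_num) n
  have hke : 2 * k ≤ e := by
    have h4 : (4 : ℕ) ^ k = 2 ^ (2 * k) := by rw [pow_mul]; norm_num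
    rw [h4] at hn
    exact (Nat.le_log_iff_pow_le (by norm_num) hn0).2 hn
  have h3 : n + 1 ≠ 2 ^ (e + 1) := by
    intro h3
    apply hcon
    rw [h3]
    exact pow_dvd_pow 2 (by omega)
  have h4 : Nat.log 2 (n + 1) = e := log_eq (by omega) (by omega)
  have h5 : ¬ 2 ^ (e / 2) ∣ n + 1 := fun h5 => hcon ((pow_dvd_pow 2 (by omega)).trans h5)
  have h6 : (n + 1) / 2 ^ (e / 2) = n / 2 ^ (e / 2) := by
    rw [Nat.succ_div, if_neg h5, add_zero]
  unfold g
  rw [h4, ← he, h6]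

lemma Z_change : Z fun n => g (n + 1) ≠ g n := by
  intro ε hε
  obtain ⟨k, hk⟩ := exists_pow_lt_of_lt_one (half_pos hε) (by norm_num : (1 / 2 : ℝ) < 1)
  obtain ⟨N, hN⟩ := exists_nat_ge (4 ^ k / (ε / 2))
  filter_upwards [eventually_ge_atTop N] with T hT
  have h1 : ct (fun n => g (n + 1) ≠ g n) T ≤ ct (fun n => n < 4 ^ k) T +
      ct (fun n => 2 ^ k ∣ n + 1) T := by
    refine le_trans (ct_mono (fun n hn => ?_) T) (ct_or _ _ T)
    rcases lt_or_ge n (4 ^ k) with h | h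
    · exact Or.inl h
    · exact Or.inr (change h hn)
  have h2 : ct (fun n => n < 4 ^ k) T ≤ 4 ^ k := by
    classical
    calc ct (fun n => n < 4 ^ k) T ≤ (Finset.range (4 ^ k)).card :=
          Finset.card_le_card fun k hk => by
            simp only [Finset.mem_filter, Finset.mem_range] at hk ⊢
            exact hk.2
      _ = 4 ^ k := Finset.card_range _
  have h3 : ct (fun n => 2 ^ k ∣ n + 1) T = T / 2 ^ k := by
    rw [← Nat.card_multiples T (2 ^ k)]
    unfold ct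
    congr 1
    ext n
    simp
  rw [h3] at h1
  have h4 : ((T / 2 ^ k : ℕ) : ℝ) ≤ T * (1 / 2) ^ k := by
    refine Nat.cast_div_le.trans (le_of_eq ?_)
    push_cast
    rw [div_pow, one_pow]
    ring
  have h5 : (ct (fun n => g (n + 1) ≠ g n) T : ℝ) ≤ 4 ^ k + (T / 2 ^ k : ℕ) := by
    exact_mod_cast h1.trans (Nat.add_le_add_right h2 _)
  have h6 : (4 : ℝ) ^ k ≤ ε / 2 * T := by
    rw [div_le_iff₀ (by positivity)] at hN
    have : (N : ℝ) ≤ T := by exact_mod_cast hT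
    nlinarith
  have h7 : (T : ℝ) * (1 / 2) ^ k ≤ ε / 2 * T := by
    rw [mul_comm]
    exact mul_le_mul_of_nonneg_right hk.le (Nat.cast_nonneg _)
  linarith

/-- there is a change in a window of length `L` -/
lemma Z_window (L : ℕ) : Z fun n => ∃ i < L, g (n + i + 1) ≠ g (n + i) :=
  Z.bex fun i _ => Z_change.shift i

lemma const_window {L n : ℕ} (h : ¬ ∃ i < L, g (n + i + 1) ≠ g (n + i)) :
    ∀ i ≤ L, g (n + i) = g n := by
  push Not at h
  intro i
  induction i with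
  | zero => intro _; rfl
  | succ i ih => intro hi; rw [← add_assoc, h i (by omega), ih (by omega)]

lemma g_none {k n : ℕ} (h1 : 2 * 4 ^ k ≤ n) (h2 : n < 4 ^ (k + 1)) : g n = none := by
  have h4 : ∀ k : ℕ, (4 : ℕ) ^ k = 2 ^ (2 * k) := fun k => by rw [pow_mul]; norm_num
  have h3 : Nat.log 2 n = 2 * k + 1 := by
    rw [h4] at h1 h2
    refine log_eq (by rw [pow_succ]; omega) ?_
    have : 2 * k + 1 + 1 = 2 * (k + 1) := by ring
    rw [this]; exact h2
  unfold g
  rw [h3, if_neg (by omega)]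

lemma g_some {k i j r : ℕ} (hi : i < k) (h1 : 2 ^ (k - i - 1) ≤ j) (h2 : j < 2 ^ (k - i))
    (hr : r < 2 ^ k) : g (2 ^ k * (2 ^ i * (2 * j + 1)) + r) = some i ∧
      2 ^ k * (2 ^ i * (2 * j + 1)) + r < 2 * 4 ^ k := by
  obtain ⟨d, rfl⟩ : ∃ d, k = i + d + 1 := ⟨k - i - 1, by omega⟩
  have e1 : i + d + 1 - i - 1 = d := by omega
  have e2 : i + d + 1 - i = d + 1 := by omega
  rw [e1] at h1
  rw [e2] at h2
  set k := i + d + 1 with hk
  have q1 : 2 ^ k ≤ 2 ^ i * (2 * j + 1) := by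
    have : 2 ^ k = 2 ^ i * (2 * 2 ^ d) := by rw [hk, pow_succ, pow_add]; ring
    rw [this]
    exact Nat.mul_le_mul_left _ (by omega)
  have q2 : 2 ^ i * (2 * j + 1) + 1 ≤ 2 ^ (k + 1) := by
    have : 2 ^ (k + 1) = 2 ^ i * (2 * 2 ^ (d + 1)) := by
      rw [hk, show i + d + 1 + 1 = i + (1 + (d + 1)) by ring, pow_add, pow_add]; ring
    rw [this]
    have h3 : 2 ^ i * (2 * j + 1) + 2 ^ i ≤ 2 ^ i * (2 * 2 ^ (d + 1)) := by
      rw [← Nat.mul_succ]
      exact Nat.mul_le_mul_left _ (by omega)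
    have : 1 ≤ 2 ^ i := Nat.one_le_two_pow
    omega
  set q := 2 ^ i * (2 * j + 1) with hq
  have hlt : 2 ^ k * q + r < 2 ^ k * (q + 1) := by rw [Nat.mul_succ]; omega
  have hle : 2 ^ k * (q + 1) ≤ 2 ^ k * 2 ^ (k + 1) := Nat.mul_le_mul_left _ q2
  have hlog : Nat.log 2 (2 ^ k * q + r) = 2 * k := by
    apply log_eq
    · calc 2 ^ (2 * k) = 2 ^ k * 2 ^ k := by rw [← pow_add]; congr 1; ring
        _ ≤ 2 ^ k * q := Nat.mul_le_mul_left _ q1
        _ ≤ _ := Nat.le_add_right _ _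
    · calc 2 ^ k * q + r < 2 ^ k * 2 ^ (k + 1) := hlt.trans_le hle
        _ = 2 ^ (2 * k + 1) := by rw [← pow_add]; congr 1; ring
  refine ⟨?_, ?_⟩
  · unfold g
    rw [hlog, if_pos (by omega)]
    have e3 : 2 * k / 2 = k := by omega
    rw [e3, Nat.mul_add_div (by positivity), Nat.div_eq_of_lt hr, add_zero]
    congr 1
    rw [hq, padicValNat.mul (by positivity) (by omega), padicValNat.prime_pow,
      padicValNat.eq_zero_of_not_dvd (by omega), add_zero]
  · calc 2 ^ k * q + r < 2 ^ k * 2 ^ (k + 1) := hlt.trans_le hle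
      _ = 2 * 4 ^ k := by
        rw [show (4 : ℕ) = 2 ^ 2 by norm_num, ← pow_mul, ← pow_succ', ← pow_add]; congr 1; ring

lemma ct_some {k i T : ℕ} (hi : i < k) (hT : 2 * 4 ^ k ≤ T) :
    2 ^ (k - i - 1) * 2 ^ k ≤ ct (fun n => g n = some i) T := by
  classical
  have h1 : ((Finset.Ico (2 ^ (k - i - 1)) (2 ^ (k - i))) ×ˢ Finset.range (2 ^ k)).card =
      2 ^ (k - i - 1) * 2 ^ k := by
    rw [Finset.card_product, Nat.card_Ico, Finset.card_range]
    have : 2 ^ (k - i) = 2 ^ (k - i - 1) * 2 := by rw [← pow_succ]; congr 1; omega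
    rw [this]
    congr 1
    omega
  rw [← h1]
  unfold ct
  refine Finset.card_le_card_of_injOn
    (fun p => 2 ^ k * (2 ^ i * (2 * p.1 + 1)) + p.2) ?_ ?_
  · rintro ⟨j, r⟩ hp
    simp only [Finset.coe_product, Finset.coe_Ico, Finset.coe_range, Set.mem_prod, Set.mem_Ico,
      Set.mem_Iio] at hp
    obtain ⟨h2, h3⟩ := g_some hi hp.1.1 hp.1.2 hp.2
    simp only [Finset.coe_filter, Finset.mem_range, mem_setOf_eq]
    exact ⟨h3.trans_le hT, h2⟩
  · rintro ⟨j, r⟩ hp ⟨j', r'⟩ hp' h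
    simp only [Finset.coe_product, Finset.coe_Ico, Finset.coe_range, Set.mem_prod, Set.mem_Ico,
      Set.mem_Iio] at hp hp' h
    have hk : 0 < 2 ^ k := by positivity
    have h1 := congrArg (· / 2 ^ k) h
    have h2 := congrArg (· % 2 ^ k) h
    simp only [Nat.mul_add_div hk, Nat.div_eq_of_lt hp.2, Nat.div_eq_of_lt hp'.2, add_zero,
      Nat.mul_add_mod, Nat.mod_eq_of_lt hp.2, Nat.mod_eq_of_lt hp'.2] at h1 h2
    have h3 : 2 * j + 1 = 2 * j' + 1 := Nat.eq_of_mul_eq_mul_left (by positivity) h1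
    rw [Prod.mk.injEq]
    exact ⟨by omega, h2⟩

lemma PL_some (i : ℕ) : PL fun n => g n = some i := by
  refine ⟨1 / 2 ^ (i + 4), by positivity, ?_⟩
  filter_upwards [eventually_ge_atTop (2 * 4 ^ (i + 1))] with T hT
  set k := Nat.log 4 (T / 2) with hk
  have hT2 : 4 ^ (i + 1) ≤ T / 2 := by omega
  have hT0 : T / 2 ≠ 0 := by
    have : 0 < 4 ^ (i + 1) := by positivity
    omega
  have hki : i + 1 ≤ k := (Nat.le_log_iff_pow_le (by norm_num) hT0).2 hT2
  have h1 : 4 ^ k ≤ T / 2 := Nat.pow_log_le_self 4 hT0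
  have h2 : T / 2 < 4 ^ (k + 1) := Nat.lt_pow_succ_log_self (by norm_num) _
  have h3 := ct_some (k := k) (i := i) (T := T) (by omega) (by omega)
  have h4 : T ≤ 2 * 4 ^ (k + 1) := by omega
  obtain ⟨d, hd⟩ : ∃ d, k = i + d + 1 := ⟨k - i - 1, by omega⟩
  have e1 : k - i - 1 = d := by omega
  rw [e1] at h3
  have h5 : (T : ℝ) ≤ 2 * 4 ^ (k + 1) := by exact_mod_cast h4
  have h6 : ((2 : ℝ) ^ d * 2 ^ k) ≤ ct (fun n => g n = some i) T := by exact_mod_cast h3
  refine le_trans ?_ h6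
  rw [one_div, inv_mul_le_iff₀ (by positivity)]
  refine h5.trans (le_of_eq ?_)
  rw [show (4 : ℝ) = 2 ^ 2 by norm_num, ← pow_mul, ← pow_succ', ← pow_add, ← pow_add]
  congr 1
  omega

lemma PL_none : PL fun n => g n = none := by
  refine ⟨1 / 8, by positivity, ?_⟩
  filter_upwards [eventually_ge_atTop 4] with T hT
  set k := Nat.log 4 T - 1 with hk
  have hk1 : 1 ≤ Nat.log 4 T := (Nat.le_log_iff_pow_le (by norm_num) (by omega)).2 (by simpa using hT)
  have hlog : Nat.log 4 T = k + 1 := by omega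
  have h1 : 4 ^ (k + 1) ≤ T := by rw [← hlog]; exact Nat.pow_log_le_self 4 (by omega)
  have h2 : T < 4 ^ (k + 2) := by
    have := Nat.lt_pow_succ_log_self (b := 4) (by norm_num) T
    rwa [hlog] at this
  have h3 : 2 * 4 ^ k ≤ ct (fun n => g n = none) T := by
    classical
    have e : (Finset.Ico (2 * 4 ^ k) (4 ^ (k + 1))).card = 2 * 4 ^ k := by
      rw [Nat.card_Ico, pow_succ]; omega
    rw [← e]
    refine Finset.card_le_card fun n hn => ?_
    rw [Finset.mem_Ico] at hn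
    simp only [Finset.mem_filter, Finset.mem_range]
    exact ⟨hn.2.trans_le h1, g_none hn.1 hn.2⟩
  have h4 : (2 : ℝ) * 4 ^ k ≤ ct (fun n => g n = none) T := by exact_mod_cast h3
  have h5 : (T : ℝ) ≤ 4 ^ (k + 2) := by exact_mod_cast h2.le
  rw [pow_add] at h5
  norm_num at h5
  linarith

lemma PL_g (o : Option ℕ) : PL fun n => g n = o := by
  cases o with
  | none => exact PL_none
  | some i => exact PL_some i

/-- In `[2·4^k, 4^(k+1))` nothing is counted. -/
lemma ct_eq {A : ℕ → Prop} (hA : ∀ n, g n = none → ¬ A n) (k : ℕ) :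
    ct A (4 ^ (k + 1)) = ct A (2 * 4 ^ k) := by
  classical
  unfold ct
  congr 1
  ext n
  simp only [Finset.mem_filter, Finset.mem_range]
  constructor
  · rintro ⟨h1, h2⟩
    refine ⟨?_, h2⟩
    by_contra hcon
    push Not at hcon
    exact hA n (g_none hcon h1) h2
  · rintro ⟨h1, h2⟩
    exact ⟨h1.trans_le (by rw [pow_succ]; omega), h2⟩

end Q69Phase
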