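import Pool.Agent.Q69.SAlpha

/-!
# Components of the forward orbit of an interval
-/

namespace Q69.SA

open Set Filter Topology

variable {f : unitInterval → unitInterval} {V : Set unitInterval} {y : unitInterval}

/-- The forward orbit of a set. -/
def orbU (f : unitInterval → unitInterval) (V : Set unitInterval) : Set unitInterval :=
  ⋃ n : ℕ, f^[n] '' V

/-- The component of the forward orbit of `V` at `y`. -/
def comp (f : unitInterval → unitInterval) (V : Set unitInterval) (y : unitInterval) :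
    Set unitInterval :=
  connectedComponentIn (orbU f V) y

theorem sub_orbU : V ⊆ orbU f V := fun z hz => mem_iUnion.2 ⟨0, z, hz, rfl⟩

theorem image_orbU (d : ℕ) : f^[d] '' orbU f V ⊆ orbU f V := by
  rintro _ ⟨z, hz, rfl⟩
  obtain ⟨n, w, hw, rfl⟩ := mem_iUnion.1 hz
  exact mem_iUnion.2 ⟨d + n, w, hw, Function.iterate_add_apply _ _ _ _⟩

theorem orbU_mono {V W : Set unitInterval} (h : V ⊆ W) : orbU f V ⊆ orbU f W := by
  intro z hz
  obtain ⟨n, w, hw, rfl⟩ := mem_iUnion.1 hz
  exact mem_iUnion.2 ⟨n, w, h hw, rfl⟩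

theorem comp_mono {V W : Set unitInterval} (h : V ⊆ W) : comp f V y ⊆ comp f W y :=
  connectedComponentIn_mono _ (orbU_mono h)

theorem comp_sub : comp f V y ⊆ orbU f V := connectedComponentIn_subset _ _

theorem mem_comp (hy : y ∈ V) : y ∈ comp f V y := mem_connectedComponentIn (sub_orbU hy)

theorem sub_comp (hV : IsPreconnected V) (hy : y ∈ V) : V ⊆ comp f V y :=
  hV.subset_connectedComponentIn hy sub_orbU

theorem comp_ordConnected : (comp f V y).OrdConnected :=
  isPreconnected_connectedComponentIn.ordConnected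

theorem ret_sub (hf : Continuous f) (hy : y ∈ V) {d : ℕ}
    (h : (f^[d] '' comp f V y ∩ comp f V y).Nonempty) : f^[d] '' comp f V y ⊆ comp f V y := by
  obtain ⟨z, hz1, hz2⟩ := h
  have h1 : IsPreconnected (f^[d] '' comp f V y) :=
    isPreconnected_connectedComponentIn.image _ (hf.iterate d).continuousOn
  have h2 : IsPreconnected (f^[d] '' comp f V y ∪ comp f V y) :=
    IsPreconnected.union z hz1 hz2 h1 isPreconnected_connectedComponentIn
  have h3 : f^[d] '' comp f V y ∪ comp f V y ⊆ orbU f V :=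
    union_subset ((image_mono comp_sub).trans (image_orbU d)) comp_sub
  exact subset_union_left.trans (h2.subset_connectedComponentIn (Or.inr (mem_comp hy)) h3)

/-- Return times of the component. -/
def rets (f : unitInterval → unitInterval) (V : Set unitInterval) (y : unitInterval) : Set ℕ :=
  {d | 1 ≤ d ∧ (f^[d] '' comp f V y ∩ comp f V y).Nonempty}

/-- The period of the component. -/
noncomputable def per (f : unitInterval → unitInterval) (V : Set unitInterval)
    (y : unitInterval) : ℕ := sInf (rets f V y)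

theorem per_mem (h : (rets f V y).Nonempty) : per f V y ∈ rets f V y := Nat.sInf_mem h

theorem per_mul (hf : Continuous f) (hy : y ∈ V) (h : (rets f V y).Nonempty) (k : ℕ) :
    f^[per f V y * k] '' comp f V y ⊆ comp f V y := by
  induction k with
  | zero => rintro _ ⟨z, hz, rfl⟩; exact hz
  | succ k ih =>
    rintro _ ⟨z, hz, rfl⟩
    rw [Nat.mul_succ, Function.iterate_add_apply]
    exact ih ⟨_, ret_sub hf hy (per_mem h).2 ⟨z, hz, rfl⟩, rfl⟩

theorem image_mod (hf : Continuous f) (hy : y ∈ V) (h : (rets f V y).Nonempty) (n : ℕ) :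
    f^[n] '' comp f V y ⊆ f^[n % per f V y] '' comp f V y := by
  rintro _ ⟨z, hz, rfl⟩
  refine ⟨f^[per f V y * (n / per f V y)] z, per_mul hf hy h _ ⟨z, hz, rfl⟩, ?_⟩
  rw [← Function.iterate_add_apply, Nat.mod_add_div]

theorem per_dvd (hf : Continuous f) (hy : y ∈ V) (h : (rets f V y).Nonempty) {q : unitInterval}
    {n : ℕ} (hq : q ∈ comp f V y) (hqn : q ∈ f^[n] '' comp f V y) : per f V y ∣ n := by
  have h1 := image_mod hf hy h n hqn
  by_contra hnd
  have h2 : 1 ≤ n % per f V y := by
    rw [Nat.dvd_iff_mod_eq_zero] at hnd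
    omega
  have h3 : n % per f V y ∈ rets f V y := ⟨h2, q, h1, hq⟩
  have h4 : per f V y ≤ n % per f V y := Nat.sInf_le h3
  have h5 : n % per f V y < per f V y := Nat.mod_lt _ (by have := (per_mem h).1; omega)
  omega

theorem per_modEq (hf : Continuous f) (hy : y ∈ V) (h : (rets f V y).Nonempty)
    {x : unitInterval} {a b : ℕ} (ha : x ∈ f^[a] '' comp f V y) (hb : x ∈ f^[b] '' comp f V y) :
    a ≡ b [MOD per f V y] := by
  have hp := (per_mem h).1
  -- choose `c` with `a + c` divisible by the period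
  have hc : per f V y ∣ a * (per f V y - 1) + a := by
    have : a * (per f V y - 1) + a = a * per f V y := by
      rw [← Nat.mul_succ, Nat.succ_eq_add_one, Nat.sub_add_cancel hp]
    rw [this]; exact Dvd.intro_left a rfl
  obtain ⟨k, hk⟩ := hc
  obtain ⟨z, hz, rfl⟩ := ha
  obtain ⟨w, hw, hwz⟩ := hb
  have h1 : f^[a * (per f V y - 1)] (f^[a] z) ∈ comp f V y := by
    rw [← Function.iterate_add_apply, hk]
    exact per_mul hf hy h k ⟨z, hz, rfl⟩
  have h2 : f^[a * (per f V y - 1)] (f^[a] z) ∈ f^[a * (per f V y - 1) + b] '' comp f V y :=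
    ⟨w, hw, by rw [Function.iterate_add_apply, hwz]⟩
  have h3 := per_dvd hf hy h h1 h2
  have h4 : a * (per f V y - 1) + a ≡ a * (per f V y - 1) + b [MOD per f V y] := by
    rw [Nat.ModEq, Nat.mod_eq_zero_of_dvd h3, Nat.mod_eq_zero_of_dvd ⟨k, hk⟩]
  exact Nat.ModEq.add_left_cancel' _ h4

/-- The period is monotone. -/
theorem per_le {V W : Set unitInterval} (hVW : V ⊆ W) (hr : (rets f V y).Nonempty) :
    per f W y ≤ per f V y := by
  apply Nat.sInf_le
  obtain ⟨h1, z, ⟨w, hw, hwz⟩, hz⟩ := per_mem hr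
  exact ⟨h1, z, ⟨w, comp_mono hVW hw, hwz⟩, comp_mono hVW hz⟩

/-- Distinct images below the period are disjoint. -/
theorem disj_of_lt_per (hf : Continuous f) (hy : y ∈ V) (h : (rets f V y).Nonempty) {i j : ℕ}
    (hij : i < j) (hj : j < per f V y) {z : unitInterval} (hi' : z ∈ f^[i] '' comp f V y)
    (hj' : z ∈ f^[j] '' comp f V y) : False := by
  have h1 := per_modEq hf hy h hi' hj'
  rw [Nat.ModEq, Nat.mod_eq_of_lt (hij.trans hj), Nat.mod_eq_of_lt hj] at h1
  omega

/-! ### Branches visiting `V` -/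

theorem rets_nonempty {x : unitInterval} {b : ℕ → unitInterval} (hb : IsBranch f x b)
    (hV : IsPreconnected V) (hy : y ∈ V) (hv : ∃ᶠ n in atTop, b n ∈ V) :
    (rets f V y).Nonempty := by
  obtain ⟨n, hn⟩ := hv.exists
  obtain ⟨m, hm, hm2⟩ := (frequently_atTop.1 hv) (n + 1)
  refine ⟨m - n, by omega, b n, ⟨b m, sub_comp hV hy hm2, hb.iter' (by omega)⟩,
    sub_comp hV hy hn⟩

/-- All times of visits to the component are congruent, and at all congruent times the branch is in
the component. -/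
theorem branch_mem (hf : Continuous f) {x : unitInterval} {b : ℕ → unitInterval}
    (hb : IsBranch f x b) (hV : IsPreconnected V) (hy : y ∈ V) (hv : ∃ᶠ n in atTop, b n ∈ V)
    {n0 : ℕ} (hn0 : x ∈ f^[n0] '' comp f V y) {n : ℕ} (hn : n ≡ n0 [MOD per f V y]) :
    b n ∈ comp f V y := by
  have hr := rets_nonempty hb hV hy hv
  obtain ⟨m, hm, hm2⟩ := (frequently_atTop.1 hv) n
  have h1 : x ∈ f^[m] '' comp f V y := ⟨b m, sub_comp hV hy hm2, hb.iter_zero m⟩
  have h2 := per_modEq hf hy hr hn0 h1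
  have h3 : n ≡ m [MOD per f V y] := hn.trans h2
  obtain ⟨k, hk⟩ := (Nat.modEq_iff_dvd' hm).1 h3
  have h4 := hb.iter' hm
  rw [hk] at h4
  rw [← h4]
  exact per_mul hf hy hr k ⟨b m, sub_comp hV hy hm2, rfl⟩

theorem visit_modEq (hf : Continuous f) {x : unitInterval} {b : ℕ → unitInterval}
    (hb : IsBranch f x b) (hV : IsPreconnected V) (hy : y ∈ V) (hv : ∃ᶠ n in atTop, b n ∈ V)
    {n m : ℕ} (hn : b n ∈ comp f V y) (hm : b m ∈ comp f V y) :
    n ≡ m [MOD per f V y] := by
  have hr := rets_nonempty hb hV hy hv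
  exact per_modEq hf hy hr ⟨b n, hn, hb.iter_zero n⟩ ⟨b m, hm, hb.iter_zero m⟩

end Q69.SA
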