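import Pool.Agent.Q69.SAPer

/-!
# A generic interval map has no wandering interval
-/

namespace Q69.SA

open Set Filter Topology

/-- The centres of the traps. -/
noncomputable def ctr (N n : ℕ) : ℝ := (2 * (n : ℝ) + 1) / (4 * N)

theorem ctr_mem {N n : ℕ} (hN : 0 < N) (hn : n < 2 * N) : ctr N n ∈ Icc (0 : ℝ) 1 := by
  have hN' : (0 : ℝ) < N := by exact_mod_cast hN
  unfold ctr
  constructor
  · positivity
  · rw [div_le_one (by positivity)]
    have : (n : ℝ) + 1 ≤ 2 * N := by exact_mod_cast hn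
    linarith

/-- The bump functions. -/
noncomputable def bump (N n : ℕ) (z : ℝ) : ℝ := max 0 (min 1 (2 - 16 * N * |z - ctr N n|))

theorem bump_nonneg (N n : ℕ) (z : ℝ) : 0 ≤ bump N n z := le_max_left _ _

theorem bump_le (N n : ℕ) (z : ℝ) : bump N n z ≤ 1 :=
  max_le zero_le_one (min_le_left _ _)

theorem bump_one {N n : ℕ} {z : ℝ} (h : 16 * N * |z - ctr N n| ≤ 1) : bump N n z = 1 := by
  unfold bump
  rw [min_eq_left (by linarith), max_eq_right zero_le_one]

theorem bump_zero {N n : ℕ} {z : ℝ} (h : 2 ≤ 16 * N * |z - ctr N n|) : bump N n z = 0 := by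
  unfold bump
  rw [max_eq_left]
  exact (min_le_right _ _).trans (by linarith)

theorem continuous_bump (N n : ℕ) : Continuous (bump N n) := by
  unfold bump; fun_prop

/-- Different centres are far apart. -/
theorem ctr_sep {N n m : ℕ} (hN : 0 < N) (h : n ≠ m) : 8 ≤ 16 * N * |ctr N n - ctr N m| := by
  have hN' : (0 : ℝ) < N := by exact_mod_cast hN
  have e : ctr N n - ctr N m = ((n : ℝ) - m) / (2 * N) := by
    unfold ctr; field_simp; ring
  rw [e, abs_div, abs_of_pos (by positivity : (0 : ℝ) < 2 * N)]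
  have h1 : (1 : ℝ) ≤ |(n : ℝ) - m| := by
    have h2 : (1 : ℤ) ≤ |(n : ℤ) - m| := Int.one_le_abs (sub_ne_zero.2 (by exact_mod_cast h))
    exact_mod_cast h2
  have h3 : 16 * (N : ℝ) * (|(n : ℝ) - m| / (2 * N)) = 8 * |(n : ℝ) - m| := by
    field_simp; ring
  rw [h3]; linarith

theorem bump_sep {N n m : ℕ} (hN : 0 < N) (h : n ≠ m) {z : ℝ} (hz : bump N n z ≠ 0) :
    bump N m z = 0 := by
  apply bump_zero
  have h1 : 16 * N * |z - ctr N n| < 2 := by
    by_contra hcon
    exact hz (bump_zero (not_lt.1 hcon))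
  have h2 := ctr_sep hN h
  have h3 : |ctr N n - ctr N m| ≤ |z - ctr N n| + |z - ctr N m| := by
    have := abs_sub_abs_le_abs_sub (z - ctr N m) (z - ctr N n)
    have h4 : |ctr N n - ctr N m| = |(z - ctr N m) - (z - ctr N n)| := by ring_nf
    rw [h4]
    have := abs_sub (z - ctr N m) (z - ctr N n)
    linarith
  have hN' : (0 : ℝ) < N := by exact_mod_cast hN
  have h5 := mul_le_mul_of_nonneg_left h3 (by positivity : (0 : ℝ) ≤ 16 * N)
  nlinarith

/-- The cell index of a value. -/
noncomputable def cell (N : ℕ) (t : ℝ) : ℕ := min ⌊t * N⌋₊ (N - 1)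

theorem cell_lt {N : ℕ} (hN : 0 < N) (t : ℝ) : cell N t < N := by
  have := min_le_right ⌊t * N⌋₊ (N - 1)
  unfold cell; omega

theorem cell_spec {N : ℕ} (hN : 0 < N) {t : ℝ} (ht : t ∈ Icc (0 : ℝ) 1) :
    (cell N t : ℝ) ≤ t * N ∧ t * N ≤ cell N t + 1 := by
  have hN' : (0 : ℝ) < N := by exact_mod_cast hN
  have h0 : 0 ≤ t * N := mul_nonneg ht.1 hN'.le
  have h1 := Nat.floor_le h0
  have h2 := Nat.lt_floor_add_one (t * N)
  rcases le_or_gt ⌊t * N⌋₊ (N - 1) with h | h
  · have e : cell N t = ⌊t * N⌋₊ := min_eq_left h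
    rw [e]; exact ⟨h1, h2.le⟩
  · have e : cell N t = N - 1 := min_eq_right h.le
    have e2 : ((N - 1 : ℕ) : ℝ) = (N : ℝ) - 1 := by
      rw [Nat.cast_sub hN]; simp
    rw [e, e2]
    constructor
    · have : ((N : ℝ)) ≤ (⌊t * N⌋₊ : ℝ) := by exact_mod_cast (by omega : N ≤ ⌊t * N⌋₊)
      linarith
    · nlinarith [ht.2]

/-- The transition of trap indices: the parity is kept. -/
noncomputable def tau (N : ℕ) (g : unitInterval → unitInterval) (n : ℕ) : ℕ :=
  2 * cell N (g (projIcc 0 1 zero_le_one (ctr N n)) : ℝ) + n % 2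

theorem tau_lt {N : ℕ} (hN : 0 < N) (g : unitInterval → unitInterval) (n : ℕ) :
    tau N g n < 2 * N := by
  have := cell_lt hN (g (projIcc 0 1 zero_le_one (ctr N n)) : ℝ)
  have h2 : n % 2 < 2 := Nat.mod_lt _ (by norm_num)
  unfold tau; omega

theorem tau_parity (N : ℕ) (g : unitInterval → unitInterval) (n : ℕ) : tau N g n % 2 = n % 2 := by
  unfold tau; omega

theorem tau_close {N : ℕ} (hN : 0 < N) (g : unitInterval → unitInterval) (n : ℕ) :
    |ctr N (tau N g n) - (g (projIcc 0 1 zero_le_one (ctr N n)) : ℝ)| ≤ 1 / N := by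
  have hN' : (0 : ℝ) < N := by exact_mod_cast hN
  set t : ℝ := (g (projIcc 0 1 zero_le_one (ctr N n)) : ℝ) with ht
  have htI : t ∈ Icc (0 : ℝ) 1 := (g _).2
  obtain ⟨h1, h2⟩ := cell_spec hN htI
  have h3 : ((n % 2 : ℕ) : ℝ) ≤ 1 := by
    have : n % 2 < 2 := Nat.mod_lt _ (by norm_num)
    exact_mod_cast (by omega : n % 2 ≤ 1)
  have h4 : (0 : ℝ) ≤ ((n % 2 : ℕ) : ℝ) := Nat.cast_nonneg _
  have e : ctr N (tau N g n) = (4 * (cell N t : ℝ) + 2 * ((n % 2 : ℕ) : ℝ) + 1) / (4 * N) := by
    unfold ctr tau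
    rw [← ht]
    push_cast
    ring
  rw [e, abs_le]
  constructor
  · rw [← sub_nonneg]
    have : (4 * (cell N t : ℝ) + 2 * ((n % 2 : ℕ) : ℝ) + 1) / (4 * N) - t - -(1 / N) =
        (4 * (cell N t : ℝ) + 2 * ((n % 2 : ℕ) : ℝ) + 1 - 4 * (t * N) + 4) / (4 * N) := by
      field_simp; ring
    rw [this]
    apply div_nonneg _ (by positivity)
    linarith
  · rw [← sub_nonneg]
    have : 1 / (N : ℝ) - ((4 * (cell N t : ℝ) + 2 * ((n % 2 : ℕ) : ℝ) + 1) / (4 * N) - t) =
        (4 - (4 * (cell N t : ℝ) + 2 * ((n % 2 : ℕ) : ℝ) + 1) + 4 * (t * N)) / (4 * N) := by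
      field_simp
      ring
    rw [this]
    apply div_nonneg _ (by positivity)
    linarith

/-- The perturbed map, as a real function. -/
noncomputable def pert (N : ℕ) (g : unitInterval → unitInterval) (z : unitInterval) : ℝ :=
  g z + ∑ n ∈ Finset.range (2 * N), bump N n z * (ctr N (tau N g n) - g z)

theorem pert_cases {N : ℕ} (hN : 0 < N) (g : unitInterval → unitInterval) (z : unitInterval) :
    pert N g z = g z ∨ ∃ n < 2 * N, 16 * N * |(z : ℝ) - ctr N n| < 2 ∧
      pert N g z = g z + bump N n z * (ctr N (tau N g n) - g z) := by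
  by_cases h : ∃ n ∈ Finset.range (2 * N), bump N n z ≠ 0
  · right
    obtain ⟨n, hn, hne⟩ := h
    refine ⟨n, Finset.mem_range.1 hn, ?_, ?_⟩
    · by_contra hcon
      exact hne (bump_zero (not_lt.1 hcon))
    · unfold pert
      rw [Finset.sum_eq_single_of_mem n hn]
      intro m _ hmn
      rw [bump_sep hN (Ne.symm hmn) hne, zero_mul]
  · left
    push Not at h
    unfold pert
    rw [Finset.sum_eq_zero, add_zero]
    intro n hn
    rw [h n hn, zero_mul]

theorem pert_mem {N : ℕ} (hN : 0 < N) (g : unitInterval → unitInterval) (z : unitInterval) :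
    pert N g z ∈ Icc (0 : ℝ) 1 := by
  rcases pert_cases hN g z with h | ⟨n, _, _, h⟩
  · rw [h]; exact (g z).2
  · rw [h]
    have h1 := ctr_mem hN (tau_lt hN g n)
    have h2 := (g z).2
    have h3 := bump_nonneg N n z
    have h4 := bump_le N n z
    have e : (g z : ℝ) + bump N n z * (ctr N (tau N g n) - g z) =
        (1 - bump N n z) * g z + bump N n z * ctr N (tau N g n) := by ring
    rw [e]
    constructor
    · have := mul_nonneg (sub_nonneg.2 h4) h2.1
      have := mul_nonneg h3 h1.1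
      linarith
    · have := mul_le_mul_of_nonneg_left h2.2 (sub_nonneg.2 h4)
      have := mul_le_mul_of_nonneg_left h1.2 h3
      linarith

theorem pert_trap {N : ℕ} (hN : 0 < N) (g : unitInterval → unitInterval) {z : unitInterval}
    {n : ℕ} (hn : n < 2 * N) (hz : 16 * N * |(z : ℝ) - ctr N n| ≤ 1) :
    pert N g z = ctr N (tau N g n) := by
  have h1 := bump_one hz
  unfold pert
  rw [Finset.sum_eq_single_of_mem n (Finset.mem_range.2 hn), h1]
  · ring
  · intro m _ hmn
    rw [bump_sep hN (Ne.symm hmn) (by rw [h1]; exact one_ne_zero), zero_mul]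

theorem continuous_pert (N : ℕ) {g : unitInterval → unitInterval} (hg : Continuous g) :
    Continuous (pert N g) := by
  unfold pert
  refine (continuous_subtype_val.comp hg).add (continuous_finset_sum _ fun n _ => ?_)
  exact ((continuous_bump N n).comp continuous_subtype_val).mul
    (continuous_const.sub (continuous_subtype_val.comp hg))

/-- Maps near the perturbed map have no wandering interval of length at least `2 / N`. -/
theorem no_wand_near {N : ℕ} (hN : 0 < N) (g : unitInterval → unitInterval)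
    {f : unitInterval → unitInterval} (hf : Continuous f)
    (hfg : ∀ z, 16 * N * |(f z : ℝ) - pert N g z| ≤ 1) {a b : unitInterval}
    (hab : (a : ℝ) + 2 / N ≤ b) :
    ∃ i j, i < j ∧ (f^[i] '' Icc a b ∩ f^[j] '' Icc a b).Nonempty := by
  classical
  have hN' : (0 : ℝ) < N := by exact_mod_cast hN
  have ha0 : 0 ≤ (a : ℝ) * N := mul_nonneg a.2.1 hN'.le
  -- the full cell inside
  set j := ⌈(a : ℝ) * N⌉₊ with hj
  have hj1 : (a : ℝ) * N ≤ j := Nat.le_ceil _
  have hj2 : (j : ℝ) < a * N + 1 := Nat.ceil_lt_add_one ha0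
  have hjb : (j : ℝ) + 1 ≤ b * N := by
    have : ((a : ℝ) + 2 / N) * N ≤ b * N := mul_le_mul_of_nonneg_right hab hN'.le
    rw [add_mul, div_mul_cancel₀ _ hN'.ne'] at this
    linarith
  have hbN : (b : ℝ) * N ≤ N := by have := b.2.2; nlinarith
  have hjN : j + 1 ≤ N := by exact_mod_cast hjb.trans hbN
  -- trap dynamics
  have htrap : ∀ (n : ℕ), n < 2 * N → ∀ z : unitInterval, 16 * N * |(z : ℝ) - ctr N n| ≤ 1 →
      ∀ m, 16 * N * |(f^[m] z : ℝ) - ctr N ((tau N g)^[m] n)| ≤ 1 ∧ (tau N g)^[m] n < 2 * N := by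
    intro n hn z hz m
    induction m with
    | zero => exact ⟨hz, hn⟩
    | succ m ih =>
      rw [Function.iterate_succ_apply', Function.iterate_succ_apply']
      refine ⟨?_, tau_lt hN g _⟩
      rw [← pert_trap hN g ih.2 ih.1]
      exact hfg _
  have hpar : ∀ n m, (tau N g)^[m] n % 2 = n % 2 := by
    intro n m
    induction m with
    | zero => rfl
    | succ m ih => rw [Function.iterate_succ_apply', tau_parity, ih]
  have hmemctr : ∀ e : ℕ, e < 2 → ∃ z : unitInterval, z ∈ Icc a b ∧ (z : ℝ) = ctr N (2 * j + e) := by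
    intro e he
    have h1 := ctr_mem hN (show 2 * j + e < 2 * N by omega)
    refine ⟨⟨_, h1⟩, ⟨?_, ?_⟩, rfl⟩
    · rw [← Subtype.coe_le_coe]
      show (a : ℝ) ≤ ctr N (2 * j + e)
      unfold ctr
      rw [le_div_iff₀ (by positivity)]
      push_cast
      have : (0 : ℝ) ≤ e := Nat.cast_nonneg _
      nlinarith
    · rw [← Subtype.coe_le_coe]
      show ctr N (2 * j + e) ≤ (b : ℝ)
      unfold ctr
      rw [div_le_iff₀ (by positivity)]
      push_cast
      have : (e : ℝ) ≤ 1 := by exact_mod_cast (by omega : e ≤ 1)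
      nlinarith
  obtain ⟨z0, hz0, hz0c⟩ := hmemctr 0 (by norm_num)
  obtain ⟨z1, hz1, hz1c⟩ := hmemctr 1 (by norm_num)
  have h0 := htrap (2 * j + 0) (by omega) z0 (by rw [hz0c]; simp)
  have h1 := htrap (2 * j + 1) (by omega) z1 (by rw [hz1c]; simp)
  -- pigeonhole on pairs of indices
  let F : ℕ → Fin (2 * N) × Fin (2 * N) := fun m =>
    (⟨(tau N g)^[m] (2 * j + 0), (h0 m).2⟩, ⟨(tau N g)^[m] (2 * j + 1), (h1 m).2⟩)
  obtain ⟨m, m', hne, hF⟩ := Finite.exists_ne_map_eq_of_infinite F
  have key : ∀ m m', m < m' → F m = F m' →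
      ∃ i j, i < j ∧ (f^[i] '' Icc a b ∩ f^[j] '' Icc a b).Nonempty := by
    intro m m' hlt hF
    have hF1 : (tau N g)^[m] (2 * j + 0) = (tau N g)^[m'] (2 * j + 0) := by
      have := congrArg (fun p => (p.1 : ℕ)) hF; exact this
    have hF2 : (tau N g)^[m] (2 * j + 1) = (tau N g)^[m'] (2 * j + 1) := by
      have := congrArg (fun p => (p.2 : ℕ)) hF; exact this
    set u := (tau N g)^[m] (2 * j + 0) with hu
    set v := (tau N g)^[m] (2 * j + 1) with hv
    have huv : u ≠ v := by
      intro h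
      have h2 := hpar (2 * j + 0) m
      have h3 := hpar (2 * j + 1) m
      rw [← hu] at h2
      rw [← hv, ← h] at h3
      omega
    have hu' := (h0 m).2
    have hv' := (h1 m).2
    have hsep := ctr_sep hN huv
    have hcu := ctr_mem hN (show u < 2 * N from hu')
    have hcv := ctr_mem hN (show v < 2 * N from hv')
    let c : unitInterval := ⟨(ctr N u + ctr N v) / 2, by
      constructor
      · linarith [hcu.1, hcv.1]
      · linarith [hcu.2, hcv.2]⟩
    -- the centre point is in both images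
    have hc : ∀ k, 16 * N * |(f^[k] z0 : ℝ) - ctr N u| ≤ 1 →
        16 * N * |(f^[k] z1 : ℝ) - ctr N v| ≤ 1 → c ∈ f^[k] '' Icc a b := by
      intro k hk0 hk1
      have hord : (f^[k] '' Icc a b).OrdConnected :=
        (isPreconnected_Icc.image _ (hf.iterate k).continuousOn).ordConnected
      have hm0 : f^[k] z0 ∈ f^[k] '' Icc a b := ⟨z0, hz0, rfl⟩
      have hm1 : f^[k] z1 ∈ f^[k] '' Icc a b := ⟨z1, hz1, rfl⟩
      have hpos : (0 : ℝ) < 16 * N := by positivity
      rw [← le_div_iff₀' hpos] at hk0 hk1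
      have hsep' : 8 / (16 * (N : ℝ)) ≤ |ctr N u - ctr N v| := by
        rw [div_le_iff₀' hpos]; exact hsep
      have hd : 8 / (16 * (N : ℝ)) = 8 * (1 / (16 * N)) := by ring
      have hdp : 0 < 1 / (16 * (N : ℝ)) := by positivity
      rw [abs_le] at hk0 hk1
      rcases le_total (ctr N u) (ctr N v) with h | h
      · rw [abs_of_nonpos (by linarith)] at hsep'
        refine hord.out hm0 hm1 ⟨?_, ?_⟩
        · rw [← Subtype.coe_le_coe]
          show (f^[k] z0 : ℝ) ≤ (ctr N u + ctr N v) / 2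
          linarith [hk0.2]
        · rw [← Subtype.coe_le_coe]
          show (ctr N u + ctr N v) / 2 ≤ (f^[k] z1 : ℝ)
          linarith [hk1.1]
      · rw [abs_of_nonneg (by linarith)] at hsep'
        refine hord.out hm1 hm0 ⟨?_, ?_⟩
        · rw [← Subtype.coe_le_coe]
          show (f^[k] z1 : ℝ) ≤ (ctr N u + ctr N v) / 2
          linarith [hk1.2]
        · rw [← Subtype.coe_le_coe]
          show (ctr N u + ctr N v) / 2 ≤ (f^[k] z0 : ℝ)
          linarith [hk0.1]
    refine ⟨m, m', hlt, c, hc m (h0 m).1 (h1 m).1, hc m' ?_ ?_⟩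
    · rw [hF1]; exact (h0 m').1
    · rw [hF2]; exact (h1 m').1
  rcases lt_or_gt_of_ne hne with h | h
  · exact key m m' h hF
  · exact key m' m h hF.symm

/-- The maps without wandering intervals of length at least `1 / (k + 1)`. -/
def NW (k : ℕ) : Set C(unitInterval, unitInterval) :=
  {f | ∀ a b : unitInterval, (a : ℝ) + 1 / (k + 1) ≤ b →
    ∃ i j, i < j ∧ (f^[i] '' Icc a b ∩ f^[j] '' Icc a b).Nonempty}

theorem NW_residual (k : ℕ) : NW k ∈ residual C(unitInterval, unitInterval) := by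
  refine mem_of_superset (residual_of_dense_open isOpen_interior ?_) interior_subset
  rw [Metric.dense_iff]
  intro g ε hε
  -- uniform continuity
  obtain ⟨δ, hδ, hgδ⟩ := Metric.uniformContinuous_iff.1
    (CompactSpace.uniformContinuous_of_continuous g.continuous) (ε / 4) (by positivity)
  obtain ⟨M, hM⟩ := exists_nat_one_div_lt
    (show (0 : ℝ) < min (min δ (ε / 4)) (1 / (2 * (k + 1))) by positivity)
  set N := M + 1 with hNdef
  have hN : 0 < N := Nat.succ_pos M
  have hN' : (0 : ℝ) < N := by exact_mod_cast hN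
  have hNM : (1 : ℝ) / N < min (min δ (ε / 4)) (1 / (2 * (k + 1))) := by
    rw [hNdef]; push_cast; exact hM
  have hN1 : (1 : ℝ) / N < δ := hNM.trans_le ((min_le_left _ _).trans (min_le_left _ _))
  have hN2 : (1 : ℝ) / N < ε / 4 := hNM.trans_le ((min_le_left _ _).trans (min_le_right _ _))
  have hN3 : (2 : ℝ) / N ≤ 1 / (k + 1) := by
    have h1 : (1 : ℝ) / N < 1 / (2 * (k + 1)) := hNM.trans_le (min_le_right _ _)
    have h2 : (2 : ℝ) / N = 2 * (1 / N) := by ring
    have h3 : (1 : ℝ) / (k + 1) = 2 * (1 / (2 * (k + 1))) := by field_simp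
    rw [h2, h3]; linarith
  let f0 : C(unitInterval, unitInterval) :=
    ⟨fun z => ⟨pert N g z, pert_mem hN g z⟩,
      (continuous_pert N g.continuous).subtype_mk _⟩
  have hf0 : ∀ z, (f0 z : ℝ) = pert N g z := fun z => rfl
  refine ⟨f0, ?_, ?_⟩
  · rw [Metric.mem_ball, ContinuousMap.dist_lt_iff hε]
    intro z
    rw [Subtype.dist_eq, hf0, Real.dist_eq]
    rcases pert_cases hN g z with h | ⟨n, hn, hz, h⟩
    · rw [h, sub_self, abs_zero]; exact hε
    · rw [h, add_sub_cancel_left, abs_mul, abs_of_nonneg (bump_nonneg _ _ _)]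
      have h1 := tau_close hN g n
      have hproj : projIcc (0 : ℝ) 1 zero_le_one (ctr N n) = ⟨ctr N n, ctr_mem hN hn⟩ :=
        projIcc_of_mem _ _
      rw [hproj] at h1
      have h2 : dist z ⟨ctr N n, ctr_mem hN hn⟩ < δ := by
        rw [Subtype.dist_eq, Real.dist_eq]
        refine lt_trans ?_ hN1
        rw [lt_div_iff₀ hN']
        show |(z : ℝ) - ctr N n| * N < 1
        nlinarith
      have h3 := hgδ h2
      rw [Subtype.dist_eq, Real.dist_eq] at h3
      have h4 : |ctr N (tau N g n) - (g z : ℝ)| ≤ 1 / N + ε / 4 := by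
        have e : ctr N (tau N g n) - (g z : ℝ) =
            (ctr N (tau N g n) - (g ⟨ctr N n, ctr_mem hN hn⟩ : ℝ)) -
              ((g z : ℝ) - (g ⟨ctr N n, ctr_mem hN hn⟩ : ℝ)) := by ring
        rw [e]
        exact (abs_sub _ _).trans (add_le_add h1 h3.le)
      calc bump N n z * |ctr N (tau N g n) - (g z : ℝ)|
          ≤ 1 * |ctr N (tau N g n) - (g z : ℝ)| :=
            mul_le_mul_of_nonneg_right (bump_le _ _ _) (abs_nonneg _)
        _ < ε := by linarith
  · rw [mem_interior]
    refine ⟨Metric.ball f0 (1 / (16 * N)), ?_, Metric.isOpen_ball,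
      Metric.mem_ball_self (by positivity)⟩
    intro f hf a b hab
    refine no_wand_near hN g f.continuous (fun z => ?_) (le_trans (by linarith) hab)
    have h1 := (ContinuousMap.dist_apply_le_dist (f := f) (g := f0) z).trans_lt hf
    rw [Subtype.dist_eq, hf0, Real.dist_eq] at h1
    rw [lt_div_iff₀ (by positivity)] at h1
    linarith

/-- A generic interval map has no wandering interval. -/
theorem noWandering_residual :
    {f : C(unitInterval, unitInterval) | NoWandering f} ∈ residual C(unitInterval, unitInterval) := by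
  have h := countable_iInter_mem.2 (fun k => NW_residual k)
  refine mem_of_superset h fun f hf a b hab => ?_
  have hab' : (a : ℝ) < b := hab
  obtain ⟨k, hk⟩ := exists_nat_one_div_lt (sub_pos.2 hab')
  exact mem_iInter.1 hf k a b (by linarith)

end Q69.SA
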