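import Pool.Agent.Q69.SARight

/-!
# The closure property at periodic points, reflection, and the closedness theorem
-/

namespace Q69.SA

open Set Filter Topology

variable {f : unitInterval → unitInterval} {x y : unitInterval}

/-! ### Reflection -/

/-- The map seen in the reflected interval. -/
def refl (f : unitInterval → unitInterval) : unitInterval → unitInterval :=
  fun z => unitInterval.symm (f (unitInterval.symm z))

theorem refl_refl (f : unitInterval → unitInterval) : refl (refl f) = f := by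
  funext z; simp [refl]

theorem refl_iter (f : unitInterval → unitInterval) (n : ℕ) (z : unitInterval) :
    (refl f)^[n] (unitInterval.symm z) = unitInterval.symm (f^[n] z) := by
  induction n with
  | zero => rfl
  | succ n ih => rw [Function.iterate_succ_apply', ih, Function.iterate_succ_apply']; simp [refl]

theorem continuous_refl (hf : Continuous f) : Continuous (refl f) :=
  unitInterval.continuous_symm.comp (hf.comp unitInterval.continuous_symm)

theorem IsBranch.refl {b : ℕ → unitInterval} (hb : IsBranch f x b) :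
    IsBranch (refl f) (unitInterval.symm x) (fun n => unitInterval.symm (b n)) := by
  refine ⟨congrArg _ hb.1, fun n => ?_⟩
  show unitInterval.symm (f (unitInterval.symm (unitInterval.symm (b (n + 1))))) = _
  rw [unitInterval.symm_symm, hb.2]

theorem mem_sAlpha_refl (h : unitInterval.symm y ∈ sAlpha (refl f) (unitInterval.symm x)) :
    y ∈ sAlpha f x := by
  obtain ⟨b, hb, hU⟩ := mem_sAlpha.1 h
  have h1 := hb.refl
  rw [refl_refl, unitInterval.symm_symm] at h1
  refine mem_sAlpha.2 ⟨_, h1, fun U hU' => ?_⟩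
  have h2 : unitInterval.symm ⁻¹' U ∈ 𝓝 (unitInterval.symm y) := by
    apply unitInterval.continuous_symm.continuousAt
    rw [unitInterval.symm_symm]; exact hU'
  exact hU _ h2

theorem symm_lt {a b : unitInterval} (h : a < b) : unitInterval.symm b < unitInterval.symm a :=
  unitInterval.strictAnti_symm h

theorem NoWandering.refl (hG : NoWandering f) : NoWandering (refl f) := by
  intro a b hab
  obtain ⟨i, j, hij, z, ⟨c, hc, hzc⟩, ⟨d, hd, hzd⟩⟩ := hG _ _ (symm_lt hab)
  have key : ∀ c ∈ Icc (unitInterval.symm b) (unitInterval.symm a),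
      unitInterval.symm c ∈ Icc a b := by
    intro c hc
    constructor
    · have := unitInterval.strictAnti_symm.antitone hc.2
      rwa [unitInterval.symm_symm] at this
    · have := unitInterval.strictAnti_symm.antitone hc.1
      rwa [unitInterval.symm_symm] at this
  exact ⟨i, j, hij, unitInterval.symm z, ⟨_, key c hc, by rw [refl_iter, hzc]⟩,
    ⟨_, key d hd, by rw [refl_iter, hzd]⟩⟩

/-! ### Periodic points -/

/-- Small neighbourhoods. -/
def nb (y : unitInterval) (n : ℕ) : Set unitInterval := Metric.ball y (1 / ((n : ℝ) + 1))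

theorem mem_nb (y : unitInterval) (n : ℕ) : y ∈ nb y n :=
  Metric.mem_ball_self (by positivity)

theorem nb_mem (y : unitInterval) (n : ℕ) : nb y n ∈ 𝓝 y :=
  Metric.ball_mem_nhds _ (by positivity)

theorem nb_pc (y : unitInterval) (n : ℕ) : IsPreconnected (nb y n) := by
  apply OrdConnected.isPreconnected
  refine ⟨fun a ha b hb z hz => ?_⟩
  unfold nb at *
  rw [Metric.mem_ball, Subtype.dist_eq, Real.dist_eq, abs_lt] at *
  have h1 : (a : ℝ) ≤ z := hz.1
  have h2 : (z : ℝ) ≤ b := hz.2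
  constructor <;> linarith [ha.1, hb.2]

theorem exists_nb {U : Set unitInterval} (hU : U ∈ 𝓝 y) : ∃ n, nb y n ⊆ U := by
  obtain ⟨ε, hε, h⟩ := Metric.mem_nhds_iff.1 hU
  obtain ⟨n, hn⟩ := exists_nat_one_div_lt hε
  exact ⟨n, (Metric.ball_subset_ball hn.le).trans h⟩

theorem nb_anti {n m : ℕ} (h : n ≤ m) : nb y m ⊆ nb y n := by
  apply Metric.ball_subset_ball
  apply one_div_le_one_div_of_le (by positivity)
  have : (n : ℝ) ≤ m := by exact_mod_cast h
  linarith

/-- The unstable sets of a fixed point of `f^[q]`. -/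
def Hs (f : unitInterval → unitInterval) (q : ℕ) (y : unitInterval) (n : ℕ) :
    Set unitInterval :=
  ⋃ m : ℕ, f^[q * m] '' nb y n

theorem iter_fix {q : ℕ} (hq : f^[q] y = y) (m : ℕ) : f^[q * m] y = y := by
  rw [Function.iterate_mul]
  exact Function.iterate_fixed hq m

theorem Hs_ord (hf : Continuous f) {q : ℕ} (hq : f^[q] y = y) (n : ℕ) :
    (Hs f q y n).OrdConnected := by
  apply IsPreconnected.ordConnected
  refine isPreconnected_iUnion ⟨y, mem_iInter.2 fun m => ⟨y, mem_nb y n, iter_fix hq m⟩⟩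
    fun m => (nb_pc y n).image _ (hf.iterate _).continuousOn

theorem self_mem_Hs {q : ℕ} (n : ℕ) : y ∈ Hs f q y n :=
  mem_iUnion.2 ⟨0, y, mem_nb y n, by simp⟩

theorem Hs_anti {q n m : ℕ} (h : n ≤ m) : Hs f q y m ⊆ Hs f q y n :=
  iUnion_mono fun _ => image_mono (nb_anti h)

theorem symm_mem_nb {z : unitInterval} {n : ℕ} (h : z ∈ nb y n) :
    unitInterval.symm z ∈ nb (unitInterval.symm y) n := by
  unfold nb at *
  rw [Metric.mem_ball, Subtype.dist_eq, Real.dist_eq, abs_lt] at *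
  rw [unitInterval.coe_symm_eq, unitInterval.coe_symm_eq]
  constructor <;> linarith [h.1, h.2]

theorem symm_mem_Hs {q n : ℕ} {z : unitInterval} (h : z ∈ Hs f q y n) :
    unitInterval.symm z ∈ Hs (refl f) q (unitInterval.symm y) n := by
  obtain ⟨m, w, hw, rfl⟩ := mem_iUnion.1 h
  exact mem_iUnion.2 ⟨m, _, symm_mem_nb hw, refl_iter _ _ _⟩

/-- A periodic point is in the special limit set of each point of its orbit. -/
theorem per_self {q : ℕ} (hq1 : 1 ≤ q) (hq : f^[q] y = y) (i : ℕ) : y ∈ sAlpha f (f^[i] y) := by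
  refine mem_sAlpha.2 ⟨fun n => f^[i + n * (q - 1)] y, ⟨by simp, fun n => ?_⟩, fun U hU => ?_⟩
  · show f (f^[i + (n + 1) * (q - 1)] y) = f^[i + n * (q - 1)] y
    rw [← Function.iterate_succ_apply' f]
    have : (i + (n + 1) * (q - 1)).succ = i + n * (q - 1) + q := by
      obtain ⟨r, rfl⟩ : ∃ r, q = r + 1 := ⟨q - 1, by omega⟩
      simp only [Nat.add_sub_cancel, Nat.succ_eq_add_one]
      ring
    rw [this, Function.iterate_add_apply, hq]
  · rw [frequently_atTop]
    intro N
    refine ⟨i + N * q, ?_, ?_⟩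
    · have : N * 1 ≤ N * q := Nat.mul_le_mul_left _ hq1
      omega
    · have : i + (i + N * q) * (q - 1) = q * (i + N * (q - 1)) := by
        obtain ⟨r, rfl⟩ : ∃ r, q = r + 1 := ⟨q - 1, by omega⟩
        simp only [Nat.add_sub_cancel]
        ring
      show f^[i + (i + N * q) * (q - 1)] y ∈ U
      rw [this, iter_fix hq]
      exact mem_of_mem_nhds hU

theorem exists_W (hf : Continuous f) (q : ℕ) (hxo : ∀ i, f^[i] y ≠ x) :
    ∀ᶠ w in 𝓝 y, ∀ i < q, f^[i] w ≠ x := by
  have : ∀ i ∈ Finset.range q, ∀ᶠ w in 𝓝 y, f^[i] w ≠ x := fun i _ =>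
    (hf.iterate i).continuousAt.eventually (isOpen_ne.mem_nhds (hxo i))
  have h := (Finset.eventually_all (Finset.range q)).2 this
  exact h.mono fun w hw i hi => hw i (Finset.mem_range.2 hi)

theorem per_both (hf : Continuous f) {q : ℕ} (hq : f^[q] y = y)
    (hx : ∀ U ∈ 𝓝 y, ∃ z ∈ U, ∃ n, f^[n] z = x) (hxo : ∀ i, f^[i] y ≠ x)
    {z0 z1 : unitInterval} (h0 : y < z0) (h1 : z1 < y) (hz0 : ∀ n, z0 ∈ Hs f q y n)
    (hz1 : ∀ n, z1 ∈ Hs f q y n) (hq1 : 1 ≤ q) : y ∈ sAlpha f x := by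
  apply mem_sAlpha_of_chain {z | z1 < z ∧ z < z0 ∧ z ≠ y}
  · obtain ⟨z, hz, n, hn⟩ := hx (Ioo z1 z0) (Ioo_mem_nhds h1 h0)
    exact ⟨z, ⟨hz.1, hz.2, fun h => hxo n (h ▸ hn)⟩, n, hn⟩
  · rintro z ⟨h2, h3, h4⟩ U hU
    have hU' : U ∩ Ioo z1 z0 ∩ {z}ᶜ ∈ 𝓝 y :=
      inter_mem (inter_mem hU (Ioo_mem_nhds h1 h0)) (isOpen_ne.mem_nhds (Ne.symm h4))
    obtain ⟨k, hk⟩ := exists_nb hU'
    have hzH : z ∈ Hs f q y k := (Hs_ord hf hq k).out (hz1 k) (hz0 k) ⟨h2.le, h3.le⟩
    obtain ⟨m, w, hw, hwz⟩ := mem_iUnion.1 hzH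
    have hwU := hk hw
    refine ⟨w, ⟨hwU.1.2.1, hwU.1.2.2, fun h => h4 ?_⟩, hwU.1.1, q * m, ?_, hwz⟩
    · rw [h, iter_fix hq] at hwz; exact hwz.symm
    · rcases Nat.eq_zero_or_pos (q * m) with h | h
      · rw [h] at hwz; exact absurd hwz hwU.2
      · exact h

theorem per_right (hf : Continuous f) {q : ℕ} (hq1 : 1 ≤ q) (hq : f^[q] y = y)
    (hx : ∀ U ∈ 𝓝 y, ∃ z ∈ U, ∃ n, f^[n] z = x) (hxo : ∀ i, f^[i] y ≠ x)
    {z0 : unitInterval} (h0 : y < z0) (hz0 : ∀ n, z0 ∈ Hs f q y n)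
    (hL : ∀ z1, z1 < y → ∃ n, z1 ∉ Hs f q y n) : y ∈ sAlpha f x := by
  -- the left part of the unstable sets shrinks
  have hsm : ∀ U ∈ 𝓝 y, ∃ n, ∀ z ∈ Hs f q y n, z ≤ y → z ∈ U := by
    intro U hU
    by_cases hl : ∃ l, l < y
    · obtain ⟨l, hl1, hl2⟩ := exists_Ioc_subset_of_mem_nhds hU hl
      obtain ⟨n, hn⟩ := hL l hl1
      refine ⟨n, fun z hz hzy => hl2 ⟨?_, hzy⟩⟩
      by_contra hcon
      exact hn ((Hs_ord hf hq n).out hz (self_mem_Hs n) ⟨not_lt.1 hcon, hl1.le⟩)
    · push Not at hl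
      exact ⟨0, fun z _ hz => by rw [le_antisymm hz (hl z)]; exact mem_of_mem_nhds hU⟩
  -- crossing
  have hcross : ∀ U ∈ 𝓝 y, ∃ k, nb y k ⊆ U ∧ ∀ z' ∈ nb y k, z' < y → ∀ m,
      (f^[q * m] z' < y ∧ f^[q * m] z' ∈ U) ∨ f^[q * m] z' = y ∨
      ∃ l ≤ m, y < f^[q * l] z' ∧ f^[q * l] z' ∈ U := by
    intro U hU
    have hU' : U ∩ f^[q] ⁻¹' U ∈ 𝓝 y := by
      refine inter_mem hU ((hf.iterate q).continuousAt ?_)
      rw [hq]; exact hU
    obtain ⟨n, hn⟩ := hsm _ hU'
    obtain ⟨k0, hk0⟩ := exists_nb hU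
    refine ⟨max n k0, (nb_anti (le_max_right _ _)).trans hk0, fun z' hz' hzy m => ?_⟩
    have hH : ∀ m, f^[q * m] z' ∈ Hs f q y n := fun m =>
      Hs_anti (le_max_left n k0) (mem_iUnion.2 ⟨m, z', hz', rfl⟩)
    induction m with
    | zero =>
      left
      have h1 := hn _ (hH 0) (by simpa using hzy.le)
      exact ⟨by simpa using hzy, h1.1⟩
    | succ m ih =>
      have e : f^[q * (m + 1)] z' = f^[q] (f^[q * m] z') := by
        rw [← Function.iterate_add_apply]; congr 1; ring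
      rcases ih with h | h | ⟨l, hl, h⟩
      · have h1 := hn _ (hH m) h.1.le
        have h2 : f^[q * (m + 1)] z' ∈ U := by rw [e]; exact h1.2
        rcases lt_trichotomy (f^[q * (m + 1)] z') y with h3 | h3 | h3
        · exact Or.inl ⟨h3, h2⟩
        · exact Or.inr (Or.inl h3)
        · exact Or.inr (Or.inr ⟨m + 1, le_refl _, h3, h2⟩)
      · right; left; rw [e, h, hq]
      · exact Or.inr (Or.inr ⟨l, hl.trans (Nat.le_succ _), h⟩)
  apply mem_sAlpha_of_chain {z | y < z ∧ z < z0}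
  · -- the start
    obtain ⟨k, hk, hcr⟩ := hcross (Iio z0 ∩ {w | ∀ i < q, f^[i] w ≠ x})
      (inter_mem (Iio_mem_nhds h0) (exists_W hf q hxo))
    obtain ⟨z', hz', n, hn⟩ := hx _ (nb_mem y k)
    have hne : z' ≠ y := fun h => hxo n (h ▸ hn)
    rcases lt_or_gt_of_ne hne with h | h
    · have e : n = n % q + q * (n / q) := (Nat.mod_add_div n q).symm
      rcases hcr z' hz' h (n / q) with h1 | h1 | ⟨l, hl, h1⟩
      · exfalso
        rw [e, Function.iterate_add_apply] at hn
        exact h1.2.2 (n % q) (Nat.mod_lt _ hq1) hn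
      · exfalso
        rw [e, Function.iterate_add_apply, h1] at hn
        exact hxo _ hn
      · refine ⟨f^[q * l] z', ⟨h1.1, h1.2.1⟩, n - q * l, ?_⟩
        rw [← Function.iterate_add_apply, Nat.sub_add_cancel, hn]
        calc q * l ≤ q * (n / q) := Nat.mul_le_mul_left _ hl
          _ ≤ n := Nat.mul_div_le n q
    · exact ⟨z', ⟨h, (hk hz').1⟩, n, hn⟩
  · -- the step
    rintro z ⟨h2, h3⟩ U hU
    obtain ⟨k, hk, hcr⟩ := hcross (U ∩ Iio z) (inter_mem hU (Iio_mem_nhds h2))
    have hzH : z ∈ Hs f q y k := (Hs_ord hf hq k).out (self_mem_Hs k) (hz0 k) ⟨h2.le, h3.le⟩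
    obtain ⟨m, z', hz', hzz⟩ := mem_iUnion.1 hzH
    have hz'U := hk hz'
    have hne : z' ≠ y := fun h => by
      rw [h, iter_fix hq] at hzz; exact absurd hzz h2.ne
    rcases lt_or_gt_of_ne hne with h | h
    · rcases hcr z' hz' h m with h1 | h1 | ⟨l, hl, h1⟩
      · rw [hzz] at h1; exact absurd h1.1 (not_lt.2 h2.le)
      · rw [hzz] at h1; exact absurd h1 h2.ne'
      · refine ⟨f^[q * l] z', ⟨h1.1, h1.2.2.trans h3⟩, h1.2.1, q * m - q * l, ?_, ?_⟩
        · rcases Nat.eq_zero_or_pos (q * m - q * l) with h5 | h5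
          · exfalso
            have h6 : q * l ≤ q * m := Nat.mul_le_mul_left _ hl
            have h7 : q * l = q * m := by omega
            rw [h7, hzz] at h1
            exact lt_irrefl z h1.2.2
          · exact h5
        · rw [← Function.iterate_add_apply, Nat.sub_add_cancel (Nat.mul_le_mul_left _ hl), hzz]
    · refine ⟨z', ⟨h, hz'U.2.trans h3⟩, hz'U.1, q * m, ?_, hzz⟩
      rcases Nat.eq_zero_or_pos (q * m) with h5 | h5
      · rw [h5] at hzz; exact absurd hzz (ne_of_lt hz'U.2)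
      · exact h5

/-- **Periodic points.** -/
theorem per_case (hf : Continuous f) {q : ℕ} (hq1 : 1 ≤ q) (hq : f^[q] y = y)
    (hx : ∀ U ∈ 𝓝 y, ∃ z ∈ U, ∃ n, f^[n] z = x) : y ∈ sAlpha f x := by
  by_cases hxo : ∀ i, f^[i] y ≠ x
  swap
  · push Not at hxo
    obtain ⟨i, hi⟩ := hxo
    rw [← hi]; exact per_self hq1 hq i
  by_cases hR : ∀ z0, y < z0 → ∃ n, z0 ∉ Hs f q y n
  · by_cases hL : ∀ z1, z1 < y → ∃ n, z1 ∉ Hs f q y n
    · -- both sides small: impossible
      exfalso
      have hsm : ∀ U ∈ 𝓝 y, ∃ n, Hs f q y n ⊆ U := by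
        intro U hU
        have hr : ∃ n, ∀ z ∈ Hs f q y n, y ≤ z → z ∈ U := by
          by_cases hl : ∃ l, y < l
          · obtain ⟨l, hl1, hl2⟩ := exists_Ico_subset_of_mem_nhds hU hl
            obtain ⟨n, hn⟩ := hR l hl1
            refine ⟨n, fun z hz hzy => hl2 ⟨hzy, ?_⟩⟩
            by_contra hcon
            exact hn ((Hs_ord hf hq n).out (self_mem_Hs n) hz ⟨hl1.le, not_lt.1 hcon⟩)
          · push Not at hl
            exact ⟨0, fun z _ hz => by rw [← le_antisymm hz (hl z)]; exact mem_of_mem_nhds hU⟩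
        have hlt : ∃ n, ∀ z ∈ Hs f q y n, z ≤ y → z ∈ U := by
          by_cases hl : ∃ l, l < y
          · obtain ⟨l, hl1, hl2⟩ := exists_Ioc_subset_of_mem_nhds hU hl
            obtain ⟨n, hn⟩ := hL l hl1
            refine ⟨n, fun z hz hzy => hl2 ⟨?_, hzy⟩⟩
            by_contra hcon
            exact hn ((Hs_ord hf hq n).out hz (self_mem_Hs n) ⟨not_lt.1 hcon, hl1.le⟩)
          · push Not at hl
            exact ⟨0, fun z _ hz => by rw [le_antisymm hz (hl z)]; exact mem_of_mem_nhds hU⟩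
        obtain ⟨n, hn⟩ := hr
        obtain ⟨m, hm⟩ := hlt
        refine ⟨max n m, fun z hz => ?_⟩
        rcases le_total y z with h | h
        · exact hn z (Hs_anti (le_max_left _ _) hz) h
        · exact hm z (Hs_anti (le_max_right _ _) hz) h
      obtain ⟨n, hn⟩ := hsm _ (exists_W hf q hxo)
      obtain ⟨z, hz, a, ha⟩ := hx _ (nb_mem y n)
      have h1 : f^[q * (a / q)] z ∈ Hs f q y n := mem_iUnion.2 ⟨_, z, hz, rfl⟩
      have h2 := hn h1 (a % q) (Nat.mod_lt _ hq1)
      rw [← Function.iterate_add_apply, Nat.mod_add_div] at h2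
      exact h2 ha
    · -- left big, right small: reflect
      push Not at hL
      obtain ⟨z1, hz1, hbig⟩ := hL
      apply mem_sAlpha_refl
      refine per_right (continuous_refl hf) hq1 (by rw [refl_iter, hq]) ?_ ?_ (symm_lt hz1)
        (fun n => symm_mem_Hs (hbig n)) ?_
      · intro U hU
        have h2 : unitInterval.symm ⁻¹' U ∈ 𝓝 y :=
          unitInterval.continuous_symm.continuousAt hU
        obtain ⟨z, hz, n, hn⟩ := hx _ h2
        exact ⟨unitInterval.symm z, hz, n, by rw [refl_iter, hn]⟩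
      · intro i hi
        rw [refl_iter] at hi
        exact hxo i (unitInterval.symm_bijective.injective hi)
      · intro z hz
        have h3 : y < unitInterval.symm z := by
          have := symm_lt hz
          rwa [unitInterval.symm_symm] at this
        obtain ⟨n, hn⟩ := hR _ h3
        refine ⟨n, fun h => hn ?_⟩
        have h4 := symm_mem_Hs h
        rwa [refl_refl, unitInterval.symm_symm] at h4
  · push Not at hR
    obtain ⟨z0, hz0, hbig⟩ := hR
    by_cases hL : ∀ z1, z1 < y → ∃ n, z1 ∉ Hs f q y n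
    · exact per_right hf hq1 hq hx hxo hz0 hbig hL
    · push Not at hL
      obtain ⟨z1, hz1, hbig1⟩ := hL
      exact per_both hf hq hx hxo hz0 hz1 hbig hbig1 hq1

/-- **Closedness.** For a continuous interval map without wandering intervals all special
`α`-limit sets are closed. -/
theorem isClosed_sAlpha (hf : Continuous f) (hG : NoWandering f) (x : unitInterval) :
    IsClosed (sAlpha f x) := by
  rw [← closure_subset_iff_isClosed]
  intro y hy
  -- every neighbourhood of `y` is visited infinitely often by some branch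
  have hv : ∀ U ∈ 𝓝 y, ∃ b, IsBranch f x b ∧ ∃ᶠ n in atTop, b n ∈ U := by
    intro U hU
    obtain ⟨V, hVU, hV, hyV⟩ := mem_nhds_iff.1 hU
    obtain ⟨y', hy'V, hy'⟩ := mem_closure_iff.1 hy V hV hyV
    obtain ⟨b, hb, h⟩ := mem_sAlpha.1 hy'
    exact ⟨b, hb, (h V (hV.mem_nhds hy'V)).mono fun n hn => hVU hn⟩
  by_cases hper : ∀ q, 1 ≤ q → f^[q] y ≠ y
  swap
  · push Not at hper
    obtain ⟨q, hq1, hq⟩ := hper
    refine per_case hf hq1 hq fun U hU => ?_
    obtain ⟨b, hb, h⟩ := hv U hU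
    obtain ⟨n, hn⟩ := h.exists
    exact ⟨b n, hn, n, hb.iter_zero n⟩
  -- a branch visits `y` at most once
  have hne : ∀ b, IsBranch f x b → ∀ᶠ n in atTop, b n ≠ y := by
    intro b hb
    by_cases h : ∃ n, b n = y
    · obtain ⟨n, hn⟩ := h
      filter_upwards [eventually_gt_atTop n] with m hm hmy
      have := hb.iter' hm.le
      rw [hmy, hn] at this
      exact hper (m - n) (by omega) this
    · push Not at h
      exact Eventually.of_forall h
  by_cases hR : (∃ v, y < v) ∧ ∀ v, y < v → ∃ b, IsBranch f x b ∧ ∃ᶠ n in atTop, b n ∈ Ioo y v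
  · exact right_case hf hG hR.1 hR.2 hper
  -- otherwise the visits come from the left
  have hR' : ∃ U0 ∈ 𝓝 y, ∀ b, IsBranch f x b → ¬ ∃ᶠ n in atTop, b n ∈ U0 ∧ y < b n := by
    rw [not_and_or] at hR
    rcases hR with hR | hR
    · refine ⟨univ, univ_mem, fun b _ h => ?_⟩
      obtain ⟨n, hn⟩ := h.exists
      exact hR ⟨_, hn.2⟩
    · push Not at hR
      obtain ⟨v, hv1, hv2⟩ := hR
      refine ⟨Iio v, Iio_mem_nhds hv1, fun b hb h => ?_⟩
      have h2 := hv2 b hb
      rw [← not_frequently] at h2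
      · exact h2 (h.mono fun n hn => ⟨hn.2, hn.1⟩)
  obtain ⟨U0, hU0, hno⟩ := hR'
  have hleft : ∀ U ∈ 𝓝 y, ∃ b, IsBranch f x b ∧ ∃ᶠ n in atTop, b n ∈ U ∧ b n < y := by
    intro U hU
    obtain ⟨b, hb, h⟩ := hv (U ∩ U0) (inter_mem hU hU0)
    refine ⟨b, hb, ?_⟩
    have h1 := hno b hb
    rw [not_frequently] at h1
    refine (h.and_eventually (h1.and (hne b hb))).mono fun n hn => ⟨hn.1.1, ?_⟩
    rcases lt_trichotomy (b n) y with h2 | h2 | h2
    · exact h2
    · exact absurd h2 hn.2.2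
    · exact absurd ⟨hn.1.2, h2⟩ hn.2.1
  apply mem_sAlpha_refl
  refine right_case (continuous_refl hf) hG.refl ?_ ?_ ?_
  · obtain ⟨b, hb, h⟩ := hleft univ univ_mem
    obtain ⟨n, hn⟩ := h.exists
    exact ⟨unitInterval.symm (b n), symm_lt hn.2⟩
  · intro v hvy
    have h3 : unitInterval.symm v < y := by
      have := symm_lt hvy
      rwa [unitInterval.symm_symm] at this
    obtain ⟨b, hb, h⟩ := hleft (Ioi (unitInterval.symm v)) (Ioi_mem_nhds h3)
    refine ⟨_, hb.refl, h.mono fun n hn => ⟨symm_lt hn.2, ?_⟩⟩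
    have := symm_lt hn.1
    rwa [unitInterval.symm_symm] at this
  · intro q hq h
    rw [refl_iter] at h
    exact hper q hq (unitInterval.symm_bijective.injective h)

end Q69.SA
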