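import Pool.Agent.Q69.SAComp

/-!
# The closure property at a non-periodic point visited from the right
-/

namespace Q69.SA

open Set Filter Topology

/-- No wandering intervals: the images of an interval are not pairwise disjoint. -/
def NoWandering (f : unitInterval → unitInterval) : Prop :=
  ∀ a b : unitInterval, a < b → ∃ i j, i < j ∧ (f^[i] '' Icc a b ∩ f^[j] '' Icc a b).Nonempty

variable {f : unitInterval → unitInterval} {x y : unitInterval}

theorem pc_Ico (a b : unitInterval) : IsPreconnected (Ico a b) := ordConnected_Ico.isPreconnected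

theorem exists_start (hv0 : ∃ v, y < v)
    (hx : ∀ v, y < v → ∃ b, IsBranch f x b ∧ ∃ᶠ n in atTop, b n ∈ Ioo y v)
    {z0 : unitInterval} (hz0 : y < z0) :
    ∃ z, y < z ∧ z < z0 ∧ (∀ m, f^[m] y ≠ z) ∧ ∃ n, f^[n] z = x := by
  by_contra hcon
  have hcon' : ∀ z, y < z → z < z0 → (∃ n, f^[n] z = x) → ∃ m, f^[m] y = z := by
    intro z h1 h2 h3
    by_contra h4
    exact hcon ⟨z, h1, h2, fun m hm => h4 ⟨m, hm⟩, h3⟩
  by_cases hinj : Function.Injective (fun n => f^[n] y)
  · obtain ⟨b, hb, hv⟩ := hx z0 hz0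
    -- every `b n` is in the forward orbit of `y`
    have h1 : ∀ n, ∃ a, f^[a] y = b n := by
      intro n
      obtain ⟨m, hm, hm2⟩ := (frequently_atTop.1 hv) n
      obtain ⟨a, ha⟩ := hcon' (b m) hm2.1 hm2.2 ⟨m, hb.iter_zero m⟩
      refine ⟨m - n + a, ?_⟩
      rw [Function.iterate_add_apply, ha, hb.iter' hm]
    choose a ha using h1
    have h2 : ∀ n, a (n + 1) + 1 = a n := by
      intro n
      apply hinj
      show f^[a (n + 1) + 1] y = f^[a n] y
      rw [Function.iterate_succ_apply', ha, ha, hb.2]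
    have h3 : ∀ n, a n + n = a 0 := by
      intro n
      induction n with
      | zero => rfl
      | succ n ih => have := h2 n; omega
    have := h3 (a 0 + 1)
    omega
  · -- the forward orbit of `y` is finite
    have hfin : (range (fun n => f^[n] y)).Finite := by
      simp only [Function.Injective] at hinj
      push Not at hinj
      obtain ⟨i, j, hij, hne⟩ := hinj
      have key : ∀ i j, i < j → f^[i] y = f^[j] y → (range (fun n => f^[n] y)).Finite := by
        intro i j hlt h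
        refine ((Finset.range j).image (fun n => f^[n] y)).finite_toSet.subset ?_
        rintro _ ⟨n, rfl⟩
        simp only [Finset.coe_image, mem_image, Finset.coe_range, mem_Iio]
        induction n using Nat.strong_induction_on with
        | _ n ih =>
          by_cases hn : n < j
          · exact ⟨n, hn, rfl⟩
          · obtain ⟨m, hm, hm2⟩ := ih (n - j + i) (by omega)
            refine ⟨m, hm, hm2.trans ?_⟩
            show f^[n - j + i] y = f^[n] y
            rw [Function.iterate_add_apply, h, ← Function.iterate_add_apply,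
              Nat.sub_add_cancel (not_lt.1 hn)]
      rcases lt_or_gt_of_ne hne with h | h
      · exact key i j h hij
      · exact key j i h hij.symm
    have hU : (range (fun n => f^[n] y) \ {y})ᶜ ∈ 𝓝 y :=
      (hfin.subset diff_subset).isClosed.isOpen_compl.mem_nhds (by simp)
    obtain ⟨u, hu1, hu2⟩ := exists_Ico_subset_of_mem_nhds hU hv0
    obtain ⟨b, hb, hv⟩ := hx (min u z0) (lt_min hu1 hz0)
    obtain ⟨n, hn⟩ := hv.exists
    obtain ⟨m, hm⟩ := hcon' (b n) hn.1 (hn.2.trans_le (min_le_right _ _)) ⟨n, hb.iter_zero n⟩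
    have h1 : b n ∈ Ico y u := ⟨hn.1.le, hn.2.trans_le (min_le_left _ _)⟩
    exact hu2 h1 ⟨⟨m, hm⟩, hn.1.ne'⟩

/-- If the components are big on the right, the point is in the special limit set. -/
theorem case_big (hv0 : ∃ v, y < v)
    (hx : ∀ v, y < v → ∃ b, IsBranch f x b ∧ ∃ᶠ n in atTop, b n ∈ Ioo y v)
    {z0 : unitInterval} (hz0 : y < z0) (hbig : ∀ v, y < v → z0 ∈ comp f (Ico y v) y) :
    y ∈ sAlpha f x := by
  apply mem_sAlpha_of_chain {z | y < z ∧ z < z0 ∧ ∀ m, f^[m] y ≠ z}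
  · obtain ⟨z, h1, h2, h3, h4⟩ := exists_start hv0 hx hz0
    exact ⟨z, ⟨h1, h2, h3⟩, h4⟩
  · rintro z ⟨h1, h2, h3⟩ U hU
    obtain ⟨u, hu1, hu2⟩ := exists_Ico_subset_of_mem_nhds hU hv0
    have hv : y < min u z := lt_min hu1 h1
    have hzC : z ∈ comp f (Ico y (min u z)) y :=
      comp_ordConnected.out (mem_comp (left_mem_Ico.2 hv)) (hbig _ hv) ⟨h1.le, h2.le⟩
    obtain ⟨n, w, hw, hwz⟩ := mem_iUnion.1 (comp_sub hzC)
    have hwy : w ≠ y := fun h => h3 n (h ▸ hwz)
    have hwy' : y < w := lt_of_le_of_ne hw.1 (Ne.symm hwy)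
    have hwz' : w < z := hw.2.trans_le (min_le_right _ _)
    refine ⟨w, ⟨hwy', hwz'.trans h2, fun m hm => h3 (n + m) ?_⟩,
      hu2 ⟨hw.1, hw.2.trans_le (min_le_left _ _)⟩, n, ?_, hwz⟩
    · rw [Function.iterate_add_apply, hm, hwz]
    · rcases Nat.eq_zero_or_pos n with h | h
      · subst h; exact absurd hwz hwz'.ne
      · exact h

theorem right_small (hv0 : ∃ v, y < v)
    (hL : ∀ z0, y < z0 → ∃ v, y < v ∧ z0 ∉ comp f (Ico y v) y) {U : Set unitInterval}
    (hU : U ∈ 𝓝 y) : ∃ v, y < v ∧ ∀ z ∈ comp f (Ico y v) y, y ≤ z → z ∈ U := by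
  obtain ⟨u, hu1, hu2⟩ := exists_Ico_subset_of_mem_nhds hU hv0
  obtain ⟨v, hv, hvu⟩ := hL u hu1
  refine ⟨v, hv, fun z hz hyz => hu2 ⟨hyz, ?_⟩⟩
  by_contra hcon
  exact hvu (comp_ordConnected.out (mem_comp (left_mem_Ico.2 hv)) hz ⟨hu1.le, not_lt.1 hcon⟩)

theorem left_small (hv0 : ∃ v, y < v)
    (hL : ∀ z1, z1 < y → ∃ v, y < v ∧ z1 ∉ comp f (Ico y v) y) {U : Set unitInterval}
    (hU : U ∈ 𝓝 y) : ∃ v, y < v ∧ ∀ z ∈ comp f (Ico y v) y, z ≤ y → z ∈ U := by
  by_cases hl : ∃ l, l < y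
  · obtain ⟨u, hu1, hu2⟩ := exists_Ioc_subset_of_mem_nhds hU hl
    obtain ⟨v, hv, hvu⟩ := hL u hu1
    refine ⟨v, hv, fun z hz hyz => hu2 ⟨?_, hyz⟩⟩
    by_contra hcon
    exact hvu (comp_ordConnected.out hz (mem_comp (left_mem_Ico.2 hv)) ⟨not_lt.1 hcon, hu1.le⟩)
  · obtain ⟨v, hv⟩ := hv0
    push Not at hl
    refine ⟨v, hv, fun z _ hz => ?_⟩
    rw [le_antisymm hz (hl z)]
    exact mem_of_mem_nhds hU

theorem comp_anti {v w : unitInterval} (h : v ≤ w) :
    comp f (Ico y v) y ⊆ comp f (Ico y w) y :=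
  comp_mono (Ico_subset_Ico_right h)

theorem both_small (hv0 : ∃ v, y < v)
    (hR : ∀ z0, y < z0 → ∃ v, y < v ∧ z0 ∉ comp f (Ico y v) y)
    (hL : ∀ z1, z1 < y → ∃ v, y < v ∧ z1 ∉ comp f (Ico y v) y) {U : Set unitInterval}
    (hU : U ∈ 𝓝 y) : ∃ v, y < v ∧ comp f (Ico y v) y ⊆ U := by
  obtain ⟨v, hv, h1⟩ := right_small hv0 hR hU
  obtain ⟨w, hw, h2⟩ := left_small hv0 hL hU
  refine ⟨min v w, lt_min hv hw, fun z hz => ?_⟩
  rcases le_total y z with h | h
  · exact h1 z (comp_anti (min_le_left _ _) hz) h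
  · exact h2 z (comp_anti (min_le_right _ _) hz) h

/-- Shrinking components: a limit of branches accumulates at `y`. -/
theorem case_shrink (hf : Continuous f) (hv0 : ∃ v, y < v)
    (hx : ∀ v, y < v → ∃ b, IsBranch f x b ∧ ∃ᶠ n in atTop, b n ∈ Ioo y v)
    (hsm : ∀ U ∈ 𝓝 y, ∃ v, y < v ∧ comp f (Ico y v) y ⊆ U) : y ∈ sAlpha f x := by
  obtain ⟨v0, hv0⟩ := hv0
  obtain ⟨u, hua, hum, hut⟩ := exists_seq_strictAnti_tendsto' hv0
  have huy : ∀ k, y < u k := fun k => (hum k).1
  choose B hB hBv using fun k => hx (u k) (huy k)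
  have hBv' : ∀ k m, k ≤ m → ∃ᶠ n in atTop, B m n ∈ Ico y (u k) := fun k m hkm =>
    (hBv m).mono fun n hn => ⟨hn.1.le, hn.2.trans_le (hua.antitone hkm)⟩
  have hy : ∀ k, y ∈ Ico y (u k) := fun k => ⟨le_refl _, huy k⟩
  -- residues
  have hres : ∀ k, ∃ n0, x ∈ f^[n0] '' comp f (Ico y (u k)) y := by
    intro k
    obtain ⟨n, hn⟩ := (hBv' k k le_rfl).exists
    exact ⟨n, B k n, sub_comp (pc_Ico _ _) (hy k) hn, (hB k).iter_zero n⟩
  choose r hr using hres
  let F : ℕ → Set (ℕ → unitInterval) := fun k =>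
    {b | IsBranch f x b ∧ ∀ n, n ≡ r k [MOD per f (Ico y (u k)) y] →
      b n ∈ closure (comp f (Ico y (u k)) y)}
  have hFcl : ∀ k, IsClosed (F k) := by
    intro k
    have e : F k = ({b | b 0 = x} ∩ ⋂ n, {b | f (b (n + 1)) = b n}) ∩
        ⋂ n, ⋂ (_ : n ≡ r k [MOD per f (Ico y (u k)) y]),
          {b : ℕ → unitInterval | b n ∈ closure (comp f (Ico y (u k)) y)} := by
      ext b
      simp only [F, IsBranch, mem_setOf_eq, mem_inter_iff, mem_iInter]
    rw [e]
    refine IsClosed.inter (IsClosed.inter (isClosed_eq (continuous_apply 0) continuous_const) ?_) ?_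
    · exact isClosed_iInter fun n =>
        isClosed_eq (hf.comp (continuous_apply (n + 1))) (continuous_apply n)
    · exact isClosed_iInter fun n => isClosed_iInter fun _ =>
        isClosed_closure.preimage (continuous_apply n)
  have hFmem : ∀ k m, k ≤ m → B m ∈ F k := by
    intro k m hkm
    refine ⟨hB m, fun n hn => subset_closure ?_⟩
    exact branch_mem hf (hB m) (pc_Ico _ _) (hy k) (hBv' k m hkm) (hr k) hn
  obtain ⟨b, hb⟩ := exists_clusterPt_of_compactSpace (map B atTop)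
  have hbF : ∀ k, b ∈ F k := by
    intro k
    refine isClosed_iff_clusterPt.1 (hFcl k) b (hb.mono ?_)
    rw [le_principal_iff]
    exact (eventually_ge_atTop k).mono fun m hm => hFmem k m hm
  refine mem_sAlpha.2 ⟨b, (hbF 0).1, fun U hU => ?_⟩
  obtain ⟨W, hW, hWc, hWU⟩ := exists_mem_nhds_isClosed_subset hU
  obtain ⟨v, hv, hvW⟩ := hsm W hW
  obtain ⟨k, hk⟩ := (hut.eventually (gt_mem_nhds hv)).exists
  have hrk : (rets f (Ico y (u k)) y).Nonempty :=
    rets_nonempty (hB k) (pc_Ico _ _) (hy k) (hBv' k k le_rfl)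
  have hp := (per_mem hrk).1
  rw [frequently_atTop]
  intro N
  refine ⟨r k + per f (Ico y (u k)) y * N, ?_, hWU ?_⟩
  · have : 1 * N ≤ per f (Ico y (u k)) y * N := Nat.mul_le_mul_right _ hp
    omega
  · have h1 : b (r k + per f (Ico y (u k)) y * N) ∈ closure (comp f (Ico y (u k)) y) :=
      (hbF k).2 _ (by simp [Nat.ModEq])
    exact closure_minimal ((comp_anti hk.le).trans hvW) hWc h1

/-- The bounded period case with small right side and big left side is impossible. -/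
theorem case_edge (hf : Continuous f) (hv0 : ∃ v, y < v)
    (hx : ∀ v, y < v → ∃ b, IsBranch f x b ∧ ∃ᶠ n in atTop, b n ∈ Ioo y v)
    (hper : ∀ q, 1 ≤ q → f^[q] y ≠ y)
    (hR : ∀ z0, y < z0 → ∃ v, y < v ∧ z0 ∉ comp f (Ico y v) y)
    {z1 : unitInterval} (hz1 : z1 < y) (hbig : ∀ v, y < v → z1 ∈ comp f (Ico y v) y)
    {w : unitInterval} (hw : y < w) {p : ℕ}
    (hp : ∀ v, y < v → v ≤ w → per f (Ico y v) y = p) : False := by
  have hyV : ∀ v, y < v → y ∈ Ico y v := fun v hv => ⟨le_refl _, hv⟩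
  have hrets : ∀ v, y < v → (rets f (Ico y v) y).Nonempty := by
    intro v hv
    obtain ⟨b, hb, hvis⟩ := hx v hv
    exact rets_nonempty hb (pc_Ico _ _) (hyV v hv) (hvis.mono fun n hn => ⟨hn.1.le, hn.2⟩)
  have hp1 : 1 ≤ p := by
    have := (per_mem (hrets w hw)).1
    rwa [hp w hw le_rfl] at this
  set g := f^[p] with hg
  have hgc : Continuous g := hf.iterate p
  have hgC : ∀ v, y < v → v ≤ w → ∀ z ∈ comp f (Ico y v) y, g z ∈ comp f (Ico y v) y := by
    intro v hv hvw z hz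
    have := ret_sub hf (hyV v hv) (per_mem (hrets v hv)).2
    rw [hp v hv hvw] at this
    exact this ⟨z, hz, rfl⟩
  let K : Set unitInterval := {z | ∀ v, y < v → z ∈ comp f (Ico y v) y}
  have hyK : y ∈ K := fun v hv => mem_comp (hyV v hv)
  have hz1K : z1 ∈ K := hbig
  have hKy : K ⊆ Iic y := by
    intro z hz
    by_contra hcon
    obtain ⟨v, hv, hzv⟩ := hR z (not_le.1 hcon)
    exact hzv (hz v hv)
  have hclK : closure K ⊆ Iic y := closure_minimal hKy isClosed_Iic
  obtain ⟨κ, hκ1, hκ2⟩ := isClosed_closure.isCompact.exists_isLeast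
    (⟨y, subset_closure hyK⟩ : (closure K).Nonempty)
  have hκz : κ ≤ z1 := hκ2 (subset_closure hz1K)
  have hκy : κ < y := hκz.trans_lt hz1
  have hKoc : ∀ z, κ < z → z ≤ y → z ∈ K := by
    intro z h1 h2
    obtain ⟨z', hz'1, hz'2⟩ := mem_closure_iff.1 hκ1 (Iio z) isOpen_Iio h1
    intro v hv
    exact comp_ordConnected.out (hz'2 v hv) (mem_comp (hyV v hv)) ⟨le_of_lt hz'1, h2⟩
  have hgK : ∀ z ∈ K, g z ∈ K := by
    intro z hz v hv
    have h1 := hgC (min v w) (lt_min hv hw) (min_le_right _ _) z (hz _ (lt_min hv hw))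
    exact comp_anti (min_le_left _ _) h1
  have hgI : ∀ z ∈ Icc κ y, g z ∈ Icc κ y := by
    intro z hz
    have hzK : z ∈ closure K := by
      rcases hz.1.eq_or_lt with h | h
      · rw [← h]; exact hκ1
      · exact subset_closure (hKoc z h hz.2)
    have h1 : g z ∈ closure K := map_mem_closure hgc hzK hgK
    exact ⟨hκ2 h1, hclK h1⟩
  have hgI' : ∀ i, ∀ z ∈ Icc κ y, g^[i] z ∈ Icc κ y := by
    intro i
    induction i with
    | zero => intro z hz; exact hz
    | succ i ih => intro z hz; rw [Function.iterate_succ_apply]; exact ih _ (hgI z hz)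
  have hgy : g y < y := lt_of_le_of_ne (hgI y ⟨hκy.le, le_refl _⟩).2 (hper p hp1)
  have hleft : ∀ U ∈ 𝓝 κ, ∃ v, y < v ∧ ∀ z ∈ comp f (Ico y v) y, z < κ → z ∈ U := by
    intro U hU
    by_cases hl : ∃ l, l < κ
    · obtain ⟨l, hl1, hl2⟩ := exists_Ioc_subset_of_mem_nhds hU hl
      have hlK : l ∉ K := fun h => absurd (hκ2 (subset_closure h)) (not_le.2 hl1)
      have : ∃ v, y < v ∧ l ∉ comp f (Ico y v) y := by
        by_contra hcon
        push Not at hcon
        exact hlK hcon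
      obtain ⟨v, hv, hlv⟩ := this
      refine ⟨v, hv, fun z hz hzκ => hl2 ⟨?_, hzκ.le⟩⟩
      by_contra hcon
      exact hlv (comp_ordConnected.out hz (mem_comp (hyV v hv))
        ⟨not_lt.1 hcon, (hl1.trans hκy).le⟩)
    · obtain ⟨v, hv⟩ := hv0
      exact ⟨v, hv, fun z _ hz => absurd ⟨z, hz⟩ hl⟩
  -- the common part: points of the branch at the times of visits
  have hmain : ∀ v, y < v → v ≤ w → ∃ (b : ℕ → unitInterval) (n1 j : ℕ), y < b n1 ∧ 1 ≤ j ∧
      b (n1 + p * j) ∈ Ioo y v ∧ (∀ i, b (n1 + p * i) ∈ comp f (Ico y v) y) ∧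
      (∀ i, b (n1 + p * i) ∉ Icc κ y) ∧ ∀ i, g (b (n1 + p * (i + 1))) = b (n1 + p * i) := by
    intro v hv hvw
    obtain ⟨b, hb, hvis⟩ := hx v hv
    have hvis' : ∃ᶠ n in atTop, b n ∈ Ico y v := hvis.mono fun n hn => ⟨hn.1.le, hn.2⟩
    obtain ⟨n1, hn1⟩ := hvis.exists
    obtain ⟨n2, hn2, hn3⟩ := (frequently_atTop.1 hvis) (n1 + 1)
    have hn1C : b n1 ∈ comp f (Ico y v) y := sub_comp (pc_Ico _ _) (hyV v hv) ⟨hn1.1.le, hn1.2⟩
    have hn2C : b n2 ∈ comp f (Ico y v) y := sub_comp (pc_Ico _ _) (hyV v hv) ⟨hn3.1.le, hn3.2⟩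
    have hmod := visit_modEq hf hb (pc_Ico _ _) (hyV v hv) hvis' hn1C hn2C
    rw [hp v hv hvw] at hmod
    obtain ⟨j, hj⟩ := (Nat.modEq_iff_dvd' (by omega)).1 hmod
    have hj1 : 1 ≤ j := by
      rcases Nat.eq_zero_or_pos j with h | h
      · subst h; omega
      · exact h
    have hn2e : n2 = n1 + p * j := by omega
    have hstep : ∀ i, g (b (n1 + p * (i + 1))) = b (n1 + p * i) := by
      intro i
      have := hb.iter (n1 + p * i) p
      rw [← this, show n1 + p * i + p = n1 + p * (i + 1) by ring]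
    have hback : ∀ i, g^[i] (b (n1 + p * i)) = b n1 := by
      intro i
      induction i with
      | zero => rfl
      | succ i ih => rw [Function.iterate_succ_apply, hstep, ih]
    refine ⟨b, n1, j, hn1.1, hj1, hn2e ▸ hn3, fun i => ?_, fun i hi => ?_, hstep⟩
    · refine branch_mem hf hb (pc_Ico _ _) (hyV v hv) hvis' (n0 := n1)
        ⟨b n1, hn1C, hb.iter_zero n1⟩ ?_
      rw [hp v hv hvw]
      simp [Nat.ModEq]
    · have := hgI' i _ hi
      rw [hback] at this
      exact absurd this.2 (not_le.2 hn1.1)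
  by_cases hgκ : κ < g y
  · -- the image of `y` is inside
    have hU : {u | κ < g u ∧ g u < y} ∈ 𝓝 y := (isOpen_Ioo.preimage hgc).mem_nhds ⟨hgκ, hgy⟩
    obtain ⟨u, hu1, hu2⟩ := exists_Ico_subset_of_mem_nhds hU hv0
    obtain ⟨b, n1, j, -, hj, hbv, -, hout, hstep⟩ := hmain (min u w) (lt_min hu1 hw)
      (min_le_right _ _)
    obtain ⟨i, rfl⟩ : ∃ i, j = i + 1 := ⟨j - 1, by omega⟩
    have h1 := hu2 ⟨hbv.1.le, hbv.2.trans_le (min_le_left _ _)⟩
    simp only [mem_setOf_eq] at h1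
    rw [hstep] at h1
    exact hout i ⟨h1.1.le, h1.2.le⟩
  · have hgye : g y = κ := le_antisymm (not_lt.1 hgκ) (hgI y ⟨hκy.le, le_refl _⟩).1
    have hgκy : g κ < y := by
      refine lt_of_le_of_ne (hgI κ ⟨le_refl _, hκy.le⟩).2 fun h => ?_
      apply hper (p + p) (by omega)
      rw [Function.iterate_add_apply]
      show g (g y) = y
      rw [hgye, h]
    have hU : {u | g u < y} ∈ 𝓝 y := (isOpen_Iio.preimage hgc).mem_nhds hgy
    have hU' : {u | g u < y} ∈ 𝓝 κ := (isOpen_Iio.preimage hgc).mem_nhds hgκy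
    obtain ⟨u, hu1, hu2⟩ := exists_Ico_subset_of_mem_nhds hU hv0
    obtain ⟨v', hv', hv'2⟩ := hleft _ hU'
    have hvv : y < min (min u v') w := lt_min (lt_min hu1 hv') hw
    obtain ⟨b, n1, j, hn1, hj, hbv, hC, hout, hstep⟩ := hmain _ hvv (min_le_right _ _)
    have key : ∀ i, i < j → b (n1 + p * (j - 1 - i)) < κ := by
      intro i
      induction i with
      | zero =>
        intro _
        have h1 := hu2 ⟨hbv.1.le, hbv.2.trans_le ((min_le_left _ _).trans (min_le_left _ _))⟩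
        simp only [mem_setOf_eq] at h1
        have h2 := hstep (j - 1)
        rw [Nat.sub_add_cancel hj] at h2
        rw [h2] at h1
        rw [Nat.sub_zero]
        by_contra hcon
        exact hout (j - 1) ⟨not_lt.1 hcon, h1.le⟩
      | succ i ih =>
        intro hi
        have h1 := ih (by omega)
        have h2 : b (n1 + p * (j - 1 - i)) ∈ {u | g u < y} :=
          hv'2 _ (comp_anti ((min_le_left _ _).trans (min_le_right _ _)) (hC _)) h1
        simp only [mem_setOf_eq] at h2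
        have h3 := hstep (j - 1 - (i + 1))
        rw [show j - 1 - (i + 1) + 1 = j - 1 - i by omega] at h3
        rw [h3] at h2
        by_contra hcon
        exact hout _ ⟨not_lt.1 hcon, h2.le⟩
    have h1 := key (j - 1) (by omega)
    rw [Nat.sub_self] at h1
    exact absurd (h1.trans hκy) (not_lt.2 hn1.le)

/-- **Non-periodic points visited from the right.** -/
theorem right_case (hf : Continuous f) (hG : NoWandering f) (hv0 : ∃ v, y < v)
    (hx : ∀ v, y < v → ∃ b, IsBranch f x b ∧ ∃ᶠ n in atTop, b n ∈ Ioo y v)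
    (hper : ∀ q, 1 ≤ q → f^[q] y ≠ y) : y ∈ sAlpha f x := by
  by_cases hR : ∀ z0, y < z0 → ∃ v, y < v ∧ z0 ∉ comp f (Ico y v) y
  swap
  · push Not at hR
    obtain ⟨z0, hz0, hbig⟩ := hR
    exact case_big hv0 hx hz0 hbig
  have hyV : ∀ v, y < v → y ∈ Ico y v := fun v hv => ⟨le_refl _, hv⟩
  have hrets : ∀ v, y < v → (rets f (Ico y v) y).Nonempty := by
    intro v hv
    obtain ⟨b, hb, hvis⟩ := hx v hv
    exact rets_nonempty hb (pc_Ico _ _) (hyV v hv) (hvis.mono fun n hn => ⟨hn.1.le, hn.2⟩)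
  by_cases hL : ∀ z1, z1 < y → ∃ v, y < v ∧ z1 ∉ comp f (Ico y v) y
  · exact case_shrink hf hv0 hx fun U hU => both_small hv0 hR hL hU
  exfalso
  push Not at hL
  obtain ⟨z1, hz1, hbig⟩ := hL
  -- the periods are bounded because there is no wandering interval
  obtain ⟨i, j, hij, z, ⟨a, ha, hza⟩, ⟨c, hc, hzc⟩⟩ := hG z1 y hz1
  have hbd : ∀ v, y < v → per f (Ico y v) y ≤ j := by
    intro v hv
    by_contra hcon
    have hsub : Icc z1 y ⊆ comp f (Ico y v) y :=
      comp_ordConnected.out (hbig v hv) (mem_comp (hyV v hv))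
    exact disj_of_lt_per hf (hyV v hv) (hrets v hv) hij (not_le.1 hcon) ⟨a, hsub ha, hza⟩
      ⟨c, hsub hc, hzc⟩
  -- choose `w` with the largest period
  have hex : ∃ k, ∃ v, y < v ∧ j ≤ per f (Ico y v) y + k := by
    obtain ⟨v, hv⟩ := hv0
    exact ⟨j, v, hv, by omega⟩
  classical
  obtain ⟨w, hw, hwk⟩ := Nat.find_spec hex
  have hmax : ∀ v, y < v → per f (Ico y v) y ≤ per f (Ico y w) y := by
    intro v hv
    by_contra hcon
    have h1 := hbd v hv
    rcases Nat.eq_zero_or_pos (Nat.find hex) with h | h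
    · rw [h] at hwk; omega
    · exact Nat.find_min hex (m := Nat.find hex - 1) (by omega) ⟨v, hv, by omega⟩
  refine case_edge hf hv0 hx hper hR hz1 hbig hw (p := per f (Ico y w) y) fun v hv hvw => ?_
  exact le_antisymm (hmax v hv) (per_le (Ico_subset_Ico_right hvw) (hrets v hv))

end Q69.SA
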