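import Mathlib

/-!
# Special alpha-limit sets of interval maps: definitions and the chain lemma
-/

namespace Q69.SA

open Set Filter Topology

/-- A backward orbit branch of `x` under `f`. -/
def IsBranch (f : unitInterval → unitInterval) (x : unitInterval) (b : ℕ → unitInterval) : Prop :=
  b 0 = x ∧ ∀ n, f (b (n + 1)) = b n

/-- The `α`-limit set of a branch: the set of limits of its subsequences. -/
def accPts (b : ℕ → unitInterval) : Set unitInterval :=
  {y | ∃ φ : ℕ → ℕ, StrictMono φ ∧ Tendsto (fun k => b (φ k)) atTop (𝓝 y)}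

/-- The special `α`-limit set: the union of the `α`-limit sets of all backward orbit branches. -/
def sAlpha (f : unitInterval → unitInterval) (x : unitInterval) : Set unitInterval :=
  {y | ∃ b, IsBranch f x b ∧ y ∈ accPts b}

theorem mem_accPts {b : ℕ → unitInterval} {y : unitInterval} :
    y ∈ accPts b ↔ ∀ U ∈ 𝓝 y, ∃ᶠ n in atTop, b n ∈ U := by
  constructor
  · rintro ⟨φ, hφ, h⟩ U hU
    have h1 := (h.eventually hU).frequently
    exact hφ.tendsto_atTop.frequently h1
  · intro h
    have h1 : MapClusterPt y atTop b := mapClusterPt_iff_frequently.2 h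
    obtain ⟨φ, hφ, h2⟩ := TopologicalSpace.FirstCountableTopology.tendsto_subseq h1
    exact ⟨φ, hφ, h2⟩

theorem mem_sAlpha {f : unitInterval → unitInterval} {x y : unitInterval} :
    y ∈ sAlpha f x ↔ ∃ b, IsBranch f x b ∧ ∀ U ∈ 𝓝 y, ∃ᶠ n in atTop, b n ∈ U := by
  unfold sAlpha
  simp only [mem_setOf_eq, mem_accPts]

variable {f : unitInterval → unitInterval}

theorem IsBranch.iter {x : unitInterval} {b : ℕ → unitInterval} (hb : IsBranch f x b) (n m : ℕ) :
    f^[m] (b (n + m)) = b n := by
  induction m with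
  | zero => rfl
  | succ m ih => rw [Function.iterate_succ_apply, ← add_assoc, hb.2, ih]

theorem IsBranch.iter' {x : unitInterval} {b : ℕ → unitInterval} (hb : IsBranch f x b) {n m : ℕ}
    (h : n ≤ m) : f^[m - n] (b m) = b n := by
  have := hb.iter n (m - n)
  rwa [Nat.add_sub_cancel' h] at this

theorem IsBranch.iter_zero {x : unitInterval} {b : ℕ → unitInterval} (hb : IsBranch f x b)
    (m : ℕ) : f^[m] (b m) = x := by
  have := hb.iter 0 m
  rwa [zero_add, hb.1] at this

/-- **Chain lemma.** -/
theorem mem_sAlpha_of_chain {x y : unitInterval} (S : Set unitInterval)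
    (h0 : ∃ z ∈ S, ∃ n, f^[n] z = x)
    (h1 : ∀ z ∈ S, ∀ U ∈ 𝓝 y, ∃ z' ∈ S, z' ∈ U ∧ ∃ n, 1 ≤ n ∧ f^[n] z' = z) :
    y ∈ sAlpha f x := by
  classical
  obtain ⟨U, hU⟩ := (𝓝 y).exists_antitone_basis
  -- the successor of a point of `S` at stage `j`
  have h2 : ∀ (j : ℕ) (z : S), ∃ (z' : S) (n : ℕ), (z' : unitInterval) ∈ U j ∧
      f^[n + 1] z' = z := by
    intro j z
    obtain ⟨z', hz', hzU, n, hn, h⟩ := h1 z z.2 (U j) (hU.1.mem_of_mem trivial)
    exact ⟨⟨z', hz'⟩, n - 1, hzU, by rw [Nat.sub_add_cancel hn]; exact h⟩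
  choose nz nn hnU hnf using h2
  obtain ⟨z0, hz0, n0, hn0⟩ := h0
  let step : S × ℕ × ℕ → S × ℕ × ℕ := fun s =>
    match s with
    | (z, 0, j) => (nz j z, nn j z, j + 1)
    | (z, n + 1, j) => (z, n, j)
  let st : ℕ → S × ℕ × ℕ := fun k => step^[k] (⟨z0, hz0⟩, n0, 0)
  have hst : ∀ k, st (k + 1) = step (st k) := fun k => Function.iterate_succ_apply' _ _ _
  let b : ℕ → unitInterval := fun k => f^[(st k).2.1] (st k).1
  have hb : IsBranch f x b := by
    refine ⟨hn0, fun k => ?_⟩
    show f (f^[(st (k + 1)).2.1] (st (k + 1)).1) = f^[(st k).2.1] (st k).1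
    rw [hst k]
    rcases st k with ⟨z, n, j⟩
    cases n with
    | zero =>
      show f (f^[nn j z] (nz j z)) = z
      rw [← Function.iterate_succ_apply' f, hnf]
    | succ n =>
      show f (f^[n] z) = f^[n + 1] z
      rw [Function.iterate_succ_apply']
  -- the stage is at most the time
  have hle : ∀ k, (st k).2.2 ≤ k := by
    intro k
    induction k with
    | zero => exact le_refl _
    | succ k ih =>
      rw [hst k]
      rcases hs : st k with ⟨z, n, j⟩
      rw [hs] at ih
      cases n with
      | zero => exact Nat.succ_le_succ ih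
      | succ n => exact ih.trans (Nat.le_succ _)
  -- the base point at stage `j + 1` lies in `U j`
  have hmem : ∀ k j, (st k).2.2 = j + 1 → ((st k).1 : unitInterval) ∈ U j := by
    intro k
    induction k with
    | zero => intro j hj; exact absurd hj (by simp [st])
    | succ k ih =>
      intro j
      rw [hst k]
      rcases hs : st k with ⟨z, n, j'⟩
      rw [hs] at ih
      cases n with
      | zero =>
        intro hj
        have hj' : j' + 1 = j + 1 := hj
        have : j' = j := by omega
        subst this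
        exact hnU _ _
      | succ n => exact ih j
  -- waiting until the counter is zero
  have hwait : ∀ n k, (st k).2.1 = n → (st (k + n)).2.1 = 0 ∧ (st (k + n)).2.2 = (st k).2.2 := by
    intro n
    induction n with
    | zero => intro k hk; exact ⟨hk, rfl⟩
    | succ n ih =>
      intro k hk
      have h3 : (st (k + 1)).2.1 = n ∧ (st (k + 1)).2.2 = (st k).2.2 := by
        rw [hst k]
        rcases hs : st k with ⟨z, m, j⟩
        rw [hs] at hk
        have hm : m = n + 1 := hk
        subst hm
        exact ⟨rfl, rfl⟩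
      obtain ⟨h4, h5⟩ := ih (k + 1) h3.1
      rw [show k + (n + 1) = k + 1 + n by ring]
      exact ⟨h4, h5.trans h3.2⟩
  have hstage : ∀ j, ∃ k, (st k).2.1 = 0 ∧ (st k).2.2 = j := by
    intro j
    induction j with
    | zero =>
      obtain ⟨h3, h4⟩ := hwait _ 0 rfl
      exact ⟨_, h3, h4⟩
    | succ j ih =>
      obtain ⟨k, hk1, hk2⟩ := ih
      have h3 : (st (k + 1)).2.2 = j + 1 := by
        rw [hst k]
        rcases hs : st k with ⟨z, m, j'⟩
        rw [hs] at hk1 hk2
        have hm : m = 0 := hk1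
        have hj : j' = j := hk2
        subst hm hj
        rfl
      obtain ⟨h4, h5⟩ := hwait _ (k + 1) rfl
      exact ⟨_, h4, h5.trans h3⟩
  refine mem_sAlpha.2 ⟨b, hb, fun W hW => ?_⟩
  obtain ⟨j, -, hj⟩ := hU.1.mem_iff.1 hW
  rw [frequently_atTop]
  intro N
  obtain ⟨k, hk1, hk2⟩ := hstage (max N j + 1)
  refine ⟨k, ?_, ?_⟩
  · have := hle k
    rw [hk2] at this
    have h3 := le_max_left N j
    omega
  · have h3 := hmem k _ hk2
    have h4 : b k = (st k).1 := by
      show f^[(st k).2.1] (st k).1 = _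
      rw [hk1]; rfl
    rw [h4]
    exact hj (hU.2 (le_max_right N j) h3)

end Q69.SA
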