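import Mathlib

/-!
# Gehman-type dendrites over compact ultrametric systems

Given a compact space `Y` with an ultrametric bounded by `1` and a map `F : Y → Y` that expands
distances at most by the factor `2`, there is a dendrite `X` containing `Y` as a set of endpoints
and a continuous `f : X → X` extending `F` such that all the other points are eventually mapped to
a fixed point (the root).
-/

set_option autoImplicit false
open Set Filter Topology

namespace Q69UDend

/-- A dendrite: a compact connected locally connected metric space that contains no subset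
homeomorphic to a circle. -/
structure IsDendrite (X : Type) [MetricSpace X] : Prop where
  compact : CompactSpace X
  connected : ConnectedSpace X
  locallyConnected : LocallyConnectedSpace X
  noCircle : ∀ S : Set X, ¬ Nonempty (S ≃ₜ Circle)

/-- A continuous ultrametric bounded by one. -/
structure UM (Y : Type) [TopologicalSpace Y] where
  /-- the distance -/
  l : Y → Y → ℝ
  nonneg : ∀ y z, 0 ≤ l y z
  self : ∀ y, l y y = 0
  symm : ∀ y z, l y z = l z y
  ultra : ∀ x y z, l x z ≤ max (l x y) (l y z)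
  le_one : ∀ y z, l y z ≤ 1
  small : ∀ y, ∀ ε > 0, ∀ᶠ z in 𝓝 y, l y z < ε

variable {Y : Type} [TopologicalSpace Y]

/-- The points before identification. -/
structure Pre (U : UM Y) where
  /-- the branch -/
  br : Y
  /-- the height -/
  ht : ℝ
  h0 : 0 ≤ ht
  h1 : ht ≤ 1

/-- the distance -/
noncomputable def pd {U : UM Y} (p q : Pre U) : ℝ :=
  2 * max (max p.ht q.ht) (U.l p.br q.br) - p.ht - q.ht

noncomputable instance (U : UM Y) : PseudoMetricSpace (Pre U) where
  dist := pd
  dist_self p := by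
    simp only [pd, U.self, max_self, max_eq_left p.h0]; ring
  dist_comm p q := by
    simp only [pd, U.symm p.br q.br, max_comm p.ht q.ht]; ring
  dist_triangle p q r := by
    simp only [pd]
    have h := U.ultra p.br q.br r.br
    set a := max (max p.ht q.ht) (U.l p.br q.br) with ha
    set b := max (max q.ht r.ht) (U.l q.br r.br) with hb
    have a1 : p.ht ≤ a := (le_max_left _ _).trans (le_max_left _ _)
    have a2 : q.ht ≤ a := (le_max_right _ _).trans (le_max_left _ _)
    have a3 : U.l p.br q.br ≤ a := le_max_right _ _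
    have b1 : q.ht ≤ b := (le_max_left _ _).trans (le_max_left _ _)
    have b2 : r.ht ≤ b := (le_max_right _ _).trans (le_max_left _ _)
    have b3 : U.l q.br r.br ≤ b := le_max_right _ _
    have hm : max (max p.ht r.ht) (U.l p.br r.br) ≤ max a b := by
      refine max_le (max_le (a1.trans (le_max_left _ _)) (b2.trans (le_max_right _ _))) ?_
      exact h.trans (max_le_max a3 b3)
    have hq : q.ht ≤ min a b := le_min a2 b1
    have := max_add_min a b
    linarith

/-- The dendrite. -/
abbrev Space (U : UM Y) : Type := SeparationQuotient (Pre U)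

/-- the point at height `t` of the branch `y` -/
noncomputable def P (U : UM Y) (y : Y) (t : ℝ) : Space U :=
  SeparationQuotient.mk ⟨y, max 0 (min 1 t), le_max_left _ _, max_le zero_le_one (min_le_left _ _)⟩

variable {U : UM Y}

lemma dist_P {y z : Y} {s t : ℝ} (hs : s ∈ Icc (0 : ℝ) 1) (ht : t ∈ Icc (0 : ℝ) 1) :
    dist (P U y s) (P U z t) = 2 * max (max s t) (U.l y z) - s - t := by
  unfold P
  rw [SeparationQuotient.dist_mk]
  change pd _ _ = _
  simp only [pd, min_eq_right hs.2, min_eq_right ht.2, max_eq_right hs.1, max_eq_right ht.1]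

lemma exists_P (x : Space U) : ∃ (y : Y) (t : ℝ), t ∈ Icc (0 : ℝ) 1 ∧ x = P U y t := by
  obtain ⟨⟨y, t, h0, h1⟩, rfl⟩ := SeparationQuotient.surjective_mk x
  refine ⟨y, t, ⟨h0, h1⟩, ?_⟩
  unfold P
  simp only [min_eq_right h1, max_eq_right h0]

lemma P_proj (y : Y) (t : ℝ) : P U y t = P U y (max 0 (min 1 t)) := by
  unfold P
  have h : max 0 (min 1 (max 0 (min 1 t))) = max 0 (min 1 t) := by
    rw [min_eq_right (max_le zero_le_one (min_le_left _ _)), max_eq_right (le_max_left _ _)]
  simp only [h]

lemma proj_mem (t : ℝ) : max 0 (min 1 t) ∈ Icc (0 : ℝ) 1 :=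
  ⟨le_max_left _ _, max_le zero_le_one (min_le_left _ _)⟩

lemma dist_P_le {y z : Y} {s t : ℝ} (hs : s ∈ Icc (0 : ℝ) 1) (ht : t ∈ Icc (0 : ℝ) 1) :
    dist (P U y s) (P U z t) ≤ |s - t| + 2 * U.l y z := by
  rw [dist_P hs ht]
  have h1 : max (max s t) (U.l y z) ≤ max s t + U.l y z :=
    max_le (le_add_of_nonneg_right (U.nonneg _ _))
      (le_add_of_nonneg_left (hs.1.trans (le_max_left _ _)))
  have h2 : 2 * max s t - s - t = |s - t| := by
    rcases le_total s t with h | h
    · rw [max_eq_right h, abs_of_nonpos (by linarith)]; ring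
    · rw [max_eq_left h, abs_of_nonneg (by linarith)]; ring
  linarith

lemma continuous_P : Continuous fun p : Y × ℝ => P U p.1 p.2 := by
  rw [continuous_iff_continuousAt]
  rintro ⟨y, s⟩
  rw [ContinuousAt, Metric.tendsto_nhds]
  intro ε hε
  have h1 : ∀ᶠ p : Y × ℝ in 𝓝 (y, s), U.l y p.1 < ε / 4 :=
    (continuous_fst.tendsto ((y, s) : Y × ℝ)).eventually (U.small y (ε / 4) (by positivity))
  have hc : Continuous fun t : ℝ => max 0 (min 1 t) :=
    continuous_const.max (continuous_const.min continuous_id)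
  have h2 : ∀ᶠ p : Y × ℝ in 𝓝 (y, s), |max 0 (min 1 p.2) - max 0 (min 1 s)| < ε / 2 := by
    have := (hc.comp continuous_snd).continuousAt (x := ((y, s) : Y × ℝ))
    rw [ContinuousAt, Metric.tendsto_nhds] at this
    exact this (ε / 2) (by positivity)
  filter_upwards [h1, h2] with p hp1 hp2
  rw [P_proj p.1 p.2, P_proj y s]
  refine (dist_P_le (proj_mem _) (proj_mem _)).trans_lt ?_
  rw [U.symm]
  linarith

lemma continuous_P' (y : Y) : Continuous (P U y) :=
  continuous_P.comp (continuous_const.prodMk continuous_id)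

lemma root_eq (y z : Y) : P U y 1 = P U z 1 := by
  apply dist_le_zero.1
  rw [dist_P ⟨zero_le_one, le_rfl⟩ ⟨zero_le_one, le_rfl⟩, max_self, max_eq_left (U.le_one _ _)]
  norm_num

lemma merge {y z : Y} {t : ℝ} (ht : t ∈ Icc (0 : ℝ) 1) (h : U.l y z ≤ t) :
    P U y t = P U z t := by
  apply dist_le_zero.1
  rw [dist_P ht ht, max_self, max_eq_left h]
  linarith

lemma compactSpace [CompactSpace Y] : CompactSpace (Space U) := by
  have h : (fun p : Y × ℝ => P U p.1 p.2) '' (univ ×ˢ Icc (0 : ℝ) 1) = univ := by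
    rw [eq_univ_iff_forall]
    intro x
    obtain ⟨y, t, ht, rfl⟩ := exists_P x
    exact ⟨(y, t), ⟨mem_univ _, ht⟩, rfl⟩
  exact ⟨h ▸ (isCompact_univ.prod isCompact_Icc).image continuous_P⟩

/-- the set joining two points inside a ball -/
lemma exists_path (x x' : Space U) : ∃ S : Set (Space U), IsPreconnected S ∧ x ∈ S ∧ x' ∈ S ∧
    ∀ z ∈ S, dist z x ≤ dist x' x := by
  obtain ⟨y, u, hu, rfl⟩ := exists_P x
  obtain ⟨y', u', hu', rfl⟩ := exists_P x'
  set M := max (max u u') (U.l y y') with hM
  have m1 : u ≤ M := (le_max_left _ _).trans (le_max_left _ _)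
  have m2 : u' ≤ M := (le_max_right _ _).trans (le_max_left _ _)
  have m3 : U.l y y' ≤ M := le_max_right _ _
  have m4 : M ≤ 1 := max_le (max_le hu.2 hu'.2) (U.le_one _ _)
  have hMm : M ∈ Icc (0 : ℝ) 1 := ⟨hu.1.trans m1, m4⟩
  have hd : dist (P U y' u') (P U y u) = 2 * M - u - u' := by
    rw [dist_comm, dist_P hu hu']
  refine ⟨P U y '' Icc u M ∪ P U y' '' Icc u' M, ?_, Or.inl ⟨u, ⟨le_rfl, m1⟩, rfl⟩,
    Or.inr ⟨u', ⟨le_rfl, m2⟩, rfl⟩, ?_⟩
  · refine IsPreconnected.union (P U y M) ⟨M, ⟨m1, le_rfl⟩, rfl⟩ ⟨M, ⟨m2, le_rfl⟩, ?_⟩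
      (isPreconnected_Icc.image _ (continuous_P' y).continuousOn)
      (isPreconnected_Icc.image _ (continuous_P' y').continuousOn)
    exact (merge hMm m3).symm
  · rintro _ (⟨v, hv, rfl⟩ | ⟨v, hv, rfl⟩)
    · have hv' : v ∈ Icc (0 : ℝ) 1 := ⟨hu.1.trans hv.1, hv.2.trans m4⟩
      rw [hd, dist_P hv' hu, U.self, max_eq_left hv.1, max_eq_left hv'.1]
      linarith [hv.2]
    · have hv' : v ∈ Icc (0 : ℝ) 1 := ⟨hu'.1.trans hv.1, hv.2.trans m4⟩
      rw [hd, dist_P hv' hu]
      have : max (max v u) (U.l y' y) ≤ M := max_le (max_le hv.2 m1) (U.symm y y' ▸ m3)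
      linarith [hv.1]

lemma isPreconnected_ball (x : Space U) (r : ℝ) : IsPreconnected (Metric.ball x r) := by
  apply isPreconnected_of_forall x
  intro y hy
  obtain ⟨S, hS, hxS, hyS, hd⟩ := exists_path x y
  exact ⟨S, fun z hz => (hd z hz).trans_lt hy, hxS, hyS, hS⟩

lemma connectedSpace [Nonempty Y] : ConnectedSpace (Space U) := by
  haveI : Nonempty (Space U) := ⟨P U (Classical.arbitrary Y) 0⟩
  haveI : PreconnectedSpace (Space U) := ⟨by
    apply isPreconnected_of_forall (Classical.arbitrary (Space U))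
    intro y _
    obtain ⟨S, hS, hxS, hyS, -⟩ := exists_path (Classical.arbitrary (Space U)) y
    exact ⟨S, subset_univ _, hxS, hyS, hS⟩⟩
  exact ConnectedSpace.mk inferInstance

lemma locallyConnectedSpace : LocallyConnectedSpace (Space U) :=
  locallyConnectedSpace_of_connected_bases (fun x r => Metric.ball x r) (fun _ r => 0 < r)
    (fun _ => Metric.nhds_basis_ball) fun x r _ => isPreconnected_ball x r

lemma circle_compl (e : Circle) : IsPreconnected ({e}ᶜ : Set Circle) := by
  haveI : Fact (0 < 2 * Real.pi) := ⟨by positivity⟩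
  set h := AddCircle.homeomorphCircle' with hh
  obtain ⟨a, ha⟩ : ∃ a : ℝ, (a : AddCircle (2 * Real.pi)) = h.symm e :=
    QuotientAddGroup.mk_surjective _
  have h1 : IsPreconnected ({(a : AddCircle (2 * Real.pi))}ᶜ : Set (AddCircle (2 * Real.pi))) := by
    have := (AddCircle.openPartialHomeomorphCoe (2 * Real.pi) a).image_source_eq_target
    change _ = {(a : AddCircle (2 * Real.pi))}ᶜ at this
    rw [← this]
    exact isPreconnected_Ioo.image _
      (AddCircle.openPartialHomeomorphCoe (2 * Real.pi) a).continuousOn_toFun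
  have h2 : ({e}ᶜ : Set Circle) = h '' {(a : AddCircle (2 * Real.pi))}ᶜ := by
    rw [ha, image_compl_eq h.bijective, image_singleton, Homeomorph.apply_symm_apply]
  rw [h2]
  exact h1.image _ h.continuous.continuousOn

/-- two distinct points are separated by a third one -/
lemma separation [Nonempty Y] {p q : Space U} (hpq : p ≠ q) : ∃ (c : Space U) (A B : Set (Space U)),
    IsOpen A ∧ IsOpen B ∧ (∀ x, x ≠ c → x ∈ A ∨ x ∈ B) ∧ (∀ x, x ∈ A → x ∉ B) ∧ p ∈ A ∧ q ∈ B ∧
      p ≠ c ∧ q ≠ c := by
  obtain ⟨y, s, hs, rfl⟩ := exists_P p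
  obtain ⟨z, t, ht, rfl⟩ := exists_P q
  have hd : 0 < dist (P U y s) (P U z t) := dist_pos.2 hpq
  rw [dist_P hs ht] at hd
  -- the core construction
  have core : ∀ (y z : Y) (s t : ℝ), s ∈ Icc (0 : ℝ) 1 → t ∈ Icc (0 : ℝ) 1 →
      s < max (max s t) (U.l y z) →
      ∃ (c : Space U) (A B : Set (Space U)), IsOpen A ∧ IsOpen B ∧
        (∀ x, x ≠ c → x ∈ A ∨ x ∈ B) ∧ (∀ x, x ∈ A → x ∉ B) ∧ P U y s ∈ A ∧ P U z t ∈ B ∧
        P U y s ≠ c ∧ P U z t ≠ c := by
    intro y z s t hs ht hlt
    obtain ⟨u, hsu, huM⟩ := exists_between hlt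
    have hM1 : max (max s t) (U.l y z) ≤ 1 := max_le (max_le hs.2 ht.2) (U.le_one _ _)
    have hu : u ∈ Icc (0 : ℝ) 1 := ⟨hs.1.trans hsu.le, huM.le.trans hM1⟩
    set R : Space U := P U y 1 with hR
    have hone : (1 : ℝ) ∈ Icc (0 : ℝ) 1 := ⟨zero_le_one, le_rfl⟩
    have hht : ∀ (z : Y) (v : ℝ), v ∈ Icc (0 : ℝ) 1 → 1 - dist (P U z v) R = v := by
      intro z v hv
      rw [hR, root_eq y z, dist_P hv hone, U.self, max_eq_right hv.2, max_eq_left zero_le_one]
      ring
    set c : Space U := P U y u with hc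
    set A : Set (Space U) := {x | dist x c + (1 - dist x R) ≤ u ∧ 1 - dist x R < u} with hA
    set B : Set (Space U) := {x | u < dist x c + (1 - dist x R)} with hB
    have memA : ∀ (z : Y) (v : ℝ), v ∈ Icc (0 : ℝ) 1 →
        (P U z v ∈ A ↔ (U.l y z ≤ u ∧ v < u)) := by
      intro z v hv
      simp only [hA, mem_setOf_eq, hht z v hv]
      rw [hc, dist_P hv hu, U.symm z y]
      constructor
      · rintro ⟨h1, h2⟩
        have : U.l y z ≤ max (max v u) (U.l y z) := le_max_right _ _
        exact ⟨by linarith, h2⟩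
      · rintro ⟨h1, h2⟩
        rw [max_eq_left (h1.trans (le_max_right _ _)), max_eq_right h2.le]
        exact ⟨by linarith, h2⟩
    have memB : ∀ (z : Y) (v : ℝ), v ∈ Icc (0 : ℝ) 1 →
        (P U z v ∈ B ↔ u < max v (U.l y z)) := by
      intro z v hv
      simp only [hB, mem_setOf_eq, hht z v hv]
      rw [hc, dist_P hv hu, U.symm z y]
      constructor
      · intro h
        by_contra hcon
        push Not at hcon
        have : max (max v u) (U.l y z) ≤ u :=
          max_le (max_le ((le_max_left _ _).trans hcon) le_rfl) ((le_max_right _ _).trans hcon)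
        linarith
      · intro h
        have : max v (U.l y z) ≤ max (max v u) (U.l y z) :=
          max_le ((le_max_left _ _).trans (le_max_left _ _)) (le_max_right _ _)
        linarith
    have hAo : IsOpen A := by
      rw [Metric.isOpen_iff]
      intro x hx
      obtain ⟨a, v, hv, rfl⟩ := exists_P x
      obtain ⟨h1, h2⟩ := (memA a v hv).1 hx
      refine ⟨u - v, by linarith, fun x' hx' => ?_⟩
      obtain ⟨b, w, hw, rfl⟩ := exists_P x'
      rw [Metric.mem_ball, dist_P hw hv] at hx'
      have e1 : w ≤ max (max w v) (U.l b a) := (le_max_left _ _).trans (le_max_left _ _)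
      have e2 : U.l b a ≤ max (max w v) (U.l b a) := le_max_right _ _
      refine (memA b w hw).2 ⟨?_, by linarith⟩
      refine (U.ultra y a b).trans (max_le h1 ?_)
      rw [U.symm]
      linarith
    have hBo : IsOpen B := isOpen_lt continuous_const
      ((continuous_id.dist continuous_const).add (continuous_const.sub
        (continuous_id.dist continuous_const)))
    have hdisj : ∀ x, x ∈ A → x ∉ B := fun x hx hx' => absurd hx.1 (not_le.2 hx')
    have hcA : c ∉ A := fun h => by
      have := ((memA y u hu).1 h).2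
      exact lt_irrefl _ this
    have hcB : c ∉ B := fun h => by
      have := (memB y u hu).1 h
      rw [U.self, max_eq_left hu.1] at this
      exact lt_irrefl _ this
    have hpA : P U y s ∈ A := (memA y s hs).2 ⟨by rw [U.self]; exact hu.1, hsu⟩
    have hqB : P U z t ∈ B := (memB z t ht).2 (by
      rw [lt_max_iff] at huM ⊢
      rcases huM with h | h
      · rcases lt_max_iff.1 h with h' | h'
        · exact absurd h' (not_lt.2 hsu.le)
        · exact Or.inl h'
      · exact Or.inr h)
    refine ⟨c, A, B, hAo, hBo, fun x hx => ?_, hdisj, hpA, hqB, fun h => hcA (h ▸ hpA),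
      fun h => hcB (h ▸ hqB)⟩
    by_contra hcon
    push Not at hcon
    obtain ⟨c1, c2⟩ := hcon
    simp only [hB, mem_setOf_eq, not_lt] at c2
    simp only [hA, mem_setOf_eq, not_and, not_lt] at c1
    have c3 := c1 c2
    exact hx (dist_le_zero.1 (by linarith))
  by_cases h : s < max (max s t) (U.l y z)
  · exact core y z s t hs ht h
  · have h' : t < max (max t s) (U.l z y) := by
      rw [max_comm t s, U.symm z y]
      push Not at h
      linarith
    obtain ⟨c, A, B, hA, hB, h1, h2, h3, h4, h5, h6⟩ := core z y t s ht hs h'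
    exact ⟨c, B, A, hB, hA, fun x hx => (h1 x hx).symm, fun x hx hx' => h2 x hx' hx, h4, h3, h6, h5⟩

lemma noCircle [Nonempty Y] (g : Circle → Space U) (hg : Continuous g)
    (hi : Function.Injective g) : False := by
  have hne : (1 : Circle) ≠ -1 := by
    intro h
    have := congrArg (fun z : Circle => (z : ℂ).re) h
    norm_num at this
  obtain ⟨c, A, B, hA, hB, hcov, hdis, hpA, hqB, hpc, hqc⟩ :=
    separation (U := U) (hi.ne hne)
  have hK : IsPreconnected {x : Circle | g x ≠ c} := by
    by_cases hc : ∃ e, g e = c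
    · obtain ⟨e, rfl⟩ := hc
      have : {x : Circle | g x ≠ g e} = {e}ᶜ := by
        ext x
        simp [hi.eq_iff]
      rw [this]
      exact circle_compl e
    · have : {x : Circle | g x ≠ c} = univ := by
        rw [eq_univ_iff_forall]
        intro x hx
        exact hc ⟨x, hx⟩
      rw [this]
      exact isPreconnected_univ
  obtain ⟨x, -, hx1, hx2⟩ := hK (g ⁻¹' A) (g ⁻¹' B) (hA.preimage hg) (hB.preimage hg)
    (fun x hx => hcov _ hx) ⟨1, hpc, hpA⟩ ⟨-1, hqc, hqB⟩
  exact hdis _ hx1 hx2

theorem isDendrite [CompactSpace Y] [Nonempty Y] : IsDendrite (Space U) where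
  compact := compactSpace
  connected := connectedSpace
  locallyConnected := locallyConnectedSpace
  noCircle := by
    rintro S ⟨h⟩
    exact noCircle (U := U) (fun x => (h.symm x : Space U))
      (continuous_subtype_val.comp h.symm.continuous)
      (Subtype.val_injective.comp h.symm.injective)

/-! ### The map -/

/-- the map before identification -/
noncomputable def fpre (F : Y → Y) (p : Pre U) : Pre U :=
  ⟨F p.br, min 1 (2 * p.ht), le_min zero_le_one (by linarith [p.h0]), min_le_left _ _⟩

lemma fpre_lip {F : Y → Y} (hF : ∀ y z, U.l (F y) (F z) ≤ 2 * U.l y z) (p q : Pre U) :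
    dist (fpre F p) (fpre F q) ≤ 2 * dist p q := by
  change pd _ _ ≤ 2 * pd _ _
  simp only [pd, fpre]
  set M := max (max p.ht q.ht) (U.l p.br q.br) with hM
  have m1 : p.ht ≤ M := (le_max_left _ _).trans (le_max_left _ _)
  have m2 : q.ht ≤ M := (le_max_right _ _).trans (le_max_left _ _)
  have m3 : U.l p.br q.br ≤ M := le_max_right _ _
  have h1 : max (max (min 1 (2 * p.ht)) (min 1 (2 * q.ht))) (U.l (F p.br) (F q.br)) ≤
      min 1 (2 * M) := by
    refine max_le (max_le ?_ ?_) (le_min (U.le_one _ _) ?_)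
    · exact min_le_min le_rfl (by linarith)
    · exact min_le_min le_rfl (by linarith)
    · linarith [hF p.br q.br]
  have h2 : ∀ a : ℝ, a ≤ M → min 1 (2 * M) - min 1 (2 * a) ≤ 2 * (M - a) := by
    intro a ha
    have e1 : min 1 (2 * M) ≤ 1 := min_le_left _ _
    have e2 : min 1 (2 * M) ≤ 2 * M := min_le_right _ _
    rcases min_choice 1 (2 * a) with h | h <;> rw [h] <;> linarith
  have h3 := h2 _ m1
  have h4 := h2 _ m2
  linarith

/-- the map -/
noncomputable def f (F : Y → Y) (hF : ∀ y z, U.l (F y) (F z) ≤ 2 * U.l y z) :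
    Space U → Space U :=
  SeparationQuotient.lift (SeparationQuotient.mk ∘ fpre F) (by
    intro x y h
    rw [Metric.inseparable_iff] at h
    apply dist_le_zero.1
    simp only [Function.comp_apply]
    rw [SeparationQuotient.dist_mk]
    have := fpre_lip hF x y
    linarith)

lemma f_P (F : Y → Y) (hF : ∀ y z, U.l (F y) (F z) ≤ 2 * U.l y z) (y : Y) {t : ℝ} (h0 : 0 ≤ t) :
    f F hF (P U y t) = P U (F y) (2 * t) := by
  change SeparationQuotient.mk _ = SeparationQuotient.mk _
  congr 1
  simp only [fpre, Pre.mk.injEq, true_and]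
  rcases le_total 1 t with h | h
  · rw [min_eq_left h, max_eq_right zero_le_one, min_eq_left (by norm_num),
      min_eq_left (by linarith), max_eq_right zero_le_one]
  · rw [min_eq_right h, max_eq_right h0]
    rw [max_eq_right (le_min zero_le_one (by linarith))]

lemma continuous_f (F : Y → Y) (hF : ∀ y z, U.l (F y) (F z) ≤ 2 * U.l y z) :
    Continuous (f F hF) := by
  apply SeparationQuotient.continuous_lift
  apply SeparationQuotient.continuous_mk.comp
  have : LipschitzWith 2 (fpre F : Pre U → Pre U) :=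
    LipschitzWith.of_dist_le_mul fun p q => by
      have := fpre_lip hF p q
      simpa using this
  exact this.continuous

/-- **Main theorem.** -/
theorem exists_dendrite [CompactSpace Y] [Nonempty Y] (U : UM Y) (F : Y → Y)
    (hF : ∀ y z, U.l (F y) (F z) ≤ 2 * U.l y z) :
    ∃ (X : Type) (_ : MetricSpace X) (f : X → X) (ι : Y → X) (o : X),
      IsDendrite X ∧ Continuous f ∧ (∀ y z, dist (ι y) (ι z) = 2 * U.l y z) ∧
      (∀ y, dist (ι y) o = 1) ∧ f o = o ∧ (∀ y, f (ι y) = ι (F y)) ∧
      (∀ x y : X, dist x y ≤ 2) ∧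
      (∀ x, (∃ y, x = ι y) ∨ ∃ k, f^[k] x = o) := by
  have hz : (0 : ℝ) ∈ Icc (0 : ℝ) 1 := ⟨le_rfl, zero_le_one⟩
  have ho : (1 : ℝ) ∈ Icc (0 : ℝ) 1 := ⟨zero_le_one, le_rfl⟩
  have h2 : ∀ y : Y, P U y 2 = P U y 1 := by
    intro y
    rw [P_proj y 2, P_proj y 1]
    norm_num
  refine ⟨Space U, inferInstance, f F hF, fun y => P U y 0, P U (Classical.arbitrary Y) 1,
    isDendrite, continuous_f F hF, ?_, ?_, ?_, ?_, ?_, ?_⟩
  · intro y z
    rw [dist_P hz hz, max_self, max_eq_right (U.nonneg _ _)]
    ring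
  · intro y
    rw [root_eq _ y, dist_P hz ho, U.self]
    norm_num
  · rw [f_P F hF _ zero_le_one, mul_one, h2]
    exact root_eq _ _
  · intro y
    rw [f_P F hF _ le_rfl, mul_zero]
  · intro x y
    obtain ⟨a, s, hs, rfl⟩ := exists_P x
    obtain ⟨b, t, ht, rfl⟩ := exists_P y
    rw [dist_P hs ht]
    have : max (max s t) (U.l a b) ≤ 1 := max_le (max_le hs.2 ht.2) (U.le_one _ _)
    linarith [hs.1, ht.1]
  · intro x
    obtain ⟨y, t, ht, rfl⟩ := exists_P x
    rcases ht.1.eq_or_lt with h | h
    · exact Or.inl ⟨y, by rw [← h]⟩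
    · right
      have key : ∀ k : ℕ, ∀ t : ℝ, 0 ≤ t → (f F hF)^[k] (P U y t) = P U (F^[k] y) (2 ^ k * t) := by
        intro k
        induction k with
        | zero => intro t _; simp
        | succ k ih =>
          intro t ht
          rw [Function.iterate_succ_apply', ih t ht, f_P F hF _ (by positivity),
            Function.iterate_succ_apply']
          congr 1; ring
      obtain ⟨k, hk⟩ := pow_unbounded_of_one_lt (1 / t) (one_lt_two)
      refine ⟨k, ?_⟩
      rw [key k t ht.1, P_proj]
      have : 1 ≤ 2 ^ k * t := by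
        rw [div_lt_iff₀ h] at hk
        exact hk.le
      rw [min_eq_left this, max_eq_right zero_le_one]
      exact root_eq _ _

end Q69UDend
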