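import Mathlib
import Pool.Agent.Q69.UDend

/-!
# The first-difference ultrametric on spaces of sequences
-/

set_option autoImplicit false
open Set Filter Topology

namespace Q69Seq

open Q69UDend

variable {A : Type}

open Classical in
/-- the distance `2^(-n)`, `n` the first index of difference -/
noncomputable def ld (x y : ℕ → A) : ℝ :=
  if h : x = y then 0 else (1 / 2) ^ Nat.find (Function.ne_iff.1 h)

lemma ld_self (x : ℕ → A) : ld x x = 0 := by simp [ld]

lemma ld_nonneg (x y : ℕ → A) : 0 ≤ ld x y := by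
  unfold ld; split_ifs
  · exact le_rfl
  · positivity

lemma ld_le_iff {x y : ℕ → A} {n : ℕ} : ld x y ≤ (1 / 2) ^ n ↔ ∀ i < n, x i = y i := by
  classical
  unfold ld
  split_ifs with h
  · subst h; simp
  · rw [pow_le_pow_iff_right_of_lt_one₀ (by norm_num) (by norm_num), Nat.le_find_iff]
    simp

lemma ld_exists {x y : ℕ → A} (h : x ≠ y) : ∃ m, ld x y = (1 / 2) ^ m ∧ x m ≠ y m ∧
    ∀ i < m, x i = y i := by
  classical
  refine ⟨Nat.find (Function.ne_iff.1 h), by simp [ld, h], Nat.find_spec (Function.ne_iff.1 h), ?_⟩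
  intro i hi
  simpa using Nat.find_min (Function.ne_iff.1 h) hi

lemma ld_symm (x y : ℕ → A) : ld x y = ld y x := by
  by_cases h : x = y
  · rw [h]
  · obtain ⟨m, hm, -, h1⟩ := ld_exists h
    obtain ⟨m', hm', -, h1'⟩ := ld_exists (Ne.symm h)
    apply le_antisymm
    · rw [hm', ld_le_iff]; exact fun i hi => (h1' i hi).symm
    · rw [hm, ld_le_iff]; exact fun i hi => (h1 i hi).symm

lemma ld_le_one (x y : ℕ → A) : ld x y ≤ 1 := by
  have := (ld_le_iff (x := x) (y := y) (n := 0)).2 (by simp)
  simpa using this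

lemma ld_ultra (x y z : ℕ → A) : ld x z ≤ max (ld x y) (ld y z) := by
  by_cases h1 : x = y
  · subst h1; exact le_max_right _ _
  by_cases h2 : y = z
  · subst h2; exact le_max_left _ _
  obtain ⟨m, hm, -, e1⟩ := ld_exists h1
  obtain ⟨n, hn, -, e2⟩ := ld_exists h2
  rcases le_total m n with h | h
  · refine le_trans ?_ (le_max_left _ _)
    rw [hm, ld_le_iff]
    exact fun i hi => (e1 i hi).trans (e2 i (hi.trans_le h))
  · refine le_trans ?_ (le_max_right _ _)
    rw [hn, ld_le_iff]
    exact fun i hi => (e1 i (hi.trans_le h)).trans (e2 i hi)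

variable [TopologicalSpace A] [DiscreteTopology A]

lemma ld_small (x : ℕ → A) {ε : ℝ} (hε : 0 < ε) : ∀ᶠ y in 𝓝 x, ld x y < ε := by
  obtain ⟨n, hn⟩ := exists_pow_lt_of_lt_one hε (by norm_num : (1 / 2 : ℝ) < 1)
  have h : ∀ᶠ y in 𝓝 x, ∀ i ∈ Finset.range n, y i = x i := by
    rw [Filter.eventually_all_finset]
    intro i _
    have hc : Continuous fun y : ℕ → A => y i := continuous_apply i
    have ho : IsOpen {y : ℕ → A | y i = x i} := (isOpen_discrete {x i}).preimage hc
    exact ho.mem_nhds rfl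
  filter_upwards [h] with y hy
  refine lt_of_le_of_lt (ld_le_iff.2 fun i hi => ?_) hn
  exact (hy i (Finset.mem_range.2 hi)).symm

/-- the ultrametric of a set of sequences -/
noncomputable def um (Y : Set (ℕ → A)) : UM Y where
  l x y := ld x.1 y.1
  nonneg x y := ld_nonneg _ _
  self x := ld_self _
  symm x y := ld_symm _ _
  ultra x y z := ld_ultra _ _ _
  le_one x y := ld_le_one _ _
  small x ε hε := (continuous_subtype_val.tendsto x).eventually (ld_small x.1 hε)

omit [TopologicalSpace A] [DiscreteTopology A] in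
lemma ld_map {G : (ℕ → A) → (ℕ → A)} {x y : ℕ → A}
    (h : ∀ n, (∀ i < n + 1, x i = y i) → ∀ i < n, G x i = G y i) :
    ld (G x) (G y) ≤ 2 * ld x y := by
  by_cases hxy : x = y
  · subst hxy; rw [ld_self, ld_self]; norm_num
  · obtain ⟨m, hm, -, e⟩ := ld_exists hxy
    rw [hm]
    cases m with
    | zero => have := ld_le_one (G x) (G y); norm_num; linarith
    | succ n =>
      have := ld_le_iff.2 (h n e)
      calc ld (G x) (G y) ≤ (1 / 2) ^ n := this
        _ = 2 * (1 / 2) ^ (n + 1) := by rw [pow_succ]; ring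

end Q69Seq
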