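import Mathlib

/-!
# Birkhoff transitivity: open-set transitivity gives a dense forward orbit
-/

set_option autoImplicit false
open Filter Topology Set

namespace Q69.Trans

/-- In a compact metrizable space, a continuous map all of whose pairs of nonempty open sets `U, V`
have some `n` with `U ∩ T⁻ⁿ V ≠ ∅` has a point with dense forward orbit. -/
theorem exists_dense_orbit {Z : Type*} [TopologicalSpace Z] [CompactSpace Z] [T2Space Z]
    [SecondCountableTopology Z] [Nonempty Z] {S : Z → Z} (hS : Continuous S)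
    (h : ∀ U V : Set Z, IsOpen U → U.Nonempty → IsOpen V → V.Nonempty →
      ∃ n : ℕ, (U ∩ S^[n] ⁻¹' V).Nonempty) :
    ∃ z : Z, Dense (range fun n : ℕ => S^[n] z) := by
  obtain ⟨B, hBc, hBne, hB⟩ := TopologicalSpace.exists_countable_basis Z
  let O : Set Z → Set Z := fun V => ⋃ n : ℕ, S^[n] ⁻¹' V
  have hO : ∀ V ∈ B, IsOpen (O V) := fun V hV =>
    isOpen_iUnion fun n => (hB.isOpen hV).preimage (hS.iterate n)
  have hOd : ∀ V ∈ B, Dense (O V) := by
    intro V hV
    rw [dense_iff_inter_open]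
    intro U hU hUne
    have hVne : V.Nonempty := by
      rw [nonempty_iff_ne_empty]
      rintro rfl
      exact hBne hV
    obtain ⟨n, z, hzU, hzV⟩ := h U V hU hUne (hB.isOpen hV) hVne
    exact ⟨z, hzU, mem_iUnion.2 ⟨n, hzV⟩⟩
  have hdense : Dense (⋂ V ∈ B, O V) := dense_biInter_of_isOpen hO hBc hOd
  obtain ⟨z, hz⟩ := hdense.nonempty
  refine ⟨z, ?_⟩
  rw [hB.dense_iff]
  intro V hV hVne
  have := mem_iInter₂.1 hz V hV
  obtain ⟨n, hn⟩ := mem_iUnion.1 this
  exact ⟨_, hn, n, rfl⟩

end Q69.Trans
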