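import Mathlib

/-!
# Dilation-translation operators on `L²(ℝ)` and their Fourier transforms
-/

open MeasureTheory FourierTransform

noncomputable section

namespace Q69Wav

/-- `x ↦ √|a| f(a x - l)` -/
def aff (a l : ℝ) (f : ℝ → ℂ) (x : ℝ) : ℂ := ((Real.sqrt |a| : ℝ) : ℂ) * f (a * x - l)

/-- `ξ ↦ e^{-2π i l ξ / a} |a|^{-1/2} f(ξ/a)` -/
def mod (a l : ℝ) (f : ℝ → ℂ) (x : ℝ) : ℂ :=
  Complex.exp (((-2 * Real.pi * (l / a) * x : ℝ) : ℂ) * Complex.I) * aff a⁻¹ 0 f x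

theorem map_aff {a : ℝ} (ha : a ≠ 0) (l : ℝ) :
    Measure.map (fun x : ℝ => a * x - l) volume = ENNReal.ofReal |a⁻¹| • (volume : Measure ℝ) := by
  have h1 : Measure.map (fun x : ℝ => a * x) volume = ENNReal.ofReal |a⁻¹| • (volume : Measure ℝ) :=
    Real.map_volume_mul_left ha
  have h2 : Measure.map (fun x : ℝ => x - l) (Measure.map (fun x : ℝ => a * x) volume)
      = Measure.map (fun x : ℝ => a * x - l) volume :=
    Measure.map_map (by fun_prop) (by fun_prop)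
  rw [← h2, h1, Measure.map_smul, (measurePreserving_sub_right volume l).map_eq]

theorem aesm_comp {a : ℝ} (ha : a ≠ 0) (l : ℝ) {f : ℝ → ℂ}
    (hf : AEStronglyMeasurable f (volume : Measure ℝ)) :
    AEStronglyMeasurable (fun x => f (a * x - l)) (volume : Measure ℝ) := by
  have h : AEStronglyMeasurable f (Measure.map (fun x : ℝ => a * x - l) volume) := by
    rw [map_aff ha l]; exact hf.smul_measure _
  exact h.comp_measurable (by fun_prop)

theorem eLpNorm_aff {a : ℝ} (ha : a ≠ 0) (l : ℝ) {f : ℝ → ℂ}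
    (hf : AEStronglyMeasurable f (volume : Measure ℝ)) :
    eLpNorm (aff a l f) 2 volume = eLpNorm f 2 volume := by
  have h : AEStronglyMeasurable f (Measure.map (fun x : ℝ => a * x - l) volume) := by
    rw [map_aff ha l]; exact hf.smul_measure _
  have h1 : eLpNorm (fun x => f (a * x - l)) 2 volume
      = (ENNReal.ofReal |a⁻¹|) ^ (1 / (2 : ENNReal)).toReal • eLpNorm f 2 volume := by
    rw [← eLpNorm_smul_measure_of_ne_top (by norm_num), ← map_aff ha l,
      eLpNorm_map_measure h (by fun_prop)]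
    rfl
  have h2 : aff a l f = fun x => ((Real.sqrt |a| : ℝ) : ℂ) • (fun x => f (a * x - l)) x := by
    funext x; simp [aff]
  rw [h2]
  have h3 := eLpNorm_const_smul (((Real.sqrt |a| : ℝ) : ℂ)) (fun x => f (a * x - l)) 2
    (volume : Measure ℝ)
  have h4 : (((Real.sqrt |a| : ℝ) : ℂ) • fun x => f (a * x - l))
      = fun x => ((Real.sqrt |a| : ℝ) : ℂ) • (fun x => f (a * x - l)) x := by
    funext x; simp
  rw [← h4, h3, h1]
  rw [smul_eq_mul, ← mul_assoc]
  have h5 : ‖((Real.sqrt |a| : ℝ) : ℂ)‖ₑ * (ENNReal.ofReal |a⁻¹|) ^ (1 / (2 : ENNReal)).toReal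
      = 1 := by
    have e1 : ‖((Real.sqrt |a| : ℝ) : ℂ)‖ₑ = ENNReal.ofReal (Real.sqrt |a|) := by
      rw [← ofReal_norm_eq_enorm]
      congr 1
      rw [Complex.norm_real, Real.norm_of_nonneg (Real.sqrt_nonneg _)]
    have e2 : (1 / (2 : ENNReal)).toReal = (1 / 2 : ℝ) := by simp
    rw [e1, e2, ENNReal.ofReal_rpow_of_nonneg (abs_nonneg _) (by norm_num),
      ← ENNReal.ofReal_mul (Real.sqrt_nonneg _), ← Real.sqrt_eq_rpow,
      ← Real.sqrt_mul (abs_nonneg _), ← abs_mul, mul_inv_cancel₀ ha]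
    simp
  rw [h5, one_mul]

theorem memLp_aff {a : ℝ} (ha : a ≠ 0) (l : ℝ) {f : ℝ → ℂ} (hf : MemLp f 2 volume) :
    MemLp (aff a l f) 2 volume := by
  refine ⟨(aesm_comp ha l hf.1).const_mul _, ?_⟩
  rw [eLpNorm_aff ha l hf.1]
  exact hf.2

theorem norm_mod_factor (y : ℝ) : ‖Complex.exp ((y : ℂ) * Complex.I)‖ = 1 :=
  Complex.norm_exp_ofReal_mul_I y

theorem norm_mod (a l : ℝ) (f : ℝ → ℂ) (x : ℝ) : ‖mod a l f x‖ = ‖aff a⁻¹ 0 f x‖ := by
  rw [mod, norm_mul, norm_mod_factor, one_mul]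

theorem memLp_mod {a : ℝ} (ha : a ≠ 0) (l : ℝ) {f : ℝ → ℂ} (hf : MemLp f 2 volume) :
    MemLp (mod a l f) 2 volume := by
  have h := memLp_aff (inv_ne_zero ha) 0 hf
  refine (h.congr_norm ?_ ?_)
  · refine AEStronglyMeasurable.mul ?_ h.1
    exact (Continuous.aestronglyMeasurable (by fun_prop))
  · exact Filter.Eventually.of_forall fun x => (norm_mod a l f x).symm

theorem eLpNorm_mod {a : ℝ} (ha : a ≠ 0) (l : ℝ) {f : ℝ → ℂ}
    (hf : AEStronglyMeasurable f (volume : Measure ℝ)) :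
    eLpNorm (mod a l f) 2 volume = eLpNorm f 2 volume := by
  rw [← eLpNorm_aff (inv_ne_zero ha) 0 hf]
  exact eLpNorm_congr_norm_ae (Filter.Eventually.of_forall fun x => norm_mod a l f x)

/-- null sets pull back -/
theorem ae_comp {a : ℝ} (ha : a ≠ 0) (l : ℝ) {p : ℝ → Prop}
    (hp : ∀ᵐ x ∂(volume : Measure ℝ), p x) : ∀ᵐ x ∂(volume : Measure ℝ), p (a * x - l) := by
  have h : ∀ᵐ x ∂(Measure.map (fun x : ℝ => a * x - l) volume), p x := by
    rw [map_aff ha l]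
    exact Measure.ae_smul_measure hp _
  exact ae_of_ae_map (by fun_prop) h

/-- the operator `T_{a,l}` on `L²(ℝ)` -/
def T {a : ℝ} (ha : a ≠ 0) (l : ℝ) (f : Lp ℂ 2 (volume : Measure ℝ)) :
    Lp ℂ 2 (volume : Measure ℝ) := (memLp_aff ha l (Lp.memLp f)).toLp

/-- the operator `S_{a,l}` on `L²(ℝ)` -/
def S {a : ℝ} (ha : a ≠ 0) (l : ℝ) (f : Lp ℂ 2 (volume : Measure ℝ)) :
    Lp ℂ 2 (volume : Measure ℝ) := (memLp_mod ha l (Lp.memLp f)).toLp

theorem T_isometry {a : ℝ} (ha : a ≠ 0) (l : ℝ) : Isometry (T ha l) := by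
  intro f g
  rw [edist_dist, edist_dist, dist_eq_norm, dist_eq_norm]
  congr 1
  rw [Lp.norm_def, Lp.norm_def]
  congr 1
  have h1 : ((T ha l f - T ha l g : Lp ℂ 2 (volume : Measure ℝ)) : ℝ → ℂ)
      =ᵐ[volume] aff a l ((f - g : Lp ℂ 2 (volume : Measure ℝ)) : ℝ → ℂ) := by
    have e1 := (memLp_aff ha l (Lp.memLp f)).coeFn_toLp
    have e2 := (memLp_aff ha l (Lp.memLp g)).coeFn_toLp
    have e3 := ae_comp ha l (Lp.coeFn_sub f g)
    filter_upwards [Lp.coeFn_sub (T ha l f) (T ha l g), e1, e2, e3] with x h0 h1 h2 h3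
    rw [h0]
    simp only [Pi.sub_apply]
    unfold T
    rw [h1, h2]
    simp only [aff]
    rw [h3]
    simp only [Pi.sub_apply]
    ring
  rw [eLpNorm_congr_ae h1, eLpNorm_aff ha l (Lp.memLp _).1]

theorem S_isometry {a : ℝ} (ha : a ≠ 0) (l : ℝ) : Isometry (S ha l) := by
  intro f g
  rw [edist_dist, edist_dist, dist_eq_norm, dist_eq_norm]
  congr 1
  rw [Lp.norm_def, Lp.norm_def]
  congr 1
  have h1 : ((S ha l f - S ha l g : Lp ℂ 2 (volume : Measure ℝ)) : ℝ → ℂ)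
      =ᵐ[volume] mod a l ((f - g : Lp ℂ 2 (volume : Measure ℝ)) : ℝ → ℂ) := by
    have e1 := (memLp_mod ha l (Lp.memLp f)).coeFn_toLp
    have e2 := (memLp_mod ha l (Lp.memLp g)).coeFn_toLp
    have e3 := ae_comp (inv_ne_zero ha) 0 (Lp.coeFn_sub f g)
    filter_upwards [Lp.coeFn_sub (S ha l f) (S ha l g), e1, e2, e3] with x h0 h1 h2 h3
    rw [h0]
    simp only [Pi.sub_apply]
    unfold S
    rw [h1, h2]
    simp only [mod, aff]
    rw [h3]
    simp only [Pi.sub_apply]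
    ring
  rw [eLpNorm_congr_ae h1, eLpNorm_mod ha l (Lp.memLp _).1]

/-- the Fourier integral of a dilated translated function -/
theorem fourier_aff {a : ℝ} (ha : a ≠ 0) (l : ℝ) (f : ℝ → ℂ) (ξ : ℝ) :
    𝓕 (aff a l f) ξ = mod a l (𝓕 f) ξ := by
  rw [Real.fourier_eq]
  have h0 : ∀ x : ℝ, (Real.fourierChar (-(inner ℝ x ξ))) • aff a l f x
      = (fun y : ℝ => (((Real.sqrt |a| : ℝ) : ℂ) *
          Complex.exp (((-2 * Real.pi * (l / a) * ξ : ℝ) : ℂ) * Complex.I)) *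
          ((Real.fourierChar (-(inner ℝ y (a⁻¹ * ξ - 0)))) • f y)) (a * x - l) := by
    intro x
    simp only [Circle.smul_def, Real.fourierChar_apply, aff, smul_eq_mul]
    have h1 : Complex.exp (((2 * Real.pi * -(inner ℝ x ξ) : ℝ) : ℂ) * Complex.I)
        = Complex.exp (((-2 * Real.pi * (l / a) * ξ : ℝ) : ℂ) * Complex.I) *
          Complex.exp (((2 * Real.pi * -(inner ℝ (a * x - l) (a⁻¹ * ξ - 0)) : ℝ) : ℂ)
            * Complex.I) := by
      rw [← Complex.exp_add]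
      congr 1
      rw [← add_mul, ← Complex.ofReal_add]
      congr 2
      simp only [RCLike.inner_apply, conj_trivial, sub_zero]
      field_simp
      ring
    rw [h1]
    ring
  rw [integral_congr_ae (Filter.Eventually.of_forall h0)]
  have h2 : ∀ g : ℝ → ℂ, ∫ x : ℝ, g (a * x - l) = |a⁻¹| • ∫ y : ℝ, g y := by
    intro g
    have h3 := Measure.integral_comp_mul_left (fun y => g (y - l)) a
    rw [h3, integral_sub_right_eq_self g l]
  rw [h2 (fun y : ℝ => (((Real.sqrt |a| : ℝ) : ℂ) *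
          Complex.exp (((-2 * Real.pi * (l / a) * ξ : ℝ) : ℂ) * Complex.I)) *
          ((Real.fourierChar (-(inner ℝ y (a⁻¹ * ξ - 0)))) • f y))]
  simp only [mod, aff]
  rw [integral_const_mul, ← Real.fourier_eq]
  have h4 : ((|a⁻¹| : ℝ) : ℂ) * ((Real.sqrt |a| : ℝ) : ℂ) = ((Real.sqrt |a⁻¹| : ℝ) : ℂ) := by
    rw [← Complex.ofReal_mul]
    congr 1
    rw [abs_inv, Real.sqrt_inv]
    have h5 : 0 < |a| := abs_pos.2 ha
    have h6 : Real.sqrt |a| ≠ 0 := (Real.sqrt_pos.2 h5).ne'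
    nth_rewrite 1 [← Real.mul_self_sqrt h5.le]
    field_simp
  rw [← h4, Complex.real_smul]
  ring

theorem aff_congr {a : ℝ} (ha : a ≠ 0) (l : ℝ) {f g : ℝ → ℂ} (h : f =ᵐ[volume] g) :
    aff a l f =ᵐ[volume] aff a l g := by
  filter_upwards [ae_comp ha l h] with x hx
  simp only [aff]
  rw [hx]

theorem mod_congr {a : ℝ} (ha : a ≠ 0) (l : ℝ) {f g : ℝ → ℂ} (h : f =ᵐ[volume] g) :
    mod a l f =ᵐ[volume] mod a l g := by
  filter_upwards [aff_congr (inv_ne_zero ha) 0 h] with x hx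
  simp only [mod]
  rw [hx]

/-- Fourier transform intertwines `T` and `S` on `L²(ℝ)` -/
theorem fourier_T {a : ℝ} (ha : a ≠ 0) (l : ℝ) (f : Lp ℂ 2 (volume : Measure ℝ)) :
    𝓕 (T ha l f) = S ha l (𝓕 f) := by
  refine DenseRange.induction_on (p := fun f => 𝓕 (T ha l f) = S ha l (𝓕 f))
    (SchwartzMap.denseRange_toLpCLM (p := 2) ENNReal.ofNat_ne_top) f ?_ ?_
  · refine isClosed_eq ?_ ?_
    · exact (Lp.fourierTransformₗᵢ ℝ ℂ).continuous.comp (T_isometry ha l).continuous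
    · exact (S_isometry ha l).continuous.comp (Lp.fourierTransformₗᵢ ℝ ℂ).continuous
  · intro f
    -- the Schwartz function `x ↦ √|a| f (a x - l)`
    set L : ℝ ≃L[ℝ] ℝ := ContinuousLinearEquiv.smulLeft (Units.mk0 a ha) with hL
    set g : SchwartzMap ℝ ℂ := ((Real.sqrt |a| : ℝ) : ℂ) •
      SchwartzMap.compCLMOfContinuousLinearEquiv ℂ L (SchwartzMap.compSubConstCLM ℂ l f) with hg
    have hgx : ∀ x, g x = aff a l f x := by
      intro x
      simp [hg, aff, hL]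
    have e1 : T ha l (f.toLp 2 volume) = g.toLp 2 volume := by
      apply Lp.ext
      have h1 := (memLp_aff ha l (Lp.memLp (f.toLp 2 volume))).coeFn_toLp
      have h2 := aff_congr ha l (SchwartzMap.coeFn_toLp f 2 volume)
      filter_upwards [h1, h2, SchwartzMap.coeFn_toLp g 2 volume] with x h1 h2 h3
      rw [h3, hgx, ← h2]
      exact h1
    have e2 : S ha l ((𝓕 f).toLp 2 volume) = (𝓕 g).toLp 2 volume := by
      apply Lp.ext
      have h1 := (memLp_mod ha l (Lp.memLp ((𝓕 f).toLp 2 volume))).coeFn_toLp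
      have h2 := mod_congr ha l (SchwartzMap.coeFn_toLp (𝓕 f) 2 volume)
      filter_upwards [h1, h2, SchwartzMap.coeFn_toLp (𝓕 g) 2 volume] with x h1 h2 h3
      rw [h3, SchwartzMap.fourier_coe]
      have h4 : (g : ℝ → ℂ) = aff a l f := funext hgx
      rw [h4, fourier_aff ha l, ← SchwartzMap.fourier_coe, ← h2]
      exact h1
    simp only [SchwartzMap.toLpCLM_apply]
    rw [e1, SchwartzMap.toLp_fourier_eq, ← e2, SchwartzMap.toLp_fourier_eq]

end Q69Wav
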