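import Mathlib

/-!
# Periodization of an `L²` function with vanishing Fourier coefficients
-/

open MeasureTheory Set

noncomputable section

namespace Q69Wav

theorem memLp_exp {u : ℝ → ℂ} (hu : MemLp u 2 volume) (c : ℝ) :
    MemLp (fun x : ℝ => Complex.exp (((c * x : ℝ) : ℂ) * Complex.I) * u x) 2 volume := by
  refine hu.congr_norm ?_ ?_
  · refine AEStronglyMeasurable.mul ?_ hu.1
    exact (Continuous.aestronglyMeasurable (by fun_prop))
  · exact Filter.Eventually.of_forall fun x => by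
      rw [norm_mul, Complex.norm_exp_ofReal_mul_I, one_mul]

theorem ii_of_memLp {u : ℝ → ℂ} (hu : MemLp u 2 volume) (a b : ℝ) :
    IntervalIntegrable u volume a b := by
  have h : ∀ s : Set ℝ, volume s ≠ ⊤ → IntegrableOn u s volume := by
    intro s hs
    haveI : IsFiniteMeasure (volume.restrict s) := ⟨by
      rw [Measure.restrict_apply_univ]; exact lt_top_iff_ne_top.2 hs⟩
    exact (hu.restrict s).integrable (by norm_num)
  exact ⟨h _ (by simp), h _ (by simp)⟩

theorem periodization_zero {u : ℝ → ℂ} (hu : MemLp u 2 volume)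
    (hs : ∀ x, x ∉ Ioc (-4 : ℝ) 4 → u x = 0)
    (h0 : ∀ l : ℤ, ∫ x : ℝ, Complex.exp (((2 * Real.pi * l * x : ℝ) : ℂ) * Complex.I) * u x = 0) :
    ∀ᵐ x ∂(volume.restrict (Ioc (0 : ℝ) 1)), ∑ k ∈ Finset.range 8, u (x + ((k : ℝ) - 4)) = 0 := by
  set P : ℝ → ℂ := fun x => ∑ k ∈ Finset.range 8, u (x + ((k : ℝ) - 4)) with hP
  have hPm : MemLp P 2 (volume.restrict (Ioc (0 : ℝ) 1)) := by
    refine MemLp.restrict _ ?_
    refine memLp_finset_sum _ fun k _ => ?_
    exact hu.comp_measurePreserving (measurePreserving_add_right volume _)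
  have hcoef : ∀ n : ℤ, fourierCoeffOn (zero_lt_one : (0 : ℝ) < 1) P n = 0 := by
    intro n
    rw [fourierCoeffOn_eq_integral]
    have e1 : ∀ x : ℝ, (fourier (-n) (x : AddCircle ((1 : ℝ) - 0))) • P x
        = ∑ k ∈ Finset.range 8, (fun y : ℝ =>
          Complex.exp (((2 * Real.pi * (-n : ℤ) * y : ℝ) : ℂ) * Complex.I) * u y)
            (x + ((k : ℝ) - 4)) := by
      intro x
      rw [fourier_coe_apply, hP, Finset.smul_sum]
      refine Finset.sum_congr rfl fun k _ => ?_
      simp only [smul_eq_mul]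
      congr 1
      have h1 : ((2 * Real.pi * (-n : ℤ) * (x + ((k : ℝ) - 4)) : ℝ) : ℂ) * Complex.I
          = 2 * Real.pi * Complex.I * ((-n : ℤ) : ℂ) * (x : ℂ) / (((1 : ℝ) - 0 : ℝ) : ℂ)
            + ((-n * ((k : ℤ) - 4) : ℤ) : ℂ) * (2 * Real.pi * Complex.I) := by
        push_cast
        ring
      rw [h1, Complex.exp_add, Complex.exp_int_mul_two_pi_mul_I, mul_one]
    simp_rw [e1]
    rw [intervalIntegral.integral_finset_sum]
    · have e2 : ∀ k : ℕ, ∫ x in (0 : ℝ)..1, (fun y : ℝ =>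
          Complex.exp (((2 * Real.pi * (-n : ℤ) * y : ℝ) : ℂ) * Complex.I) * u y)
            (x + ((k : ℝ) - 4))
          = ∫ x in ((k : ℝ) - 4)..(((k + 1 : ℕ) : ℝ) - 4), (fun y : ℝ =>
          Complex.exp (((2 * Real.pi * (-n : ℤ) * y : ℝ) : ℂ) * Complex.I) * u y) x := by
        intro k
        have h1 := intervalIntegral.integral_comp_add_right (a := (0 : ℝ)) (b := 1)
          (fun y : ℝ => Complex.exp (((2 * Real.pi * (-n : ℤ) * y : ℝ) : ℂ) * Complex.I) * u y)
          ((k : ℝ) - 4)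
        rw [h1]
        congr 1
        · ring
        · push_cast; ring
      simp_rw [e2]
      rw [intervalIntegral.sum_integral_adjacent_intervals (a := fun k : ℕ => (k : ℝ) - 4)
        (μ := volume)]
      · have e3 : ((0 : ℕ) : ℝ) - 4 = -4 := by norm_num
        have e4 : ((8 : ℕ) : ℝ) - 4 = 4 := by norm_num
        rw [e3, e4, intervalIntegral.integral_of_le (by norm_num),
          setIntegral_eq_integral_of_forall_compl_eq_zero]
        · rw [h0 (-n)]; simp
        · intro x hx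
          rw [hs x hx, mul_zero]
      · intro k _
        exact ii_of_memLp (memLp_exp hu _) _ _
    · intro k _
      have := (ii_of_memLp (memLp_exp hu (2 * Real.pi * (-n : ℤ))) (0 + ((k : ℝ) - 4))
        (1 + ((k : ℝ) - 4)))
      have h2 := this.comp_add_right ((k : ℝ) - 4)
      simpa using h2
  have hsum := hasSum_sq_fourierCoeffOn (zero_lt_one : (0 : ℝ) < 1) hPm
  have hz : (fun i : ℤ => ‖fourierCoeffOn (zero_lt_one : (0 : ℝ) < 1) P i‖ ^ 2) = fun _ => 0 := by
    funext i
    rw [hcoef i]; simp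
  rw [hz] at hsum
  have hint : ∫ x in (0 : ℝ)..1, ‖P x‖ ^ 2 = 0 := by
    have := hsum.unique hasSum_zero
    simpa using this
  rw [intervalIntegral.integral_of_le zero_le_one] at hint
  have hi : Integrable (fun x => ‖P x‖ ^ 2) (volume.restrict (Ioc (0 : ℝ) 1)) :=
    hPm.integrable_norm_pow (by norm_num)
  rw [integral_eq_zero_iff_of_nonneg (fun x => by positivity) hi] at hint
  filter_upwards [hint] with x hx
  have h3 : ‖P x‖ ^ 2 = 0 := hx
  have h4 : ‖P x‖ = 0 := by
    by_contra hne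
    have : 0 < ‖P x‖ := lt_of_le_of_ne (norm_nonneg _) (Ne.symm hne)
    have : 0 < ‖P x‖ ^ 2 := by positivity
    linarith
  exact norm_eq_zero.1 h4

end Q69Wav
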