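import Pool.Agent.Q69.WavA
import Pool.Agent.Q69.WavB

/-!
# The set `Ω` and the dyadic wavelet system on the Fourier side
-/

open MeasureTheory Set

noncomputable section

namespace Q69Wav

/-- `{a < |x| < b}` -/
def sym (a b : ℝ) : Set ℝ := {x | a < |x| ∧ |x| < b}

/-- the set `Ω = {1/7<|x|<1/5} ∪ {3/7<|x|<8/7} ∪ {16/5<|x|<24/7}` -/
def Om : Set ℝ := sym (1 / 7) (1 / 5) ∪ sym (3 / 7) (8 / 7) ∪ sym (16 / 5) (24 / 7)

theorem measurableSet_sym (a b : ℝ) : MeasurableSet (sym a b) := by
  have h : sym a b = (fun x : ℝ => |x|) ⁻¹' (Ioo a b) := by ext x; simp [sym]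
  rw [h]
  exact measurableSet_Ioo.preimage (by fun_prop)

theorem measurableSet_Om : MeasurableSet Om :=
  ((measurableSet_sym _ _).union (measurableSet_sym _ _)).union (measurableSet_sym _ _)

theorem Om_subset : Om ⊆ Ioc (-4 : ℝ) 4 := by
  intro x hx
  have h : |x| < 4 := by
    rcases hx with (hx | hx) | hx
    · linarith [hx.2]
    · linarith [hx.2]
    · linarith [hx.2]
  rw [abs_lt] at h
  exact ⟨h.1, h.2.le⟩

theorem mem_Om_neg {x : ℝ} : -x ∈ Om ↔ x ∈ Om := by
  simp [Om, sym]

theorem volume_Om_lt : volume Om < ⊤ :=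
  lt_of_le_of_lt (measure_mono Om_subset) (by simp)

theorem volume_Om_pos : 0 < volume Om := by
  refine lt_of_lt_of_le ?_ (measure_mono (s := Ioo (3 / 7 : ℝ) (8 / 7)) ?_)
  · rw [Real.volume_Ioo]
    exact ENNReal.ofReal_pos.2 (by norm_num)
  · intro x hx
    left; right
    have : |x| = x := abs_of_pos (by linarith [hx.1])
    exact ⟨by rw [this]; exact hx.1, by rw [this]; exact hx.2⟩

/-- indicator of `Ω` -/
def chi : ℝ → ℂ := Om.indicator (fun _ => 1)

theorem chi_of_mem {x : ℝ} (hx : x ∈ Om) : chi x = 1 := by simp [chi, hx]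
theorem chi_of_not_mem {x : ℝ} (hx : x ∉ Om) : chi x = 0 := by simp [chi, hx]

theorem mem1 {x : ℝ} (h1 : 1 / 7 < |x|) (h2 : |x| < 1 / 5) : x ∈ Om := Or.inl (Or.inl ⟨h1, h2⟩)
theorem mem2 {x : ℝ} (h1 : 3 / 7 < |x|) (h2 : |x| < 8 / 7) : x ∈ Om := Or.inl (Or.inr ⟨h1, h2⟩)
theorem mem3 {x : ℝ} (h1 : 16 / 5 < |x|) (h2 : |x| < 24 / 7) : x ∈ Om := Or.inr ⟨h1, h2⟩

theorem not_mem_Om {x : ℝ} (h1 : |x| ≤ 1 / 7 ∨ 1 / 5 ≤ |x|) (h2 : |x| ≤ 3 / 7 ∨ 8 / 7 ≤ |x|)
    (h3 : |x| ≤ 16 / 5 ∨ 24 / 7 ≤ |x|) : x ∉ Om := by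
  rintro ((⟨a, b⟩ | ⟨a, b⟩) | ⟨a, b⟩)
  · rcases h1 with h | h <;> linarith
  · rcases h2 with h | h <;> linarith
  · rcases h3 with h | h <;> linarith

/-- `e^{iπy}` -/
def ee (y : ℝ) : ℂ := Complex.exp (((Real.pi * y : ℝ) : ℂ) * Complex.I)

theorem ee_ne (y : ℝ) : ee y ≠ 0 := Complex.exp_ne_zero _

theorem ee_add_one (y : ℝ) : ee (y + 1) = - ee y := by
  have : ((Real.pi * (y + 1) : ℝ) : ℂ) * Complex.I
      = ((Real.pi * y : ℝ) : ℂ) * Complex.I + Real.pi * Complex.I := by
    push_cast; ring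
  rw [ee, this, Complex.exp_add, Complex.exp_pi_mul_I, ee]; ring

theorem ee_sub_one (y : ℝ) : ee (y - 1) = - ee y := by
  have := ee_add_one (y - 1)
  rw [sub_add_cancel] at this
  rw [this]; ring

theorem ee_sub_two (y : ℝ) : ee (y - 2) = ee y := by
  have : y - 2 = y - 1 - 1 := by ring
  rw [this, ee_sub_one, ee_sub_one]; ring

theorem ee_sub_four (y : ℝ) : ee (y - 4) = ee y := by
  have : y - 4 = y - 2 - 2 := by ring
  rw [this, ee_sub_two, ee_sub_two]

theorem ee_add_three (y : ℝ) : ee (y + 3) = - ee y := by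
  have : y + 3 = y + 4 - 1 := by ring
  rw [this, ee_sub_one]
  have h2 := ee_sub_four (y + 4)
  rw [add_sub_cancel_right] at h2
  rw [h2]

/-- the consequences of the vanishing of the coefficients, one scale -/
theorem one_scale {h : ℝ → ℂ} (hh : MemLp h 2 volume)
    (h0 : ∀ l : ℤ, ∫ x : ℝ, Complex.exp (((2 * Real.pi * (l + 1 / 2) * x : ℝ) : ℂ) * Complex.I) *
      (chi x * h x) = 0) :
    ∀ᵐ x ∂(volume : Measure ℝ), x ∈ Ioo (0 : ℝ) 1 →
      (3 / 7 < x → x < 4 / 7 → h x = h (x - 1)) ∧
      (1 / 7 < x → x < 1 / 5 → h x = h (x - 1)) ∧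
      (4 / 5 < x → x < 6 / 7 → h x = h (x - 1)) ∧
      (6 / 7 < x → x < 1 → h x = - h (x - 2)) ∧
      (0 < x → x < 1 / 7 → h (x + 1) = - h (x - 1)) ∧
      (4 / 7 < x → x < 4 / 5 → h x = - h (x - 4)) ∧
      (1 / 5 < x → x < 3 / 7 → h (x + 3) = - h (x - 1)) := by
  set u : ℝ → ℂ := fun x => ee x * (chi x * h x) with hu
  have huz : ∀ x, x ∉ Om → u x = 0 := by
    intro x hx
    simp [hu, chi_of_not_mem hx]
  have hum : ∀ x, x ∈ Om → u x = ee x * h x := by
    intro x hx
    simp [hu, chi_of_mem hx]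
  have huL : MemLp u 2 volume := by
    have h1 : MemLp (fun x => chi x * h x) 2 volume := by
      have : (fun x => chi x * h x) = Om.indicator h := by
        funext x
        by_cases hx : x ∈ Om
        · simp [chi_of_mem hx, hx]
        · simp [chi_of_not_mem hx, hx]
      rw [this]
      exact hh.indicator measurableSet_Om
    exact memLp_exp h1 Real.pi
  have hper := periodization_zero huL (fun x hx => huz x (fun h => hx (Om_subset h))) (by
    intro l
    rw [← h0 l]
    refine integral_congr_ae (Filter.Eventually.of_forall fun x => ?_)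
    simp only [hu, ee]
    rw [← mul_assoc, ← Complex.exp_add]
    congr 2
    push_cast
    ring)
  rw [ae_restrict_iff' measurableSet_Ioc] at hper
  filter_upwards [hper] with x hx hx01
  have hS := hx ⟨hx01.1, hx01.2.le⟩
  obtain ⟨hx0, hx1⟩ := hx01
  simp only [Finset.sum_range_succ, Finset.sum_range_zero, zero_add, Nat.cast_zero, Nat.cast_one,
    Nat.cast_ofNat] at hS
  have a0 : x + (0 - 4) = x - 4 := by ring
  have a1 : x + (1 - 4) = x - 3 := by ring
  have a2 : x + (2 - 4) = x - 2 := by ring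
  have a3 : x + (3 - 4) = x - 1 := by ring
  have a4 : x + (4 - 4) = x := by ring
  have a5 : x + (5 - 4) = x + 1 := by ring
  have a6 : x + (6 - 4) = x + 2 := by ring
  have a7 : x + (7 - 4) = x + 3 := by ring
  rw [a0, a1, a2, a3, a4, a5, a6, a7] at hS
  have b0 : |x - 4| = 4 - x := by rw [abs_of_neg (by linarith)]; ring
  have b1 : |x - 3| = 3 - x := by rw [abs_of_neg (by linarith)]; ring
  have b2 : |x - 2| = 2 - x := by rw [abs_of_neg (by linarith)]; ring
  have b3 : |x - 1| = 1 - x := by rw [abs_of_neg (by linarith)]; ring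
  have b4 : |x| = x := abs_of_pos hx0
  have b5 : |x + 1| = x + 1 := abs_of_pos (by linarith)
  have b6 : |x + 2| = x + 2 := abs_of_pos (by linarith)
  have b7 : |x + 3| = x + 3 := abs_of_pos (by linarith)
  have z1 : u (x - 3) = 0 := huz _ (not_mem_Om (Or.inr (by linarith)) (Or.inr (by linarith))
    (Or.inl (by linarith)))
  have z6 : u (x + 2) = 0 := huz _ (not_mem_Om (Or.inr (by linarith)) (Or.inr (by linarith))
    (Or.inl (by linarith)))
  rw [z1, z6] at hS
  refine ⟨fun c1 c2 => ?_, fun c1 c2 => ?_, fun c1 c2 => ?_, fun c1 c2 => ?_, fun c1 c2 => ?_,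
    fun c1 c2 => ?_, fun c1 c2 => ?_⟩
  · -- (3/7,4/7)
    have z0 : u (x - 4) = 0 := huz _ (not_mem_Om (Or.inr (by linarith)) (Or.inr (by linarith))
      (Or.inr (by linarith)))
    have z2 : u (x - 2) = 0 := huz _ (not_mem_Om (Or.inr (by linarith)) (Or.inr (by linarith))
      (Or.inl (by linarith)))
    have z3 : u (x - 1) = ee (x - 1) * h (x - 1) := hum _ (mem2 (by linarith) (by linarith))
    have z4 : u x = ee x * h x := hum _ (mem2 (by linarith) (by linarith))
    have z5 : u (x + 1) = 0 := huz _ (not_mem_Om (Or.inr (by linarith)) (Or.inr (by linarith))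
      (Or.inl (by linarith)))
    have z7 : u (x + 3) = 0 := huz _ (not_mem_Om (Or.inr (by linarith)) (Or.inr (by linarith))
      (Or.inr (by linarith)))
    rw [z0, z2, z3, z4, z5, z7, ee_sub_one] at hS
    have : ee x * (h x - h (x - 1)) = 0 := by linear_combination hS
    rcases mul_eq_zero.1 this with h' | h'
    · exact absurd h' (ee_ne x)
    · exact sub_eq_zero.1 h'
  · -- (1/7,1/5)
    have z0 : u (x - 4) = 0 := huz _ (not_mem_Om (Or.inr (by linarith)) (Or.inr (by linarith))
      (Or.inr (by linarith)))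
    have z2 : u (x - 2) = 0 := huz _ (not_mem_Om (Or.inr (by linarith)) (Or.inr (by linarith))
      (Or.inl (by linarith)))
    have z3 : u (x - 1) = ee (x - 1) * h (x - 1) := hum _ (mem2 (by linarith) (by linarith))
    have z4 : u x = ee x * h x := hum _ (mem1 (by linarith) (by linarith))
    have z5 : u (x + 1) = 0 := huz _ (not_mem_Om (Or.inr (by linarith)) (Or.inr (by linarith))
      (Or.inl (by linarith)))
    have z7 : u (x + 3) = 0 := huz _ (not_mem_Om (Or.inr (by linarith)) (Or.inr (by linarith))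
      (Or.inl (by linarith)))
    rw [z0, z2, z3, z4, z5, z7, ee_sub_one] at hS
    have : ee x * (h x - h (x - 1)) = 0 := by linear_combination hS
    rcases mul_eq_zero.1 this with h' | h'
    · exact absurd h' (ee_ne x)
    · exact sub_eq_zero.1 h'
  · -- (4/5,6/7)
    have z0 : u (x - 4) = 0 := huz _ (not_mem_Om (Or.inr (by linarith)) (Or.inr (by linarith))
      (Or.inl (by linarith)))
    have z2 : u (x - 2) = 0 := huz _ (not_mem_Om (Or.inr (by linarith)) (Or.inr (by linarith))
      (Or.inl (by linarith)))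
    have z3 : u (x - 1) = ee (x - 1) * h (x - 1) := hum _ (mem1 (by linarith) (by linarith))
    have z4 : u x = ee x * h x := hum _ (mem2 (by linarith) (by linarith))
    have z5 : u (x + 1) = 0 := huz _ (not_mem_Om (Or.inr (by linarith)) (Or.inr (by linarith))
      (Or.inl (by linarith)))
    have z7 : u (x + 3) = 0 := huz _ (not_mem_Om (Or.inr (by linarith)) (Or.inr (by linarith))
      (Or.inr (by linarith)))
    rw [z0, z2, z3, z4, z5, z7, ee_sub_one] at hS
    have : ee x * (h x - h (x - 1)) = 0 := by linear_combination hS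
    rcases mul_eq_zero.1 this with h' | h'
    · exact absurd h' (ee_ne x)
    · exact sub_eq_zero.1 h'
  · -- (6/7,1)
    have z0 : u (x - 4) = 0 := huz _ (not_mem_Om (Or.inr (by linarith)) (Or.inr (by linarith))
      (Or.inl (by linarith)))
    have z2 : u (x - 2) = ee (x - 2) * h (x - 2) := hum _ (mem2 (by linarith) (by linarith))
    have z3 : u (x - 1) = 0 := huz _ (not_mem_Om (Or.inl (by linarith)) (Or.inl (by linarith))
      (Or.inl (by linarith)))
    have z4 : u x = ee x * h x := hum _ (mem2 (by linarith) (by linarith))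
    have z5 : u (x + 1) = 0 := huz _ (not_mem_Om (Or.inr (by linarith)) (Or.inr (by linarith))
      (Or.inl (by linarith)))
    have z7 : u (x + 3) = 0 := huz _ (not_mem_Om (Or.inr (by linarith)) (Or.inr (by linarith))
      (Or.inr (by linarith)))
    rw [z0, z2, z3, z4, z5, z7, ee_sub_two] at hS
    have : ee x * (h x + h (x - 2)) = 0 := by linear_combination hS
    rcases mul_eq_zero.1 this with h' | h'
    · exact absurd h' (ee_ne x)
    · exact eq_neg_of_add_eq_zero_left h'
  · -- (0,1/7)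
    have z0 : u (x - 4) = 0 := huz _ (not_mem_Om (Or.inr (by linarith)) (Or.inr (by linarith))
      (Or.inr (by linarith)))
    have z2 : u (x - 2) = 0 := huz _ (not_mem_Om (Or.inr (by linarith)) (Or.inr (by linarith))
      (Or.inl (by linarith)))
    have z3 : u (x - 1) = ee (x - 1) * h (x - 1) := hum _ (mem2 (by linarith) (by linarith))
    have z4 : u x = 0 := huz _ (not_mem_Om (Or.inl (by linarith)) (Or.inl (by linarith))
      (Or.inl (by linarith)))
    have z5 : u (x + 1) = ee (x + 1) * h (x + 1) := hum _ (mem2 (by linarith) (by linarith))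
    have z7 : u (x + 3) = 0 := huz _ (not_mem_Om (Or.inr (by linarith)) (Or.inr (by linarith))
      (Or.inl (by linarith)))
    rw [z0, z2, z3, z4, z5, z7, ee_sub_one, ee_add_one] at hS
    have : ee x * (h (x + 1) + h (x - 1)) = 0 := by linear_combination -hS
    rcases mul_eq_zero.1 this with h' | h'
    · exact absurd h' (ee_ne x)
    · exact eq_neg_of_add_eq_zero_left h'
  · -- (4/7,4/5)
    have z0 : u (x - 4) = ee (x - 4) * h (x - 4) := hum _ (mem3 (by linarith) (by linarith))
    have z2 : u (x - 2) = 0 := huz _ (not_mem_Om (Or.inr (by linarith)) (Or.inr (by linarith))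
      (Or.inl (by linarith)))
    have z3 : u (x - 1) = 0 := huz _ (not_mem_Om (Or.inr (by linarith)) (Or.inl (by linarith))
      (Or.inl (by linarith)))
    have z4 : u x = ee x * h x := hum _ (mem2 (by linarith) (by linarith))
    have z5 : u (x + 1) = 0 := huz _ (not_mem_Om (Or.inr (by linarith)) (Or.inr (by linarith))
      (Or.inl (by linarith)))
    have z7 : u (x + 3) = 0 := huz _ (not_mem_Om (Or.inr (by linarith)) (Or.inr (by linarith))
      (Or.inr (by linarith)))
    rw [z0, z2, z3, z4, z5, z7, ee_sub_four] at hS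
    have : ee x * (h x + h (x - 4)) = 0 := by linear_combination hS
    rcases mul_eq_zero.1 this with h' | h'
    · exact absurd h' (ee_ne x)
    · exact eq_neg_of_add_eq_zero_left h'
  · -- (1/5,3/7)
    have z0 : u (x - 4) = 0 := huz _ (not_mem_Om (Or.inr (by linarith)) (Or.inr (by linarith))
      (Or.inr (by linarith)))
    have z2 : u (x - 2) = 0 := huz _ (not_mem_Om (Or.inr (by linarith)) (Or.inr (by linarith))
      (Or.inl (by linarith)))
    have z3 : u (x - 1) = ee (x - 1) * h (x - 1) := hum _ (mem2 (by linarith) (by linarith))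
    have z4 : u x = 0 := huz _ (not_mem_Om (Or.inr (by linarith)) (Or.inl (by linarith))
      (Or.inl (by linarith)))
    have z5 : u (x + 1) = 0 := huz _ (not_mem_Om (Or.inr (by linarith)) (Or.inr (by linarith))
      (Or.inl (by linarith)))
    have z7 : u (x + 3) = ee (x + 3) * h (x + 3) := hum _ (mem3 (by linarith) (by linarith))
    rw [z0, z2, z3, z4, z5, z7, ee_sub_one, ee_add_three] at hS
    have : ee x * (h (x + 3) + h (x - 1)) = 0 := by linear_combination -hS
    rcases mul_eq_zero.1 this with h' | h'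
    · exact absurd h' (ee_ne x)
    · exact eq_neg_of_add_eq_zero_left h'

end Q69Wav
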