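import Pool.Agent.Q69.WavC

/-!
# Completeness of the dyadic system on the Fourier side
-/

open MeasureTheory Set

noncomputable section

namespace Q69Wav

theorem memLp_scale {g : ℝ → ℂ} (hg : MemLp g 2 volume) {a : ℝ} (ha : a ≠ 0) :
    MemLp (fun x => g (a * x)) 2 volume := by
  have h := (memLp_aff ha 0 hg).const_mul (((Real.sqrt |a| : ℝ) : ℂ)⁻¹)
  have h1 : (fun x => (((Real.sqrt |a| : ℝ) : ℂ)⁻¹) * aff a 0 g x) = fun x => g (a * x) := by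
    funext x
    have h2 : ((Real.sqrt |a| : ℝ) : ℂ) ≠ 0 := by
      exact_mod_cast (Real.sqrt_pos.2 (abs_pos.2 ha)).ne'
    simp only [aff, sub_zero]
    field_simp
  rw [h1] at h
  exact h

theorem eq_zero_of_both {z w : ℂ} (h1 : z = w) (h2 : z = - w) : z = 0 ∧ w = 0 := by
  have h3 : w = 0 := by
    have : w = - w := h1 ▸ h2
    have h4 : (2 : ℂ) * w = 0 := by linear_combination this
    rcases mul_eq_zero.1 h4 with h | h
    · norm_num at h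
    · exact h
  exact ⟨by rw [h1, h3], h3⟩

theorem zero_on_pieces {g : ℝ → ℂ} (hg : MemLp g 2 volume)
    (h0 : ∀ n l : ℤ, ∫ x : ℝ, Complex.exp (((2 * Real.pi * (l + 1 / 2) * x : ℝ) : ℂ) * Complex.I) *
      (chi x * g ((2 : ℝ) ^ n * x)) = 0) (n : ℤ) :
    ∀ᵐ x ∂(volume : Measure ℝ),
      ((3 / 7 < x ∧ x < 4 / 7 ∧ x ≠ 1 / 2) ∨ (1 / 7 < x ∧ x < 1 / 5) ∨ (4 / 5 < x ∧ x < 6 / 7)) →
      g ((2 : ℝ) ^ n * x) = 0 ∧ g ((2 : ℝ) ^ n * (x - 1)) = 0 := by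
  have hs : ∀ m : ℤ, MemLp (fun x => g ((2 : ℝ) ^ m * x)) 2 volume := fun m =>
    memLp_scale hg (zpow_ne_zero _ two_ne_zero)
  have p1 := one_scale (hs n) (h0 n)
  have p2 := ae_comp (two_ne_zero (α := ℝ)) 0 (one_scale (hs (n - 1)) (h0 (n - 1)))
  have p3 := ae_comp (two_ne_zero (α := ℝ)) 1 (one_scale (hs (n - 1)) (h0 (n - 1)))
  have p4 := ae_comp (four_ne_zero (α := ℝ)) 0 (one_scale (hs (n - 2)) (h0 (n - 2)))
  have p5 := ae_comp (four_ne_zero (α := ℝ)) 3 (one_scale (hs (n - 2)) (h0 (n - 2)))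
  have r1 : ∀ y : ℝ, (2 : ℝ) ^ (n - 1) * (2 * y) = (2 : ℝ) ^ n * y := by
    intro y
    have : (2 : ℝ) ^ n = (2 : ℝ) ^ (n - 1) * 2 := by
      rw [← zpow_add_one₀ two_ne_zero]; congr 1; ring
    rw [this]; ring
  have r2 : ∀ y : ℝ, (2 : ℝ) ^ (n - 2) * (4 * y) = (2 : ℝ) ^ n * y := by
    intro y
    have : (2 : ℝ) ^ n = (2 : ℝ) ^ (n - 2) * 4 := by
      have h4 : (4 : ℝ) = (2 : ℝ) ^ (2 : ℤ) := by norm_num
      rw [h4, ← zpow_add₀ two_ne_zero]; congr 1; ring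
    rw [this]; ring
  filter_upwards [p1, p2, p3, p4, p5] with x p1 p2 p3 p4 p5 hx
  rcases hx with ⟨c1, c2, c3⟩ | ⟨c1, c2⟩ | ⟨c1, c2⟩
  · have q1 := (p1 ⟨by linarith, by linarith⟩).1 c1 c2
    rcases lt_or_gt_of_ne c3 with c | c
    · have q2 := (p2 ⟨by linarith, by linarith⟩).2.2.2.1 (by linarith) (by linarith)
      have t1 : 2 * x - 0 = 2 * x := by ring
      have t2 : 2 * x - 0 - 2 = 2 * (x - 1) := by ring
      rw [t2, t1, r1, r1] at q2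
      exact eq_zero_of_both q1 q2
    · have q2 := (p3 ⟨by linarith, by linarith⟩).2.2.2.2.1 (by linarith) (by linarith)
      have t1 : 2 * x - 1 + 1 = 2 * x := by ring
      have t2 : 2 * x - 1 - 1 = 2 * (x - 1) := by ring
      rw [t2, t1, r1, r1] at q2
      exact eq_zero_of_both q1 q2
  · have q1 := (p1 ⟨by linarith, by linarith⟩).2.1 c1 c2
    have q2 := (p4 ⟨by linarith, by linarith⟩).2.2.2.2.2.1 (by linarith) (by linarith)
    have t1 : 4 * x - 0 = 4 * x := by ring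
    have t2 : 4 * x - 0 - 4 = 4 * (x - 1) := by ring
    rw [t2, t1, r2, r2] at q2
    exact eq_zero_of_both q1 q2
  · have q1 := (p1 ⟨by linarith, by linarith⟩).2.2.1 c1 c2
    have q2 := (p5 ⟨by linarith, by linarith⟩).2.2.2.2.2.2 (by linarith) (by linarith)
    have t1 : 4 * x - 3 + 3 = 4 * x := by ring
    have t2 : 4 * x - 3 - 1 = 4 * (x - 1) := by ring
    rw [t2, t1, r2, r2] at q2
    exact eq_zero_of_both q1 q2

theorem complete_fourier {g : ℝ → ℂ} (hg : MemLp g 2 volume)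
    (h0 : ∀ n l : ℤ, ∫ x : ℝ, Complex.exp (((2 * Real.pi * (l + 1 / 2) * x : ℝ) : ℂ) * Complex.I) *
      (chi x * g ((2 : ℝ) ^ n * x)) = 0) :
    ∀ᵐ x ∂(volume : Measure ℝ), g x = 0 := by
  have hP : ∀ n : ℤ, (2 : ℝ) ^ (-n) ≠ 0 := fun n => zpow_ne_zero _ two_ne_zero
  have d1 : ∀ᵐ y ∂(volume : Measure ℝ), ∀ n : ℤ,
      ((3 / 7 < (2 : ℝ) ^ (-n) * y ∧ (2 : ℝ) ^ (-n) * y < 4 / 7 ∧ (2 : ℝ) ^ (-n) * y ≠ 1 / 2) ∨
        (1 / 7 < (2 : ℝ) ^ (-n) * y ∧ (2 : ℝ) ^ (-n) * y < 1 / 5) ∨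
        (4 / 5 < (2 : ℝ) ^ (-n) * y ∧ (2 : ℝ) ^ (-n) * y < 6 / 7)) → g y = 0 := by
    rw [ae_all_iff]
    intro n
    filter_upwards [ae_comp (hP n) 0 (zero_on_pieces hg h0 n)] with y hy hh
    have t : (2 : ℝ) ^ n * ((2 : ℝ) ^ (-n) * y - 0) = y := by
      rw [sub_zero, ← mul_assoc, ← zpow_add₀ two_ne_zero]; simp
    rw [t] at hy
    refine (hy ?_).1
    simpa using hh
  have d2 : ∀ᵐ y ∂(volume : Measure ℝ), ∀ n : ℤ,
      ((3 / 7 < (2 : ℝ) ^ (-n) * y + 1 ∧ (2 : ℝ) ^ (-n) * y + 1 < 4 / 7 ∧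
          (2 : ℝ) ^ (-n) * y + 1 ≠ 1 / 2) ∨
        (1 / 7 < (2 : ℝ) ^ (-n) * y + 1 ∧ (2 : ℝ) ^ (-n) * y + 1 < 1 / 5) ∨
        (4 / 5 < (2 : ℝ) ^ (-n) * y + 1 ∧ (2 : ℝ) ^ (-n) * y + 1 < 6 / 7)) → g y = 0 := by
    rw [ae_all_iff]
    intro n
    filter_upwards [ae_comp (hP n) (-1) (zero_on_pieces hg h0 n)] with y hy hh
    have t : (2 : ℝ) ^ n * ((2 : ℝ) ^ (-n) * y - -1 - 1) = y := by
      have : (2 : ℝ) ^ (-n) * y - -1 - 1 = (2 : ℝ) ^ (-n) * y := by ring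
      rw [this, ← mul_assoc, ← zpow_add₀ two_ne_zero]; simp
    rw [t] at hy
    refine (hy ?_).2
    simpa only [sub_neg_eq_add] using hh
  have d3 : ∀ᵐ y ∂(volume : Measure ℝ), ∀ n : ℤ,
      (2 : ℝ) ^ (-n) * y ∉ ({3/7, 4/7, 1/2, 4/5, -(3/7), -(4/7), -(1/2), -(4/5)} : Set ℝ) := by
    rw [ae_all_iff]
    intro n
    have h1 : ∀ᵐ x ∂(volume : Measure ℝ),
        x ∉ ({3/7, 4/7, 1/2, 4/5, -(3/7), -(4/7), -(1/2), -(4/5)} : Set ℝ) :=
      (Set.toFinite _).countable.ae_notMem volume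
    filter_upwards [ae_comp (hP n) 0 h1] with y hy
    simpa only [sub_zero] using hy
  have d4 : ∀ᵐ y ∂(volume : Measure ℝ), y ≠ 0 := by
    have := (Set.countable_singleton (0 : ℝ)).ae_notMem volume
    filter_upwards [this] with y hy
    simpa using hy
  filter_upwards [d1, d2, d3, d4] with y d1 d2 d3 d4
  -- choose the scale
  have hy0 : 0 < |y| := abs_pos.2 d4
  obtain ⟨n, hn1, hn2⟩ := exists_mem_Ico_zpow (x := |y| * (7 / 3)) (y := 2) (by positivity)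
    (by norm_num)
  have hpos : (0 : ℝ) < (2 : ℝ) ^ (-n) := zpow_pos two_pos _
  have e1 : (2 : ℝ) ^ (-n) * (2 : ℝ) ^ n = 1 := by
    rw [← zpow_add₀ two_ne_zero]; simp
  have e2 : (2 : ℝ) ^ (-n) * (2 : ℝ) ^ (n + 1) = 2 := by
    rw [← zpow_add₀ two_ne_zero]; simp
  have f1 : 3 / 7 ≤ (2 : ℝ) ^ (-n) * |y| := by
    have := mul_le_mul_of_nonneg_left hn1 hpos.le
    rw [e1] at this
    linarith
  have f2 : (2 : ℝ) ^ (-n) * |y| < 6 / 7 := by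
    have := mul_lt_mul_of_pos_left hn2 hpos
    rw [e2] at this
    linarith
  have hquarter : (2 : ℝ) ^ (-(n + 2)) * y = ((2 : ℝ) ^ (-n) * y) / 4 := by
    have : (2 : ℝ) ^ (-(n + 2)) = (2 : ℝ) ^ (-n) / 4 := by
      have h4 : (4 : ℝ) = (2 : ℝ) ^ (2 : ℤ) := by norm_num
      rw [h4, ← zpow_sub₀ two_ne_zero]; congr 1; ring
    rw [this]; ring
  have D1 := d1 n
  have D1' := d1 (n + 2)
  have D2 := d2 n
  have D2' := d2 (n + 2)
  rw [hquarter] at D1' D2'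
  have D3 := d3 n
  set x : ℝ := (2 : ℝ) ^ (-n) * y with hx
  simp only [mem_insert_iff, mem_singleton_iff, not_or] at D3
  obtain ⟨k1, k2, k3, k4, k5, k6, k7, k8⟩ := D3
  rcases lt_or_gt_of_ne d4 with hneg | hposy
  · have habs : (2 : ℝ) ^ (-n) * |y| = -x := by rw [abs_of_neg hneg, hx]; ring
    rw [habs] at f1 f2
    rcases lt_or_gt_of_ne k6 with c | c
    · rcases lt_or_gt_of_ne k8 with c' | c'
      · exact D2 (Or.inr (Or.inl ⟨by linarith, by linarith⟩))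
      · exact D2' (Or.inr (Or.inr ⟨by linarith, by linarith⟩))
    · have : x < -(3/7) := lt_of_le_of_ne (by linarith) k5
      exact D2 (Or.inl ⟨by linarith, by linarith, fun h => k7 (by linarith)⟩)
  · have habs : (2 : ℝ) ^ (-n) * |y| = x := by rw [abs_of_pos hposy]
    rw [habs] at f1 f2
    rcases lt_or_gt_of_ne k2 with c | c
    · have : 3/7 < x := lt_of_le_of_ne f1 (Ne.symm k1)
      exact D1 (Or.inl ⟨by linarith, by linarith, k3⟩)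
    · rcases lt_or_gt_of_ne k4 with c' | c'
      · exact D1' (Or.inr (Or.inl ⟨by linarith, by linarith⟩))
      · exact D1 (Or.inr (Or.inr ⟨by linarith, by linarith⟩))

end Q69Wav
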