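import Pool.Agent.Q69.WavC

/-!
# Orthogonality of the dyadic system on the Fourier side
-/

open MeasureTheory Set

noncomputable section

namespace Q69Wav

theorem int_sym {f : ℝ → ℂ} (hf : Continuous f) {a b : ℝ} (ha : 0 ≤ a) (hab : a ≤ b) :
    ∫ x in sym a b, f x = (∫ x in a..b, f x) + ∫ x in (-b)..(-a), f x := by
  have h1 : sym a b = Ioo a b ∪ Ioo (-b) (-a) := by
    ext x
    simp only [sym, mem_setOf_eq, mem_union, mem_Ioo]
    constructor
    · rintro ⟨h1, h2⟩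
      rcases le_total 0 x with hx | hx
      · rw [abs_of_nonneg hx] at h1 h2
        exact Or.inl ⟨h1, h2⟩
      · rw [abs_of_nonpos hx] at h1 h2
        exact Or.inr ⟨by linarith, by linarith⟩
    · rintro (⟨h1, h2⟩ | ⟨h1, h2⟩)
      · rw [abs_of_pos (lt_of_le_of_lt ha h1)]
        exact ⟨h1, h2⟩
      · rw [abs_of_neg (by linarith)]
        exact ⟨by linarith, by linarith⟩
  rw [h1, setIntegral_union]
  · rw [intervalIntegral.integral_of_le hab, intervalIntegral.integral_of_le (by linarith),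
      integral_Ioc_eq_integral_Ioo, integral_Ioc_eq_integral_Ioo]
  · rw [Set.disjoint_left]
    rintro x ⟨h1, h2⟩ ⟨h3, h4⟩
    linarith
  · exact measurableSet_Ioo
  · exact (hf.integrableOn_Icc).mono_set Ioo_subset_Icc_self
  · exact (hf.integrableOn_Icc).mono_set Ioo_subset_Icc_self

theorem integrableOn_sym {f : ℝ → ℂ} (hf : Continuous f) (a b : ℝ) :
    IntegrableOn f (sym a b) volume := by
  refine (hf.integrableOn_Icc (a := -b) (b := b)).mono_set ?_
  rintro x ⟨h1, h2⟩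
  exact ⟨(abs_lt.1 h2).1.le, (abs_lt.1 h2).2.le⟩

theorem disjoint_sym {a b c d : ℝ} (h : b ≤ c) : Disjoint (sym a b) (sym c d) := by
  rw [Set.disjoint_left]
  rintro x ⟨h1, h2⟩ ⟨h3, h4⟩
  linarith

theorem shift_int {f : ℝ → ℂ} {d : ℝ} {ε : ℂ} (h : ∀ x, f (x + d) = ε * f x) (a b : ℝ) :
    ∫ x in (a + d)..(b + d), f x = ε * ∫ x in a..b, f x := by
  rw [← intervalIntegral.integral_comp_add_right, ← intervalIntegral.integral_const_mul]
  exact intervalIntegral.integral_congr fun x _ => h x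

/-- `e^{2π i s x}` -/
def Es (s x : ℝ) : ℂ := Complex.exp (((2 * Real.pi * s * x : ℝ) : ℂ) * Complex.I)

theorem Es_cont (s : ℝ) : Continuous (Es s) := by
  unfold Es; fun_prop

theorem Es_add (s x y : ℝ) : Es s (x + y) = Es s y * Es s x := by
  unfold Es
  rw [← Complex.exp_add]
  congr 1
  push_cast; ring

theorem J0 {j : ℤ} (hj : j ≠ 0) : ∫ x in Om, Es j x = 0 := by
  have hp : ∀ (m : ℤ) (x : ℝ), Es j (x + m) = 1 * Es j x := by
    intro m x
    rw [Es_add]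
    congr 1
    unfold Es
    have : ((2 * Real.pi * (j : ℝ) * (m : ℝ) : ℝ) : ℂ) * Complex.I
        = ((j * m : ℤ) : ℂ) * (2 * Real.pi * Complex.I) := by
      push_cast; ring
    rw [this, Complex.exp_int_mul_two_pi_mul_I]
  have hunit : ∀ a : ℝ, ∫ x in a..(a + 1), Es j x = 0 := by
    intro a
    have hc : (2 * Real.pi * (j : ℂ) * Complex.I) ≠ 0 := by
      have h1 : (Real.pi : ℂ) ≠ 0 := by exact_mod_cast Real.pi_ne_zero
      have h2 : (j : ℂ) ≠ 0 := by exact_mod_cast hj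
      simp [h1, h2]
    have e1 : ∀ x : ℝ, Es j x = Complex.exp ((2 * Real.pi * (j : ℂ) * Complex.I) * x) := by
      intro x
      unfold Es
      congr 1
      push_cast; ring
    have e2 := hp 1 a
    simp only [Int.cast_one, one_mul] at e2
    rw [e1, e1] at e2
    simp_rw [e1]
    rw [integral_exp_mul_complex hc, e2, sub_self, zero_div]
  have ii : ∀ a b : ℝ, IntervalIntegrable (Es j) volume a b :=
    fun a b => (Es_cont j).intervalIntegrable a b
  unfold Om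
  rw [setIntegral_union, setIntegral_union, int_sym (Es_cont _) (by norm_num) (by norm_num),
    int_sym (Es_cont _) (by norm_num) (by norm_num),
    int_sym (Es_cont _) (by norm_num) (by norm_num)]
  · have s1 := shift_int (hp 3) (1 / 5 : ℝ) (3 / 7)
    have s2 := shift_int (hp (-3)) (-(1 / 5) : ℝ) (-(3 / 7))
    have t1 : (1 / 5 : ℝ) + ((3 : ℤ) : ℝ) = 16 / 5 := by norm_num
    have t2 : (3 / 7 : ℝ) + ((3 : ℤ) : ℝ) = 24 / 7 := by norm_num
    have t3 : (-(1 / 5) : ℝ) + ((-3 : ℤ) : ℝ) = -(16 / 5) := by norm_num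
    have t4 : (-(3 / 7) : ℝ) + ((-3 : ℤ) : ℝ) = -(24 / 7) := by norm_num
    rw [t1, t2, one_mul] at s1
    rw [t3, t4, one_mul, intervalIntegral.integral_symm,
      intervalIntegral.integral_symm (-(3 / 7)), neg_inj] at s2
    rw [s1, s2]
    have u1 := intervalIntegral.integral_add_adjacent_intervals (ii (1 / 7) (1 / 5))
      (ii (1 / 5) (3 / 7))
    have u2 := intervalIntegral.integral_add_adjacent_intervals (ii (1 / 7) (3 / 7))
      (ii (3 / 7) (8 / 7))
    have u3 := intervalIntegral.integral_add_adjacent_intervals (ii (-(8 / 7)) (-(3 / 7)))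
      (ii (-(3 / 7)) (-(1 / 5)))
    have u4 := intervalIntegral.integral_add_adjacent_intervals (ii (-(8 / 7)) (-(1 / 5)))
      (ii (-(1 / 5)) (-(1 / 7)))
    have v1 := hunit (1 / 7)
    have v2 := hunit (-(8 / 7))
    have w1 : (1 / 7 : ℝ) + 1 = 8 / 7 := by norm_num
    have w2 : (-(8 / 7) : ℝ) + 1 = -(1 / 7) := by norm_num
    rw [w1, ← u2, ← u1] at v1
    rw [w2, ← u4, ← u3] at v2
    linear_combination v1 + v2
  · exact disjoint_sym (by norm_num)
  · exact measurableSet_sym _ _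
  · exact integrableOn_sym (Es_cont _) _ _
  · exact integrableOn_sym (Es_cont _) _ _
  · exact (disjoint_sym (by norm_num)).union_left (disjoint_sym (by norm_num))
  · exact measurableSet_sym _ _
  · exact (integrableOn_sym (Es_cont _) _ _).union (integrableOn_sym (Es_cont _) _ _)
  · exact integrableOn_sym (Es_cont _) _ _

theorem J1 {s : ℝ} (h : ∀ x, Es s (x + 2) = -1 * Es s x) :
    ∫ x in sym (6 / 7) (8 / 7), Es s x = 0 := by
  rw [int_sym (Es_cont _) (by norm_num) (by norm_num)]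
  have s1 := shift_int h (-(8 / 7) : ℝ) (-(6 / 7))
  have t1 : (-(8 / 7) : ℝ) + 2 = 6 / 7 := by norm_num
  have t2 : (-(6 / 7) : ℝ) + 2 = 8 / 7 := by norm_num
  rw [t1, t2] at s1
  rw [s1]; ring

theorem J2 {s : ℝ} (h : ∀ x, Es s (x + 4) = -1 * Es s x) :
    ∫ x in sym (4 / 7) (4 / 5) ∪ sym (16 / 5) (24 / 7), Es s x = 0 := by
  rw [setIntegral_union, int_sym (Es_cont _) (by norm_num) (by norm_num),
    int_sym (Es_cont _) (by norm_num) (by norm_num)]
  · have s1 := shift_int h (-(24 / 7) : ℝ) (-(16 / 5))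
    have s2 := shift_int h (-(4 / 5) : ℝ) (-(4 / 7))
    have t1 : (-(24 / 7) : ℝ) + 4 = 4 / 7 := by norm_num
    have t2 : (-(16 / 5) : ℝ) + 4 = 4 / 5 := by norm_num
    have t3 : (-(4 / 5) : ℝ) + 4 = 16 / 5 := by norm_num
    have t4 : (-(4 / 7) : ℝ) + 4 = 24 / 7 := by norm_num
    rw [t1, t2] at s1
    rw [t3, t4] at s2
    rw [s1, s2]; ring
  · exact disjoint_sym (by norm_num)
  · exact measurableSet_sym _ _
  · exact integrableOn_sym (Es_cont _) _ _
  · exact integrableOn_sym (Es_cont _) _ _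

theorem abs_div_two_pow (x : ℝ) (k : ℕ) : |x / 2 ^ k| = |x| / 2 ^ k := by
  rw [abs_div, abs_of_pos (by positivity : (0 : ℝ) < 2 ^ k)]

theorem mem_Om_iff {x : ℝ} : x ∈ Om ↔ (1 / 7 < |x| ∧ |x| < 1 / 5) ∨ (3 / 7 < |x| ∧ |x| < 8 / 7) ∨
    (16 / 5 < |x| ∧ |x| < 24 / 7) := by
  simp only [Om, sym, mem_union, mem_setOf_eq, or_assoc]

theorem chichi1 (x : ℝ) : chi x * chi (x / 2 ^ 1) = (sym (6 / 7) (8 / 7)).indicator 1 x := by
  by_cases h : x ∈ sym (6 / 7) (8 / 7)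
  · have h1 : x ∈ Om := mem2 (by linarith [h.1]) h.2
    have h2 : x / 2 ^ 1 ∈ Om := by
      apply mem2 <;> rw [abs_div_two_pow]
      · linarith [h.1]
      · linarith [h.2]
    rw [chi_of_mem h1, chi_of_mem h2]
    simp [h]
  · rw [indicator_of_notMem h]
    by_contra hne
    apply h
    have h1 : x ∈ Om := by
      by_contra hx; exact hne (by rw [chi_of_not_mem hx, zero_mul])
    have h2 : x / 2 ^ 1 ∈ Om := by
      by_contra hx; exact hne (by rw [chi_of_not_mem hx, mul_zero])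
    rw [mem_Om_iff] at h1 h2
    rw [abs_div_two_pow] at h2
    rcases h1 with ⟨a1, a2⟩ | ⟨a1, a2⟩ | ⟨a1, a2⟩ <;> rcases h2 with ⟨b1, b2⟩ | ⟨b1, b2⟩ | ⟨b1, b2⟩ <;>
    first
      | (exfalso; linarith)
      | exact ⟨by linarith, by linarith⟩

theorem chichi2 (x : ℝ) : chi x * chi (x / 2 ^ 2)
    = (sym (4 / 7) (4 / 5) ∪ sym (16 / 5) (24 / 7)).indicator 1 x := by
  by_cases h : x ∈ sym (4 / 7) (4 / 5) ∪ sym (16 / 5) (24 / 7)
  · have h1 : x ∈ Om := by
      rcases h with h | h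
      · exact mem2 (by linarith [h.1]) (by linarith [h.2])
      · exact mem3 h.1 h.2
    have h2 : x / 2 ^ 2 ∈ Om := by
      rcases h with h | h
      · apply mem1 <;> rw [abs_div_two_pow]
        · linarith [h.1]
        · linarith [h.2]
      · apply mem2 <;> rw [abs_div_two_pow]
        · linarith [h.1]
        · linarith [h.2]
    rw [chi_of_mem h1, chi_of_mem h2, indicator_of_mem h]
    simp
  · rw [indicator_of_notMem h]
    by_contra hne
    apply h
    have h1 : x ∈ Om := by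
      by_contra hx; exact hne (by rw [chi_of_not_mem hx, zero_mul])
    have h2 : x / 2 ^ 2 ∈ Om := by
      by_contra hx; exact hne (by rw [chi_of_not_mem hx, mul_zero])
    rw [mem_Om_iff] at h1 h2
    rw [abs_div_two_pow] at h2
    rcases h1 with ⟨a1, a2⟩ | ⟨a1, a2⟩ | ⟨a1, a2⟩ <;> rcases h2 with ⟨b1, b2⟩ | ⟨b1, b2⟩ | ⟨b1, b2⟩ <;>
    first
      | (exfalso; linarith)
      | exact Or.inl ⟨by linarith, by linarith⟩
      | exact Or.inr ⟨by linarith, by linarith⟩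

theorem chichi3 (x : ℝ) {k : ℕ} (hk : 3 ≤ k) : chi x * chi (x / 2 ^ k) = 0 := by
  by_contra hne
  have h1 : x ∈ Om := by
    by_contra hx; exact hne (by rw [chi_of_not_mem hx, zero_mul])
  have h2 : x / 2 ^ k ∈ Om := by
    by_contra hx; exact hne (by rw [chi_of_not_mem hx, mul_zero])
  rw [mem_Om_iff] at h1 h2
  rw [abs_div_two_pow] at h2
  rcases Nat.lt_or_ge k 5 with h | h
  · interval_cases k
    · rcases h1 with ⟨a1, a2⟩ | ⟨a1, a2⟩ | ⟨a1, a2⟩ <;>
        rcases h2 with ⟨b1, b2⟩ | ⟨b1, b2⟩ | ⟨b1, b2⟩ <;> linarith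
    · rcases h1 with ⟨a1, a2⟩ | ⟨a1, a2⟩ | ⟨a1, a2⟩ <;>
        rcases h2 with ⟨b1, b2⟩ | ⟨b1, b2⟩ | ⟨b1, b2⟩ <;> linarith
  · have h32 : (32 : ℝ) ≤ 2 ^ k := by
      calc (32 : ℝ) = 2 ^ 5 := by norm_num
        _ ≤ 2 ^ k := pow_le_pow_right₀ (by norm_num) h
    have hx : |x| < 24 / 7 := by
      rcases h1 with ⟨a1, a2⟩ | ⟨a1, a2⟩ | ⟨a1, a2⟩ <;> linarith
    have hx0 : 0 ≤ |x| := abs_nonneg x
    have hq : 1 / 7 < |x| / 2 ^ k := by
      rcases h2 with ⟨b1, b2⟩ | ⟨b1, b2⟩ | ⟨b1, b2⟩ <;> linarith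
    have hq2 : |x| / 2 ^ k ≤ |x| / 32 := div_le_div_of_nonneg_left hx0 (by norm_num) h32
    linarith

/-- the basic orthogonality integral -/
theorem J_all (l l' : ℤ) (k : ℕ) (h : k = 0 → l ≠ l') :
    ∫ x : ℝ, Es (((l : ℝ) + 1 / 2) - ((l' : ℝ) + 1 / 2) / 2 ^ k) x * (chi x * chi (x / 2 ^ k)) = 0 := by
  have hind : ∀ (A : Set ℝ) (s : ℝ), MeasurableSet A →
      (∫ x : ℝ, Es s x * A.indicator 1 x) = ∫ x in A, Es s x := by
    intro A s hA
    rw [← integral_indicator hA]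
    congr 1
    funext x
    by_cases hx : x ∈ A
    · simp [hx]
    · simp [hx]
  rcases Nat.eq_zero_or_pos k with h0 | hpos
  · subst h0
    have hne : l - l' ≠ 0 := sub_ne_zero.2 (h rfl)
    have e1 : ∀ x : ℝ, Es (((l : ℝ) + 1 / 2) - ((l' : ℝ) + 1 / 2) / 2 ^ 0) x *
        (chi x * chi (x / 2 ^ 0)) = Es ((l - l' : ℤ) : ℝ) x * Om.indicator 1 x := by
      intro x
      have h1 : ((l : ℝ) + 1 / 2) - ((l' : ℝ) + 1 / 2) / 2 ^ 0 = ((l - l' : ℤ) : ℝ) := by
        push_cast; ring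
      rw [h1, pow_zero, div_one]
      congr 1
      by_cases hx : x ∈ Om
      · simp [chi_of_mem hx, hx]
      · simp [chi_of_not_mem hx, hx]
    simp_rw [e1]
    rw [hind _ _ measurableSet_Om]
    exact J0 hne
  · have hE : ∀ x, Es (((l : ℝ) + 1 / 2) - ((l' : ℝ) + 1 / 2) / 2 ^ k) (x + 2 ^ k)
        = -1 * Es (((l : ℝ) + 1 / 2) - ((l' : ℝ) + 1 / 2) / 2 ^ k) x := by
      intro x
      rw [Es_add]
      congr 1
      obtain ⟨j, rfl⟩ : ∃ j, k = j + 1 := ⟨k - 1, by omega⟩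
      unfold Es
      have h2 : (2 : ℝ) ^ (j + 1) ≠ 0 := by positivity
      have : ((2 * Real.pi * (((l : ℝ) + 1 / 2) - ((l' : ℝ) + 1 / 2) / 2 ^ (j + 1)) *
          (2 : ℝ) ^ (j + 1) : ℝ) : ℂ) * Complex.I
          = ((l * 2 ^ (j + 1) + 2 ^ j - l' - 1 : ℤ) : ℂ) * (2 * Real.pi * Complex.I)
            + Real.pi * Complex.I := by
        have h3 : (((l : ℝ) + 1 / 2) - ((l' : ℝ) + 1 / 2) / 2 ^ (j + 1)) * (2 : ℝ) ^ (j + 1)
            = l * 2 ^ (j + 1) + 2 ^ j - l' - 1 / 2 := by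
          rw [sub_mul, div_mul_cancel₀ _ h2, pow_succ]; ring
        rw [mul_assoc (2 * Real.pi), h3]
        push_cast
        ring
      rw [this, Complex.exp_add, Complex.exp_int_mul_two_pi_mul_I, Complex.exp_pi_mul_I]
      ring
    rcases Nat.lt_or_ge k 3 with h3 | h3
    · interval_cases k
      · simp_rw [chichi1]
        rw [hind _ _ (measurableSet_sym _ _)]
        refine J1 ?_
        simpa using hE
      · simp_rw [chichi2]
        rw [hind _ _ ((measurableSet_sym _ _).union (measurableSet_sym _ _))]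
        refine J2 ?_
        have h4 : (2 : ℝ) ^ 2 = 4 := by norm_num
        intro x
        have := hE x
        nth_rewrite 2 [h4] at this
        exact this
    · simp_rw [chichi3 _ h3]
      simp

theorem orth_le (n m l l' : ℤ) (hnm : n ≤ m) (hne : n = m → l ≠ l') :
    ∫ x : ℝ, (starRingEnd ℂ) (mod ((2 : ℝ) ^ n) (l + 1 / 2) chi x) *
      mod ((2 : ℝ) ^ m) (l' + 1 / 2) chi x = 0 := by
  obtain ⟨k, rfl⟩ : ∃ k : ℕ, m = n + k := ⟨(m - n).toNat, by omega⟩
  set F : ℝ → ℂ := fun x => (starRingEnd ℂ) (mod ((2 : ℝ) ^ n) (l + 1 / 2) chi x) *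
      mod ((2 : ℝ) ^ (n + (k : ℤ))) (l' + 1 / 2) chi x with hF
  have h2n : (2 : ℝ) ^ n ≠ 0 := zpow_ne_zero _ two_ne_zero
  have h2k : (2 : ℝ) ^ k ≠ 0 := by positivity
  have e1 := Measure.integral_comp_mul_left F ((2 : ℝ) ^ n)
  have e2 : ∀ x, F ((2 : ℝ) ^ n * x)
      = (((Real.sqrt |((2 : ℝ) ^ n)⁻¹| : ℝ) : ℂ) * ((Real.sqrt |((2 : ℝ) ^ (n + (k : ℤ)))⁻¹| : ℝ) : ℂ)) *
        (Es (((l : ℝ) + 1 / 2) - ((l' : ℝ) + 1 / 2) / 2 ^ k) x * (chi x * chi (x / 2 ^ k))) := by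
    intro x
    simp only [hF, mod, aff, map_mul, Complex.conj_ofReal, sub_zero]
    have c1 : (starRingEnd ℂ) (chi ((((2 : ℝ) ^ n)⁻¹) * ((2 : ℝ) ^ n * x))) = chi x := by
      rw [← mul_assoc, inv_mul_cancel₀ h2n, one_mul]
      by_cases hx : x ∈ Om
      · simp [chi_of_mem hx]
      · simp [chi_of_not_mem hx]
    have c2 : (((2 : ℝ) ^ (n + (k : ℤ)))⁻¹) * ((2 : ℝ) ^ n * x) = x / 2 ^ k := by
      rw [zpow_add₀ two_ne_zero, zpow_natCast]
      field_simp
    have c3 : (starRingEnd ℂ) (Complex.exp (((-2 * Real.pi * (((l : ℝ) + 1 / 2) / (2 : ℝ) ^ n) *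
        ((2 : ℝ) ^ n * x) : ℝ) : ℂ) * Complex.I)) *
        Complex.exp (((-2 * Real.pi * (((l' : ℝ) + 1 / 2) / (2 : ℝ) ^ (n + (k : ℤ))) *
        ((2 : ℝ) ^ n * x) : ℝ) : ℂ) * Complex.I)
        = Es (((l : ℝ) + 1 / 2) - ((l' : ℝ) + 1 / 2) / 2 ^ k) x := by
      rw [← Complex.exp_conj, ← Complex.exp_add]
      unfold Es
      congr 1
      rw [map_mul, Complex.conj_ofReal, Complex.conj_I, mul_neg, ← neg_mul, ← add_mul,
        ← Complex.ofReal_neg, ← Complex.ofReal_add]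
      congr 2
      rw [zpow_add₀ two_ne_zero, zpow_natCast]
      field_simp
      ring
    rw [c1, c2, ← c3]
    ring
  simp_rw [e2] at e1
  rw [integral_const_mul, J_all l l' k (fun hk => hne (by omega)), mul_zero] at e1
  have e3 : |((2 : ℝ) ^ n)⁻¹| ≠ 0 := by
    rw [abs_ne_zero]; exact inv_ne_zero h2n
  have := e1.symm
  rw [smul_eq_zero] at this
  rcases this with h | h
  · exact absurd h e3
  · exact h

theorem orth (n m l l' : ℤ) (hne : n = m → l ≠ l') :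
    ∫ x : ℝ, (starRingEnd ℂ) (mod ((2 : ℝ) ^ n) (l + 1 / 2) chi x) *
      mod ((2 : ℝ) ^ m) (l' + 1 / 2) chi x = 0 := by
  rcases le_total n m with h | h
  · exact orth_le n m l l' h hne
  · have h1 := orth_le m n l' l h (fun hh => (hne hh.symm).symm)
    have h2 : (starRingEnd ℂ) (∫ x : ℝ, (starRingEnd ℂ) (mod ((2 : ℝ) ^ m) (l' + 1 / 2) chi x) *
      mod ((2 : ℝ) ^ n) (l + 1 / 2) chi x) = 0 := by rw [h1, map_zero]
    rw [← integral_conj] at h2
    rw [← h2]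
    congr 1
    funext x
    rw [map_mul, Complex.conj_conj, mul_comm]

end Q69Wav
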