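import Pool.Agent.Q69.WavC

/-!
# `Ω` does not tile `ℝ` multiplicatively
-/

open MeasureTheory Set

noncomputable section

namespace Q69Wav

/-- `x ∈ αΩ` for `x, α > 0` -/
def PP (α x : ℝ) : Prop :=
  (α / 7 < x ∧ x < α / 5) ∨ (3 * α / 7 < x ∧ x < 8 * α / 7) ∨ (16 * α / 5 < x ∧ x < 24 * α / 7)

theorem mem_image_iff {a : ℝ} (ha : a ≠ 0) (x : ℝ) :
    x ∈ (fun y => a * y) '' Om ↔ PP |a| |x| := by
  have ha' : 0 < |a| := abs_pos.2 ha
  have h1 : x ∈ (fun y => a * y) '' Om ↔ x / a ∈ Om := by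
    constructor
    · rintro ⟨y, hy, rfl⟩
      simpa [ha] using hy
    · intro h
      exact ⟨x / a, h, by field_simp⟩
  have e1 : ∀ c : ℝ, c < |x| / |a| ↔ c * |a| < |x| := fun c => lt_div_iff₀ ha'
  have e2 : ∀ c : ℝ, |x| / |a| < c ↔ |x| < c * |a| := fun c => div_lt_iff₀ ha'
  rw [h1]
  unfold Om sym PP
  simp only [mem_union, mem_setOf_eq, abs_div, or_assoc]
  rw [e1, e2, e1, e2, e1, e2]
  have t1 : (1 / 7 : ℝ) * |a| = |a| / 7 := by ring
  have t2 : (1 / 5 : ℝ) * |a| = |a| / 5 := by ring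
  have t3 : (3 / 7 : ℝ) * |a| = 3 * |a| / 7 := by ring
  have t4 : (8 / 7 : ℝ) * |a| = 8 * |a| / 7 := by ring
  have t5 : (16 / 5 : ℝ) * |a| = 16 * |a| / 5 := by ring
  have t6 : (24 / 7 : ℝ) * |a| = 24 * |a| / 7 := by ring
  rw [t1, t2, t3, t4, t5, t6]

theorem exists_good {p : ℝ → Prop} (hp : ∀ᵐ x ∂(volume : Measure ℝ), p x) {u v : ℝ} (h : u < v) :
    ∃ x, u < x ∧ x < v ∧ p x := by
  by_contra hcon
  push Not at hcon
  have h1 : Ioo u v ⊆ {x | ¬ p x} := fun x hx => hcon x hx.1 hx.2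
  have h2 : volume (Ioo u v) = 0 := measure_mono_null h1 (by rwa [ae_iff] at hp)
  rw [Real.volume_Ioo, ENNReal.ofReal_eq_zero] at h2
  linarith

theorem no_tiling {A : Set ℝ} (h0 : (0 : ℝ) ∉ A)
    (hex : ∀ᵐ x ∂(volume : Measure ℝ), ∃ a ∈ A, x ∈ (fun y => a * y) '' Om)
    (huniq : ∀ᵐ x ∂(volume : Measure ℝ), ∀ a ∈ A, ∀ b ∈ A, x ∈ (fun y => a * y) '' Om →
      x ∈ (fun y => b * y) '' Om → a = b) : False := by
  have hne : ∀ a ∈ A, a ≠ 0 := fun a ha h => h0 (h ▸ ha)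
  have hpos : ∀ a ∈ A, 0 < |a| := fun a ha => abs_pos.2 (hne a ha)
  -- two different members cannot overlap in an interval
  have ov : ∀ a ∈ A, ∀ b ∈ A, ∀ u v : ℝ, 0 < u → u < v →
      (∀ x, u < x → x < v → PP |a| x ∧ PP |b| x) → a = b := by
    intro a ha b hb u v hu huv H
    obtain ⟨x, hx1, hx2, hx3⟩ := exists_good huniq huv
    have hx0 : |x| = x := abs_of_pos (by linarith)
    have := H x hx1 hx2
    refine hx3 a ha b hb ?_ ?_
    · rw [mem_image_iff (hne a ha), hx0]; exact this.1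
    · rw [mem_image_iff (hne b hb), hx0]; exact this.2
  -- ratio restriction
  have ratio : ∀ a ∈ A, ∀ b ∈ A, a ≠ b → 8 * |a| ≤ 3 * |b| ∨ 8 * |b| ≤ 3 * |a| := by
    intro a ha b hb hab
    by_contra hcon
    push Not at hcon
    obtain ⟨c1, c2⟩ := hcon
    have p1 := hpos a ha
    have p2 := hpos b hb
    refine hab (ov a ha b hb (max (3 * |a| / 7) (3 * |b| / 7)) (min (8 * |a| / 7) (8 * |b| / 7))
      (lt_max_of_lt_left (by positivity)) ?_ ?_)
    · refine max_lt (lt_min ?_ ?_) (lt_min ?_ ?_) <;> linarith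
    · intro x hx1 hx2
      have q1 := lt_of_le_of_lt (le_max_left _ _) hx1
      have q2 := lt_of_le_of_lt (le_max_right _ _) hx1
      have q3 := lt_of_lt_of_le hx2 (min_le_left _ _)
      have q4 := lt_of_lt_of_le hx2 (min_le_right _ _)
      exact ⟨Or.inr (Or.inl ⟨q1, q3⟩), Or.inr (Or.inl ⟨q2, q4⟩)⟩
  -- some member
  obtain ⟨a0, ha0⟩ : ∃ a, a ∈ A := by
    obtain ⟨x, _, _, a, ha, _⟩ := exists_good hex (zero_lt_one (α := ℝ))
    exact ⟨a, ha⟩
  have hα0 := hpos a0 ha0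
  -- covering of the gap
  have gap : ∀ x, |a0| / 5 < x → x < 3 * |a0| / 7 → (∃ a ∈ A, x ∈ (fun y => a * y) '' Om) →
      ∃ a ∈ A, 16 * |a| / 5 < x ∧ x < 24 * |a| / 7 := by
    rintro x hx1 hx2 ⟨a, ha, hxa⟩
    have hx0 : 0 < x := by linarith
    rw [mem_image_iff (hne a ha), abs_of_pos hx0] at hxa
    have hα := hpos a ha
    have haa : a ≠ a0 := by
      rintro rfl
      rcases hxa with ⟨c1, c2⟩ | ⟨c1, c2⟩ | ⟨c1, c2⟩ <;> linarith
    rcases hxa with ⟨c1, c2⟩ | ⟨c1, c2⟩ | ⟨c1, c2⟩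
    · exfalso
      have hr : 8 * |a0| ≤ 3 * |a| := by
        rcases ratio a ha a0 ha0 haa with h | h
        · linarith
        · exact h
      refine haa (ov a ha a0 ha0 (3 * |a0| / 7) (min (|a| / 5) (8 * |a0| / 7)) (by positivity)
        (lt_min (by linarith) (by linarith)) ?_)
      intro y hy1 hy2
      have q3 := lt_of_lt_of_le hy2 (min_le_left _ _)
      have q4 := lt_of_lt_of_le hy2 (min_le_right _ _)
      exact ⟨Or.inl ⟨by linarith, q3⟩, Or.inr (Or.inl ⟨hy1, q4⟩)⟩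
    · exfalso
      have hr : 8 * |a| ≤ 3 * |a0| := by
        rcases ratio a ha a0 ha0 haa with h | h
        · exact h
        · linarith
      refine haa (ov a ha a0 ha0 (max (3 * |a| / 7) (|a0| / 7)) (|a0| / 5)
        (lt_max_of_lt_left (by positivity)) (max_lt (by linarith) (by linarith)) ?_)
      intro y hy1 hy2
      have q1 := lt_of_le_of_lt (le_max_left _ _) hy1
      have q2 := lt_of_le_of_lt (le_max_right _ _) hy1
      exact ⟨Or.inr (Or.inl ⟨q1, by linarith⟩), Or.inl ⟨q2, hy2⟩⟩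
    · exact ⟨a, ha, c1, c2⟩
  obtain ⟨x1, h1, h2, h3⟩ := exists_good hex (show |a0| / 5 < |a0| / 4 by linarith)
  obtain ⟨x2, k1, k2, k3⟩ := exists_good hex (show 2 * |a0| / 5 < 3 * |a0| / 7 by linarith)
  obtain ⟨a1, ha1, u1, v1⟩ := gap x1 h1 (by linarith) h3
  obtain ⟨a2, ha2, u2, v2⟩ := gap x2 (by linarith) k2 k3
  have p1 := hpos a1 ha1
  have p2 := hpos a2 ha2
  by_cases h : a1 = a2
  · subst h
    linarith
  · rcases ratio a1 ha1 a2 ha2 h with h | h <;> linarith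

/-- the tiling property, as an indicator sum, implies existence and uniqueness a.e. -/
theorem no_tiling_tsum {A : Set ℝ} (h0 : (0 : ℝ) ∉ A)
    (h : ∀ᵐ x ∂(volume : Measure ℝ),
      ∑' a : A, ((fun y => (a : ℝ) * y) '' Om).indicator (fun _ => (1 : ENNReal)) x = 1) :
    False := by
  refine no_tiling h0 ?_ ?_
  · filter_upwards [h] with x hx
    by_contra hcon
    push Not at hcon
    have : ∑' a : A, ((fun y => (a : ℝ) * y) '' Om).indicator (fun _ => (1 : ENNReal)) x = 0 := by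
      rw [ENNReal.tsum_eq_zero]
      intro a
      exact indicator_of_notMem (hcon a a.2) _
    rw [this] at hx
    exact zero_ne_one hx
  · filter_upwards [h] with x hx a ha b hb hxa hxb
    by_contra hab
    have h2 : ∑ c ∈ ({⟨a, ha⟩, ⟨b, hb⟩} : Finset A),
        ((fun y => (c : ℝ) * y) '' Om).indicator (fun _ => (1 : ENNReal)) x ≤ 1 :=
      (ENNReal.sum_le_tsum (f := fun c : A =>
        ((fun y => (c : ℝ) * y) '' Om).indicator (fun _ => (1 : ENNReal)) x) _).trans hx.le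
    rw [Finset.sum_pair (by
      intro hh; exact hab (congrArg Subtype.val hh))] at h2
    rw [indicator_of_mem hxa, indicator_of_mem hxb] at h2
    norm_num at h2

end Q69Wav
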